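import Mathlib

/-!
The weighted Fekete inequality for the values of an integral polynomial on a set of integers.
-/

set_option autoImplicit false

open Polynomial

namespace Pool.Agent.LibER91

/-- The product of the absolute values of `N` non-zero integers is at least `N! / 2^N`. -/
theorem prod_abs_ge (U : Finset ℤ) : 0 ∉ U →
    ((U.card).factorial : ℝ) ≤ 2 ^ U.card * ∏ u ∈ U, |(u : ℝ)| := by
  classical
  refine Finset.induction_on_max_value (fun u : ℤ => |u|) U (by simp) ?_
  intro a s has hmax ih h0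
  rw [Finset.mem_insert, not_or] at h0
  have ih' := ih h0.2
  have ha0 : a ≠ 0 := fun h => h0.1 h.symm
  have hcard : (s.card : ℝ) + 1 ≤ 2 * |(a : ℝ)| := by
    have hsub : insert a s ⊆ (Finset.Icc (-|a|) |a|).erase 0 := by
      intro x hx
      rw [Finset.mem_erase, Finset.mem_Icc]
      rcases Finset.mem_insert.1 hx with h | h
      · subst h
        exact ⟨ha0, abs_le.1 le_rfl⟩
      · refine ⟨fun h' => h0.2 (h' ▸ h), abs_le.1 (hmax x h)⟩
    have h1 := Finset.card_le_card hsub
    rw [Finset.card_insert_of_notMem has, Finset.card_erase_of_mem (by simp), Int.card_Icc] at h1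
    have h2 : 0 < |a| := abs_pos.2 ha0
    have h3 : (s.card : ℤ) + 1 ≤ 2 * |a| := by omega
    have h4 : ((s.card : ℤ) : ℝ) + 1 ≤ 2 * ((|a| : ℤ) : ℝ) := by exact_mod_cast h3
    simpa using h4
  rw [Finset.card_insert_of_notMem has, Finset.prod_insert has, Nat.factorial_succ, pow_succ]
  push_cast
  have hp : 0 ≤ ∏ u ∈ s, |(u : ℝ)| := Finset.prod_nonneg fun _ _ => abs_nonneg _
  calc ((s.card : ℝ) + 1) * (s.card.factorial : ℝ)
      ≤ (2 * |(a : ℝ)|) * (2 ^ s.card * ∏ u ∈ s, |(u : ℝ)|) :=
        mul_le_mul hcard ih' (by positivity) (by positivity)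
    _ = 2 ^ s.card * 2 * (|(a : ℝ)| * ∏ u ∈ s, |(u : ℝ)|) := by ring

/-- The sum of the logarithms of the absolute values of `N` non-zero integers. -/
theorem sum_log_ge (U : Finset ℤ) (h0 : 0 ∉ U) :
    (U.card : ℝ) * Real.log ((U.card : ℝ) / 6) ≤ ∑ u ∈ U, Real.log |(u : ℝ)| := by
  rcases Finset.eq_empty_or_nonempty U with h | h
  · subst h; simp
  have hN : 0 < (U.card : ℝ) := by exact_mod_cast Finset.card_pos.2 h
  have h1 := prod_abs_ge U h0
  have h2 : (U.card : ℝ) ^ U.card / (U.card.factorial : ℝ) ≤ Real.exp (U.card : ℝ) :=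
    Real.pow_div_factorial_le_exp _ hN.le _
  have hf : (0 : ℝ) < (U.card.factorial : ℝ) := by exact_mod_cast Nat.factorial_pos _
  have hpp : 0 < ∏ u ∈ U, |(u : ℝ)| := by
    apply Finset.prod_pos
    intro u hu
    exact abs_pos.2 (by exact_mod_cast fun h' : u = 0 => h0 (h' ▸ hu))
  have h3 : Real.log (∏ u ∈ U, |(u : ℝ)|) = ∑ u ∈ U, Real.log |(u : ℝ)| := by
    rw [Real.log_prod]
    intro u hu
    exact (abs_pos.2 (by exact_mod_cast fun h' : u = 0 => h0 (h' ▸ hu))).ne'
  rw [← h3]
  have h4 : (U.card : ℝ) * Real.log (U.card : ℝ) - Real.log (U.card.factorial : ℝ)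
      ≤ (U.card : ℝ) := by
    have := Real.log_le_log (by positivity) h2
    rw [Real.log_exp, Real.log_div (by positivity) hf.ne', Real.log_pow] at this
    exact this
  have h5 : Real.log (U.card.factorial : ℝ) ≤
      (U.card : ℝ) * Real.log 2 + Real.log (∏ u ∈ U, |(u : ℝ)|) := by
    have := Real.log_le_log hf h1
    rwa [Real.log_mul (by positivity) hpp.ne', Real.log_pow] at this
  have h6 : 1 + Real.log 2 ≤ Real.log 6 := by
    have e1 : (1 : ℝ) = Real.log (Real.exp 1) := (Real.log_exp 1).symm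
    rw [e1, ← Real.log_mul (Real.exp_pos 1).ne' (by norm_num)]
    apply Real.log_le_log (by positivity)
    have := Real.exp_one_lt_d9
    linarith
  rw [Real.log_div hN.ne' (by norm_num)]
  nlinarith

/-- (ARCH) the weighted Fekete inequality. -/
theorem arch (G : ℤ[X]) (S : Finset ℤ) (hn : G.natDegree < S.card)
    (h1 : ∀ t ∈ S, G.eval t ≠ 0) :
    ((S.card : ℝ) - G.natDegree) * (Real.log |(G.leadingCoeff : ℝ)| +
      G.natDegree * Real.log (((S.card : ℝ) - G.natDegree) / 6) - Real.log (G.natDegree + 1)) ≤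
      ∑ t ∈ S, Real.log |((G.eval t : ℤ) : ℝ)| := by
  classical
  obtain ⟨n, hnn⟩ : ∃ n, n = G.natDegree := ⟨_, rfl⟩
  rw [← hnn] at hn ⊢
  have hsn : (0 : ℝ) < (S.card : ℝ) - n := by
    have : (n : ℝ) < S.card := by exact_mod_cast hn
    linarith
  have hS : S.Nonempty := Finset.card_pos.1 (by omega)
  have hG : G ≠ 0 := by
    obtain ⟨t, ht⟩ := hS
    intro h
    exact h1 t ht (by simp [h])
  have hlog : ∀ t ∈ S, 0 ≤ Real.log |((G.eval t : ℤ) : ℝ)| := by
    intro t ht
    apply Real.log_nonneg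
    have := Int.one_le_abs (h1 t ht)
    exact_mod_cast this
  set g : ℤ → ℝ := fun t => Real.log |((G.eval t : ℤ) : ℝ)| with hg
  -- the extremal subset
  set w : Finset ℤ → ℝ := fun T => (∑ i ∈ T, ∑ j ∈ T.erase i, Real.log |((i - j : ℤ) : ℝ)|)
    - 2 * ∑ i ∈ T, g i with hw
  obtain ⟨T, hT, hTmax⟩ := Finset.exists_max_image (S.powersetCard (n + 1)) w
    (Finset.powersetCard_nonempty.2 hn)
  rw [Finset.mem_powersetCard] at hT
  obtain ⟨hTS, hTc⟩ := hT
  -- the expansion of `w`
  have hexp : ∀ (V : Finset ℤ) (t : ℤ), t ∉ V → w (insert t V) = w V +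
      2 * ∑ j ∈ V, Real.log |((t - j : ℤ) : ℝ)| - 2 * g t := by
    intro V t ht
    simp only [hw]
    rw [Finset.sum_insert ht, Finset.sum_insert ht, Finset.erase_insert ht]
    have e1 : ∑ i ∈ V, ∑ j ∈ (insert t V).erase i, Real.log |((i - j : ℤ) : ℝ)| =
        ∑ i ∈ V, (Real.log |((t - i : ℤ) : ℝ)| + ∑ j ∈ V.erase i, Real.log |((i - j : ℤ) : ℝ)|) := by
      apply Finset.sum_congr rfl
      intro i hi
      have hti : t ≠ i := fun h => ht (h ▸ hi)
      rw [Finset.erase_insert_of_ne hti, Finset.sum_insert (by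
        intro h; exact ht (Finset.mem_of_mem_erase h))]
      congr 2
      push_cast
      exact abs_sub_comm _ _
    rw [e1, Finset.sum_add_distrib]
    ring
  -- the comparison
  have hcmp : ∀ i ∈ T, ∀ t ∈ S \ (T.erase i),
      g i - ∑ j ∈ T.erase i, Real.log |((i - j : ℤ) : ℝ)| ≤
      g t - ∑ j ∈ T.erase i, Real.log |((t - j : ℤ) : ℝ)| := by
    intro i hi t ht
    rw [Finset.mem_sdiff] at ht
    have h2 := hexp (T.erase i) i (Finset.notMem_erase i T)
    rw [Finset.insert_erase hi] at h2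
    have h3 := hexp (T.erase i) t ht.2
    have h4 : insert t (T.erase i) ∈ S.powersetCard (n + 1) := by
      rw [Finset.mem_powersetCard]
      constructor
      · intro x hx
        rcases Finset.mem_insert.1 hx with h | h
        · exact h ▸ ht.1
        · exact hTS (Finset.mem_of_mem_erase h)
      · rw [Finset.card_insert_of_notMem ht.2, Finset.card_erase_of_mem hi, hTc]
        omega
    have h5 := hTmax _ h4
    linarith
  -- the sum over `t`
  set Sg : ℝ := ∑ t ∈ S, g t with hSg
  have hsum : ∀ i ∈ T, ((S.card : ℝ) - n) *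
      (g i - ∑ j ∈ T.erase i, Real.log |((i - j : ℤ) : ℝ)|) ≤
      Sg - n * (((S.card : ℝ) - n) * Real.log (((S.card : ℝ) - n) / 6)) := by
    intro i hi
    have hTi : T.erase i ⊆ S := fun x hx => hTS (Finset.mem_of_mem_erase hx)
    have hci : (T.erase i).card = n := by
      rw [Finset.card_erase_of_mem hi, hTc]
      omega
    have hcard : ((S \ (T.erase i)).card : ℝ) = (S.card : ℝ) - n := by
      rw [Finset.card_sdiff_of_subset hTi, hci, Nat.cast_sub hn.le]
    have h2 := Finset.card_nsmul_le_sum (S \ (T.erase i)) (fun t =>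
      g t - ∑ j ∈ T.erase i, Real.log |((t - j : ℤ) : ℝ)|) _ (hcmp i hi)
    rw [nsmul_eq_mul, hcard, Finset.sum_sub_distrib, Finset.sum_comm] at h2
    refine h2.trans ?_
    apply sub_le_sub
    · exact Finset.sum_le_sum_of_subset_of_nonneg Finset.sdiff_subset
        (fun t ht _ => hlog t ht)
    · have h3 := Finset.card_nsmul_le_sum (T.erase i) (fun j =>
        ∑ t ∈ S \ (T.erase i), Real.log |((t - j : ℤ) : ℝ)|)
        (((S.card : ℝ) - n) * Real.log (((S.card : ℝ) - n) / 6)) ?_
      · rw [hci, nsmul_eq_mul] at h3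
        exact h3
      · intro j hj
        have h4 := sum_log_ge ((S \ (T.erase i)).image (fun t => t - j)) (by
          intro h
          obtain ⟨t, ht, h5⟩ := Finset.mem_image.1 h
          rw [Finset.mem_sdiff] at ht
          apply ht.2
          have : t = j := by linarith
          exact this ▸ hj)
        have hinj : Set.InjOn (fun t : ℤ => t - j) ((S \ (T.erase i) : Finset ℤ) : Set ℤ) := by
          intro a _ b _ hab
          simpa using hab
        rw [Finset.card_image_of_injOn hinj, Finset.sum_image hinj, hcard] at h4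
        exact h4
  -- Lagrange interpolation
  set G' : ℝ[X] := G.map (Int.castRingHom ℝ) with hG'
  have hinj0 : Function.Injective (Int.castRingHom ℝ) := (Int.castRingHom ℝ).injective_int
  have hdeg : G'.degree = G.degree := Polynomial.degree_map_eq_of_injective hinj0 G
  have hlc : G'.leadingCoeff = (G.leadingCoeff : ℝ) := by
    rw [hG', Polynomial.leadingCoeff_map_of_injective hinj0]
    simp
  have hlag : (G.leadingCoeff : ℝ) = ∑ i ∈ T, ((G.eval i : ℤ) : ℝ) /
      ∏ j ∈ T.erase i, ((i - j : ℤ) : ℝ) := by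
    have hvs : Set.InjOn (fun i : ℤ => (i : ℝ)) (T : Set ℤ) := by
      intro a _ b _ hab
      have hab' : (a : ℝ) = (b : ℝ) := hab
      exact_mod_cast hab'
    have hP : (T.card : WithBot ℕ) = G'.degree + 1 := by
      rw [hdeg, Polynomial.degree_eq_natDegree hG, hTc, ← hnn]
      norm_cast
    have h2 := Lagrange.leadingCoeff_eq_sum hvs hP
    rw [hlc] at h2
    rw [h2]
    apply Finset.sum_congr rfl
    intro i hi
    have h3 : G'.eval (i : ℝ) = ((G.eval i : ℤ) : ℝ) := by
      rw [hG']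
      simp
    rw [h3]
    congr 1
    apply Finset.prod_congr rfl
    intro j _
    push_cast
    ring
  -- the size of the terms
  set M : ℝ := (Sg - n * (((S.card : ℝ) - n) * Real.log (((S.card : ℝ) - n) / 6))) /
    ((S.card : ℝ) - n) with hM
  have hterm : ∀ i ∈ T, |((G.eval i : ℤ) : ℝ) / ∏ j ∈ T.erase i, ((i - j : ℤ) : ℝ)| ≤
      Real.exp M := by
    intro i hi
    have hne : ((G.eval i : ℤ) : ℝ) ≠ 0 := by exact_mod_cast h1 i (hTS hi)
    have hne2 : ∀ j ∈ T.erase i, |((i - j : ℤ) : ℝ)| ≠ 0 := by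
      intro j hj
      rw [abs_ne_zero]
      have h2 : i - j ≠ 0 := sub_ne_zero.2 (Finset.ne_of_mem_erase hj).symm
      exact_mod_cast h2
    have hpos : 0 < ∏ j ∈ T.erase i, |((i - j : ℤ) : ℝ)| := by
      apply Finset.prod_pos
      intro j hj
      exact lt_of_le_of_ne (abs_nonneg _) (hne2 j hj).symm
    rw [abs_div, Finset.abs_prod]
    have h2 : Real.log (|((G.eval i : ℤ) : ℝ)| / ∏ j ∈ T.erase i, |((i - j : ℤ) : ℝ)|) ≤ M := by
      rw [Real.log_div (abs_ne_zero.2 hne) hpos.ne', Real.log_prod hne2, hM, le_div_iff₀ hsn,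
        mul_comm]
      exact hsum i hi
    have h3 : 0 < |((G.eval i : ℤ) : ℝ)| / ∏ j ∈ T.erase i, |((i - j : ℤ) : ℝ)| :=
      div_pos (abs_pos.2 hne) hpos
    rw [← Real.exp_log h3]
    exact Real.exp_le_exp.2 h2
  have hbound : |(G.leadingCoeff : ℝ)| ≤ (n + 1) * Real.exp M := by
    rw [hlag]
    refine (Finset.abs_sum_le_sum_abs _ _).trans ?_
    have h2 := Finset.sum_le_card_nsmul T _ _ hterm
    rw [hTc, nsmul_eq_mul] at h2
    exact_mod_cast h2
  have hlc0 : 0 < |(G.leadingCoeff : ℝ)| := by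
    rw [abs_pos]
    exact_mod_cast Polynomial.leadingCoeff_ne_zero.2 hG
  have h2 := Real.log_le_log hlc0 hbound
  rw [Real.log_mul (by positivity) (Real.exp_pos M).ne', Real.log_exp] at h2
  have h3 : Real.log |(G.leadingCoeff : ℝ)| - Real.log (n + 1) ≤ M := by linarith
  rw [hM, le_div_iff₀ hsn] at h3
  have h4 : ((S.card : ℝ) - n) * (Real.log |(G.leadingCoeff : ℝ)| +
      n * Real.log (((S.card : ℝ) - n) / 6) - Real.log (n + 1)) =
      (Real.log |(G.leadingCoeff : ℝ)| - Real.log (n + 1)) * ((S.card : ℝ) - n) +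
      n * (((S.card : ℝ) - n) * Real.log (((S.card : ℝ) - n) / 6)) := by ring
  rw [h4]
  linarith

end Pool.Agent.LibER91
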