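import Pool.Agent.LibER91.AR44Energy

/-!
The comparison of the mean over a set with the uniform mean.
-/

set_option autoImplicit false

open ArithmeticFunction

namespace Pool.Agent.LibER91

/-- The number of the elements of a class in a set of small diameter. -/
theorem cls_le (S : Finset ℤ) (l : ℝ) (hl0 : 0 ≤ l)
    (hdist : ∀ t ∈ S, ∀ t' ∈ S, |((t - t' : ℤ) : ℝ)| ≤ l) (q : ℕ) (hq : 0 < q) (c : ℤ) :
    (cls S q c : ℝ) ≤ l / q + 1 := by
  classical
  have hq0 : (0 : ℝ) < q := by exact_mod_cast hq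
  have hqz : (0 : ℤ) < q := by exact_mod_cast hq
  set T := S.filter (fun t => (q : ℤ) ∣ t - c) with hT
  have hcls : (cls S q c : ℝ) = (T.card : ℝ) := by
    unfold cls
    rw [hT]
  rw [hcls]
  rcases Finset.eq_empty_or_nonempty T with h | h
  · rw [h, Finset.card_empty]
    push_cast
    positivity
  obtain ⟨t0, ht0, hmin⟩ := Finset.exists_min_image T (fun t => t) h
  have hmem : ∀ t ∈ T, ∃ k : ℕ, t = t0 + q * k ∧ (k : ℝ) ≤ l / q := by
    intro t ht
    have h1 := (Finset.mem_filter.1 ht).2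
    have h2 := (Finset.mem_filter.1 ht0).2
    have h3 : (q : ℤ) ∣ t - t0 := by
      have : t - t0 = (t - c) - (t0 - c) := by ring
      rw [this]
      exact dvd_sub h1 h2
    obtain ⟨k, hk⟩ := h3
    have h4 : 0 ≤ t - t0 := sub_nonneg.2 (hmin t ht)
    have hk0 : 0 ≤ k := by
      rw [hk] at h4
      exact nonneg_of_mul_nonneg_right h4 hqz
    refine ⟨k.toNat, ?_, ?_⟩
    · rw [Int.toNat_of_nonneg hk0]
      linarith
    · rw [le_div_iff₀ hq0]
      have h5 := hdist t (Finset.mem_filter.1 ht).1 t0 (Finset.mem_filter.1 ht0).1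
      rw [hk, Int.cast_mul, abs_mul] at h5
      have h6 : ((k.toNat : ℕ) : ℝ) = (k : ℝ) := by
        have : ((k.toNat : ℤ) : ℝ) = (k : ℝ) := by rw [Int.toNat_of_nonneg hk0]
        exact_mod_cast this
      rw [h6]
      have h7 : |((q : ℤ) : ℝ)| = q := by simp
      have h8 : (k : ℝ) ≤ |(k : ℝ)| := le_abs_self _
      rw [h7] at h5
      nlinarith
  have hsub : T ⊆ (Finset.range (⌊l / q⌋₊ + 1)).image (fun k : ℕ => t0 + q * (k : ℤ)) := by
    intro t ht
    obtain ⟨k, hk1, hk2⟩ := hmem t ht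
    rw [Finset.mem_image]
    refine ⟨k, ?_, hk1.symm⟩
    rw [Finset.mem_range, Nat.lt_succ_iff]
    exact Nat.le_floor hk2
  have h1 := (Finset.card_le_card hsub).trans Finset.card_image_le
  rw [Finset.card_range] at h1
  have h2 : (T.card : ℝ) ≤ (⌊l / q⌋₊ : ℝ) + 1 := by exact_mod_cast h1
  have h3 : (⌊l / q⌋₊ : ℝ) ≤ l / q := Nat.floor_le (by positivity)
  linarith

/-- (COMPARE), for an abstract family. -/
theorem compare_abs (a : ℕ → ℤ → ℕ) (ha : ∀ (q : ℕ) (c c' : ℤ), (q : ℤ) ∣ c - c' → a q c = a q c')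
    (E : ℝ)
    (hE : ∀ N : ℕ, ∑ q ∈ Finset.Icc 1 N, (vonMangoldt q : ℝ) *
      ∑ c ∈ Finset.range q, (a q c : ℝ) ^ 2 ≤ E)
    (S : Finset ℤ) (l V : ℝ)
    (hV : ∑ q ∈ Finset.Icc 1 S.card, (vonMangoldt q : ℝ) *
      ∑ c ∈ Finset.range q, ((cls S q c : ℝ) - S.card / q) ^ 2 ≤ V)
    (hl0 : 0 ≤ l) (hdist : ∀ t ∈ S, ∀ t' ∈ S, |((t - t' : ℤ) : ℝ)| ≤ l)
    (P N : ℕ) (hP : 1 ≤ P) (hPs : P ≤ S.card) (hPN : P ≤ N) :
    ∑ t ∈ S, ∑ q ∈ Finset.Icc 1 N, (vonMangoldt q : ℝ) * (a q t : ℝ) ≤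
      S.card * ∑ q ∈ Finset.Icc 1 P, (vonMangoldt q : ℝ) *
        ((∑ c ∈ Finset.range q, (a q c : ℝ)) / q) + √V * √E + (l / P + 1) * E := by
  classical
  obtain ⟨s, hs⟩ : ∃ s : ℕ, s = S.card := ⟨_, rfl⟩
  rw [← hs] at hPs hV ⊢
  have hΛ : ∀ q : ℕ, (0 : ℝ) ≤ vonMangoldt q := fun q => vonMangoldt_nonneg
  -- rewrite the left hand side
  have h1 : ∑ t ∈ S, ∑ q ∈ Finset.Icc 1 N, (vonMangoldt q : ℝ) * (a q t : ℝ) =
      ∑ q ∈ Finset.Icc 1 N, (vonMangoldt q : ℝ) *
        ∑ c ∈ Finset.range q, (cls S q c : ℝ) * (a q c : ℝ) := by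
    rw [Finset.sum_comm]
    apply Finset.sum_congr rfl
    intro q hq
    rw [Finset.mem_Icc] at hq
    rw [← Finset.mul_sum, sum_cls S q hq.1 (fun t => (a q t : ℝ)) (by
      intro c c' h
      rw [ha q c c' h])]
  rw [h1]
  have hdisj : Disjoint (Finset.Icc 1 P) (Finset.Ioc P N) := by
    rw [Finset.disjoint_left]
    intro q hq1 hq2
    rw [Finset.mem_Icc] at hq1
    rw [Finset.mem_Ioc] at hq2
    omega
  have hunion : Finset.Icc 1 N = Finset.Icc 1 P ∪ Finset.Ioc P N := by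
    ext q
    rw [Finset.mem_union, Finset.mem_Icc, Finset.mem_Icc, Finset.mem_Ioc]
    omega
  rw [hunion, Finset.sum_union hdisj]
  apply add_le_add
  · -- small moduli
    have h2 : ∀ q ∈ Finset.Icc 1 P, (vonMangoldt q : ℝ) *
        ∑ c ∈ Finset.range q, (cls S q c : ℝ) * (a q c : ℝ) =
        s * ((vonMangoldt q : ℝ) * ((∑ c ∈ Finset.range q, (a q c : ℝ)) / q)) +
        (vonMangoldt q : ℝ) * ∑ c ∈ Finset.range q, ((cls S q c : ℝ) - s / q) * (a q c : ℝ) := by
      intro q hq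
      have h3 : ∑ c ∈ Finset.range q, ((cls S q c : ℝ) - s / q) * (a q c : ℝ) =
          ∑ c ∈ Finset.range q, (cls S q c : ℝ) * (a q c : ℝ) -
          s / q * ∑ c ∈ Finset.range q, (a q c : ℝ) := by
        rw [Finset.mul_sum, ← Finset.sum_sub_distrib]
        apply Finset.sum_congr rfl
        intro c _
        ring
      rw [h3]
      ring
    rw [Finset.sum_congr rfl h2, Finset.sum_add_distrib, ← Finset.mul_sum]
    apply add_le_add le_rfl
    -- Cauchy-Schwarz
    have h4 : ∑ q ∈ Finset.Icc 1 P, (vonMangoldt q : ℝ) *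
        ∑ c ∈ Finset.range q, ((cls S q c : ℝ) - s / q) * (a q c : ℝ) =
        ∑ x ∈ (Finset.Icc 1 P).sigma (fun q => Finset.range q),
          (√(vonMangoldt x.1) * ((cls S x.1 x.2 : ℝ) - s / x.1)) *
          (√(vonMangoldt x.1) * (a x.1 x.2 : ℝ)) := by
      rw [Finset.sum_sigma]
      apply Finset.sum_congr rfl
      intro q _
      rw [Finset.mul_sum]
      apply Finset.sum_congr rfl
      intro c _
      have h5 : √(vonMangoldt q : ℝ) * √(vonMangoldt q : ℝ) = vonMangoldt q :=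
        Real.mul_self_sqrt (hΛ q)
      calc (vonMangoldt q : ℝ) * (((cls S q c : ℝ) - s / q) * (a q c : ℝ))
          = (√(vonMangoldt q : ℝ) * √(vonMangoldt q : ℝ)) *
            (((cls S q c : ℝ) - s / q) * (a q c : ℝ)) := by rw [h5]
        _ = _ := by ring
    have h6 := Real.sum_mul_le_sqrt_mul_sqrt ((Finset.Icc 1 P).sigma (fun q => Finset.range q))
      (fun x => √(vonMangoldt x.1) * ((cls S x.1 x.2 : ℝ) - s / x.1))
      (fun x => √(vonMangoldt x.1) * (a x.1 x.2 : ℝ))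
    rw [h4]
    refine h6.trans ?_
    apply mul_le_mul _ _ (Real.sqrt_nonneg _) (Real.sqrt_nonneg _)
    · apply Real.sqrt_le_sqrt
      refine le_trans (le_of_eq ?_) ((Finset.sum_le_sum_of_subset_of_nonneg (Finset.Icc_subset_Icc
        le_rfl hPs) ?_).trans hV)
      · rw [Finset.sum_sigma]
        apply Finset.sum_congr rfl
        intro q _
        rw [Finset.mul_sum]
        apply Finset.sum_congr rfl
        intro c _
        rw [mul_pow, Real.sq_sqrt (hΛ q)]
      · intro q _ _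
        exact mul_nonneg (hΛ q) (Finset.sum_nonneg fun _ _ => sq_nonneg _)
    · apply Real.sqrt_le_sqrt
      refine le_trans (le_of_eq ?_) (hE P)
      rw [Finset.sum_sigma]
      apply Finset.sum_congr rfl
      intro q _
      rw [Finset.mul_sum]
      apply Finset.sum_congr rfl
      intro c _
      rw [mul_pow, Real.sq_sqrt (hΛ q)]
  · -- large moduli
    have hP0 : (0 : ℝ) < P := by exact_mod_cast hP
    have h2 : ∀ q ∈ Finset.Ioc P N, (vonMangoldt q : ℝ) *
        ∑ c ∈ Finset.range q, (cls S q c : ℝ) * (a q c : ℝ) ≤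
        (l / P + 1) * ((vonMangoldt q : ℝ) * ∑ c ∈ Finset.range q, (a q c : ℝ) ^ 2) := by
      intro q hq
      rw [Finset.mem_Ioc] at hq
      have hq0 : 0 < q := by omega
      have h3 : ∑ c ∈ Finset.range q, (cls S q c : ℝ) * (a q c : ℝ) ≤
          ∑ c ∈ Finset.range q, (l / P + 1) * (a q c : ℝ) ^ 2 := by
        apply Finset.sum_le_sum
        intro c _
        have h4 := cls_le S l hl0 hdist q hq0 c
        have h5 : l / q ≤ l / P := by
          apply div_le_div_of_nonneg_left hl0 hP0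
          exact_mod_cast hq.1.le
        have h6 : (a q c : ℝ) ≤ (a q c : ℝ) ^ 2 := by
          have : a q c ≤ (a q c) ^ 2 := Nat.le_self_pow (by norm_num) _
          exact_mod_cast this
        apply mul_le_mul (by linarith) h6 (Nat.cast_nonneg _) (by positivity)
      rw [← Finset.mul_sum] at h3
      calc _ ≤ (vonMangoldt q : ℝ) * ((l / P + 1) * ∑ c ∈ Finset.range q, (a q c : ℝ) ^ 2) :=
            mul_le_mul_of_nonneg_left h3 (hΛ q)
        _ = _ := by ring
    refine (Finset.sum_le_sum h2).trans ?_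
    rw [← Finset.mul_sum]
    apply mul_le_mul_of_nonneg_left _ (by positivity)
    refine (Finset.sum_le_sum_of_subset_of_nonneg (t := Finset.Icc 1 N) ?_ ?_).trans (hE N)
    · intro q hq
      rw [Finset.mem_Ioc] at hq
      rw [Finset.mem_Icc]
      omega
    · intro q _ _
      exact mul_nonneg (hΛ q) (Finset.sum_nonneg fun _ _ => sq_nonneg _)

end Pool.Agent.LibER91
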