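import Pool.Agent.LibER91.Defs
import Pool.Agent.LibMaier.Mertens1

/-!
The energy of a set of integers in the residue classes, and the comparison of the mean over a
set with the uniform mean.
-/

set_option autoImplicit false

open ArithmeticFunction

namespace Pool.Agent.LibER91

theorem sum_cls (S : Finset ℤ) (q : ℕ) (hq : 0 < q) (f : ℤ → ℝ)
    (hf : ∀ c c' : ℤ, (q : ℤ) ∣ c - c' → f c = f c') :
    ∑ t ∈ S, f t = ∑ c ∈ Finset.range q, (cls S q c : ℝ) * f c := by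
  classical
  have hq' : (0 : ℤ) < q := by exact_mod_cast hq
  have hmaps : ∀ t ∈ S, (t % (q : ℤ)).toNat ∈ Finset.range q := by
    intro t _
    rw [Finset.mem_range]
    have h1 := Int.emod_nonneg t hq'.ne'
    have h2 := Int.emod_lt_of_pos t hq'
    omega
  rw [← Finset.sum_fiberwise_of_maps_to hmaps]
  apply Finset.sum_congr rfl
  intro c hc
  rw [Finset.mem_range] at hc
  have hfil : S.filter (fun t => (t % (q : ℤ)).toNat = c) =
      S.filter (fun t => (q : ℤ) ∣ t - (c : ℤ)) := by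
    apply Finset.filter_congr
    intro t _
    have h1 := Int.emod_nonneg t hq'.ne'
    have h2 := Int.emod_lt_of_pos t hq'
    have h3 : ((c : ℕ) : ℤ) % (q : ℤ) = c := by
      apply Int.emod_eq_of_lt (by omega)
      exact_mod_cast hc
    constructor
    · intro h
      have h4 : t % (q : ℤ) = c := by omega
      exact Int.ModEq.dvd (show (c : ℤ) % q = t % q by rw [h3, h4])
    · intro h
      have h4 : (c : ℤ) % q = t % q := (Int.modEq_iff_dvd.2 h)
      rw [h3] at h4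
      omega
  rw [hfil]
  have hcls : (cls S q (c : ℤ) : ℝ) = ((S.filter (fun t => (q : ℤ) ∣ t - (c : ℤ))).card : ℝ) := by
    unfold cls
    congr
  rw [hcls, ← nsmul_eq_mul]
  apply Finset.sum_eq_card_nsmul
  intro t ht
  exact hf _ _ (Finset.mem_filter.1 ht).2

theorem cls_congr (S : Finset ℤ) (q : ℕ) (c c' : ℤ) (h : (q : ℤ) ∣ c - c') :
    cls S q c = cls S q c' := by
  classical
  unfold cls
  congr 1
  apply Finset.filter_congr
  intro t _
  constructor
  · intro h1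
    have : t - c' = (t - c) + (c - c') := by ring
    rw [this]
    exact dvd_add h1 h
  · intro h1
    have : t - c = (t - c') - (c - c') := by ring
    rw [this]
    exact dvd_sub h1 h

theorem cls_eq_sum (S : Finset ℤ) (q : ℕ) (c : ℤ) [DecidablePred fun t : ℤ => (q : ℤ) ∣ t - c] :
    (cls S q c : ℝ) = ∑ t ∈ S, if (q : ℤ) ∣ t - c then (1 : ℝ) else 0 := by
  unfold cls
  rw [Finset.sum_boole]
  congr

/-- The sum over the classes of the squares, as a sum over pairs. -/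
theorem sum_cls_sq (S : Finset ℤ) (q : ℕ) (hq : 0 < q)
    [∀ c : ℤ, DecidablePred fun t : ℤ => (q : ℤ) ∣ t - c] :
    ∑ c ∈ Finset.range q, (cls S q c : ℝ) ^ 2 =
      ∑ t ∈ S, ∑ t' ∈ S, if (q : ℤ) ∣ t' - t then (1 : ℝ) else 0 := by
  have h1 := sum_cls S q hq (fun t => (cls S q t : ℝ)) (by
    intro c c' h
    rw [cls_congr S q c c' h])
  calc ∑ c ∈ Finset.range q, (cls S q c : ℝ) ^ 2
      = ∑ c ∈ Finset.range q, (cls S q c : ℝ) * (cls S q (c : ℤ) : ℝ) := by
        apply Finset.sum_congr rfl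
        intro c _
        ring
    _ = ∑ t ∈ S, (cls S q t : ℝ) := h1.symm
    _ = _ := by
        apply Finset.sum_congr rfl
        intro t _
        rw [cls_eq_sum]

theorem sum_mangoldt_dvd (N : ℕ) (u : ℤ) (hu : u ≠ 0) :
    ∑ q ∈ Finset.Icc 1 N, (vonMangoldt q : ℝ) * (if (q : ℤ) ∣ u then (1 : ℝ) else 0) ≤
      Real.log |(u : ℝ)| := by
  classical
  have h1 : ∑ q ∈ Finset.Icc 1 N, (vonMangoldt q : ℝ) * (if (q : ℤ) ∣ u then (1 : ℝ) else 0) =
      ∑ q ∈ (Finset.Icc 1 N).filter (fun q : ℕ => (q : ℤ) ∣ u), (vonMangoldt q : ℝ) := by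
    rw [Finset.sum_filter]
    apply Finset.sum_congr rfl
    intro q _
    split_ifs <;> simp
  rw [h1]
  have h2 : (Finset.Icc 1 N).filter (fun q : ℕ => (q : ℤ) ∣ u) ⊆ u.natAbs.divisors := by
    intro q hq
    rw [Finset.mem_filter] at hq
    rw [Nat.mem_divisors]
    exact ⟨Int.natCast_dvd.1 hq.2, Int.natAbs_ne_zero.2 hu⟩
  calc ∑ q ∈ (Finset.Icc 1 N).filter (fun q : ℕ => (q : ℤ) ∣ u), (vonMangoldt q : ℝ)
      ≤ ∑ q ∈ u.natAbs.divisors, (vonMangoldt q : ℝ) :=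
        Finset.sum_le_sum_of_subset_of_nonneg h2 (fun _ _ _ => vonMangoldt_nonneg)
    _ = Real.log (u.natAbs : ℝ) := vonMangoldt_sum
    _ = Real.log |(u : ℝ)| := by
        congr 1
        rw [Nat.cast_natAbs]
        simp

theorem psi_bound (N : ℕ) : ∑ q ∈ Finset.Icc 1 N, (vonMangoldt q : ℝ) ≤ (Real.log 4 + 4) * N := by
  have h1 := Chebyshev.psi_le_const_mul_self (x := (N : ℝ)) (Nat.cast_nonneg _)
  rw [Chebyshev.psi, Nat.floor_natCast] at h1
  have h2 : Finset.Ioc 0 N = Finset.Icc 1 N := by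
    ext q
    rw [Finset.mem_Ioc, Finset.mem_Icc]
    omega
  rw [h2] at h1
  exact h1

/-- The lower bound of Mertens. -/
theorem mertens_lower : ∃ K : ℝ, 0 < K ∧ ∀ N : ℕ, 1 ≤ N →
    Real.log N - K ≤ ∑ q ∈ Finset.Icc 1 N, (vonMangoldt q : ℝ) / q := by
  obtain ⟨K, hK, h⟩ := Pool.Agent.LibMaier.mertens_first
  refine ⟨K, hK, fun N hN => ?_⟩
  have h1 := h N (by exact_mod_cast hN)
  rw [Nat.floor_natCast] at h1
  have h2 := (abs_le.1 h1).1
  have h3 : Pool.Agent.LibMaier.TN N ≤ ∑ q ∈ Finset.Icc 1 N, (vonMangoldt q : ℝ) / q := by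
    unfold Pool.Agent.LibMaier.TN
    have hsub : Pool.Agent.LibMaier.PN N ⊆ Finset.Icc 1 N := by
      intro p hp
      rw [Pool.Agent.LibMaier.mem_PN] at hp
      rw [Finset.mem_Icc]
      exact ⟨hp.2.pos, hp.1⟩
    calc ∑ p ∈ Pool.Agent.LibMaier.PN N, Real.log p / p
        = ∑ p ∈ Pool.Agent.LibMaier.PN N, (vonMangoldt p : ℝ) / p := by
          apply Finset.sum_congr rfl
          intro p hp
          rw [Pool.Agent.LibMaier.mem_PN] at hp
          rw [vonMangoldt_apply_prime hp.2]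
      _ ≤ _ := Finset.sum_le_sum_of_subset_of_nonneg hsub
          (fun _ _ _ => div_nonneg vonMangoldt_nonneg (Nat.cast_nonneg _))
  linarith

/-- (S-ENERGY). -/
theorem s_energy : ∃ C0 : ℝ, 0 ≤ C0 ∧ ∀ (S : Finset ℤ) (l : ℝ), 1 ≤ S.card → (S.card : ℝ) ≤ l →
    (∀ t ∈ S, ∀ t' ∈ S, |((t - t' : ℤ) : ℝ)| ≤ l) →
    ∑ q ∈ Finset.Icc 1 S.card, (vonMangoldt q : ℝ) *
      ∑ c ∈ Finset.range q, ((cls S q c : ℝ) - S.card / q) ^ 2 ≤
      (S.card : ℝ) ^ 2 * (Real.log (l / S.card) + C0) := by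
  classical
  obtain ⟨K, hK, hmer⟩ := mertens_lower
  refine ⟨Real.log 4 + 4 + K, by positivity, ?_⟩
  intro S l hS hl hdist
  obtain ⟨s, hs⟩ : ∃ s : ℕ, s = S.card := ⟨_, rfl⟩
  rw [← hs] at hS hl ⊢
  have hs0 : (0 : ℝ) < s := by exact_mod_cast hS
  have hs1 : (1 : ℝ) ≤ s := by exact_mod_cast hS
  have hlpos : 0 < l := by linarith
  have hlog : 0 ≤ Real.log l := Real.log_nonneg (by linarith)
  -- the expansion
  have hexp : ∀ q ∈ Finset.Icc 1 s, ∑ c ∈ Finset.range q, ((cls S q c : ℝ) - s / q) ^ 2 =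
      (∑ t ∈ S, ∑ t' ∈ S, if (q : ℤ) ∣ t' - t then (1 : ℝ) else 0) - (s : ℝ) ^ 2 / q := by
    intro q hq
    rw [Finset.mem_Icc] at hq
    have hq0 : (0 : ℝ) < q := by exact_mod_cast hq.1
    have h1 := sum_cls S q hq.1 (fun _ => (1 : ℝ)) (fun _ _ _ => rfl)
    simp only [mul_one, Finset.sum_const, nsmul_eq_mul] at h1
    rw [← hs] at h1
    rw [← sum_cls_sq S q hq.1]
    have h2 : ∀ c ∈ Finset.range q, ((cls S q c : ℝ) - s / q) ^ 2 =
        (cls S q c : ℝ) ^ 2 - 2 * (s / q) * (cls S q c : ℝ) + (s / q) ^ 2 := by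
      intro c _
      ring
    rw [Finset.sum_congr rfl h2, Finset.sum_add_distrib, Finset.sum_sub_distrib, ← Finset.mul_sum,
      ← h1, Finset.sum_const, Finset.card_range, nsmul_eq_mul]
    field_simp
    ring
  rw [Finset.sum_congr rfl (fun q hq => by rw [hexp q hq])]
  -- the pairs
  have hpairs : ∑ q ∈ Finset.Icc 1 s, (vonMangoldt q : ℝ) *
      (∑ t ∈ S, ∑ t' ∈ S, if (q : ℤ) ∣ t' - t then (1 : ℝ) else 0) ≤
      (s : ℝ) ^ 2 * (Real.log l + (Real.log 4 + 4)) := by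
    have h1 : ∑ q ∈ Finset.Icc 1 s, (vonMangoldt q : ℝ) *
        (∑ t ∈ S, ∑ t' ∈ S, if (q : ℤ) ∣ t' - t then (1 : ℝ) else 0) =
        ∑ t ∈ S, ∑ t' ∈ S, ∑ q ∈ Finset.Icc 1 s, (vonMangoldt q : ℝ) *
          (if (q : ℤ) ∣ t' - t then (1 : ℝ) else 0) := by
      simp_rw [Finset.mul_sum]
      rw [Finset.sum_comm]
      apply Finset.sum_congr rfl
      intro t _
      rw [Finset.sum_comm]
    rw [h1]
    have h2 : ∀ t ∈ S, ∀ t' ∈ S, ∑ q ∈ Finset.Icc 1 s, (vonMangoldt q : ℝ) *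
          (if (q : ℤ) ∣ t' - t then (1 : ℝ) else 0) ≤
        Real.log l + (if t' = t then (Real.log 4 + 4) * s else 0) := by
      intro t ht t' ht'
      by_cases h : t' = t
      · subst h
        simp only [sub_self, dvd_zero, if_true, mul_one]
        have := psi_bound s
        linarith
      · rw [if_neg h, add_zero]
        refine (sum_mangoldt_dvd s (t' - t) (sub_ne_zero.2 h)).trans ?_
        apply Real.log_le_log
        · rw [abs_pos]
          exact_mod_cast sub_ne_zero.2 h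
        · exact hdist t' ht' t ht
    calc ∑ t ∈ S, ∑ t' ∈ S, ∑ q ∈ Finset.Icc 1 s, (vonMangoldt q : ℝ) *
          (if (q : ℤ) ∣ t' - t then (1 : ℝ) else 0)
        ≤ ∑ t ∈ S, ∑ t' ∈ S, (Real.log l + (if t' = t then (Real.log 4 + 4) * s else 0)) :=
          Finset.sum_le_sum fun t ht => Finset.sum_le_sum fun t' ht' => h2 t ht t' ht'
      _ = ∑ t ∈ S, ((s : ℝ) * Real.log l + (Real.log 4 + 4) * s) := by
          apply Finset.sum_congr rfl
          intro t ht
          rw [Finset.sum_add_distrib, Finset.sum_const, ← hs, nsmul_eq_mul,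
            Finset.sum_ite_eq' S t, if_pos ht]
      _ = _ := by
          rw [Finset.sum_const, ← hs, nsmul_eq_mul]
          ring
  have hmer' := hmer s hS
  have hsplit : ∑ q ∈ Finset.Icc 1 s, (vonMangoldt q : ℝ) *
      ((∑ t ∈ S, ∑ t' ∈ S, if (q : ℤ) ∣ t' - t then (1 : ℝ) else 0) - (s : ℝ) ^ 2 / q) =
      ∑ q ∈ Finset.Icc 1 s, (vonMangoldt q : ℝ) *
      (∑ t ∈ S, ∑ t' ∈ S, if (q : ℤ) ∣ t' - t then (1 : ℝ) else 0) -
      (s : ℝ) ^ 2 * ∑ q ∈ Finset.Icc 1 s, (vonMangoldt q : ℝ) / q := by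
    rw [Finset.mul_sum, ← Finset.sum_sub_distrib]
    apply Finset.sum_congr rfl
    intro q _
    ring
  rw [hsplit, Real.log_div hlpos.ne' hs0.ne']
  have h3 : (s : ℝ) ^ 2 * (Real.log s - K) ≤
      (s : ℝ) ^ 2 * ∑ q ∈ Finset.Icc 1 s, (vonMangoldt q : ℝ) / q :=
    mul_le_mul_of_nonneg_left hmer' (by positivity)
  nlinarith

end Pool.Agent.LibER91
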