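import Pool.Agent.LibER91.N1
import Pool.Agent.LibHLP.Box

/-!
Row B1 (MEDIUM/STRONG): a small integral combination of `2 m` real polynomials (box principle on the Taylor
coefficients). Template: the counting part of `LibHLP/AuxPairU.lean`. Box principle: `Pool.Agent.LibHLP.box_principle`.
-/

set_option autoImplicit false

open Polynomial

namespace Pool.Agent.LibER91

private theorem B1_sum0 (n : ℕ) (Y β : ℝ) (y : ℕ → ℝ) (hy : ∀ i < n, y i ≤ Y - i * β) :
    ∑ i ∈ Finset.range n, y i ≤ n * Y - β * n * (n - 1) / 2 := by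
  induction n with
  | zero => simp
  | succ n ih =>
    rw [Finset.sum_range_succ]
    have h1 := ih (fun i hi => hy i (by omega))
    have h2 := hy n (by omega)
    push_cast
    linarith

private theorem B1_sum (n : ℕ) (Y β : ℝ) (hβ : 0 < β) (hY : 0 ≤ Y) (y : ℕ → ℝ)
    (hy : ∀ i < n, y i ≤ Y - i * β) :
    ∑ i ∈ Finset.range n, y i ≤ Y ^ 2 / (2 * β) + Y := by
  rcases Nat.eq_zero_or_pos n with h0 | h0
  · subst h0
    simp only [Finset.range_zero, Finset.sum_empty]
    positivity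
  · have h1 := B1_sum0 n Y β y hy
    have h2 : (1 : ℝ) ≤ n := by exact_mod_cast h0
    have h3 : Y ^ 2 / (2 * β) = Y * (Y / β) - β * (Y / β) ^ 2 / 2 := by
      field_simp
      ring
    have h4 : (n : ℝ) * Y - β * n * (n - 1) / 2 ≤ Y ^ 2 / (2 * β) + Y := by
      rw [h3]
      have h5 : Y = β * (Y / β) := by field_simp
      set s := Y / β with hs
      have h6 : β * (((n : ℝ) - 1 - s) ^ 2) ≥ 0 := by positivity
      have h7 : 0 ≤ β * ((n : ℝ) - 1) := by
        apply mul_nonneg hβ.le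
        linarith
      rw [h5]
      nlinarith
    exact h1.trans h4

/-- The sum of the logarithms of the sizes of the cells. -/
private theorem B1_total (m J : ℕ) (β A B c Y : ℝ) (hβ : 0 < β) (hc : 0 ≤ A)
    (hY : Y = max 0 (B - m * β)) (x : ℕ → ℝ)
    (h1 : ∀ j < J, x j ≤ A) (h2 : ∀ j < J, x j ≤ B - j * β) (hcc : c = m * A + (Y ^ 2 / (2 * β) + Y)) :
    ∑ j ∈ Finset.range J, x j ≤ c := by
  have hY0 : 0 ≤ Y := by rw [hY]; exact le_max_left _ _
  rw [hcc]
  rcases le_total J m with h | h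
  · have h3 : ∑ j ∈ Finset.range J, x j ≤ ∑ _j ∈ Finset.range J, A :=
      Finset.sum_le_sum fun j hj => h1 j (Finset.mem_range.1 hj)
    rw [Finset.sum_const, Finset.card_range, nsmul_eq_mul] at h3
    have h4 : (J : ℝ) * A ≤ m * A := by
      apply mul_le_mul_of_nonneg_right _ hc
      exact_mod_cast h
    have h5 : 0 ≤ Y ^ 2 / (2 * β) + Y := by positivity
    linarith
  · obtain ⟨n, rfl⟩ := Nat.exists_eq_add_of_le h
    rw [Finset.sum_range_add]
    have h3 : ∑ j ∈ Finset.range m, x j ≤ ∑ _j ∈ Finset.range m, A :=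
      Finset.sum_le_sum fun j hj => h1 j (by have := Finset.mem_range.1 hj; omega)
    rw [Finset.sum_const, Finset.card_range, nsmul_eq_mul] at h3
    have h4 : ∑ i ∈ Finset.range n, x (m + i) ≤ Y ^ 2 / (2 * β) + Y := by
      apply B1_sum n Y β hβ hY0
      intro i hi
      have h5 := h2 (m + i) (by omega)
      have h6 : B - m * β ≤ Y := by rw [hY]; exact le_max_right _ _
      push_cast at h5
      linarith
    linarith

theorem box_poly {ι : Type} [Fintype ι] (h : ι → ℝ[X]) (m : ℕ) (hm : 1 ≤ m)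
    (hcard : Fintype.card ι = 2 * m) (ρ M1 M2 η a κ : ℝ) (hρ0 : 0 < ρ) (hρ1 : ρ < 1) (hM1 : 1 ≤ M1)
    (hM2 : 1 ≤ M2) (hη0 : 0 < η) (hη1 : η ≤ 1) (ha : 0 ≤ a) (h1 : ∀ i, nr ρ (h i) ≤ M1)
    (h2 : ∀ i, nr 1 (h i) ≤ M2)
    (hκ : 16 * m * ((a + Real.log (4 * m * M2 / η)) / (-Real.log ρ) + 2) / η ≤ Real.exp κ)
    (hY : m * (κ + Real.log M1) +
      max 0 (a + κ + Real.log M2 - m * (-Real.log ρ)) ^ 2 / (2 * (-Real.log ρ)) +
      max 0 (a + κ + Real.log M2 - m * (-Real.log ρ)) < m * a) :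
    ∃ w : ι → ℤ, w ≠ 0 ∧ (∀ i, |(w i : ℝ)| ≤ Real.exp a) ∧
      nr ρ (∑ i, C (w i : ℝ) * h i) ≤ η := by
  classical
  obtain ⟨β, hβdef⟩ : ∃ β : ℝ, β = -Real.log ρ := ⟨_, rfl⟩
  rw [← hβdef] at hκ hY
  have hβ : 0 < β := by
    rw [hβdef]
    linarith [Real.log_neg hρ0 hρ1]
  have hρe : ρ = Real.exp (-β) := by rw [hβdef, neg_neg, Real.exp_log hρ0]
  have hρpow : ∀ j : ℕ, ρ ^ j = Real.exp (-(j * β)) := by
    intro j
    rw [hρe, ← Real.exp_nat_mul]
    congr 1
    ring
  have hmR : (1 : ℝ) ≤ m := by exact_mod_cast hm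
  obtain ⟨Λ, hΛ⟩ : ∃ Λ : ℝ, Λ = Real.log (4 * m * M2 / η) := ⟨_, rfl⟩
  rw [← hΛ] at hκ
  have h4 : (4 : ℝ) ≤ 4 * m * M2 / η := by
    rw [le_div_iff₀ hη0]
    nlinarith
  have hΛe : Real.exp Λ = 4 * m * M2 / η := by
    rw [hΛ, Real.exp_log (by linarith)]
  have hΛ0 : 0 < Λ := by
    rw [hΛ]
    exact Real.log_pos (by linarith)
  obtain ⟨J, hJdef⟩ : ∃ J : ℕ, J = ⌈(a + Λ) / β⌉₊ := ⟨_, rfl⟩
  have haΛ : 0 < (a + Λ) / β := by positivity
  have hJ0 : 0 < J := by
    rw [hJdef]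
    exact Nat.ceil_pos.2 haΛ
  have hJR : (1 : ℝ) ≤ J := by exact_mod_cast hJ0
  have hJ1 : a + Λ ≤ J * β := by
    have := Nat.le_ceil ((a + Λ) / β)
    rw [← hJdef, div_le_iff₀ hβ] at this
    exact this
  have hJ2 : (J : ℝ) < (a + Λ) / β + 1 := by
    rw [hJdef]
    exact Nat.ceil_lt_add_one haΛ.le
  have hJ3 : ((J : ℝ) - 1) * β < a + Λ := by
    have : (J : ℝ) - 1 < (a + Λ) / β := by linarith
    rwa [lt_div_iff₀ hβ] at this
  have hW1 : 1 ≤ Real.exp a := Real.one_le_exp ha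
  have hκJ : 8 * m * J / η ≤ Real.exp κ := by
    refine le_trans ?_ hκ
    apply div_le_div_of_nonneg_right _ hη0.le
    nlinarith
  -- tail
  have htail : 2 * m * Real.exp a * M2 * ρ ^ J ≤ η / 2 := by
    rw [hρpow]
    have e1 : Real.exp (-(J * β)) ≤ Real.exp (-(a + Λ)) := Real.exp_le_exp.2 (by linarith)
    have e2 : Real.exp (-(a + Λ)) * (Real.exp a * (4 * m * M2 / η)) = 1 := by
      rw [← hΛe, ← Real.exp_add, ← Real.exp_add]
      simp
    calc 2 * m * Real.exp a * M2 * Real.exp (-(J * β))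
        ≤ 2 * m * Real.exp a * M2 * Real.exp (-(a + Λ)) := by gcongr
      _ = (Real.exp (-(a + Λ)) * (Real.exp a * (4 * m * M2 / η))) * (η / 2) := by
          field_simp
          ring
      _ = η / 2 := by rw [e2, one_mul]
  -- the data
  let mn : ℕ → ℝ := fun j => min M1 (M2 * ρ ^ j)
  have hmn0 : ∀ j, 0 < mn j := fun j => lt_min (by linarith) (by positivity)
  let Mf : Fin J → ι → ℝ := fun j i => (h i).coeff j
  let H : ι → ℕ := fun _ => ⌊Real.exp a⌋₊
  let Wj : Fin J → ℝ := fun j => 2 * m * Real.exp a * mn j / ρ ^ (j : ℕ)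
  let ω : Fin J → ℝ := fun j => η / (2 * J) / ρ ^ (j : ℕ)
  have hω : ∀ j, 0 < ω j := fun j => by
    change 0 < η / (2 * J) / ρ ^ (j : ℕ)
    positivity
  have hHf : ((⌊Real.exp a⌋₊ : ℕ) : ℝ) ≤ Real.exp a := Nat.floor_le (by positivity)
  have hco : ∀ (j : ℕ) (i : ι), |(h i).coeff j| ≤ mn j / ρ ^ j := by
    intro j i
    rw [le_div_iff₀ (by positivity)]
    refine le_min ((abs_coeff_le ρ hρ0.le (h i) j).trans (h1 i)) ?_
    have e1 := (abs_coeff_le 1 zero_le_one (h i) j).trans (h2 i)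
    rw [one_pow, mul_one] at e1
    exact mul_le_mul_of_nonneg_right e1 (by positivity)
  have hW : ∀ j, ∑ i, |Mf j i| * H i ≤ Wj j := by
    intro j
    change ∑ i, |(h i).coeff j| * ((⌊Real.exp a⌋₊ : ℕ) : ℝ) ≤ 2 * m * Real.exp a * mn j / ρ ^ (j : ℕ)
    have e1 : ∑ i, |(h i).coeff j| * ((⌊Real.exp a⌋₊ : ℕ) : ℝ) ≤
        ∑ _i : ι, mn j / ρ ^ (j : ℕ) * Real.exp a :=
      Finset.sum_le_sum fun i _ => mul_le_mul (hco j i) hHf (by positivity)
        (div_nonneg (hmn0 j).le (by positivity))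
    rw [Finset.sum_const, Finset.card_univ, hcard, nsmul_eq_mul] at e1
    refine e1.trans (le_of_eq ?_)
    push_cast
    ring
  -- the count
  have hq : ∀ j : Fin J, Wj j / ω j = 4 * m * J * Real.exp a * mn j / η := by
    intro j
    change (2 * m * Real.exp a * mn j / ρ ^ (j : ℕ)) / (η / (2 * J) / ρ ^ (j : ℕ)) = _
    have hρj : ρ ^ (j : ℕ) ≠ 0 := by positivity
    field_simp
    ring
  have hq1 : ∀ j : ℕ, j < J → 1 ≤ 4 * m * J * Real.exp a * mn j / η := by
    intro j hj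
    rw [le_div_iff₀ hη0, one_mul]
    have hmJ : 1 ≤ (m : ℝ) * J := by nlinarith
    rcases le_total M1 (M2 * ρ ^ j) with hc | hc
    · have e1 : mn j = M1 := min_eq_left hc
      rw [e1]
      have e2 : 1 ≤ m * J * Real.exp a * M1 := by
        have := mul_le_mul hmJ hW1 zero_le_one (by positivity)
        have := mul_le_mul this hM1 zero_le_one (by positivity)
        linarith
      linarith
    · have e1 : mn j = M2 * ρ ^ j := min_eq_right hc
      rw [e1, hρpow]
      have e2 : Real.exp (-(a + Λ)) ≤ Real.exp (-(j * β)) := by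
        apply Real.exp_le_exp.2
        have : (j : ℝ) ≤ J - 1 := by
          have : ((j + 1 : ℕ) : ℝ) ≤ J := by exact_mod_cast hj
          push_cast at this
          linarith
        nlinarith
      have e3 : Real.exp (-(a + Λ)) * (Real.exp a * (4 * m * M2 / η)) = 1 := by
        rw [← hΛe, ← Real.exp_add, ← Real.exp_add]
        simp
      have e4 : η = Real.exp (-(a + Λ)) * (Real.exp a * (4 * m * M2)) := by
        field_simp at e3
        linarith
      calc η = Real.exp (-(a + Λ)) * (Real.exp a * (4 * m * M2)) := e4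
        _ ≤ Real.exp (-(j * β)) * (Real.exp a * (4 * m * M2)) := by gcongr
        _ = 4 * m * 1 * Real.exp a * (M2 * Real.exp (-(j * β))) := by ring
        _ ≤ 4 * m * J * Real.exp a * (M2 * Real.exp (-(j * β))) := by gcongr
  let x : ℕ → ℝ := fun j => a + κ + Real.log (mn j)
  have hx : ∀ j : ℕ, j < J → 4 * m * J * Real.exp a * mn j / η + 1 ≤ Real.exp (x j) := by
    intro j hj
    have e1 := hq1 j hj
    have e2 : Real.exp (x j) = Real.exp κ * (Real.exp a * mn j) := by
      change Real.exp (a + κ + Real.log (mn j)) = _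
      rw [Real.exp_add, Real.exp_add, Real.exp_log (hmn0 j)]
      ring
    have e3 : 8 * m * J / η * (Real.exp a * mn j) ≤ Real.exp κ * (Real.exp a * mn j) :=
      mul_le_mul_of_nonneg_right hκJ (mul_nonneg (Real.exp_pos a).le (hmn0 j).le)
    have e4 : 8 * m * J / η * (Real.exp a * mn j) = 2 * (4 * m * J * Real.exp a * mn j / η) := by
      ring
    rw [e2]
    linarith
  have hκ0 : 0 ≤ κ := by
    by_contra hcon
    push Not at hcon
    have e1 : Real.exp κ < 1 := by
      rw [← Real.exp_zero]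
      exact Real.exp_lt_exp.2 hcon
    have e2 : (8 : ℝ) ≤ 8 * m * J / η := by
      rw [le_div_iff₀ hη0]
      have : 1 ≤ (m : ℝ) * J := by nlinarith
      nlinarith
    linarith
  have hlM1 : 0 ≤ Real.log M1 := Real.log_nonneg hM1
  have hsum : ∑ j ∈ Finset.range J, x j < 2 * m * a := by
    have e1 : ∑ j ∈ Finset.range J, x j ≤ m * (a + κ + Real.log M1) +
        ((max 0 (a + κ + Real.log M2 - m * β)) ^ 2 / (2 * β) + max 0 (a + κ + Real.log M2 - m * β)) := by
      refine B1_total m J β (a + κ + Real.log M1) (a + κ + Real.log M2) _ _ hβ (by linarith) rfl x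
        ?_ ?_ rfl
      · intro j _
        change a + κ + Real.log (mn j) ≤ a + κ + Real.log M1
        have : Real.log (mn j) ≤ Real.log M1 := Real.log_le_log (hmn0 j) (min_le_left _ _)
        linarith
      · intro j _
        change a + κ + Real.log (mn j) ≤ a + κ + Real.log M2 - j * β
        have e2 : Real.log (mn j) ≤ Real.log (M2 * ρ ^ j) := Real.log_le_log (hmn0 j) (min_le_right _ _)
        rw [Real.log_mul (by positivity) (by positivity), hρpow, Real.log_exp] at e2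
        linarith
    nlinarith
  have hcount : ∏ j, (Wj j / ω j + 1) < ∏ i, ((H i : ℝ) + 1) := by
    have a1 : ∏ j, (Wj j / ω j + 1) ≤ ∏ j : Fin J, Real.exp (x j) := by
      refine Finset.prod_le_prod (fun j _ => ?_) fun j _ => ?_
      · rw [hq]
        have := hq1 j j.2
        linarith
      · rw [hq]
        exact hx j j.2
    have a2 : ∏ j : Fin J, Real.exp (x j) = Real.exp (∑ j ∈ Finset.range J, x j) := by
      rw [← Real.exp_sum]
      congr 1
      exact Fin.sum_univ_eq_sum_range (fun j => x j) J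
    have a3 : Real.exp (∑ j ∈ Finset.range J, x j) < Real.exp (2 * m * a) := Real.exp_lt_exp.2 hsum
    have a4 : Real.exp (2 * m * a) ≤ ∏ i, ((H i : ℝ) + 1) := by
      change _ ≤ ∏ _i : ι, (((⌊Real.exp a⌋₊ : ℕ) : ℝ) + 1)
      rw [Finset.prod_const, Finset.card_univ, hcard]
      have b1 : Real.exp (2 * m * a) = Real.exp a ^ (2 * m) := by
        rw [← Real.exp_nat_mul]
        congr 1
        push_cast
        ring
      rw [b1]
      exact pow_le_pow_left₀ (by positivity) (Nat.lt_floor_add_one _).le _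
    rw [a2] at a1
    exact a1.trans_lt (a3.trans_le a4)
  obtain ⟨w, hw0, hwH, hwω⟩ := Pool.Agent.LibHLP.box_principle Mf H Wj ω hω hW hcount
  have hwb : ∀ i, |(w i : ℝ)| ≤ Real.exp a := by
    intro i
    have e1 := hwH i
    have e2 : |(w i : ℝ)| ≤ ((⌊Real.exp a⌋₊ : ℕ) : ℝ) := by exact_mod_cast e1
    exact e2.trans hHf
  refine ⟨w, hw0, hwb, ?_⟩
  obtain ⟨F, hF⟩ : ∃ F : ℝ[X], F = ∑ i, C (w i : ℝ) * h i := ⟨_, rfl⟩
  rw [← hF]
  have hn1 : nr 1 F ≤ 2 * m * (Real.exp a * M2) := by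
    rw [hF]
    refine (nr_sum_le 1 zero_le_one _ _).trans ?_
    have e1 : ∑ i, nr 1 (C (w i : ℝ) * h i) ≤ ∑ _i : ι, Real.exp a * M2 := by
      refine Finset.sum_le_sum fun i _ => ?_
      rw [nr_C_mul]
      exact mul_le_mul (hwb i) (h2 i) (nr_nonneg 1 zero_le_one _) (Real.exp_pos a).le
    rw [Finset.sum_const, Finset.card_univ, hcard, nsmul_eq_mul] at e1
    refine e1.trans (le_of_eq ?_)
    push_cast
    ring
  have hFc : ∀ j < J, |F.coeff j| * ρ ^ j ≤ η / (2 * J) := by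
    intro j hj
    have e1 := hwω ⟨j, hj⟩
    have e2 : ∑ i, Mf ⟨j, hj⟩ i * (w i : ℝ) = F.coeff j := by
      rw [hF, finsetSum_coeff]
      refine Finset.sum_congr rfl fun i _ => ?_
      rw [coeff_C_mul]
      change (h i).coeff j * (w i : ℝ) = _
      ring
    rw [e2] at e1
    change |F.coeff j| ≤ η / (2 * J) / ρ ^ j at e1
    rwa [le_div_iff₀ (by positivity)] at e1
  rw [nr_eq ρ F (J + (F.natDegree + 1)) (by omega), Finset.sum_range_add]
  have s1 : ∑ j ∈ Finset.range J, |F.coeff j| * ρ ^ j ≤ η / 2 := by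
    have e1 : ∑ j ∈ Finset.range J, |F.coeff j| * ρ ^ j ≤ ∑ _j ∈ Finset.range J, η / (2 * J) :=
      Finset.sum_le_sum fun j hj => hFc j (Finset.mem_range.1 hj)
    rw [Finset.sum_const, Finset.card_range, nsmul_eq_mul] at e1
    refine e1.trans (le_of_eq ?_)
    field_simp
  have s2 : ∑ i ∈ Finset.range (F.natDegree + 1), |F.coeff (J + i)| * ρ ^ (J + i) ≤ η / 2 := by
    have e1 : ∑ i ∈ Finset.range (F.natDegree + 1), |F.coeff (J + i)| * ρ ^ (J + i) ≤
        ρ ^ J * ∑ i ∈ Finset.range (F.natDegree + 1), |F.coeff (J + i)| * 1 ^ (J + i) := by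
      rw [Finset.mul_sum]
      refine Finset.sum_le_sum fun i _ => ?_
      rw [one_pow, mul_one, pow_add]
      have e2 : ρ ^ i ≤ 1 := pow_le_one₀ hρ0.le hρ1.le
      have e3 : 0 ≤ |F.coeff (J + i)| * ρ ^ J := by positivity
      nlinarith
    have e2 : ∑ i ∈ Finset.range (F.natDegree + 1), |F.coeff (J + i)| * 1 ^ (J + i) ≤ nr 1 F := by
      rw [nr_eq 1 F (J + (F.natDegree + 1)) (by omega),
        Finset.sum_range_add (fun j => |F.coeff j| * (1 : ℝ) ^ j) J (F.natDegree + 1)]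
      have : 0 ≤ ∑ x ∈ Finset.range J, |F.coeff x| * 1 ^ x :=
        Finset.sum_nonneg fun i _ => by positivity
      linarith
    calc _ ≤ _ := e1
      _ ≤ ρ ^ J * (2 * m * (Real.exp a * M2)) := by
          gcongr
          exact e2.trans hn1
      _ = 2 * m * Real.exp a * M2 * ρ ^ J := by ring
      _ ≤ η / 2 := htail
  linarith

end Pool.Agent.LibER91
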