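import Pool.Agent.LibER91.N1

/-!
Row N4 (SHORT/MEDIUM, Mathlib + API N1): the shifted polynomial on a patch.

Plan. `f(θ + y) = ∑ f_i (θ + y) ^ i`. `nr 1 ((X + C θ) ^ i) ≤ (1 + |θ|) ^ i ≤ (2 R0) ^ i ≤ 2 ^ r R0 ^ i`, so
`nr 1 (f.comp (X + C θ)) ≤ 2 ^ r nz R0 f ≤ 2 ^ r T`. The constant coefficient of `g = - f(θ + y) - t0` is
`- f(θ) - t0`, of absolute value `≤ 1`; the other coefficients `g_k` satisfy `|g_k| ρ ^ k ≤ |g_k| ρ` (`0 ≤ ρ ≤ 1`) and
their sum is `≤ ρ 2 ^ r T`.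
-/

set_option autoImplicit false

open Polynomial

namespace Pool.Agent.LibER91

private lemma N4_comp (f : ℤ[X]) (r : ℕ) (hf : f.natDegree ≤ r) (R0 θ : ℝ) (hR : 1 ≤ R0)
    (hθ : |θ| ≤ R0) :
    nr 1 ((f.map (Int.castRingHom ℝ)).comp (X + C θ)) ≤ 2 ^ r * nz R0 f := by
  set F := f.map (Int.castRingHom ℝ) with hF
  have hFd : F.natDegree ≤ r := (natDegree_map_le).trans hf
  have h1 : F.comp (X + C θ) = ∑ i ∈ Finset.range (r + 1), C (F.coeff i) * (X + C θ) ^ i := by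
    rw [comp, eval₂_eq_sum_range' C (n := r + 1) (by omega)]
  have h2 : ∀ i ∈ Finset.range (r + 1), nr 1 (C (F.coeff i) * (X + C θ) ^ i) ≤
      2 ^ r * (|(f.coeff i : ℝ)| * R0 ^ i) := by
    intro i hi
    rw [nr_C_mul]
    have h3 : nr 1 (X + C θ) ≤ 2 * R0 := by
      refine (nr_add_le 1 zero_le_one _ _).trans ?_
      rw [nr_X, nr_C]
      linarith
    have h4 : nr 1 ((X + C θ) ^ i) ≤ (2 * R0) ^ i :=
      (nr_pow_le 1 zero_le_one _ i).trans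
        (pow_le_pow_left₀ (nr_nonneg 1 zero_le_one _) h3 i)
    have h5 : (2 * R0) ^ i ≤ 2 ^ r * R0 ^ i := by
      rw [mul_pow]
      apply mul_le_mul_of_nonneg_right _ (by positivity)
      exact pow_le_pow_right₀ (by norm_num) (by
        have := Finset.mem_range.1 hi
        omega)
    have h6 : F.coeff i = (f.coeff i : ℝ) := by
      rw [hF, coeff_map]
      simp
    rw [h6]
    calc |(f.coeff i : ℝ)| * nr 1 ((X + C θ) ^ i) ≤ |(f.coeff i : ℝ)| * (2 ^ r * R0 ^ i) :=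
          mul_le_mul_of_nonneg_left (h4.trans h5) (abs_nonneg _)
      _ = 2 ^ r * (|(f.coeff i : ℝ)| * R0 ^ i) := by ring
  rw [h1]
  refine (nr_sum_le 1 zero_le_one _ _).trans ((Finset.sum_le_sum h2).trans ?_)
  rw [← Finset.mul_sum, nz_eq R0 f (r + 1) (by omega)]

theorem nr_patch (f : ℤ[X]) (r : ℕ) (hf : f.natDegree ≤ r) (R0 T θ ρ : ℝ) (hR : 1 ≤ R0)
    (hT : nz R0 f ≤ T) (hθ : |θ| ≤ R0) (hρ0 : 0 ≤ ρ) (hρ1 : ρ ≤ 1) (t0 : ℤ)
    (ht0 : |-(f.map (Int.castRingHom ℝ)).eval θ - t0| ≤ 1) :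
    nr ρ (-(f.map (Int.castRingHom ℝ)).comp (X + C θ) - C (t0 : ℝ)) ≤ 1 + 2 ^ r * T * ρ := by
  set G := (f.map (Int.castRingHom ℝ)).comp (X + C θ) with hG
  have hnz : nz R0 f ≤ T := hT
  have hG1 : nr 1 G ≤ 2 ^ r * T :=
    (N4_comp f r hf R0 θ hR hθ).trans (mul_le_mul_of_nonneg_left hnz (by positivity))
  set g := -G - C (t0 : ℝ) with hg
  have hgc : ∀ i, i ≠ 0 → g.coeff i = - G.coeff i := by
    intro i hi
    rw [hg, coeff_sub, coeff_neg, coeff_C, if_neg hi, sub_zero]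
  have hg0 : |g.coeff 0| ≤ 1 := by
    have h1 : g.coeff 0 = -(f.map (Int.castRingHom ℝ)).eval θ - t0 := by
      rw [hg, coeff_sub, coeff_neg, coeff_C_zero, coeff_zero_eq_eval_zero, hG, eval_comp]
      simp
    rw [h1]
    exact ht0
  set n := g.natDegree + G.natDegree + 1 with hn
  rw [nr_eq ρ g (n + 1) (by omega), Finset.sum_range_succ']
  rw [nr_eq 1 G (n + 1) (by omega), Finset.sum_range_succ'] at hG1
  have h2 : ∑ k ∈ Finset.range n, |g.coeff (k + 1)| * ρ ^ (k + 1) ≤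
      (∑ k ∈ Finset.range n, |G.coeff (k + 1)| * 1 ^ (k + 1)) * ρ := by
    rw [Finset.sum_mul]
    refine Finset.sum_le_sum fun k _ => ?_
    rw [hgc (k + 1) (by omega), abs_neg, one_pow, mul_one]
    have h3 : ρ ^ (k + 1) ≤ ρ := by
      rw [pow_succ]
      exact mul_le_of_le_one_left hρ0 (pow_le_one₀ hρ0 hρ1)
    exact mul_le_mul_of_nonneg_left h3 (abs_nonneg _)
  have h4 : ∑ k ∈ Finset.range n, |G.coeff (k + 1)| * 1 ^ (k + 1) ≤ 2 ^ r * T := by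
    have h5 : 0 ≤ |G.coeff 0| * (1 : ℝ) ^ 0 := by positivity
    linarith
  have h6 := mul_le_mul_of_nonneg_right h4 hρ0
  have h7 : |g.coeff 0| * ρ ^ 0 ≤ 1 := by
    rw [pow_zero, mul_one]
    exact hg0
  linarith

end Pool.Agent.LibER91
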