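import Pool.Agent.LibER91.N3
import Pool.Agent.LibER91.N4
import Pool.Agent.LibER91.B1

/-!
Row B2 (MEDIUM/STRONG): the linear relation between the numerators and denominators of all solutions in a patch.
-/

set_option autoImplicit false

open Polynomial

namespace Pool.Agent.LibER91

/-- Division of the equation by `Q ^ r`. -/
private theorem B2_sol (f : ℤ[X]) (r : ℕ) (hf : f.natDegree ≤ r) (t P Q : ℤ) (h : Sol f r t P Q) :
    (f.map (Int.castRingHom ℝ)).eval ((P : ℝ) / Q) + t = 1 / (Q : ℝ) ^ r := by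
  obtain ⟨hQ, he⟩ := h
  have hQR : (Q : ℝ) ≠ 0 := by exact_mod_cast hQ
  have hQr : (Q : ℝ) ^ r ≠ 0 := pow_ne_zero _ hQR
  have he' : ∑ i ∈ Finset.range (r + 1), (f.coeff i : ℝ) * (P : ℝ) ^ i * (Q : ℝ) ^ (r - i) +
      t * (Q : ℝ) ^ r = 1 := by exact_mod_cast he
  have h1 : (f.map (Int.castRingHom ℝ)).eval ((P : ℝ) / Q) =
      ∑ i ∈ Finset.range (r + 1), (f.coeff i : ℝ) * ((P : ℝ) / Q) ^ i := by
    rw [eval_eq_sum_range' (n := r + 1)]
    · refine Finset.sum_congr rfl fun i _ => ?_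
      rw [coeff_map]
      rfl
    · have : (f.map (Int.castRingHom ℝ)).natDegree ≤ f.natDegree := natDegree_map_le
      omega
  rw [eq_div_iff hQr, ← he', h1, add_mul, Finset.sum_mul]
  congr 1
  refine Finset.sum_congr rfl fun i hi => ?_
  have hi' : i ≤ r := by
    have := Finset.mem_range.1 hi
    omega
  obtain ⟨j, rfl⟩ := Nat.exists_eq_add_of_le hi'
  rw [Nat.add_sub_cancel_left, pow_add, div_pow]
  field_simp

theorem relation (f : ℤ[X]) (r : ℕ) (hf : f.natDegree ≤ r) (R0 T θ ρ L a κ : ℝ) (m : ℕ) (hR : 1 ≤ R0)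
    (hTf : nz R0 f ≤ T) (hT1 : 1 ≤ T) (hθ : |θ| ≤ R0) (hρ0 : 0 < ρ) (hρ1 : ρ < 1) (hm : 1 ≤ m)
    (hL : 0 ≤ L) (ha : 0 ≤ a)
    (hκ : 16 * m * ((a + Real.log (4 * m * (2 * R0 * (Real.exp 1 * ((2 ^ r * T + 2) / m + 1)) ^ m) /
      (Real.exp (-L) / 4))) / (-Real.log ρ) + 2) / (Real.exp (-L) / 4) ≤ Real.exp κ)
    (hY : m * (κ + Real.log (2 * R0 * (Real.exp 1 * ((2 ^ r * T * ρ + 2) / m + 1)) ^ m)) +
      max 0 (a + κ + Real.log (2 * R0 * (Real.exp 1 * ((2 ^ r * T + 2) / m + 1)) ^ m) -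
        m * (-Real.log ρ)) ^ 2 / (2 * (-Real.log ρ)) +
      max 0 (a + κ + Real.log (2 * R0 * (Real.exp 1 * ((2 ^ r * T + 2) / m + 1)) ^ m) -
        m * (-Real.log ρ)) < m * a)
    (hpert : 4 * R0 * m ^ 2 * Real.exp a * (Real.exp 1 * ((2 ^ r * T * ρ + 2) / m + 1)) ^ m *
      Real.exp (-(9 / 10 * r * L)) ≤ Real.exp (-L) / 4) :
    ∃ u v : ℕ → ℤ, (∃ k < m, u k ≠ 0 ∨ v k ≠ 0) ∧
      (∀ k < m, |(u k : ℝ)| ≤ Real.exp a ∧ |(v k : ℝ)| ≤ Real.exp a) ∧
      ∀ t P Q : ℤ, Sol f r t P Q → Real.exp (9 / 10 * L) ≤ |(Q : ℝ)| → |(Q : ℝ)| ≤ Real.exp L →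
        |(P : ℝ) / Q - θ| ≤ ρ →
        bv m u (t - ⌊-(f.map (Int.castRingHom ℝ)).eval θ⌋) * P +
          bv m v (t - ⌊-(f.map (Int.castRingHom ℝ)).eval θ⌋) * Q = 0 := by
  classical
  obtain ⟨t0, ht0⟩ : ∃ t0 : ℤ, t0 = ⌊-(f.map (Int.castRingHom ℝ)).eval θ⌋ := ⟨_, rfl⟩
  rw [← ht0]
  have ht0' : |-(f.map (Int.castRingHom ℝ)).eval θ - t0| ≤ 1 := by
    have e1 := Int.floor_le (-(f.map (Int.castRingHom ℝ)).eval θ)
    have e2 := Int.lt_floor_add_one (-(f.map (Int.castRingHom ℝ)).eval θ)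
    rw [← ht0] at e1 e2
    rw [abs_le]
    constructor <;> linarith
  have hmR : (1 : ℝ) ≤ m := by exact_mod_cast hm
  have hT0 : 0 ≤ T := by linarith
  obtain ⟨g, hg⟩ : ∃ g : ℝ[X], g = -(f.map (Int.castRingHom ℝ)).comp (X + C θ) - C (t0 : ℝ) :=
    ⟨_, rfl⟩
  have hgρ : nr ρ g ≤ 1 + 2 ^ r * T * ρ := by
    rw [hg]
    exact nr_patch f r hf R0 T θ ρ hR hTf hθ hρ0.le hρ1.le t0 ht0'
  have hg1 : nr 1 g ≤ 1 + 2 ^ r * T := by
    have := nr_patch f r hf R0 T θ 1 hR hTf hθ zero_le_one le_rfl t0 ht0'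
    rw [← hg, mul_one] at this
    exact this
  obtain ⟨E1, hE1⟩ : ∃ E1 : ℝ, E1 = (Real.exp 1 * ((2 ^ r * T * ρ + 2) / m + 1)) ^ m := ⟨_, rfl⟩
  obtain ⟨E2, hE2⟩ : ∃ E2 : ℝ, E2 = (Real.exp 1 * ((2 ^ r * T + 2) / m + 1)) ^ m := ⟨_, rfl⟩
  have he1 : 1 ≤ Real.exp 1 := Real.one_le_exp zero_le_one
  have hE1_1 : 1 ≤ E1 := by
    rw [hE1]
    apply one_le_pow₀
    have : 0 ≤ (2 ^ r * T * ρ + 2) / (m : ℝ) := by positivity
    nlinarith
  have hE2_1 : 1 ≤ E2 := by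
    rw [hE2]
    apply one_le_pow₀
    have : 0 ≤ (2 ^ r * T + 2) / (m : ℝ) := by positivity
    nlinarith
  rw [← hE2] at hκ
  rw [← hE1, ← hE2] at hY
  rw [← hE1] at hpert
  have hpw : ∀ s s' : ℝ, 0 ≤ s → s ≤ s' →
      (Real.exp 1 * (s / m + 1)) ^ m ≤ (Real.exp 1 * (s' / m + 1)) ^ m := by
    intro s s' hs hss
    have e0 : 0 ≤ s / (m : ℝ) := by positivity
    have e1 : s / (m : ℝ) ≤ s' / m := div_le_div_of_nonneg_right hss (by positivity)
    refine pow_le_pow_left₀ (by positivity) ?_ m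
    exact mul_le_mul_of_nonneg_left (by linarith) (by positivity)
  have hb1 : ∀ k : Fin m, nr ρ ((bp k).comp g) ≤ E1 := by
    intro k
    refine (bp_comp_le g ρ _ hρ0.le hgρ k m k.2.le hm).trans ?_
    rw [hE1]
    exact hpw _ _ (by positivity) (by linarith)
  have hb2 : ∀ k : Fin m, nr 1 ((bp k).comp g) ≤ E2 := by
    intro k
    refine (bp_comp_le g 1 _ zero_le_one hg1 k m k.2.le hm).trans ?_
    rw [hE2]
    exact hpw _ _ (by positivity) (by linarith)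
  have hl : ∀ s : ℝ, 0 ≤ s → s ≤ 1 → nr s (X + C θ) ≤ 2 * R0 := by
    intro s hs0 hs1
    refine (nr_add_le s hs0 _ _).trans ?_
    rw [nr_X, nr_C]
    linarith
  let h : (Fin m ⊕ Fin m) → ℝ[X] :=
    Sum.elim (fun k => (bp (k : ℕ)).comp g * (X + C θ)) (fun k => (bp (k : ℕ)).comp g)
  have hh : ∀ (s E : ℝ), 0 ≤ s → s ≤ 1 → 1 ≤ E → (∀ k : Fin m, nr s ((bp k).comp g) ≤ E) →
      ∀ i, nr s (h i) ≤ 2 * R0 * E := by
    intro s E hs0 hs1 hE hk i
    rcases i with k | k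
    · change nr s ((bp (k : ℕ)).comp g * (X + C θ)) ≤ _
      refine (nr_mul_le s hs0 _ _).trans ?_
      have := mul_le_mul (hk k) (hl s hs0 hs1) (nr_nonneg s hs0 _) (by linarith)
      linarith
    · change nr s ((bp (k : ℕ)).comp g) ≤ _
      refine (hk k).trans ?_
      nlinarith
  have hcard : Fintype.card (Fin m ⊕ Fin m) = 2 * m := by
    rw [Fintype.card_sum, Fintype.card_fin]
    ring
  have hL1 : Real.exp (-L) ≤ 1 := Real.exp_le_one_iff.2 (by linarith)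
  obtain ⟨w, hw0, hwa, hwn⟩ := box_poly h m hm hcard ρ (2 * R0 * E1) (2 * R0 * E2)
    (Real.exp (-L) / 4) a κ hρ0 hρ1 (by nlinarith) (by nlinarith) (by positivity) (by linarith) ha
    (hh ρ E1 hρ0.le hρ1.le hE1_1 hb1) (hh 1 E2 zero_le_one le_rfl hE2_1 hb2) hκ hY
  let u : ℕ → ℤ := fun k => if hk : k < m then w (Sum.inl ⟨k, hk⟩) else 0
  let v : ℕ → ℤ := fun k => if hk : k < m then w (Sum.inr ⟨k, hk⟩) else 0
  have hu : ∀ k : Fin m, u k = w (Sum.inl k) := fun k => by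
    change (if hk : (k : ℕ) < m then w (Sum.inl ⟨k, hk⟩) else 0) = _
    rw [dif_pos k.2]
  have hv : ∀ k : Fin m, v k = w (Sum.inr k) := fun k => by
    change (if hk : (k : ℕ) < m then w (Sum.inr ⟨k, hk⟩) else 0) = _
    rw [dif_pos k.2]
  have hub : ∀ k < m, |(u k : ℝ)| ≤ Real.exp a := fun k hk => by
    have := hwa (Sum.inl ⟨k, hk⟩)
    rwa [← hu ⟨k, hk⟩] at this
  have hvb : ∀ k < m, |(v k : ℝ)| ≤ Real.exp a := fun k hk => by
    have := hwa (Sum.inr ⟨k, hk⟩)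
    rwa [← hv ⟨k, hk⟩] at this
  refine ⟨u, v, ?_, fun k hk => ⟨hub k hk, hvb k hk⟩, ?_⟩
  · by_contra hcon
    push Not at hcon
    apply hw0
    funext i
    rcases i with k | k
    · rw [← hu k]
      exact (hcon k k.2).1
    · rw [← hv k]
      exact (hcon k k.2).2
  intro t P Q hsol hQ1 hQ2 hPQ
  have hsol' := B2_sol f r hf t P Q hsol
  have hQ0 : (Q : ℝ) ≠ 0 := by exact_mod_cast hsol.1
  obtain ⟨y, hy⟩ : ∃ y : ℝ, y = (P : ℝ) / Q - θ := ⟨_, rfl⟩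
  obtain ⟨δ, hδ⟩ : ∃ δ : ℝ, δ = 1 / (Q : ℝ) ^ r := ⟨_, rfl⟩
  rw [← hy] at hPQ
  rw [← hδ] at hsol'
  have hθy : θ + y = (P : ℝ) / Q := by rw [hy]; ring
  have hgy : g.eval y = -(f.map (Int.castRingHom ℝ)).eval ((P : ℝ) / Q) - t0 := by
    rw [hg, eval_sub, eval_neg, eval_comp, eval_add, eval_X, eval_C, eval_C, add_comm y θ, hθy]
  have hx : ((t - t0 : ℤ) : ℝ) = g.eval y + δ := by
    rw [hgy]
    push_cast
    linarith
  have hQr : Real.exp (9 / 10 * r * L) ≤ |(Q : ℝ)| ^ r := by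
    have e1 : Real.exp (9 / 10 * r * L) = Real.exp (9 / 10 * L) ^ r := by
      rw [← Real.exp_nat_mul]
      congr 1
      ring
    rw [e1]
    exact pow_le_pow_left₀ (Real.exp_pos _).le hQ1 r
  have hδb : |δ| ≤ Real.exp (-(9 / 10 * r * L)) := by
    rw [hδ, abs_div, abs_one, abs_pow, Real.exp_neg, ← one_div]
    exact one_div_le_one_div_of_le (Real.exp_pos _) hQr
  have hδ1 : |δ| ≤ 1 := by
    refine hδb.trans (Real.exp_le_one_iff.2 ?_)
    have : 0 ≤ 9 / 10 * (r : ℝ) * L := by positivity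
    linarith
  have hgy' : |g.eval y| ≤ 1 + 2 ^ r * T * ρ := (abs_eval_le ρ g y hPQ).trans hgρ
  have hpt : ∀ k < m, |(bp k).eval (g.eval y + δ) - (bp k).eval (g.eval y)| ≤ |δ| * m * E1 := by
    intro k hk
    have e1 := bp_perturb (g.eval y) δ _ hgy' hδ1 k m hk.le hm
    have e2 : (1 + 2 ^ r * T * ρ + 1) = (2 ^ r * T * ρ + 2) := by ring
    rw [e2, ← hE1] at e1
    exact e1
  -- the value of the auxiliary polynomial
  have hΦ : |∑ k ∈ Finset.range m, ((u k : ℝ) * (bp k).eval (g.eval y) * (θ + y) +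
      (v k : ℝ) * (bp k).eval (g.eval y))| ≤ Real.exp (-L) / 4 := by
    have e1 := (abs_eval_le ρ (∑ i, C (w i : ℝ) * h i) y hPQ).trans hwn
    have e2 : (∑ i, C (w i : ℝ) * h i).eval y =
        ∑ k ∈ Finset.range m, ((u k : ℝ) * (bp k).eval (g.eval y) * (θ + y) +
      (v k : ℝ) * (bp k).eval (g.eval y)) := by
      rw [eval_finsetSum, Fintype.sum_sum_type, ← Finset.sum_add_distrib,
        ← Fin.sum_univ_eq_sum_range (fun k => (u k : ℝ) * (bp k).eval (g.eval y) * (θ + y) +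
          (v k : ℝ) * (bp k).eval (g.eval y))]
      refine Finset.sum_congr rfl fun k _ => ?_
      change (C (w (Sum.inl k) : ℝ) * ((bp (k : ℕ)).comp g * (X + C θ))).eval y +
        (C (w (Sum.inr k) : ℝ) * (bp (k : ℕ)).comp g).eval y = _
      rw [← hu k, ← hv k]
      simp only [eval_mul, eval_C, eval_comp, eval_add, eval_X]
      ring
    rw [e2] at e1
    exact e1
  obtain ⟨Φ, hΦd⟩ : ∃ Φ : ℝ, Φ = ∑ k ∈ Finset.range m, ((u k : ℝ) * (bp k).eval (g.eval y) * (θ + y) +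
      (v k : ℝ) * (bp k).eval (g.eval y)) := ⟨_, rfl⟩
  obtain ⟨R, hRd⟩ : ∃ R : ℝ, R = ∑ k ∈ Finset.range m, ((u k : ℝ) * (bp k).eval (g.eval y + δ) *
      (θ + y) + (v k : ℝ) * (bp k).eval (g.eval y + δ)) := ⟨_, rfl⟩
  rw [← hΦd] at hΦ
  have hθy' : |θ + y| ≤ R0 + 1 := by
    refine (abs_add_le _ _).trans ?_
    linarith
  have hdiff : |R - Φ| ≤ Real.exp (-L) / 4 := by
    have e1 : |R - Φ| ≤ ∑ _k ∈ Finset.range m, Real.exp a * (4 * R0) * (|δ| * m * E1) := by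
      rw [hRd, hΦd, ← Finset.sum_sub_distrib]
      refine (Finset.abs_sum_le_sum_abs _ _).trans (Finset.sum_le_sum fun k hk => ?_)
      have hk' := Finset.mem_range.1 hk
      have e2 : (u k : ℝ) * (bp k).eval (g.eval y + δ) * (θ + y) + (v k : ℝ) *
          (bp k).eval (g.eval y + δ) - ((u k : ℝ) * (bp k).eval (g.eval y) * (θ + y) +
          (v k : ℝ) * (bp k).eval (g.eval y)) = ((u k : ℝ) * (θ + y) + v k) *
          ((bp k).eval (g.eval y + δ) - (bp k).eval (g.eval y)) := by ring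
      rw [e2, abs_mul]
      have e3 : |(u k : ℝ) * (θ + y) + v k| ≤ Real.exp a * (4 * R0) := by
        refine (abs_add_le _ _).trans ?_
        rw [abs_mul]
        have e4 := mul_le_mul (hub k hk') hθy' (abs_nonneg _) (Real.exp_pos a).le
        have e5 := hvb k hk'
        have e6 : 0 < Real.exp a := Real.exp_pos a
        nlinarith
      exact mul_le_mul e3 (hpt k hk') (abs_nonneg _) (by positivity)
    rw [Finset.sum_const, Finset.card_range, nsmul_eq_mul] at e1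
    calc |R - Φ| ≤ m * (Real.exp a * (4 * R0) * (|δ| * m * E1)) := e1
      _ = 4 * R0 * m ^ 2 * Real.exp a * E1 * |δ| := by ring
      _ ≤ 4 * R0 * m ^ 2 * Real.exp a * E1 * Real.exp (-(9 / 10 * r * L)) := by gcongr
      _ ≤ Real.exp (-L) / 4 := hpert
  have hRb : |R| ≤ Real.exp (-L) / 2 := by
    have : |R| ≤ |R - Φ| + |Φ| := by
      have := abs_add_le (R - Φ) Φ
      simpa using this
    linarith
  have hbv : ∀ c : ℕ → ℤ, ((bv m c (t - t0) : ℤ) : ℝ) =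
      ∑ k ∈ Finset.range m, (c k : ℝ) * (bp k).eval (g.eval y + δ) := by
    intro c
    unfold bv
    push_cast
    refine Finset.sum_congr rfl fun k _ => ?_
    rw [← hx, bp_eval]
  have hfin : ((bv m u (t - t0) * P + bv m v (t - t0) * Q : ℤ) : ℝ) = Q * R := by
    push_cast
    rw [hbv, hbv, hRd, Finset.mul_sum, Finset.sum_mul, Finset.sum_mul, ← Finset.sum_add_distrib]
    refine Finset.sum_congr rfl fun k _ => ?_
    rw [hθy]
    field_simp
  have hfin2 : |((bv m u (t - t0) * P + bv m v (t - t0) * Q : ℤ) : ℝ)| < 1 := by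
    rw [hfin, abs_mul]
    have e1 : |(Q : ℝ)| * |R| ≤ Real.exp L * (Real.exp (-L) / 2) :=
      mul_le_mul hQ2 hRb (abs_nonneg _) (Real.exp_pos L).le
    have e2 : Real.exp L * (Real.exp (-L) / 2) = 1 / 2 := by
      have : Real.exp L * Real.exp (-L) = 1 := by rw [← Real.exp_add]; simp
      linarith
    linarith
  have hfin3 : |bv m u (t - t0) * P + bv m v (t - t0) * Q| < 1 := by exact_mod_cast hfin2
  exact Int.abs_lt_one_iff.1 hfin3

end Pool.Agent.LibER91
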