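import Pool.Agent.LibER91.N1

/-!
Row N3 (MEDIUM, Mathlib + API N1): binomial polynomials `bp k = (1 / k!) X (X - 1) ... (X - k + 1)`.

Plan. `bp_eval`: `Ring.descPochhammer_eq_factorial_smul_choose` (Mathlib/RingTheory/Binomial.lean), evaluation of the
polynomial over `ℤ` and over `ℝ` (`descPochhammer_eval_cast`, or induction with `descPochhammer_succ_right`).
`bp_comp_le`: `(bp k).comp g = C (1/k!) * ∏_{i<k} (g - C i)` (induction with `descPochhammer_succ_right`), so the norm is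
`≤ (Y + k) ^ k / k! ≤ (Y + m) ^ k / k!`. Put `M = (Y + m) / m = Y / m + 1 ≥ 1`; `(Y + m) ^ k / k! = M ^ k * (m ^ k / k!)`,
`m ^ k / k! ≤ exp m` (`Real.pow_div_factorial_le_exp`), `M ^ k ≤ M ^ m`; so `≤ (exp 1 * M) ^ m`.
`bp_perturb`: `∏ (a_i + δ) - ∏ a_i` for `a_i = x - i`, `i < k`: by induction on the number of factors the absolute value is
`≤ |δ| * k * B ^ (k - 1)` if all `|a_i|, |a_i + δ| ≤ B`, here `B = Y + 1 + m`, `B ≥ 1`, and then `B ^ (k-1) / k! ≤ B ^ k / k!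
≤ (exp 1 * ((Y + 1) / m + 1)) ^ m` as before.
-/

set_option autoImplicit false

open Polynomial

namespace Pool.Agent.LibER91

private lemma N3_eval_cast (k : ℕ) (x : ℤ) :
    (descPochhammer ℝ k).eval (x : ℝ) = (((descPochhammer ℤ k).eval x : ℤ) : ℝ) := by
  have h := descPochhammer_map (Int.castRingHom ℝ) k
  rw [← h, eval_map, eval₂_at_intCast]
  simp

theorem bp_eval (k : ℕ) (x : ℤ) : (bp k).eval (x : ℝ) = ((Ring.choose x k : ℤ) : ℝ) := by
  unfold bp
  rw [eval_mul, eval_C, N3_eval_cast]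
  have h := Ring.descPochhammer_eq_factorial_smul_choose x k
  have h2 : (descPochhammer ℤ k).smeval x = (descPochhammer ℤ k).eval x := by
    rw [← aeval_eq_smeval]
    simp
  rw [h2] at h
  rw [h]
  have hk : ((k.factorial : ℕ) : ℝ) ≠ 0 := by exact_mod_cast Nat.factorial_ne_zero k
  rw [nsmul_eq_mul]
  push_cast
  field_simp

/-- the numerical bound: `(Y + m) ^ k / k! ≤ (e (Y / m + 1)) ^ m`. -/
private lemma N3_num (Y : ℝ) (hY : 0 ≤ Y) (k m : ℕ) (hk : k ≤ m) (hm : 1 ≤ m) :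
    (k.factorial : ℝ)⁻¹ * (Y + m) ^ k ≤ (Real.exp 1 * (Y / m + 1)) ^ m := by
  have hm0 : (0 : ℝ) < m := by exact_mod_cast hm
  have hM : (1 : ℝ) ≤ Y / m + 1 := by
    have : 0 ≤ Y / m := by positivity
    linarith
  have h1 : (Y + m) = (Y / m + 1) * m := by field_simp
  have h2 : (m : ℝ) ^ k / (k.factorial : ℝ) ≤ Real.exp m :=
    Real.pow_div_factorial_le_exp (m : ℝ) hm0.le k
  have h3 : (Y / m + 1) ^ k ≤ (Y / m + 1) ^ m := pow_le_pow_right₀ hM hk
  calc (k.factorial : ℝ)⁻¹ * (Y + m) ^ k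
      = (Y / m + 1) ^ k * ((m : ℝ) ^ k / (k.factorial : ℝ)) := by
        rw [h1, mul_pow]; ring
    _ ≤ (Y / m + 1) ^ m * Real.exp m := by
        apply mul_le_mul h3 h2 (by positivity) (by positivity)
    _ = (Real.exp 1 * (Y / m + 1)) ^ m := by
        rw [mul_pow, ← Real.exp_nat_mul, mul_one]; ring

private lemma N3_comp_desc (g : ℝ[X]) (ρ Y : ℝ) (hρ : 0 ≤ ρ) (hg : nr ρ g ≤ Y) (m : ℕ) :
    ∀ k : ℕ, k ≤ m → nr ρ ((descPochhammer ℝ k).comp g) ≤ (Y + m) ^ k := by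
  intro k
  induction k with
  | zero =>
    intro _
    have h1 : ((descPochhammer ℝ 0).comp g) = C 1 := by simp
    rw [h1, nr_C]
    simp
  | succ k ih =>
    intro hk
    have h0 := ih (by omega)
    rw [descPochhammer_succ_right, mul_comp]
    have h1 : ((X - (k : ℝ[X])).comp g) = g + C (-(k : ℝ)) := by
      rw [sub_comp, X_comp, natCast_comp]
      simp [sub_eq_add_neg]
    rw [h1]
    have hY0 : 0 ≤ Y := (nr_nonneg ρ hρ g).trans hg
    have h2 : nr ρ (g + C (-(k : ℝ))) ≤ Y + m := by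
      refine (nr_add_le ρ hρ _ _).trans ?_
      rw [nr_C, abs_neg, abs_of_nonneg (by positivity : (0 : ℝ) ≤ k)]
      have : (k : ℝ) ≤ m := by exact_mod_cast (by omega : k ≤ m)
      linarith
    calc nr ρ ((descPochhammer ℝ k).comp g * (g + C (-(k : ℝ))))
        ≤ nr ρ ((descPochhammer ℝ k).comp g) * nr ρ (g + C (-(k : ℝ))) := nr_mul_le ρ hρ _ _
      _ ≤ (Y + m) ^ k * (Y + m) :=
          mul_le_mul h0 h2 (nr_nonneg ρ hρ _) (by positivity)
      _ = (Y + m) ^ (k + 1) := by ring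

theorem bp_comp_le (g : ℝ[X]) (ρ Y : ℝ) (hρ : 0 ≤ ρ) (hg : nr ρ g ≤ Y) (k m : ℕ) (hk : k ≤ m)
    (hm : 1 ≤ m) : nr ρ ((bp k).comp g) ≤ (Real.exp 1 * (Y / m + 1)) ^ m := by
  have hY0 : 0 ≤ Y := (nr_nonneg ρ hρ g).trans hg
  unfold bp
  rw [mul_comp, C_comp, nr_C_mul, abs_of_nonneg (by positivity : (0 : ℝ) ≤ (k.factorial : ℝ)⁻¹)]
  refine le_trans (mul_le_mul_of_nonneg_left (N3_comp_desc g ρ Y hρ hg m k hk) (by positivity)) ?_
  exact N3_num Y hY0 k m hk hm

private lemma N3_abs_le (x Y : ℝ) (hx : |x| ≤ Y) (m : ℕ) :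
    ∀ k : ℕ, k ≤ m → |(descPochhammer ℝ k).eval x| ≤ (Y + m) ^ k := by
  intro k
  have hY0 : 0 ≤ Y := (abs_nonneg x).trans hx
  induction k with
  | zero => intro _; simp
  | succ k ih =>
    intro hk
    have h0 := ih (by omega)
    rw [descPochhammer_succ_right, eval_mul, abs_mul, pow_succ]
    have h1 : |(X - (k : ℝ[X])).eval x| ≤ Y + m := by
      rw [eval_sub, eval_X, eval_natCast]
      have h2 : (k : ℝ) ≤ m := by exact_mod_cast (by omega : k ≤ m)
      have h3 : (0 : ℝ) ≤ k := by positivity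
      have h4 := abs_le.1 hx
      rw [abs_le]
      constructor <;> linarith
    exact mul_le_mul h0 h1 (abs_nonneg _) (by positivity)

private lemma N3_pert (x δ Y : ℝ) (hx : |x| ≤ Y) (hδ : |δ| ≤ 1) (m : ℕ) (hm : 1 ≤ m) :
    ∀ k : ℕ, k ≤ m → |(descPochhammer ℝ k).eval (x + δ) - (descPochhammer ℝ k).eval x| ≤
      |δ| * k * ((Y + 1) + m) ^ k := by
  intro k
  have hY0 : 0 ≤ Y := (abs_nonneg x).trans hx
  have hm0 : (1 : ℝ) ≤ m := by exact_mod_cast hm
  induction k with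
  | zero => intro _; simp
  | succ k ih =>
    intro hk
    have h0 := ih (by omega)
    have hk1 : (k : ℝ) ≤ m := by exact_mod_cast (by omega : k ≤ m)
    have hk0 : (0 : ℝ) ≤ k := by positivity
    have hxa := abs_le.1 hx
    have hda := abs_le.1 hδ
    rw [descPochhammer_succ_right, eval_mul, eval_mul]
    simp only [eval_sub, eval_X, eval_natCast]
    set P := (descPochhammer ℝ k).eval (x + δ)
    set Q := (descPochhammer ℝ k).eval x with hQ
    have h1 : |Q| ≤ ((Y + 1) + m) ^ k := by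
      have := N3_abs_le x (Y + 1) (by linarith) m k (by omega)
      exact this
    have h2 : P * (x + δ - k) - Q * (x - k) = (P - Q) * (x + δ - k) + Q * δ := by ring
    rw [h2]
    have h3 : |x + δ - k| ≤ (Y + 1) + m := by
      rw [abs_le]
      constructor <;> linarith
    have hB : (1 : ℝ) ≤ (Y + 1) + m := by linarith
    have hBk : 0 ≤ ((Y + 1) + (m : ℝ)) ^ k := by positivity
    calc |(P - Q) * (x + δ - k) + Q * δ|
        ≤ |P - Q| * |x + δ - k| + |Q| * |δ| := by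
          refine (abs_add_le _ _).trans ?_
          rw [abs_mul, abs_mul]
      _ ≤ (|δ| * k * ((Y + 1) + m) ^ k) * ((Y + 1) + m) + ((Y + 1) + m) ^ k * |δ| := by
          apply add_le_add
          · exact mul_le_mul h0 h3 (abs_nonneg _) (by positivity)
          · exact mul_le_mul_of_nonneg_right h1 (abs_nonneg _)
      _ ≤ (|δ| * k * ((Y + 1) + m) ^ k) * ((Y + 1) + m) +
            (((Y + 1) + m) ^ k * ((Y + 1) + m)) * |δ| := by
          have : ((Y + 1) + (m : ℝ)) ^ k ≤ ((Y + 1) + m) ^ k * ((Y + 1) + m) :=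
            le_mul_of_one_le_right hBk hB
          have h5 := mul_le_mul_of_nonneg_right this (abs_nonneg δ)
          linarith
      _ = |δ| * ((k + 1 : ℕ) : ℝ) * ((Y + 1) + m) ^ (k + 1) := by push_cast; ring

theorem bp_perturb (x δ Y : ℝ) (hx : |x| ≤ Y) (hδ : |δ| ≤ 1) (k m : ℕ) (hk : k ≤ m) (hm : 1 ≤ m) :
    |(bp k).eval (x + δ) - (bp k).eval x| ≤ |δ| * m * (Real.exp 1 * ((Y + 1) / m + 1)) ^ m := by
  have hY0 : 0 ≤ Y := (abs_nonneg x).trans hx
  have hkm : (k : ℝ) ≤ m := by exact_mod_cast hk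
  unfold bp
  rw [eval_mul, eval_mul, eval_C, eval_C, ← mul_sub, abs_mul,
    abs_of_nonneg (by positivity : (0 : ℝ) ≤ (k.factorial : ℝ)⁻¹)]
  have h1 := N3_pert x δ Y hx hδ m hm k hk
  have h2 := N3_num (Y + 1) (by linarith) k m hk hm
  calc (k.factorial : ℝ)⁻¹ * |(descPochhammer ℝ k).eval (x + δ) - (descPochhammer ℝ k).eval x|
      ≤ (k.factorial : ℝ)⁻¹ * (|δ| * k * ((Y + 1) + m) ^ k) :=
        mul_le_mul_of_nonneg_left h1 (by positivity)
    _ = |δ| * k * ((k.factorial : ℝ)⁻¹ * ((Y + 1) + m) ^ k) := by ring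
    _ ≤ |δ| * k * (Real.exp 1 * ((Y + 1) / m + 1)) ^ m :=
        mul_le_mul_of_nonneg_left h2 (by positivity)
    _ ≤ |δ| * m * (Real.exp 1 * ((Y + 1) / m + 1)) ^ m := by
        apply mul_le_mul_of_nonneg_right _ (by positivity)
        exact mul_le_mul_of_nonneg_left hkm (abs_nonneg _)

end Pool.Agent.LibER91
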