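import Pool.Agent.LibER91.N2
import Pool.Agent.LibER91.N3

/-!
Row C1 (MEDIUM/STRONG): from integral combinations of binomials to a relatively prime pair of integral polynomials.

Plan. Let `M < m` be the largest `k < m` with `u k ≠ 0 ∨ v k ≠ 0`. `A2 = ∑_{k ≤ M} C (u k * (M! / k!)) * descPochhammer ℤ k`,
`B2` with `v`; `A2.eval x = M! * bv m u x` (`Ring.descPochhammer_eq_factorial_smul_choose`), the coefficient of `X ^ M` in
`A2` is `u M`, in `B2` it is `v M`, so `max (natDegree A2) (natDegree B2) = M`. `ℤ[X]` is a UFD: `exists_reduced_factors`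
gives `A2 = g A`, `B2 = g B`, `IsRelPrime A B`.
-/

set_option autoImplicit false

open Polynomial

namespace Pool.Agent.LibER91

/-- The polynomial `∑_{k ≤ M} u k (M! / k!) X (X - 1) ... (X - k + 1)`. -/
private noncomputable def C1_pol (M : ℕ) (u : ℕ → ℤ) : ℤ[X] :=
  ∑ k ∈ Finset.range (M + 1), C (u k * (M.descFactorial (M - k) : ℤ)) * descPochhammer ℤ k

private lemma C1_fact (M k : ℕ) (hk : k ≤ M) : M.factorial = M.descFactorial (M - k) * k.factorial := by
  have h := Nat.factorial_mul_descFactorial (Nat.sub_le M k)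
  rw [Nat.sub_sub_self hk] at h
  rw [mul_comm, h]

private lemma C1_eval_desc (k : ℕ) (x : ℤ) :
    (descPochhammer ℤ k).eval x = (k.factorial : ℤ) * Ring.choose x k := by
  have h := Ring.descPochhammer_eq_factorial_smul_choose x k
  rw [← Polynomial.eval_eq_smeval] at h
  rw [h, nsmul_eq_mul]

private lemma C1_eval (m M : ℕ) (u : ℕ → ℤ) (hM : M < m) (hu : ∀ k, M < k → k < m → u k = 0) (x : ℤ) :
    (C1_pol M u).eval x = (M.factorial : ℤ) * bv m u x := by
  unfold C1_pol bv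
  rw [eval_finsetSum]
  have h1 : ∑ k ∈ Finset.range m, u k * Ring.choose x k =
      ∑ k ∈ Finset.range (M + 1), u k * Ring.choose x k := by
    symm
    refine Finset.sum_subset (fun k hk => ?_) (fun k hk hk' => ?_)
    · rw [Finset.mem_range] at hk ⊢
      omega
    · rw [Finset.mem_range] at hk hk'
      rw [hu k (by omega) hk, zero_mul]
  rw [h1, Finset.mul_sum]
  refine Finset.sum_congr rfl fun k hk => ?_
  rw [Finset.mem_range] at hk
  rw [eval_mul, eval_C, C1_eval_desc, C1_fact M k (by omega)]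
  push_cast
  ring

private lemma C1_natDegree (M : ℕ) (u : ℕ → ℤ) : (C1_pol M u).natDegree ≤ M := by
  unfold C1_pol
  refine natDegree_sum_le_of_forall_le _ _ fun k hk => ?_
  rw [Finset.mem_range] at hk
  refine (natDegree_C_mul_le _ _).trans ?_
  rw [descPochhammer_natDegree]
  omega

private lemma C1_coeff (M : ℕ) (u : ℕ → ℤ) : (C1_pol M u).coeff M = u M := by
  unfold C1_pol
  rw [finsetSum_coeff, Finset.sum_range_succ]
  have h1 : ∑ k ∈ Finset.range M, (C (u k * (M.descFactorial (M - k) : ℤ)) * descPochhammer ℤ k).coeff M = 0 := by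
    refine Finset.sum_eq_zero fun k hk => ?_
    rw [Finset.mem_range] at hk
    rw [coeff_C_mul, coeff_eq_zero_of_natDegree_lt, mul_zero]
    rw [descPochhammer_natDegree]
    exact hk
  rw [h1, zero_add, coeff_C_mul]
  have h2 : (descPochhammer ℤ M).coeff M = 1 := by
    have h3 := (monic_descPochhammer ℤ M).coeff_natDegree
    rwa [descPochhammer_natDegree] at h3
  rw [h2, Nat.sub_self, Nat.descFactorial_zero]
  simp

private lemma C1_nz_mul (ρ : ℝ) (hρ : 0 ≤ ρ) (f g : ℤ[X]) : nz ρ (f * g) ≤ nz ρ f * nz ρ g := by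
  unfold nz
  rw [Polynomial.map_mul]
  exact nr_mul_le ρ hρ _ _

private lemma C1_nz_C_mul (ρ : ℝ) (a : ℤ) (f : ℤ[X]) : nz ρ (C a * f) = |(a : ℝ)| * nz ρ f := by
  unfold nz
  rw [Polynomial.map_mul, Polynomial.map_C, nr_C_mul]
  simp

private lemma C1_nz_sum (ρ : ℝ) (hρ : 0 ≤ ρ) (s : Finset ℕ) (f : ℕ → ℤ[X]) :
    nz ρ (∑ i ∈ s, f i) ≤ ∑ i ∈ s, nz ρ (f i) := by
  unfold nz
  rw [Polynomial.map_sum]
  exact nr_sum_le ρ hρ s _

private lemma C1_desc (ρ : ℝ) (hρ : 0 ≤ ρ) (k : ℕ) : (k : ℝ) ≤ ρ → nz ρ (descPochhammer ℤ k) ≤ (2 * ρ) ^ k := by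
  induction k with
  | zero =>
    intro _
    have h : nz ρ (descPochhammer ℤ 0) = 1 := by
      unfold nz
      rw [descPochhammer_zero, Polynomial.map_one, ← C_1, nr_C]
      simp
    rw [h, pow_zero]
  | succ k ih =>
    intro hk
    push_cast at hk
    rw [descPochhammer_succ_right]
    refine (C1_nz_mul ρ hρ _ _).trans ?_
    rw [pow_succ]
    have h1 : nz ρ (X - (k : ℤ[X])) ≤ 2 * ρ := by
      unfold nz
      have h2 : (X - (k : ℤ[X])).map (Int.castRingHom ℝ) = X + -(C (k : ℝ)) := by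
        simp [sub_eq_add_neg]
      rw [h2]
      refine (nr_add_le ρ hρ _ _).trans ?_
      rw [nr_X, nr_neg, nr_C, abs_of_nonneg (Nat.cast_nonneg k)]
      linarith
    exact mul_le_mul (ih (by linarith)) h1 (nz_nonneg ρ hρ _) (by positivity)

private lemma C1_desc_fact (M k : ℕ) (hk : k ≤ M) (ρ : ℝ) (hρ : (M : ℝ) ≤ ρ) :
    ((M.descFactorial (M - k) : ℕ) : ℝ) * (2 * ρ) ^ k ≤ (2 * ρ) ^ M := by
  have hρ0 : 0 ≤ ρ := le_trans (Nat.cast_nonneg M) hρ
  have h1 : ((M.descFactorial (M - k) : ℕ) : ℝ) ≤ (2 * ρ) ^ (M - k) := by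
    have h2 : ((M.descFactorial (M - k) : ℕ) : ℝ) ≤ (M : ℝ) ^ (M - k) := by
      exact_mod_cast Nat.descFactorial_le_pow M (M - k)
    refine h2.trans (pow_le_pow_left₀ (Nat.cast_nonneg M) (by linarith) _)
  calc ((M.descFactorial (M - k) : ℕ) : ℝ) * (2 * ρ) ^ k ≤ (2 * ρ) ^ (M - k) * (2 * ρ) ^ k :=
        mul_le_mul_of_nonneg_right h1 (by positivity)
    _ = (2 * ρ) ^ M := by rw [← pow_add, Nat.sub_add_cancel hk]

private lemma C1_norm (m M : ℕ) (u : ℕ → ℤ) (W ρ : ℝ) (hM : M < m) (hW0 : 0 ≤ W)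
    (hW : ∀ k < m, |(u k : ℝ)| ≤ W) (hρ : (m : ℝ) ≤ ρ) :
    nz ρ (C1_pol M u) ≤ W * m * (2 * ρ) ^ M := by
  have hρ0 : 0 ≤ ρ := le_trans (Nat.cast_nonneg m) hρ
  have hMm : (M : ℝ) + 1 ≤ m := by exact_mod_cast hM
  unfold C1_pol
  refine (C1_nz_sum ρ hρ0 _ _).trans ?_
  have h1 : ∀ k ∈ Finset.range (M + 1),
      nz ρ (C (u k * (M.descFactorial (M - k) : ℤ)) * descPochhammer ℤ k) ≤ W * (2 * ρ) ^ M := by
    intro k hk
    rw [Finset.mem_range] at hk
    have hk' : (k : ℝ) ≤ M := by exact_mod_cast (by omega : k ≤ M)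
    rw [C1_nz_C_mul]
    push_cast
    rw [abs_mul, Nat.abs_cast, mul_assoc]
    refine mul_le_mul (hW k (by omega)) ?_ (mul_nonneg (Nat.cast_nonneg _) (nz_nonneg ρ hρ0 _)) hW0
    refine (mul_le_mul_of_nonneg_left (C1_desc ρ hρ0 k (by linarith)) (Nat.cast_nonneg _)).trans ?_
    exact C1_desc_fact M k (by omega) ρ (by linarith)
  refine (Finset.sum_le_sum h1).trans ?_
  rw [Finset.sum_const, Finset.card_range, nsmul_eq_mul]
  push_cast
  have h2 : 0 ≤ W * (2 * ρ) ^ M := by positivity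
  nlinarith

private lemma C1_deg (g A B : ℤ[X]) (M : ℕ) (hg : g ≠ 0) (hA : (g * A).coeff M ≠ 0)
    (hA2 : (g * A).natDegree ≤ M) (hB2 : (g * B).natDegree ≤ M) :
    M = g.natDegree + max A.natDegree B.natDegree := by
  have hA0 : A ≠ 0 := by
    rintro rfl
    rw [mul_zero, coeff_zero] at hA
    exact hA rfl
  have h1 : (g * A).natDegree = M := le_antisymm hA2 (le_natDegree_of_ne_zero hA)
  rw [natDegree_mul hg hA0] at h1
  have h2 : B.natDegree ≤ A.natDegree := by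
    by_cases hB0 : B = 0
    · rw [hB0, natDegree_zero]
      exact Nat.zero_le _
    · rw [natDegree_mul hg hB0] at hB2
      omega
  rw [max_eq_left h2, h1]

private lemma C1_bound (m M D : ℕ) (g A A2 : ℤ[X]) (W ρ : ℝ) (hm : 1 ≤ m) (hg : g ≠ 0) (hgA : g * A = A2)
    (hAD : A.natDegree ≤ D) (hM : M = g.natDegree + D) (hMm : M < m) (hW0 : 0 ≤ W) (hρ : (m : ℝ) ≤ ρ)
    (hn : nz ρ A2 ≤ W * m * (2 * ρ) ^ M) : nz ρ A ≤ W * m * (4 * Real.exp 1) ^ m * ρ ^ D := by
  have hm1 : (1 : ℝ) ≤ m := by exact_mod_cast hm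
  have hρ0 : 0 < ρ := by linarith
  have h1 := gelfond ρ hρ0 g A hg
  rw [hgA] at h1
  have h2 : nz ρ A * ρ ^ g.natDegree ≤ (W * m * (4 * Real.exp 1) ^ m * ρ ^ D) * ρ ^ g.natDegree := by
    refine h1.trans ?_
    have h3 : (2 : ℝ) ^ A.natDegree ≤ 2 ^ m := pow_le_pow_right₀ (by norm_num) (by omega)
    have h4 : (2 * ρ) ^ M = 2 ^ M * (ρ ^ D * ρ ^ g.natDegree) := by
      rw [mul_pow, ← pow_add, hM, add_comm D]
    have h5 : (2 : ℝ) ^ M ≤ 2 ^ m := pow_le_pow_right₀ (by norm_num) hMm.le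
    have h6 : (4 : ℝ) ^ m ≤ (4 * Real.exp 1) ^ m := by
      refine pow_le_pow_left₀ (by norm_num) ?_ _
      have := Real.add_one_le_exp (1 : ℝ)
      linarith
    have h7 : 0 ≤ nz ρ A2 := nz_nonneg ρ hρ0.le _
    calc (2 : ℝ) ^ A.natDegree * nz ρ A2 ≤ 2 ^ m * (W * m * (2 * ρ) ^ M) :=
          mul_le_mul h3 hn h7 (by positivity)
      _ = 2 ^ m * (W * m * (2 ^ M * (ρ ^ D * ρ ^ g.natDegree))) := by rw [h4]
      _ ≤ 2 ^ m * (W * m * (2 ^ m * (ρ ^ D * ρ ^ g.natDegree))) := by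
          refine mul_le_mul_of_nonneg_left ?_ (by positivity)
          refine mul_le_mul_of_nonneg_left ?_ (by positivity)
          exact mul_le_mul_of_nonneg_right h5 (by positivity)
      _ = W * m * 4 ^ m * ρ ^ D * ρ ^ g.natDegree := by
          rw [show (4 : ℝ) ^ m = 2 ^ m * 2 ^ m by rw [← mul_pow]; norm_num]
          ring
      _ ≤ (W * m * (4 * Real.exp 1) ^ m * ρ ^ D) * ρ ^ g.natDegree := by
          refine mul_le_mul_of_nonneg_right ?_ (by positivity)
          refine mul_le_mul_of_nonneg_right ?_ (by positivity)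
          exact mul_le_mul_of_nonneg_left h6 (by positivity)
  exact le_of_mul_le_mul_right h2 (by positivity)

theorem pair_of_bv (m : ℕ) (hm : 1 ≤ m) (u v : ℕ → ℤ) (W ρ : ℝ) (hne : ∃ k < m, u k ≠ 0 ∨ v k ≠ 0)
    (hW : ∀ k < m, |(u k : ℝ)| ≤ W ∧ |(v k : ℝ)| ≤ W) (hρ : (m : ℝ) ≤ ρ) :
    ∃ A B g : ℤ[X], g ≠ 0 ∧ g.natDegree ≤ m ∧ IsRelPrime A B ∧ max A.natDegree B.natDegree ≤ m ∧
      (∀ x P Q : ℤ, g.eval x ≠ 0 → bv m u x * P + bv m v x * Q = 0 →
        A.eval x * P + B.eval x * Q = 0) ∧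
      nz ρ A ≤ W * m * (4 * Real.exp 1) ^ m * ρ ^ (max A.natDegree B.natDegree) ∧
      nz ρ B ≤ W * m * (4 * Real.exp 1) ^ m * ρ ^ (max A.natDegree B.natDegree) := by
  classical
  have hW0 : 0 ≤ W := le_trans (abs_nonneg _) (hW 0 (by omega)).1
  set S : Finset ℕ := (Finset.range m).filter (fun k => u k ≠ 0 ∨ v k ≠ 0) with hS
  have hSne : S.Nonempty := by
    obtain ⟨k, hk, hk'⟩ := hne
    exact ⟨k, Finset.mem_filter.2 ⟨Finset.mem_range.2 hk, hk'⟩⟩
  set M := S.max' hSne with hMdef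
  have hMS : M ∈ S := Finset.max'_mem S hSne
  rw [hS, Finset.mem_filter, Finset.mem_range] at hMS
  obtain ⟨hMm, hMne⟩ := hMS
  have hbig : ∀ k, M < k → k < m → u k = 0 ∧ v k = 0 := by
    intro k hk hkm
    by_contra hcon
    have hk2 : u k ≠ 0 ∨ v k ≠ 0 := by
      by_contra h3
      push Not at h3
      exact hcon h3
    have h4 : k ≤ M := Finset.le_max' S k (Finset.mem_filter.2 ⟨Finset.mem_range.2 hkm, hk2⟩)
    omega
  have hcu := C1_coeff M u
  have hcv := C1_coeff M v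
  have hdu := C1_natDegree M u
  have hdv := C1_natDegree M v
  -- reduced factors
  obtain ⟨A, B, g, hrel, hgA, hgB, hgne⟩ : ∃ A B g : ℤ[X], IsRelPrime A B ∧ g * A = C1_pol M u ∧
      g * B = C1_pol M v ∧ g ≠ 0 := by
    rcases hMne with h | h
    · have hne0 : C1_pol M u ≠ 0 := by
        intro h0
        rw [h0, coeff_zero] at hcu
        exact h hcu.symm
      obtain ⟨A, B, g, h1, h2, h3⟩ := UniqueFactorizationMonoid.exists_reduced_factors (C1_pol M u) hne0 (C1_pol M v)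
      refine ⟨A, B, g, h1, h2, h3, ?_⟩
      rintro rfl
      rw [zero_mul] at h2
      exact hne0 h2.symm
    · have hne0 : C1_pol M v ≠ 0 := by
        intro h0
        rw [h0, coeff_zero] at hcv
        exact h hcv.symm
      obtain ⟨A, B, g, h1, h2, h3⟩ :=
        UniqueFactorizationMonoid.exists_reduced_factors' (C1_pol M u) (C1_pol M v) hne0
      refine ⟨A, B, g, h1, h2, h3, ?_⟩
      rintro rfl
      rw [zero_mul] at h3
      exact hne0 h3.symm
  have hdeg : M = g.natDegree + max A.natDegree B.natDegree := by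
    rcases hMne with h | h
    · refine C1_deg g A B M hgne ?_ ?_ ?_
      · rw [hgA, hcu]; exact h
      · rw [hgA]; exact hdu
      · rw [hgB]; exact hdv
    · rw [max_comm]
      refine C1_deg g B A M hgne ?_ ?_ ?_
      · rw [hgB, hcv]; exact h
      · rw [hgB]; exact hdv
      · rw [hgA]; exact hdu
  refine ⟨A, B, g, hgne, by omega, hrel, by omega, ?_, ?_, ?_⟩
  · intro x P Q hgx hx
    have e1 := C1_eval m M u hMm (fun k h1 h2 => (hbig k h1 h2).1) x
    have e2 := C1_eval m M v hMm (fun k h1 h2 => (hbig k h1 h2).2) x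
    rw [← hgA, eval_mul] at e1
    rw [← hgB, eval_mul] at e2
    have e3 : g.eval x * (A.eval x * P + B.eval x * Q) = 0 := by
      calc g.eval x * (A.eval x * P + B.eval x * Q) =
            (g.eval x * A.eval x) * P + (g.eval x * B.eval x) * Q := by ring
        _ = (M.factorial : ℤ) * (bv m u x * P + bv m v x * Q) := by rw [e1, e2]; ring
        _ = 0 := by rw [hx, mul_zero]
    exact (mul_eq_zero.1 e3).resolve_left hgx
  · exact C1_bound m M _ g A _ W ρ hm hgne hgA (le_max_left _ _) hdeg hMm hW0 hρ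
      (C1_norm m M u W ρ hMm hW0 (fun k hk => (hW k hk).1) hρ)
  · exact C1_bound m M _ g B _ W ρ hm hgne hgB (le_max_right _ _) hdeg hMm hW0 hρ
      (C1_norm m M v W ρ hMm hW0 (fun k hk => (hW k hk).2) hρ)

end Pool.Agent.LibER91
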