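import Pool.Agent.LibER91.N1

/-!
Row D1 (SHORT/MEDIUM, Mathlib + API N1): roots of `f + t` and the variation of `f`.

Plan. `far_root`: `F = f.map (Int.castRingHom ℂ) + C (t : ℂ)` has degree `r ≥ 1` and leading coefficient `lc f`
(`natDegree_add_C`, `leadingCoeff_add_of_degree_lt'`), it splits: `F(θ') = lc ∏ (θ' - ζ)` over the `r` roots
(`IsAlgClosed.splits`, `Polynomial.Splits.eval_eq_prod_roots` or `eval_eq_prod_roots_sub_of_splits_id`). If all roots had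
`‖ζ - θ‖ ≤ ρ`, then `‖θ' - ζ‖ ≤ 3 ρ` and `‖F(θ')‖ ≤ T (3ρ)^r`, contradiction to `hbig`.
`root_bound`: if `‖ζ‖ > 1`, `|lc| ‖ζ‖ ^ r ≤ (∑_{i<r} |f_i| + |t|) ‖ζ‖ ^ (r-1)`, `|lc| ≥ 1`, so
`‖ζ‖ ≤ T + (2^r T + 1) ≤ 2^(r+1) T`.
`eval_sub_le`: `|x^i - y^i| ≤ i (2R0)^(i-1) |x-y|` (`abs_pow_sub_pow_le`), `i (2 R0)^(i-1) ≤ r 2^r R0^i`.
`abs_eval_le_T`: `|f(θ)| ≤ ∑ |f_i| (2R0)^i ≤ 2^r T`.
-/

set_option autoImplicit false

open Polynomial

namespace Pool.Agent.LibER91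

private theorem D1_prod_le (s : Multiset ℂ) (z : ℂ) (M : ℝ) (hM : 0 ≤ M) (h : ∀ ζ ∈ s, ‖z - ζ‖ ≤ M) :
    ‖(s.map (z - ·)).prod‖ ≤ M ^ s.card := by
  induction s using Multiset.induction_on with
  | empty => simp
  | cons a s ih =>
    rw [Multiset.map_cons, Multiset.prod_cons, norm_mul, Multiset.card_cons, pow_succ']
    exact mul_le_mul (h a (Multiset.mem_cons_self a s))
      (ih fun ζ hζ => h ζ (Multiset.mem_cons_of_mem hζ)) (norm_nonneg _) hM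

private theorem D1_eval_real (f : ℤ[X]) (x : ℝ) :
    (f.map (Int.castRingHom ℂ)).eval (x : ℂ) = (((f.map (Int.castRingHom ℝ)).eval x : ℝ) : ℂ) := by
  rw [eval_map, eval_map]
  have h1 : (Int.castRingHom ℂ) = (Complex.ofRealHom).comp (Int.castRingHom ℝ) := by
    ext; simp
  rw [h1]
  exact (hom_eval₂ f (Int.castRingHom ℝ) Complex.ofRealHom x).symm

theorem far_root (f : ℤ[X]) (r : ℕ) (hr : 1 ≤ r) (hf : f.natDegree = r) (T : ℝ)
    (hlc : |(f.leadingCoeff : ℝ)| ≤ T) (t : ℤ) (θ θ' ρ : ℝ) (hρ : 0 < ρ) (hθ : |θ' - θ| ≤ 2 * ρ)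
    (hbig : T * (3 * ρ) ^ r < |(f.map (Int.castRingHom ℝ)).eval θ' + t|) :
    ∃ ζ : ℂ, (f.map (Int.castRingHom ℂ)).eval ζ + t = 0 ∧ ρ < ‖ζ - (θ : ℂ)‖ := by
  by_contra hcon
  push Not at hcon
  have hnd : (f + C t).natDegree = r := by rw [natDegree_add_C, hf]
  have hlc1 : (f + C t).leadingCoeff = f.leadingCoeff := by
    rw [leadingCoeff, leadingCoeff, hnd, hf, coeff_add, coeff_C, if_neg (by omega), add_zero]
  set F : ℂ[X] := (f + C t).map (Int.castRingHom ℂ) with hF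
  have hinj : Function.Injective (Int.castRingHom ℂ) := by
    intro a b hab
    simpa using hab
  have hFd : F.natDegree = r := by rw [hF, natDegree_map_eq_of_injective hinj, hnd]
  have hFl : F.leadingCoeff = (f.leadingCoeff : ℂ) := by
    rw [hF, leadingCoeff_map_of_injective hinj, hlc1]
    simp
  have hFe : ∀ z : ℂ, F.eval z = (f.map (Int.castRingHom ℂ)).eval z + t := by
    intro z
    rw [hF, Polynomial.map_add, eval_add, Polynomial.map_C, eval_C]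
    simp
  have hF0 : F ≠ 0 := by
    intro h0
    rw [h0, natDegree_zero] at hFd
    omega
  have hsp : F.Splits := IsAlgClosed.splits F
  have hcard : F.roots.card = r := by rw [← hsp.natDegree_eq_card_roots, hFd]
  have h1 := hsp.eval_eq_prod_roots (θ' : ℂ)
  have h2 : ‖F.eval (θ' : ℂ)‖ ≤ T * (3 * ρ) ^ r := by
    rw [h1, norm_mul, hFl]
    refine mul_le_mul ?_ ?_ (norm_nonneg _) (le_trans (abs_nonneg _) hlc)
    · rw [Complex.norm_intCast]
      exact hlc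
    · rw [← hcard]
      refine D1_prod_le F.roots (θ' : ℂ) (3 * ρ) (by positivity) fun ζ hζ => ?_
      rw [mem_roots hF0, IsRoot.def, hFe] at hζ
      have h3 := hcon ζ hζ
      have h4 : (θ' : ℂ) - ζ = ((θ' - θ : ℝ) : ℂ) - (ζ - θ) := by push_cast; ring
      rw [h4]
      refine (norm_sub_le _ _).trans ?_
      rw [Complex.norm_real, Real.norm_eq_abs]
      linarith
  rw [hFe, D1_eval_real] at h2
  have h5 : (((f.map (Int.castRingHom ℝ)).eval θ' : ℝ) : ℂ) + (t : ℂ) =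
      (((f.map (Int.castRingHom ℝ)).eval θ' + t : ℝ) : ℂ) := by push_cast; ring
  rw [h5, Complex.norm_real, Real.norm_eq_abs] at h2
  linarith

theorem root_bound (f : ℤ[X]) (r : ℕ) (hr : 1 ≤ r) (hf : f.natDegree = r) (T : ℝ) (hT : nz 1 f ≤ T)
    (t : ℤ) (ht : |(t : ℝ)| ≤ 2 ^ r * T + 1) (ζ : ℂ)
    (hζ : (f.map (Int.castRingHom ℂ)).eval ζ + t = 0) : ‖ζ‖ ≤ 2 ^ (r + 1) * T := by
  have hnz : nz 1 f = ∑ i ∈ Finset.range (r + 1), |(f.coeff i : ℝ)| := by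
    rw [nz_eq 1 f (r + 1) (by omega)]
    exact Finset.sum_congr rfl fun i _ => by rw [one_pow, mul_one]
  have hf0 : f.coeff r ≠ 0 := by
    rw [← hf]
    exact (leadingCoeff_ne_zero.mpr (by rintro rfl; rw [natDegree_zero] at hf; omega))
  have hlc1 : 1 ≤ |(f.coeff r : ℝ)| := by
    have h1 : 1 ≤ |f.coeff r| := Int.one_le_abs hf0
    exact_mod_cast h1
  rw [Finset.sum_range_succ] at hnz
  set S : ℝ := ∑ i ∈ Finset.range r, |(f.coeff i : ℝ)| with hS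
  have hS0 : 0 ≤ S := Finset.sum_nonneg fun i _ => abs_nonneg _
  have hT1 : 1 ≤ T := by linarith
  have h2r : (2 : ℝ) ≤ 2 ^ r := by
    calc (2 : ℝ) = 2 ^ 1 := (pow_one 2).symm
      _ ≤ 2 ^ r := pow_le_pow_right₀ (by norm_num) hr
  by_cases hz : ‖ζ‖ ≤ 1
  · refine hz.trans ?_
    have h3 : (1 : ℝ) ≤ 2 ^ (r + 1) := one_le_pow₀ (by norm_num)
    nlinarith
  push Not at hz
  have hz0 : 0 < ‖ζ‖ := by linarith
  rw [eval_map, eval₂_eq_sum_range, hf, Finset.sum_range_succ] at hζ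
  have h4 : (f.coeff r : ℂ) * ζ ^ r = -(∑ i ∈ Finset.range r, (f.coeff i : ℂ) * ζ ^ i + t) := by
    have h5 : ∑ i ∈ Finset.range r, (Int.castRingHom ℂ) (f.coeff i) * ζ ^ i =
        ∑ i ∈ Finset.range r, (f.coeff i : ℂ) * ζ ^ i := Finset.sum_congr rfl fun i _ => by simp
    rw [h5] at hζ
    have h6 : (Int.castRingHom ℂ) (f.coeff r) = (f.coeff r : ℂ) := by simp
    rw [h6] at hζ
    linear_combination hζ
  obtain ⟨m, rfl⟩ : ∃ m, r = m + 1 := ⟨r - 1, by omega⟩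
  have h7 : ‖(f.coeff (m + 1) : ℂ) * ζ ^ (m + 1)‖ ≤ (S + |(t : ℝ)|) * ‖ζ‖ ^ m := by
    rw [h4, norm_neg]
    refine (norm_add_le _ _).trans ?_
    rw [add_mul]
    refine add_le_add ?_ ?_
    · refine (norm_sum_le _ _).trans ?_
      rw [hS, Finset.sum_mul]
      refine Finset.sum_le_sum fun i hi => ?_
      rw [norm_mul, norm_pow, Complex.norm_intCast]
      rw [Finset.mem_range] at hi
      exact mul_le_mul_of_nonneg_left (pow_le_pow_right₀ hz.le (by omega)) (abs_nonneg _)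
    · rw [Complex.norm_intCast]
      exact le_mul_of_one_le_right (abs_nonneg _) (one_le_pow₀ hz.le)
  rw [norm_mul, norm_pow, Complex.norm_intCast, pow_succ', ← mul_assoc] at h7
  have h8 : |(f.coeff (m + 1) : ℝ)| * ‖ζ‖ ≤ S + |(t : ℝ)| :=
    le_of_mul_le_mul_right h7 (pow_pos hz0 m)
  have h9 : ‖ζ‖ ≤ |(f.coeff (m + 1) : ℝ)| * ‖ζ‖ := le_mul_of_one_le_left hz0.le hlc1
  have h10 : (2 : ℝ) ^ (m + 1 + 1) = 2 * 2 ^ (m + 1) := pow_succ' _ _
  rw [h10]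
  have h11 : S ≤ T - 1 := by linarith
  nlinarith

private theorem D1_two (i r : ℕ) (h : i ≤ r) (R0 : ℝ) (hR : 1 ≤ R0) :
    (i : ℝ) * (2 * R0) ^ (i - 1) ≤ r * 2 ^ r * R0 ^ i := by
  rcases Nat.eq_zero_or_pos i with rfl | hi
  · simp
  · rw [mul_pow, mul_assoc]
    refine mul_le_mul (by exact_mod_cast h) ?_ (by positivity) (by positivity)
    refine mul_le_mul (pow_le_pow_right₀ (by norm_num) (by omega)) (pow_le_pow_right₀ hR (by omega))
      (by positivity) (by positivity)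

theorem eval_sub_le (f : ℤ[X]) (r : ℕ) (hf : f.natDegree ≤ r) (R0 T : ℝ) (hR : 1 ≤ R0)
    (hT : nz R0 f ≤ T) (x y : ℝ) (hx : |x| ≤ 2 * R0) (hy : |y| ≤ 2 * R0) :
    |(f.map (Int.castRingHom ℝ)).eval x - (f.map (Int.castRingHom ℝ)).eval y| ≤
      r * 2 ^ r * T * |x - y| := by
  have hd : (f.map (Int.castRingHom ℝ)).natDegree < r + 1 :=
    lt_of_le_of_lt natDegree_map_le (by omega)
  rw [eval_eq_sum_range' hd, eval_eq_sum_range' hd, ← Finset.sum_sub_distrib]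
  have h0 : (r : ℝ) * 2 ^ r * nz R0 f * |x - y| ≤ r * 2 ^ r * T * |x - y| := by
    gcongr
  refine le_trans ?_ h0
  rw [nz_eq R0 f (r + 1) (by omega), Finset.mul_sum, Finset.sum_mul]
  refine (Finset.abs_sum_le_sum_abs _ _).trans (Finset.sum_le_sum fun i hi => ?_)
  rw [Finset.mem_range] at hi
  rw [← mul_sub, abs_mul, coeff_map]
  have h1 := abs_pow_sub_pow_le x y i
  have h2 : (max |x| |y|) ^ (i - 1) ≤ (2 * R0) ^ (i - 1) :=
    pow_le_pow_left₀ (le_max_of_le_left (abs_nonneg _)) (max_le hx hy) _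
  have h3 := D1_two i r (by omega) R0 hR
  have h4 : |x ^ i - y ^ i| ≤ |x - y| * (r * 2 ^ r * R0 ^ i) := by
    refine h1.trans ?_
    rw [mul_assoc]
    refine mul_le_mul_of_nonneg_left ?_ (abs_nonneg _)
    exact le_trans (mul_le_mul_of_nonneg_left h2 (Nat.cast_nonneg i)) h3
  have h5 : |(Int.castRingHom ℝ) (f.coeff i)| = |(f.coeff i : ℝ)| := rfl
  rw [h5]
  calc |(f.coeff i : ℝ)| * |x ^ i - y ^ i| ≤ |(f.coeff i : ℝ)| * (|x - y| * (r * 2 ^ r * R0 ^ i)) :=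
        mul_le_mul_of_nonneg_left h4 (abs_nonneg _)
    _ = r * 2 ^ r * (|(f.coeff i : ℝ)| * R0 ^ i) * |x - y| := by ring

theorem abs_eval_le_T (f : ℤ[X]) (r : ℕ) (hf : f.natDegree ≤ r) (R0 T : ℝ) (hR : 1 ≤ R0)
    (hT : nz R0 f ≤ T) (x : ℝ) (hx : |x| ≤ 2 * R0) :
    |(f.map (Int.castRingHom ℝ)).eval x| ≤ 2 ^ r * T := by
  have hd : (f.map (Int.castRingHom ℝ)).natDegree < r + 1 :=
    lt_of_le_of_lt natDegree_map_le (by omega)
  rw [eval_eq_sum_range' hd]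
  have h0 : (2 : ℝ) ^ r * nz R0 f ≤ 2 ^ r * T := by
    gcongr
  refine le_trans ?_ h0
  rw [nz_eq R0 f (r + 1) (by omega), Finset.mul_sum]
  refine (Finset.abs_sum_le_sum_abs _ _).trans (Finset.sum_le_sum fun i hi => ?_)
  rw [Finset.mem_range] at hi
  rw [abs_mul, coeff_map, abs_pow]
  have h5 : |(Int.castRingHom ℝ) (f.coeff i)| = |(f.coeff i : ℝ)| := rfl
  rw [h5]
  have h6 : |x| ^ i ≤ 2 ^ r * R0 ^ i := by
    refine (pow_le_pow_left₀ (abs_nonneg _) hx i).trans ?_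
    rw [mul_pow]
    exact mul_le_mul_of_nonneg_right (pow_le_pow_right₀ (by norm_num) (by omega)) (by positivity)
  calc |(f.coeff i : ℝ)| * |x| ^ i ≤ |(f.coeff i : ℝ)| * (2 ^ r * R0 ^ i) :=
        mul_le_mul_of_nonneg_left h6 (abs_nonneg _)
    _ = 2 ^ r * (|(f.coeff i : ℝ)| * R0 ^ i) := by ring

end Pool.Agent.LibER91
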