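import Pool.Agent.LibER91.D1

/-!
Row D2 (MEDIUM/STRONG): the lower bound for the degree of the relation (a rational function of small degree cannot
approximate an algebraic function of degree `r ≥ 2` too well).

Plan. Choose `P_t, Q_t` for `t ∈ S`, `θ_t = P_t / Q_t`, `|θ_t| ≤ R0 + ρ1 ≤ 2 R0`, `δ_t = 1 / Q_t ^ r`,
`|δ_t| ≤ exp (-(9/10) r L) ≤ 1/4`, and `t = δ_t - f(θ_t)` (divide `Sol` by `Q_t ^ r`).
`Φ = (B.map).comp (-(f.map) - C t0) + X * (A.map).comp (-(f.map) - C t0)` over `ℂ`, degree `≤ r D + 1`.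
(i) `Φ(θ_t) = [B(x - δ) - B(x)] + θ_t [A(x - δ) - A(x)]`, `x = t - t0` since `B(x) + θ_t A(x) = 0`; by `nz_shift` (N1)
`‖Φ(θ_t)‖ ≤ 3 R0 D N exp (-(9/10) r L)`.
(ii) `t* = min S`, `t' = max S`: `|t' - t*| ≥ card - 1`, so `|f(θ_{t'}) + t*| = |δ_{t'} - t' + t*| ≥ card - 1 - 1/4 > card - 2 >
T (3ρ1)^r`, `|θ_{t'} - θ_{t*}| ≤ 2 ρ1`; `far_root` gives `ζ` with `f(ζ) + t* = 0`, `‖ζ - θ_{t*}‖ > ρ1`;
`Φ(ζ) = B(t* - t0) + ζ A(t* - t0) = A(t* - t0) (ζ - θ_{t*})`, so `‖Φ(ζ)‖ ≥ ρ1`. `|t*| ≤ 1/4 + 2^r T` (`abs_eval_le_T`), so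
`‖ζ‖ ≤ 2^(r+1) T` (`root_bound`; `nz 1 f ≤ nz R0 f`).
(iii) Lagrange interpolation at `r D + 2` of the nodes `θ_t` (`Lagrange.sum_basis`/`Lagrange.eq_interpolate`; distinct nodes):
`Φ(ζ) = ∑_i Φ(θ_i) ∏_{j≠i} (ζ - θ_j)/(θ_i - θ_j)`. For `i ≠ j`: `|f(θ_i) - f(θ_j)| = |δ_i - δ_j - (t_i - t_j)| ≥ 1/2`, with
`eval_sub_le`: `|θ_i - θ_j| ≥ 1/(r 2^(r+1) T)`; `‖ζ - θ_j‖ ≤ 2^(r+1) T + 2 R0 ≤ 2^(r+2) T` (`R0 ≤ nz R0 f ≤ T` as `|lc f| ≥ 1`).
So every factor is `≤ r 2^(2r+3) T^2`, and there are `r D + 1` factors in each product, `r D + 2` summands.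
-/

set_option autoImplicit false

open Polynomial

namespace Pool.Agent.LibER91

private lemma D2_evalC (g : ℤ[X]) (x : ℝ) : (g.map (Int.castRingHom ℂ)).eval (x : ℂ) =
    (((g.map (Int.castRingHom ℝ)).eval x : ℝ) : ℂ) := by
  have h1 : g.map (Int.castRingHom ℂ) = (g.map (Int.castRingHom ℝ)).map Complex.ofRealHom := by
    rw [Polynomial.map_map]
    congr 1
  have h2 : ((x : ℝ) : ℂ) = Complex.ofRealHom x := rfl
  rw [h1, h2, eval_map, eval₂_at_apply]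
  rfl

private lemma D2_evalZ (g : ℤ[X]) (n : ℤ) : (g.map (Int.castRingHom ℝ)).eval (n : ℝ) =
    ((g.eval n : ℤ) : ℝ) := by
  rw [eval_intCast_map]
  rfl

private lemma D2_sol (f : ℤ[X]) (r : ℕ) (hf : f.natDegree = r) (t P Q : ℤ) (h : Sol f r t P Q) :
    (f.map (Int.castRingHom ℝ)).eval ((P : ℝ) / Q) + t = 1 / (Q : ℝ) ^ r := by
  obtain ⟨hQ, h1⟩ := h
  have hQ' : (Q : ℝ) ≠ 0 := by exact_mod_cast hQ
  have h2 : ∑ i ∈ Finset.range (r + 1), (f.coeff i : ℝ) * (P : ℝ) ^ i * (Q : ℝ) ^ (r - i) +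
      (t : ℝ) * (Q : ℝ) ^ r = 1 := by exact_mod_cast h1
  have hdeg : (f.map (Int.castRingHom ℝ)).natDegree < r + 1 := by
    have := natDegree_map_le (f := Int.castRingHom ℝ) (p := f)
    omega
  rw [eval_eq_sum_range' hdeg]
  rw [eq_div_iff (pow_ne_zero _ hQ'), add_mul, Finset.sum_mul, ← h2]
  congr 1
  refine Finset.sum_congr rfl fun i hi => ?_
  rw [Finset.mem_range] at hi
  have h3 : (Q : ℝ) ^ r = (Q : ℝ) ^ i * (Q : ℝ) ^ (r - i) := by
    rw [← pow_add]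
    congr 1
    omega
  rw [coeff_map, h3, div_pow]
  have h4 : (Q : ℝ) ^ i ≠ 0 := pow_ne_zero _ hQ'
  field_simp
  simp
  ring

/-- The auxiliary polynomial. -/
private noncomputable def D2_Phi (f A B : ℤ[X]) (t0 : ℤ) : ℂ[X] :=
  (B.map (Int.castRingHom ℂ)).comp (-(f.map (Int.castRingHom ℂ)) - C (t0 : ℂ)) +
    X * (A.map (Int.castRingHom ℂ)).comp (-(f.map (Int.castRingHom ℂ)) - C (t0 : ℂ))

private lemma D2_deg (f A B : ℤ[X]) (t0 : ℤ) (r D : ℕ) (hf : f.natDegree = r) (hA : A.natDegree ≤ D)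
    (hB : B.natDegree ≤ D) : (D2_Phi f A B t0).natDegree ≤ r * D + 1 := by
  have h1 : (-(f.map (Int.castRingHom ℂ)) - C (t0 : ℂ)).natDegree ≤ r := by
    refine (natDegree_sub_le _ _).trans ?_
    rw [natDegree_neg, natDegree_C]
    have := natDegree_map_le (f := Int.castRingHom ℂ) (p := f)
    exact max_le (by omega) (Nat.zero_le _)
  have h2 : ∀ G : ℤ[X], G.natDegree ≤ D →
      ((G.map (Int.castRingHom ℂ)).comp (-(f.map (Int.castRingHom ℂ)) - C (t0 : ℂ))).natDegree ≤ r * D := by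
    intro G hG
    refine natDegree_comp_le.trans ?_
    have := natDegree_map_le (f := Int.castRingHom ℂ) (p := G)
    calc (G.map (Int.castRingHom ℂ)).natDegree * _ ≤ D * r := Nat.mul_le_mul (by omega) h1
      _ = r * D := Nat.mul_comm _ _
  unfold D2_Phi
  refine natDegree_add_le_of_degree_le ((h2 B hB).trans (Nat.le_succ _)) ?_
  refine natDegree_mul_le.trans ?_
  rw [natDegree_X]
  have := h2 A hA
  omega

private lemma D2_eval (f A B : ℤ[X]) (t0 : ℤ) (z : ℂ) : (D2_Phi f A B t0).eval z =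
    (B.map (Int.castRingHom ℂ)).eval (-(f.map (Int.castRingHom ℂ)).eval z - t0) +
      z * (A.map (Int.castRingHom ℂ)).eval (-(f.map (Int.castRingHom ℂ)).eval z - t0) := by
  unfold D2_Phi
  simp [eval_comp]

private lemma D2_node (f : ℤ[X]) (R0 ρ N : ℝ) (hR : 1 ≤ R0) (t0 : ℤ) (A B : ℤ[X]) (D : ℕ)
    (hAD : A.natDegree ≤ D) (hBD : B.natDegree ≤ D) (hA : nz ρ A ≤ N) (hB : nz ρ B ≤ N)
    (t P Q : ℤ) (hQ : Q ≠ 0) (th δ E : ℝ) (hth : th = (P : ℝ) / Q)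
    (hfth : (f.map (Int.castRingHom ℝ)).eval th + t = δ) (hδ : |δ| ≤ E) (hE : E ≤ 1 / 4)
    (hth2 : |th| ≤ 2 * R0) (hrel : A.eval (t - t0) * P + B.eval (t - t0) * Q = 0)
    (hx : |((t - t0 : ℤ) : ℝ)| + 1 ≤ ρ) :
    ‖(D2_Phi f A B t0).eval (th : ℂ)‖ ≤ 3 * R0 * D * N * E := by
  have hρ : 1 ≤ ρ := le_trans (by linarith [abs_nonneg ((t - t0 : ℤ) : ℝ)]) hx
  have hQ' : (Q : ℝ) ≠ 0 := by exact_mod_cast hQ
  have hE0 : 0 ≤ E := (abs_nonneg _).trans hδ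
  set x : ℝ := ((t - t0 : ℤ) : ℝ) with hxdef
  have hx' : x = (t : ℝ) - t0 := by rw [hxdef]; push_cast; ring
  have hval : (-(f.map (Int.castRingHom ℂ)).eval (th : ℂ) - (t0 : ℂ)) = ((x - δ : ℝ) : ℂ) := by
    rw [D2_evalC, ← hfth, hx']
    push_cast
    ring
  have hxδ : |x - δ| ≤ ρ := by
    refine (abs_sub x δ).trans ?_
    linarith
  have hxρ : |x| ≤ ρ := by linarith
  rw [D2_eval, hval, D2_evalC, D2_evalC]
  have hBx : (B.map (Int.castRingHom ℝ)).eval x = ((B.eval (t - t0) : ℤ) : ℝ) := D2_evalZ B _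
  have hAx : (A.map (Int.castRingHom ℝ)).eval x = ((A.eval (t - t0) : ℤ) : ℝ) := D2_evalZ A _
  have hzero : (B.map (Int.castRingHom ℝ)).eval x + th * (A.map (Int.castRingHom ℝ)).eval x = 0 := by
    rw [hBx, hAx, hth]
    have h1 : ((A.eval (t - t0) : ℤ) : ℝ) * P + ((B.eval (t - t0) : ℤ) : ℝ) * Q = 0 := by
      exact_mod_cast hrel
    field_simp
    linarith
  have hreal : ((((B.map (Int.castRingHom ℝ)).eval (x - δ) : ℝ) : ℂ) +
      (th : ℂ) * (((A.map (Int.castRingHom ℝ)).eval (x - δ) : ℝ) : ℂ)) =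
      ((((B.map (Int.castRingHom ℝ)).eval (x - δ) - (B.map (Int.castRingHom ℝ)).eval x) +
        th * ((A.map (Int.castRingHom ℝ)).eval (x - δ) - (A.map (Int.castRingHom ℝ)).eval x) : ℝ) : ℂ) := by
    rw [show ((B.map (Int.castRingHom ℝ)).eval (x - δ) - (B.map (Int.castRingHom ℝ)).eval x) +
        th * ((A.map (Int.castRingHom ℝ)).eval (x - δ) - (A.map (Int.castRingHom ℝ)).eval x) =
        (B.map (Int.castRingHom ℝ)).eval (x - δ) + th * (A.map (Int.castRingHom ℝ)).eval (x - δ) -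
        ((B.map (Int.castRingHom ℝ)).eval x + th * (A.map (Int.castRingHom ℝ)).eval x) by ring, hzero]
    push_cast
    ring
  rw [hreal, Complex.norm_real, Real.norm_eq_abs]
  have h1 := nz_shift ρ hρ B D hBD x δ hxρ hxδ
  have h2 := nz_shift ρ hρ A D hAD x δ hxρ hxδ
  have hN : 0 ≤ N := le_trans (nz_nonneg ρ (by linarith) A) hA
  have hD : (0 : ℝ) ≤ D := Nat.cast_nonneg D
  have h3 : |δ| * D * nz ρ B ≤ E * D * N :=
    mul_le_mul (mul_le_mul_of_nonneg_right hδ hD) hB (nz_nonneg ρ (by linarith) B) (by positivity)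
  have h4 : |δ| * D * nz ρ A ≤ E * D * N :=
    mul_le_mul (mul_le_mul_of_nonneg_right hδ hD) hA (nz_nonneg ρ (by linarith) A) (by positivity)
  refine (abs_add_le _ _).trans ?_
  rw [abs_mul]
  have h5 : |th| * |(A.map (Int.castRingHom ℝ)).eval (x - δ) - (A.map (Int.castRingHom ℝ)).eval x| ≤
      2 * R0 * (E * D * N) := mul_le_mul hth2 (h2.trans h4) (abs_nonneg _) (by positivity)
  have h6 : 0 ≤ E * D * N := by positivity
  calc _ ≤ E * D * N + 2 * R0 * (E * D * N) := add_le_add (h1.trans h3) h5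
    _ ≤ R0 * (E * D * N) + 2 * R0 * (E * D * N) := by nlinarith
    _ = 3 * R0 * D * N * E := by ring

private lemma D2_lagrange (Φ : ℂ[X]) (n : ℕ) (hΦ : Φ.natDegree ≤ n) (ι : Type) [DecidableEq ι] (s : Finset ι)
    (v : ι → ℂ) (hs : s.card = n + 1) (ζ : ℂ) (K c : ℝ) (hK : 0 ≤ K) (hc : 0 < c)
    (hv : ∀ i ∈ s, ∀ j ∈ s, i ≠ j → c ≤ ‖v i - v j‖) (hz : ∀ j ∈ s, ‖ζ - v j‖ ≤ K * c)
    (M : ℝ) (hM : ∀ i ∈ s, ‖Φ.eval (v i)‖ ≤ M) : ‖Φ.eval ζ‖ ≤ (n + 1) * M * K ^ n := by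
  have hinj : Set.InjOn v s := by
    intro i hi j hj hij
    by_contra hne
    have h1 := hv i hi j hj hne
    rw [hij, sub_self, norm_zero] at h1
    linarith
  have hdeg : Φ.degree < (s.card : WithBot ℕ) := by
    rw [hs]
    refine lt_of_le_of_lt (degree_le_natDegree) ?_
    exact_mod_cast Nat.lt_succ_of_le hΦ
  have hΦeq := Lagrange.eq_interpolate (v := v) hinj hdeg
  have h1 : Φ.eval ζ = ∑ i ∈ s, Φ.eval (v i) * ∏ j ∈ s.erase i, ((v i - v j)⁻¹ * (ζ - v j)) := by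
    conv_lhs => rw [hΦeq]
    rw [Lagrange.interpolate_apply, eval_finsetSum]
    refine Finset.sum_congr rfl fun i _ => ?_
    rw [eval_mul, eval_C, Lagrange.basis, eval_prod]
    congr 1
    refine Finset.prod_congr rfl fun j _ => ?_
    simp [Lagrange.basisDivisor]
  rw [h1]
  refine (norm_sum_le _ _).trans ?_
  have h2 : ∀ i ∈ s, ‖Φ.eval (v i) * ∏ j ∈ s.erase i, ((v i - v j)⁻¹ * (ζ - v j))‖ ≤ M * K ^ n := by
    intro i hi
    rw [norm_mul]
    have h3 : ‖∏ j ∈ s.erase i, ((v i - v j)⁻¹ * (ζ - v j))‖ ≤ K ^ n := by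
      rw [norm_prod]
      have h4 : ∀ j ∈ s.erase i, ‖(v i - v j)⁻¹ * (ζ - v j)‖ ≤ K := by
        intro j hj
        rw [Finset.mem_erase] at hj
        rw [norm_mul, norm_inv]
        have h5 := hv i hi j hj.2 (Ne.symm hj.1)
        have h6 := hz j hj.2
        have h7 : 0 < ‖v i - v j‖ := lt_of_lt_of_le hc h5
        rw [inv_mul_le_iff₀ h7]
        refine h6.trans ?_
        rw [mul_comm]
        exact mul_le_mul_of_nonneg_right h5 hK
      refine (Finset.prod_le_prod (fun j _ => norm_nonneg _) h4).trans ?_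
      rw [Finset.prod_const, Finset.card_erase_of_mem hi, hs, Nat.add_sub_cancel]
    exact mul_le_mul (hM i hi) h3 (norm_nonneg _) (le_trans (norm_nonneg _) (hM i hi))
  refine (Finset.sum_le_sum h2).trans ?_
  rw [Finset.sum_const, hs, nsmul_eq_mul]
  push_cast
  rw [mul_assoc]

theorem degree_ineq (f : ℤ[X]) (r : ℕ) (hr : 2 ≤ r) (hf : f.natDegree = r) (R0 T θ ρ1 ρ N L : ℝ)
    (hR : 1 ≤ R0) (hT : nz R0 f ≤ T) (hθ : |θ| ≤ R0) (hρ1 : 0 < ρ1) (hρ1' : ρ1 ≤ 1) (hρ : 1 ≤ ρ)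
    (t0 : ℤ) (A B : ℤ[X]) (D : ℕ) (hAD : A.natDegree ≤ D) (hBD : B.natDegree ≤ D)
    (hA : nz ρ A ≤ N) (hB : nz ρ B ≤ N) (S : Finset ℤ)
    (hS : ∀ t ∈ S, ∃ P Q : ℤ, Sol f r t P Q ∧ Real.exp (9 / 10 * L) ≤ |(Q : ℝ)| ∧
      |(P : ℝ) / Q - θ| ≤ ρ1 ∧ A.eval (t - t0) * P + B.eval (t - t0) * Q = 0)
    (hSρ : ∀ t ∈ S, |((t - t0 : ℤ) : ℝ)| + 1 ≤ ρ) (hSA : ∀ t ∈ S, A.eval (t - t0) ≠ 0)
    (hcard : r * D + 2 ≤ S.card) (hspread : T * (3 * ρ1) ^ r < (S.card : ℝ) - 2)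
    (hL : 4 ≤ Real.exp (9 / 10 * r * L)) :
    ρ1 ≤ (r * D + 2) * (3 * R0 * D * N * Real.exp (-(9 / 10 * r * L))) *
      (r * 2 ^ (2 * r + 3) * T ^ 2) ^ (r * D + 1) := by
  classical
  have hr0 : (0 : ℝ) < r := by exact_mod_cast (by omega : 0 < r)
  set E : ℝ := Real.exp (-(9 / 10 * r * L)) with hEdef
  have hE0 : 0 < E := Real.exp_pos _
  have hE : E ≤ 1 / 4 := by
    rw [hEdef, Real.exp_neg, one_div]
    exact inv_anti₀ (by norm_num) hL
  -- size of T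
  have hlc1 : (1 : ℝ) ≤ |(f.coeff r : ℝ)| := by
    have h1 : f.coeff r ≠ 0 := by
      rw [← hf, coeff_natDegree]
      intro h0
      rw [leadingCoeff_eq_zero] at h0
      rw [h0, natDegree_zero] at hf
      omega
    have h2 : 1 ≤ |f.coeff r| := Int.one_le_abs h1
    exact_mod_cast h2
  have hRT : R0 ≤ T := by
    have h1 := abs_coeff_le R0 (by linarith) (f.map (Int.castRingHom ℝ)) r
    rw [coeff_map] at h1
    have h2 : R0 ≤ R0 ^ r := le_self_pow₀ hR (by omega)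
    have h3 : R0 ^ r ≤ |(f.coeff r : ℝ)| * R0 ^ r := le_mul_of_one_le_left (by positivity) hlc1
    exact (h2.trans h3).trans (h1.trans hT)
  have hT1 : 1 ≤ T := hR.trans hRT
  -- the nodes
  choose! P Q hSol hQL hPQ hrel using hS
  set th : ℤ → ℝ := fun t => (P t : ℝ) / Q t with hthdef
  set δ : ℤ → ℝ := fun t => 1 / (Q t : ℝ) ^ r with hδdef
  have hfth : ∀ t ∈ S, (f.map (Int.castRingHom ℝ)).eval (th t) + t = δ t := fun t ht =>
    D2_sol f r hf t (P t) (Q t) (hSol t ht)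
  have hδ : ∀ t ∈ S, |δ t| ≤ E := by
    intro t ht
    have hQ0 : (Q t : ℝ) ≠ 0 := by exact_mod_cast (hSol t ht).1
    have h1 : Real.exp (9 / 10 * L) ^ r ≤ |(Q t : ℝ)| ^ r :=
      pow_le_pow_left₀ (Real.exp_pos _).le (hQL t ht) r
    have h2 : Real.exp (9 / 10 * L) ^ r = Real.exp (9 / 10 * r * L) := by
      rw [← Real.exp_nat_mul]
      congr 1
      ring
    rw [h2] at h1
    rw [hδdef]
    simp only
    rw [abs_div, abs_one, abs_pow, hEdef, Real.exp_neg, one_div]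
    exact inv_anti₀ (Real.exp_pos _) h1
  have hth2 : ∀ t ∈ S, |th t| ≤ 2 * R0 := by
    intro t ht
    have h1 := hPQ t ht
    have h2 : |th t| ≤ |th t - θ| + |θ| := by
      calc |th t| = |(th t - θ) + θ| := by ring_nf
        _ ≤ _ := abs_add_le _ _
    have h3 : |th t - θ| ≤ ρ1 := h1
    linarith
  -- separation
  have hsep : ∀ s ∈ S, ∀ t ∈ S, s ≠ t → 1 / (r * 2 ^ (r + 1) * T) ≤ |th s - th t| := by
    intro s hs t ht hst
    have h1 := eval_sub_le f r hf.le R0 T hR hT (th s) (th t) (hth2 s hs) (hth2 t ht)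
    have h2 : (1 : ℝ) / 2 ≤ |(f.map (Int.castRingHom ℝ)).eval (th s) -
        (f.map (Int.castRingHom ℝ)).eval (th t)| := by
      have e1 : (f.map (Int.castRingHom ℝ)).eval (th s) - (f.map (Int.castRingHom ℝ)).eval (th t) =
          (δ s - δ t) - ((s : ℝ) - t) := by
        rw [← hfth s hs, ← hfth t ht]
        ring
      rw [e1]
      have e2 : (1 : ℝ) ≤ |(s : ℝ) - t| := by
        have : 1 ≤ |s - t| := Int.one_le_abs (sub_ne_zero.2 hst)
        exact_mod_cast this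
      have e3 : |δ s - δ t| ≤ 1 / 2 := by
        refine (abs_sub _ _).trans ?_
        have := hδ s hs
        have := hδ t ht
        linarith
      have e4 : |(s : ℝ) - t| - |δ s - δ t| ≤ |(δ s - δ t) - ((s : ℝ) - t)| := by
        rw [abs_sub_comm (δ s - δ t) ((s : ℝ) - t)]
        exact abs_sub_abs_le_abs_sub _ _
      linarith
    have h3 : (0 : ℝ) < r * 2 ^ (r + 1) * T := by positivity
    rw [div_le_iff₀ h3]
    have h4 : (1 : ℝ) / 2 ≤ r * 2 ^ r * T * |th s - th t| := h2.trans h1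
    have h5 : |th s - th t| * (r * 2 ^ (r + 1) * T) = 2 * (r * 2 ^ r * T * |th s - th t|) := by
      rw [pow_succ]
      ring
    rw [h5]
    linarith
  -- extreme elements
  have hSne : S.Nonempty := by
    rw [← Finset.card_pos]
    omega
  set t1 := S.min' hSne with ht1
  set t2 := S.max' hSne with ht2
  have ht1S : t1 ∈ S := Finset.min'_mem S hSne
  have ht2S : t2 ∈ S := Finset.max'_mem S hSne
  have hlen : (S.card : ℤ) ≤ t2 - t1 + 1 := by
    have h1 : S ⊆ Finset.Icc t1 t2 := by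
      intro t ht
      rw [Finset.mem_Icc]
      exact ⟨Finset.min'_le S t ht, Finset.le_max' S t ht⟩
    have h2 := Finset.card_le_card h1
    rw [Int.card_Icc] at h2
    have h3 : t1 ≤ t2 := Finset.min'_le S t2 ht2S
    omega
  have hlen' : (S.card : ℝ) ≤ (t2 : ℝ) - t1 + 1 := by exact_mod_cast hlen
  have hbig : T * (3 * ρ1) ^ r < |(f.map (Int.castRingHom ℝ)).eval (th t2) + t1| := by
    have e1 : (f.map (Int.castRingHom ℝ)).eval (th t2) + t1 = δ t2 - ((t2 : ℝ) - t1) := by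
      rw [← hfth t2 ht2S]
      ring
    rw [e1]
    have e2 : ((t2 : ℝ) - t1) - |δ t2| ≤ |δ t2 - ((t2 : ℝ) - t1)| := by
      rw [abs_sub_comm (δ t2)]
      refine le_trans ?_ (le_abs_self _)
      linarith [le_abs_self (δ t2)]
    have e3 := hδ t2 ht2S
    linarith
  have hdist : |th t2 - th t1| ≤ 2 * ρ1 := by
    have h1 : |th t2 - θ| ≤ ρ1 := hPQ t2 ht2S
    have h2 : |th t1 - θ| ≤ ρ1 := hPQ t1 ht1S
    calc |th t2 - th t1| = |(th t2 - θ) - (th t1 - θ)| := by ring_nf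
      _ ≤ |th t2 - θ| + |th t1 - θ| := abs_sub _ _
      _ ≤ 2 * ρ1 := by linarith
  have hlcT : |(f.leadingCoeff : ℝ)| ≤ T := by
    have h1 := abs_coeff_int_le R0 hR f r
    rw [leadingCoeff, hf]
    exact h1.trans hT
  obtain ⟨ζ, hζ, hζfar⟩ := far_root f r (by omega) hf T hlcT t1 (th t1) (th t2) ρ1 hρ1 hdist hbig
  -- size of ζ
  have ht1abs : |(t1 : ℝ)| ≤ 2 ^ r * T + 1 := by
    have h1 := abs_eval_le_T f r hf.le R0 T hR hT (th t1) (hth2 t1 ht1S)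
    have e1 : (t1 : ℝ) = δ t1 - (f.map (Int.castRingHom ℝ)).eval (th t1) := by
      rw [← hfth t1 ht1S]
      ring
    rw [e1]
    refine (abs_sub _ _).trans ?_
    have := hδ t1 ht1S
    linarith
  have hT1' : nz 1 f ≤ T := by
    refine le_trans ?_ hT
    unfold nz
    exact nr_mono 1 R0 (by norm_num) hR _
  have hζn := root_bound f r (by omega) hf T hT1' t1 ht1abs ζ hζ
  -- Φ(ζ)
  have hΦζ : ρ1 ≤ ‖(D2_Phi f A B t0).eval ζ‖ := by
    have e1 : (-(f.map (Int.castRingHom ℂ)).eval ζ - (t0 : ℂ)) = ((((t1 - t0 : ℤ) : ℝ)) : ℂ) := by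
      have : (f.map (Int.castRingHom ℂ)).eval ζ = -(t1 : ℂ) := eq_neg_of_add_eq_zero_left hζ
      rw [this]
      push_cast
      ring
    rw [D2_eval, e1, D2_evalC, D2_evalC, D2_evalZ, D2_evalZ]
    have hQ0 : (Q t1 : ℂ) ≠ 0 := by exact_mod_cast (hSol t1 ht1S).1
    have e2 : (((B.eval (t1 - t0) : ℤ) : ℝ) : ℂ) = -(((A.eval (t1 - t0) : ℤ) : ℝ) : ℂ) * (th t1 : ℂ) := by
      have h1 : ((A.eval (t1 - t0) : ℤ) : ℂ) * P t1 + ((B.eval (t1 - t0) : ℤ) : ℂ) * Q t1 = 0 := by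
        exact_mod_cast hrel t1 ht1S
      rw [hthdef]
      push_cast
      field_simp
      linear_combination h1
    rw [e2]
    have e3 : -(((A.eval (t1 - t0) : ℤ) : ℝ) : ℂ) * (th t1 : ℂ) + ζ * (((A.eval (t1 - t0) : ℤ) : ℝ) : ℂ) =
        (((A.eval (t1 - t0) : ℤ) : ℝ) : ℂ) * (ζ - th t1) := by ring
    rw [e3, norm_mul, Complex.norm_real, Real.norm_eq_abs]
    have e4 : (1 : ℝ) ≤ |((A.eval (t1 - t0) : ℤ) : ℝ)| := by
      have : 1 ≤ |A.eval (t1 - t0)| := Int.one_le_abs (hSA t1 ht1S)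
      exact_mod_cast this
    calc ρ1 ≤ ‖ζ - (th t1 : ℂ)‖ := hζfar.le
      _ ≤ |((A.eval (t1 - t0) : ℤ) : ℝ)| * ‖ζ - (th t1 : ℂ)‖ := le_mul_of_one_le_left (norm_nonneg _) e4
  -- interpolation
  obtain ⟨S', hS'S, hS'c⟩ := Finset.exists_subset_card_eq hcard
  have hfin := D2_lagrange (D2_Phi f A B t0) (r * D + 1) (D2_deg f A B t0 r D hf hAD hBD) ℤ S'
    (fun t => (th t : ℂ)) hS'c ζ (r * 2 ^ (2 * r + 3) * T ^ 2) (1 / (r * 2 ^ (r + 1) * T))
    (by positivity) (by positivity)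
    (fun i hi j hj hij => by
      rw [← Complex.ofReal_sub, Complex.norm_real, Real.norm_eq_abs]
      exact hsep i (hS'S hi) j (hS'S hj) hij)
    (fun j hj => by
      have h1 : ‖ζ - (th j : ℂ)‖ ≤ 2 ^ (r + 1) * T + 2 * R0 := by
        refine (norm_sub_le _ _).trans ?_
        rw [Complex.norm_real, Real.norm_eq_abs]
        exact add_le_add hζn (hth2 j (hS'S hj))
      refine h1.trans ?_
      have h2 : (r * 2 ^ (2 * r + 3) * T ^ 2 : ℝ) * (1 / (r * 2 ^ (r + 1) * T)) = 2 ^ (r + 2) * T := by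
        have : (2 : ℝ) ^ (2 * r + 3) = 2 ^ (r + 2) * 2 ^ (r + 1) := by
          rw [← pow_add]
          congr 1
          omega
        rw [this]
        field_simp
      rw [h2]
      have h3 : (2 : ℝ) ^ (r + 2) = 2 ^ (r + 1) * 2 := pow_succ _ _
      have h4 : (2 : ℝ) ≤ 2 ^ (r + 1) := le_self_pow₀ (by norm_num) (by omega)
      rw [h3]
      nlinarith)
    (3 * R0 * D * N * E)
    (fun i hi => D2_node f R0 ρ N hR t0 A B D hAD hBD hA hB i (P i) (Q i) (hSol i (hS'S hi)).1 (th i) (δ i) E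
      rfl (hfth i (hS'S hi)) (hδ i (hS'S hi)) hE (hth2 i (hS'S hi)) (hrel i (hS'S hi)) (hSρ i (hS'S hi)))
  refine hΦζ.trans (hfin.trans (le_of_eq ?_))
  push_cast
  ring

end Pool.Agent.LibER91
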