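import Mathlib

/-!
Definitions for the exponential range theorem (board EX91).
-/

set_option autoImplicit false

open Polynomial

namespace Pool.Agent.LibER91

/-- The `l1` norm of a real polynomial on the disc of radius `ρ`. -/
noncomputable def nr (ρ : ℝ) (f : ℝ[X]) : ℝ :=
  ∑ i ∈ Finset.range (f.natDegree + 1), |f.coeff i| * ρ ^ i

/-- The `l1` norm of an integral polynomial on the disc of radius `ρ`. -/
noncomputable def nz (ρ : ℝ) (f : ℤ[X]) : ℝ := nr ρ (f.map (Int.castRingHom ℝ))

/-- The gcd of all coefficients of `A(c + q X)` and `B(c + q X)`. -/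
noncomputable def cont (A B : ℤ[X]) (c : ℤ) (q : ℕ) : ℕ :=
  Int.gcd (A.comp (C c + C (q : ℤ) * X)).content (B.comp (C c + C (q : ℤ) * X)).content

/-- The weight of the pair `A, B` on the disc `c + p ^ j Z_p`. -/
noncomputable def wt (p : ℕ) (A B : ℤ[X]) (c : ℤ) (j : ℕ) : ℕ := (cont A B c (p ^ j)).factorization p

/-- The increment of the weight at the prime power `q`. -/
noncomputable def inc (A B : ℤ[X]) (q : ℕ) (c : ℤ) : ℕ :=
  (cont A B c q).factorization q.minFac - (cont A B c (q / q.minFac)).factorization q.minFac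

/-- The absolute value of the resultant of `A`, `B` as polynomials of degree `D`. -/
noncomputable def res (A B : ℤ[X]) (D : ℕ) : ℕ := (resultant A B D D).natAbs

/-- The number of elements of `S` in the class of `c` modulo `q`. -/
noncomputable def cls (S : Finset ℤ) (q : ℕ) (c : ℤ) : ℕ := by
  classical exact (S.filter (fun t => (q : ℤ) ∣ t - c)).card

/-- The Gauss norm of `h` on the disc of center `c` and radius `ρ`. -/
noncomputable def gd {K : Type} [NormedField K] (h : K[X]) (c : K) (ρ : ℝ) : ℝ :=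
  (h.comp (X + C c)).gaussNorm (IsAbsoluteValue.toAbsoluteValue (norm : K → ℝ)) ρ

/-- The level functions: the part of `- log_p x` between `j` and `j + 1`. -/
noncomputable def av (p : ℕ) (x : ℝ) (j : ℕ) : ℝ :=
  Real.logb p (max x ((p : ℝ)⁻¹ ^ j)) - Real.logb p (max x ((p : ℝ)⁻¹ ^ (j + 1)))

/-- The polynomial whose values at the integers have the absolute value `gcd(A(x), B(x)) ^ r`. -/
noncomputable def GG (f A B : ℤ[X]) (r : ℕ) (t0 : ℤ) : ℤ[X] :=
  ∑ i ∈ Finset.range (r + 1), C (f.coeff i) * (-B) ^ i * A ^ (r - i) + (X + C t0) * A ^ r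

/-- `P, Q` is a solution for the parameter `t`. -/
def Sol (f : ℤ[X]) (r : ℕ) (t P Q : ℤ) : Prop :=
  Q ≠ 0 ∧ ∑ i ∈ Finset.range (r + 1), f.coeff i * P ^ i * Q ^ (r - i) + t * Q ^ r = 1

/-- The parameters `t` of a patch. -/
def patch (f : ℤ[X]) (r : ℕ) (θ ρ L : ℝ) : Set ℤ :=
  {t | ∃ P Q : ℤ, Sol f r t P Q ∧ Real.exp (9 / 10 * L) ≤ |(Q : ℝ)| ∧ |(Q : ℝ)| ≤ Real.exp L ∧
    |(P : ℝ) / Q - θ| ≤ ρ}

/-- The values of the polynomial with coefficients `u` in the binomial basis. -/
noncomputable def bv (m : ℕ) (u : ℕ → ℤ) (x : ℤ) : ℤ := ∑ k ∈ Finset.range m, u k * Ring.choose x k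

/-- The binomial polynomials over the real numbers. -/
noncomputable def bp (k : ℕ) : ℝ[X] := C ((k.factorial : ℝ)⁻¹) * descPochhammer ℝ k

end Pool.Agent.LibER91
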