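import Pool.Agent.LibER91.EPDefs

/-!
[EP91 EP01] MEDIUM, only Mathlib. The Sylvester matrix evaluated at `D + D` points.

PLAN. Let `M := (sylvester A B D D).map (Int.castRingHom R)` and `V := Matrix.vandermonde x`
(`V l i = x l ^ i`). `(V * M) l j = x l ^ j₁ * aeval (x l) B` for `j = Fin.castAdd D j₁`, and
`= x l ^ j₁ * aeval (x l) A` for `j = Fin.natAdd D j₁` (look at `Polynomial.sylvester`: the column
`castAdd j₁` holds the coefficients of `X ^ j₁ * B`, the column `natAdd j₁` those of `X ^ j₁ * A`;
expand `aeval (x l) B = ∑ k ∈ range (D + 1), (B.coeff k : R) * x l ^ k` with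
`Polynomial.aeval_eq_sum_range'` (natDegree < D + 1) and reindex `i = j₁ + k`).
Hence every entry of row `l` of `V * M` is divisible by `w l`; choose `N` with
`V * M = Matrix.diagonal w * N` (`Matrix.of` with `Classical.choose`), and
`det V * det M = det (V * M) = (∏ l, w l) * det N` (`Matrix.det_mul`, `Matrix.det_diagonal`).
Finally `det M = (resultant A B D D : R)` (`Int.cast_det` / `RingHom.map_det`, or
`Polynomial.resultant_map_map`; `Polynomial.resultant` is by definition the determinant of
`sylvester`).
-/

set_option autoImplicit false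

open Polynomial

namespace Pool.Agent.LibER91

private theorem EP01_col {R : Type} [CommRing R] (F : ℤ[X]) (D j : ℕ) (hF : F.natDegree ≤ D)
    (hj : j < D) (x : R) :
    ∑ i ∈ Finset.range (D + D), x ^ i *
      (if i ∈ Set.Icc j (j + D) then ((F.coeff (i - j) : ℤ) : R) else 0) = x ^ j * aeval x F := by
  have h1 : aeval x F = ∑ k ∈ Finset.range (D + 1), F.coeff k • x ^ k :=
    aeval_eq_sum_range' (by omega) x
  rw [h1, Finset.mul_sum]
  have hsub : (Finset.range (D + 1)).map (addLeftEmbedding j) ⊆ Finset.range (D + D) := by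
    intro i hi
    rw [Finset.mem_map] at hi
    obtain ⟨k, hk, rfl⟩ := hi
    rw [Finset.mem_range] at hk ⊢
    rw [addLeftEmbedding_apply]
    omega
  rw [← Finset.sum_subset hsub, Finset.sum_map]
  · apply Finset.sum_congr rfl
    intro k hk
    rw [Finset.mem_range] at hk
    simp only [addLeftEmbedding_apply]
    rw [if_pos (by rw [Set.mem_Icc]; omega), Nat.add_sub_cancel_left, pow_add, zsmul_eq_mul]
    ring
  · intro i _ hi
    rw [if_neg, mul_zero]
    intro h
    apply hi
    rw [Finset.mem_map]
    rw [Set.mem_Icc] at h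
    exact ⟨i - j, by rw [Finset.mem_range]; omega, by rw [addLeftEmbedding_apply]; omega⟩

theorem sylv_vand {R : Type} [CommRing R] (A B : ℤ[X]) (D : ℕ) (hA : A.natDegree ≤ D)
    (hB : B.natDegree ≤ D) (x w : Fin (D + D) → R) (h1 : ∀ l, w l ∣ aeval (x l) A)
    (h2 : ∀ l, w l ∣ aeval (x l) B) :
    (∏ l, w l) ∣ (Matrix.vandermonde x).det * ((resultant A B D D : ℤ) : R) := by
  set M : Matrix (Fin (D + D)) (Fin (D + D)) R :=
    (Int.castRingHom R).mapMatrix (sylvester A B D D) with hM
  have hdet : M.det = ((resultant A B D D : ℤ) : R) := by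
    rw [hM, ← RingHom.map_det]
    rfl
  have hentry : ∀ l j, w l ∣ (Matrix.vandermonde x * M) l j := by
    intro l j
    rw [Matrix.mul_apply]
    induction j using Fin.addCases with
    | left j₁ =>
      have h3 : ∑ i, Matrix.vandermonde x l i * M i (Fin.castAdd D j₁) =
          x l ^ (j₁ : ℕ) * aeval (x l) B := by
        rw [← EP01_col B D j₁ hB j₁.isLt (x l), ← Fin.sum_univ_eq_sum_range (fun i => x l ^ i *
          (if i ∈ Set.Icc (j₁ : ℕ) (j₁ + D) then ((B.coeff (i - j₁) : ℤ) : R) else 0)) (D + D)]
        apply Finset.sum_congr rfl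
        intro i _
        simp only [hM, Matrix.vandermonde_apply, RingHom.mapMatrix_apply, Matrix.map_apply,
          sylvester, Matrix.of_apply, Fin.addCases_left]
        split_ifs <;> simp
      rw [h3]
      exact (h2 l).mul_left _
    | right j₁ =>
      have h3 : ∑ i, Matrix.vandermonde x l i * M i (Fin.natAdd D j₁) =
          x l ^ (j₁ : ℕ) * aeval (x l) A := by
        rw [← EP01_col A D j₁ hA j₁.isLt (x l), ← Fin.sum_univ_eq_sum_range (fun i => x l ^ i *
          (if i ∈ Set.Icc (j₁ : ℕ) (j₁ + D) then ((A.coeff (i - j₁) : ℤ) : R) else 0)) (D + D)]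
        apply Finset.sum_congr rfl
        intro i _
        simp only [hM, Matrix.vandermonde_apply, RingHom.mapMatrix_apply, Matrix.map_apply,
          sylvester, Matrix.of_apply, Fin.addCases_right]
        split_ifs <;> simp
      rw [h3]
      exact (h1 l).mul_left _
  choose N hN using hentry
  have hfac : Matrix.vandermonde x * M = Matrix.diagonal w * Matrix.of N := by
    ext l j
    rw [Matrix.diagonal_mul, Matrix.of_apply]
    exact hN l j
  refine ⟨(Matrix.of N).det, ?_⟩
  rw [← hdet, ← Matrix.det_mul, hfac, Matrix.det_mul, Matrix.det_diagonal]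

end Pool.Agent.LibER91
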