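import Pool.Agent.LibER91.EP01

/-!
[EP91 EP02] SHORT/MEDIUM. The resultant times the Vandermonde product of the generic points is
divisible by `p ^ (sum of the weights)`.

PLAN. Apply `sylv_vand` with `R = MvPolynomial (Fin (D + D)) ℤ`, `x l = gp p c a l`,
`w l = C (p ^ wt p A B (c l) (a l))`. For the divisibility: `p ^ wt` divides `cont A B c (p ^ j)`
(`Nat.ordProj_dvd`; also true if `cont = 0`), which divides (as an integer, `Int.gcd_dvd_left`,
`Int.gcd_dvd_right`) both contents, hence `C (p ^ wt) ∣ A.comp (C c + C (p ^ j) * X)`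
(`Polynomial.C_dvd_iff_dvd_coeff` + `Polynomial.content_dvd_coeff`), say `= C (p ^ wt) * F`;
evaluate at `Y = MvPolynomial.X l` (`aeval_comp`):
`aeval (gp p c a l) A = aeval (X l) (A.comp (C c + C (p ^ j) * X)) = C (p ^ wt) * aeval (X l) F`.
`Matrix.det_vandermonde` gives `det = ∏ i, ∏ j ∈ Ioi i, (x j - x i) = vd p c a`, and
`∏ l, C (p ^ e l) = C (p ^ ∑ l, e l)` (`map_prod`, `Finset.prod_pow_eq_pow_sum`).
Note `((z : ℤ) : MvPolynomial _ ℤ) = MvPolynomial.C z` (`eq_intCast`).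
-/

set_option autoImplicit false

open Polynomial

namespace Pool.Agent.LibER91

private theorem EP02_dvd (F : ℤ[X]) (n p : ℕ) (c : Fin n → ℤ) (a : Fin n → ℕ) (l : Fin n) (w : ℕ)
    (h : ((p : ℤ) ^ w) ∣ (F.comp (C (c l) + C (((p ^ a l : ℕ) : ℤ)) * X)).content) :
    (MvPolynomial.C ((p : ℤ) ^ w) : MvPolynomial (Fin n) ℤ) ∣ aeval (gp p c a l) F := by
  have h1 : C ((p : ℤ) ^ w) ∣ F.comp (C (c l) + C (((p ^ a l : ℕ) : ℤ)) * X) := by
    rw [Polynomial.C_dvd_iff_dvd_coeff]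
    intro i
    exact h.trans (Polynomial.content_dvd_coeff i)
  obtain ⟨G, hG⟩ := h1
  have h2 : aeval (gp p c a l) F =
      aeval (MvPolynomial.X l : MvPolynomial (Fin n) ℤ)
        (F.comp (C (c l) + C (((p ^ a l : ℕ) : ℤ)) * X)) := by
    rw [Polynomial.aeval_comp]
    congr 1
    unfold gp
    simp
  rw [h2, hG, map_mul]
  have h3 : aeval (MvPolynomial.X l : MvPolynomial (Fin n) ℤ) (C ((p : ℤ) ^ w)) =
      MvPolynomial.C ((p : ℤ) ^ w) := by
    rw [Polynomial.aeval_C]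
    rfl
  rw [h3]
  exact dvd_mul_right _ _

theorem generic_dvd (A B : ℤ[X]) (p D : ℕ) (hA : A.natDegree ≤ D) (hB : B.natDegree ≤ D)
    (c : Fin (D + D) → ℤ) (a : Fin (D + D) → ℕ) :
    (MvPolynomial.C ((p : ℤ) ^ ∑ l, wt p A B (c l) (a l)) : MvPolynomial (Fin (D + D)) ℤ) ∣
      vd p c a * MvPolynomial.C (resultant A B D D) := by
  have hw : ∀ l : Fin (D + D), ((p : ℤ) ^ wt p A B (c l) (a l)) ∣
      ((cont A B (c l) (p ^ a l) : ℕ) : ℤ) := by
    intro l
    have := Nat.ordProj_dvd (cont A B (c l) (p ^ a l)) p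
    unfold wt
    exact_mod_cast this
  have key := sylv_vand (R := MvPolynomial (Fin (D + D)) ℤ) A B D hA hB (fun l => gp p c a l)
    (fun l => MvPolynomial.C ((p : ℤ) ^ wt p A B (c l) (a l))) ?_ ?_
  · rw [Matrix.det_vandermonde] at key
    have h1 : (MvPolynomial.C ((p : ℤ) ^ ∑ l, wt p A B (c l) (a l)) :
        MvPolynomial (Fin (D + D)) ℤ) =
        ∏ l, MvPolynomial.C ((p : ℤ) ^ wt p A B (c l) (a l)) := by
      rw [← map_prod, Finset.prod_pow_eq_pow_sum]
    have h2 : (MvPolynomial.C (resultant A B D D) : MvPolynomial (Fin (D + D)) ℤ) =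
        ((resultant A B D D : ℤ) : MvPolynomial (Fin (D + D)) ℤ) := by
      exact eq_intCast MvPolynomial.C _
    rw [h1, h2]
    exact key
  · intro l
    apply EP02_dvd
    exact (hw l).trans (Int.gcd_dvd_left ..)
  · intro l
    apply EP02_dvd
    exact (hw l).trans (Int.gcd_dvd_right ..)

end Pool.Agent.LibER91
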