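import Pool.Agent.LibER91.EPDefs

/-!
[EP91 EP03] MEDIUM, only Mathlib. The multiplicity of `p` in the Vandermonde product of generic
points.

PLAN. `P := MvPolynomial.C (p : ℤ)` is prime (`MvPolynomial.prime_C_iff`,
`Nat.prime_iff_prime_int`). `emultiplicity P` is additive on products (`emultiplicity_mul`,
`Finset.emultiplicity_prod`). For `i < j` (so `i ≠ j`): `emultiplicity P (gp j - gp i) ≤ mt ...`:
if `P ^ k = C (p ^ k)` divides `gp j - gp i` then (`MvPolynomial.C_dvd_iff_dvd_coeff`) `p ^ k`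
divides the coefficient `p ^ a j` of `X j` (coefficient at `Finsupp.single j 1`), the coefficient
`- p ^ a i` of `X i` and the constant coefficient `c j - c i`; so `k ≤ a j`, `k ≤ a i`
(`Nat.pow_dvd_pow_iff_le_right` or `Int` version with `1 < p`) and every level `1 ≤ k' ≤ k` is
counted in `mt p (c i) (c j) (a i) (a j)`, i.e. `k ≤ mt`.
`emultiplicity P (C R) ≤ R.natAbs.factorization p`: if `p ^ k ∣ R` then `k ≤ factorization`
(`Nat.Prime.pow_dvd_iff_le_factorization`, `Int.natAbs_dvd_natAbs`). Finally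
`W ≤ emultiplicity P (vd * C R)` (`pow_dvd_iff_le_emultiplicity`).
It is convenient to avoid `ℕ∞` by proving by induction over finsets: if `P ^ W ∣ ∏ f i` and
`P ^ k ∣ f i → k ≤ m i` for all `i`, `f i ≠ 0`, then `W ≤ ∑ m i`.
-/

set_option autoImplicit false

open Polynomial

namespace Pool.Agent.LibER91

private theorem EP03_diff {n : ℕ} (p : ℕ) (hp : p.Prime) (c : Fin n → ℤ) (a : Fin n → ℕ)
    (i j : Fin n) (hij : i ≠ j) (k : ℕ)
    (h : (MvPolynomial.C ((p : ℤ) ^ k) : MvPolynomial (Fin n) ℤ) ∣ gp p c a j - gp p c a i) :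
    k ≤ mt p (c i) (c j) (a i) (a j) := by
  classical
  rw [MvPolynomial.C_dvd_iff_dvd_coeff] at h
  have hp0 : (p : ℤ) ≠ 0 := by exact_mod_cast hp.ne_zero
  have hpu : ¬IsUnit (p : ℤ) := (Nat.prime_iff_prime_int.1 hp).not_isUnit
  have hij' : j ≠ i := hij.symm
  have hs1 : (Finsupp.single i 1 : Fin n →₀ ℕ) ≠ Finsupp.single j 1 := by
    intro h'
    exact hij (Finsupp.single_left_injective one_ne_zero h')
  have hs2 : (Finsupp.single j 1 : Fin n →₀ ℕ) ≠ Finsupp.single i 1 := hs1.symm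
  have hz : ∀ l : Fin n, (0 : Fin n →₀ ℕ) ≠ Finsupp.single l 1 := by
    intro l h'
    have := congrArg (fun f => f l) h'
    simp at this
  have hz' : ∀ l : Fin n, (Finsupp.single l 1 : Fin n →₀ ℕ) ≠ 0 := fun l => (hz l).symm
  -- the three coefficients
  have hj : k ≤ a j := by
    have h1 := h (Finsupp.single j 1)
    unfold gp at h1
    rw [MvPolynomial.coeff_sub, MvPolynomial.coeff_add, MvPolynomial.coeff_add,
      MvPolynomial.coeff_C_mul, MvPolynomial.coeff_C_mul, MvPolynomial.coeff_X,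
      MvPolynomial.coeff_X, MvPolynomial.coeff_C, MvPolynomial.coeff_C, if_neg (hz j),
      if_neg (hz j), if_pos rfl, if_neg hs1] at h1
    simp only [mul_one, mul_zero, add_zero, zero_add, sub_zero] at h1
    exact (pow_dvd_pow_iff hp0 hpu).1 h1
  have hi : k ≤ a i := by
    have h1 := h (Finsupp.single i 1)
    unfold gp at h1
    rw [MvPolynomial.coeff_sub, MvPolynomial.coeff_add, MvPolynomial.coeff_add,
      MvPolynomial.coeff_C_mul, MvPolynomial.coeff_C_mul, MvPolynomial.coeff_X,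
      MvPolynomial.coeff_X, MvPolynomial.coeff_C, MvPolynomial.coeff_C, if_neg (hz i),
      if_neg (hz i), if_pos rfl, if_neg hs2] at h1
    simp only [mul_one, mul_zero, add_zero, zero_add, zero_sub] at h1
    exact (pow_dvd_pow_iff hp0 hpu).1 ((dvd_neg).1 h1)
  have hc : ((p : ℤ) ^ k) ∣ c i - c j := by
    have h1 := h 0
    unfold gp at h1
    rw [MvPolynomial.coeff_sub, MvPolynomial.coeff_add, MvPolynomial.coeff_add,
      MvPolynomial.coeff_C_mul, MvPolynomial.coeff_C_mul, MvPolynomial.coeff_X,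
      MvPolynomial.coeff_X, MvPolynomial.coeff_C, MvPolynomial.coeff_C, if_neg (hz' j),
      if_neg (hz' i), if_pos rfl, if_pos rfl] at h1
    simp only [mul_zero, add_zero] at h1
    exact (dvd_sub_comm).1 h1
  have hsub : Finset.Icc 1 k ⊆ (Finset.Icc 1 (min (a i) (a j))).filter
      (fun k' => ((p : ℤ) ^ k') ∣ c i - c j) := by
    intro k' hk'
    rw [Finset.mem_Icc] at hk'
    rw [Finset.mem_filter, Finset.mem_Icc]
    refine ⟨⟨hk'.1, ?_⟩, (pow_dvd_pow _ hk'.2).trans hc⟩
    exact le_min (hk'.2.trans hi) (hk'.2.trans hj)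
  have hcard := Finset.card_le_card hsub
  rw [Nat.card_Icc, Nat.add_sub_cancel] at hcard
  unfold mt
  convert hcard

theorem mult_generic {n : ℕ} (p : ℕ) (hp : p.Prime) (c : Fin n → ℤ) (a : Fin n → ℕ) (R : ℤ)
    (hR : R ≠ 0) (W : ℕ)
    (h : (MvPolynomial.C ((p : ℤ) ^ W) : MvPolynomial (Fin n) ℤ) ∣ vd p c a * MvPolynomial.C R) :
    W ≤ R.natAbs.factorization p +
      ∑ i, ∑ j ∈ Finset.Ioi i, mt p (c i) (c j) (a i) (a j) := by
  classical
  set P : MvPolynomial (Fin n) ℤ := MvPolynomial.C (p : ℤ) with hP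
  have hPp : Prime P := (MvPolynomial.prime_C_iff _).2 (Nat.prime_iff_prime_int.1 hp)
  have hpow : ∀ k : ℕ, P ^ k = MvPolynomial.C ((p : ℤ) ^ k) := fun k => by rw [hP, map_pow]
  rw [← hpow] at h
  have h1 : (W : ℕ∞) ≤ emultiplicity P (vd p c a * MvPolynomial.C R) :=
    le_emultiplicity_of_pow_dvd h
  have h2 : emultiplicity P (vd p c a) ≤
      ((∑ i, ∑ j ∈ Finset.Ioi i, mt p (c i) (c j) (a i) (a j) : ℕ) : ℕ∞) := by
    unfold vd
    rw [Finset.emultiplicity_prod hPp]
    push_cast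
    apply Finset.sum_le_sum
    intro i _
    rw [Finset.emultiplicity_prod hPp]
    apply Finset.sum_le_sum
    intro j hj
    have hij : i ≠ j := (Finset.mem_Ioi.1 hj).ne
    rw [← ENat.lt_add_one_iff (ENat.natCast_ne_top _)]
    have : ¬ P ^ (mt p (c i) (c j) (a i) (a j) + 1) ∣ gp p c a j - gp p c a i := by
      intro h'
      rw [hpow] at h'
      have := EP03_diff p hp c a i j hij _ h'
      omega
    have h3 := emultiplicity_lt_iff_not_dvd.2 this
    exact_mod_cast h3
  have h3 : emultiplicity P (MvPolynomial.C R) ≤ ((R.natAbs.factorization p : ℕ) : ℕ∞) := by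
    rw [← ENat.lt_add_one_iff (ENat.natCast_ne_top _)]
    have : ¬ P ^ (R.natAbs.factorization p + 1) ∣ MvPolynomial.C R := by
      intro h'
      rw [hpow, MvPolynomial.C_dvd_iff_dvd_coeff] at h'
      have h4 := h' 0
      rw [MvPolynomial.coeff_C, if_pos rfl] at h4
      have h5 : p ^ (R.natAbs.factorization p + 1) ∣ R.natAbs := by
        have := Int.natAbs_dvd_natAbs.2 h4
        rwa [Int.natAbs_pow, Int.natAbs_natCast] at this
      have h6 := (hp.pow_dvd_iff_le_factorization (Int.natAbs_ne_zero.2 hR)).1 h5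
      omega
    have h3 := emultiplicity_lt_iff_not_dvd.2 this
    exact_mod_cast h3
  rw [emultiplicity_mul hPp] at h1
  have h4 : (W : ℕ∞) ≤ ((R.natAbs.factorization p +
      ∑ i, ∑ j ∈ Finset.Ioi i, mt p (c i) (c j) (a i) (a j) : ℕ) : ℕ∞) := by
    rw [Nat.cast_add, add_comm]
    exact h1.trans (add_le_add h2 h3)
  exact_mod_cast h4

end Pool.Agent.LibER91
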