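import Pool.Agent.LibER91.EPDefs

/-!
[EP91 EP04] MEDIUM, only Mathlib. API of `cont`, `wt`, `inc`.

PLAN.
* `wt_dvd`: `p ^ wt ∣ cont` (`Nat.ordProj_dvd`), `cont` divides both contents
  (`Int.gcd_dvd_left/right`), then `C_dvd_iff_dvd_coeff`, `content_dvd_coeff`.
* `cont_ne_zero`: `cont = 0` iff both contents are zero iff both compositions are zero; the
  composition with `C c + C q * X`, `q ≠ 0`, is injective (`Polynomial.comp_eq_zero_iff`, or
  `natDegree_comp` and the leading coefficient).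
* `le_wt`: from `C (p ^ m) ∣` both: `p ^ m ∣` both contents (`Polynomial.dvd_content_iff_C_dvd`),
  so `p ^ m ∣ cont` (`Int.dvd_gcd`, `Int.natCast_dvd_natCast`), so `m ≤ factorization`
  (`Nat.Prime.pow_dvd_iff_le_factorization`, needs `cont ≠ 0`).
* `cont_congr`: `c' = c + q * k`: `A.comp (C c' + C q * X) = (A.comp (C c + C q * X)).comp (X + C k)`
  and the content of `F` divides the content of `F.comp G` (write `F = C content * F'`), apply it
  in both directions (`X + C k` and `X - C k`), `Nat.dvd_antisymm` on the gcds.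
* `wt_zero`: `cont A B c 1` divides both (by `cont_congr` it is `cont A B 0 1`, `comp X = id` up to
  `C 0 + C 1 * X = X`), so `C (cont)` divides `A` and `B`, it is a unit, so `cont = 1`.
* `wt_mono`: `A.comp (C c + C (p ^ (k+1)) * X) = (A.comp (C c + C (p ^ k) * X)).comp (C p * X)`;
  use `wt_dvd` at `k` and `le_wt` at `k + 1`.
* `inc_pow`: `(p ^ (k+1)).minFac = p` (`Nat.Prime.pow_minFac`), `p ^ (k+1) / p = p ^ k`.
* `inc_congr'`: `(q / q.minFac) ∣ q ∣ c - c'` and `cont_congr`.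
-/

set_option autoImplicit false

open Polynomial

namespace Pool.Agent.LibER91

private theorem ep04_content_comp (F G : ℤ[X]) : F.content ∣ (F.comp G).content := by
  rw [dvd_content_iff_C_dvd]
  refine ⟨F.primPart.comp G, ?_⟩
  conv_lhs => rw [F.eq_C_content_mul_primPart]
  rw [mul_comp, C_comp]

theorem wt_dvd (p : ℕ) (A B : ℤ[X]) (c : ℤ) (k : ℕ) :
    C ((p : ℤ) ^ wt p A B c k) ∣ A.comp (C c + C ((p ^ k : ℕ) : ℤ) * X) ∧
      C ((p : ℤ) ^ wt p A B c k) ∣ B.comp (C c + C ((p ^ k : ℕ) : ℤ) * X) := by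
  have h1 : p ^ wt p A B c k ∣ cont A B c (p ^ k) := Nat.ordProj_dvd _ _
  have h2 : (p : ℤ) ^ wt p A B c k ∣ ((cont A B c (p ^ k) : ℕ) : ℤ) := by
    exact_mod_cast h1
  refine ⟨?_, ?_⟩
  · rw [← dvd_content_iff_C_dvd]
    exact h2.trans (Int.gcd_dvd_left _ _)
  · rw [← dvd_content_iff_C_dvd]
    exact h2.trans (Int.gcd_dvd_right _ _)

private theorem ep04_comp_ne (A : ℤ[X]) (hA : A ≠ 0) (c : ℤ) (q : ℕ) (hq : q ≠ 0) :
    A.comp (C c + C (q : ℤ) * X) ≠ 0 := by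
  intro h
  rcases comp_eq_zero_iff.1 h with h1 | ⟨_, h1⟩
  · exact hA h1
  · have h2 := congrArg (fun P => Polynomial.coeff P 1) h1
    simp only [coeff_add, coeff_C_succ, coeff_C_mul, coeff_X_one, zero_add, mul_one] at h2
    exact hq (by exact_mod_cast h2)

theorem cont_ne_zero (A B : ℤ[X]) (hAB : A ≠ 0 ∨ B ≠ 0) (c : ℤ) (q : ℕ) (hq : q ≠ 0) :
    cont A B c q ≠ 0 := by
  intro h
  obtain ⟨h1, h2⟩ := Int.gcd_eq_zero_iff.1 h
  rw [content_eq_zero_iff] at h1 h2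
  rcases hAB with hA | hB
  · exact ep04_comp_ne A hA c q hq h1
  · exact ep04_comp_ne B hB c q hq h2

theorem le_wt (p : ℕ) (hp : p.Prime) (A B : ℤ[X]) (hAB : A ≠ 0 ∨ B ≠ 0) (c : ℤ) (k m : ℕ)
    (h1 : C ((p : ℤ) ^ m) ∣ A.comp (C c + C ((p ^ k : ℕ) : ℤ) * X))
    (h2 : C ((p : ℤ) ^ m) ∣ B.comp (C c + C ((p ^ k : ℕ) : ℤ) * X)) : m ≤ wt p A B c k := by
  rw [← dvd_content_iff_C_dvd] at h1 h2
  have h3 : ((p ^ m : ℕ) : ℤ) ∣ ((cont A B c (p ^ k) : ℕ) : ℤ) := by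
    rw [Nat.cast_pow]
    exact Int.dvd_coe_gcd h1 h2
  have h4 : p ^ m ∣ cont A B c (p ^ k) := Int.natCast_dvd_natCast.1 h3
  exact (hp.pow_dvd_iff_le_factorization
    (cont_ne_zero A B hAB c _ (pow_ne_zero k hp.ne_zero))).1 h4

private theorem ep04_cont_dvd (A B : ℤ[X]) (q : ℕ) (c c' : ℤ) (h : (q : ℤ) ∣ c' - c) :
    cont A B c q ∣ cont A B c' q := by
  obtain ⟨k, hk⟩ := h
  have h1 : ∀ F : ℤ[X], F.comp (C c' + C (q : ℤ) * X) =
      (F.comp (C c + C (q : ℤ) * X)).comp (X + C k) := by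
    intro F
    rw [comp_assoc]
    congr 1
    rw [add_comp, mul_comp, C_comp, C_comp, X_comp, mul_add, ← C_mul, ← hk, C_sub]
    ring
  have h2 : ((cont A B c q : ℕ) : ℤ) ∣ ((cont A B c' q : ℕ) : ℤ) := by
    apply Int.dvd_coe_gcd
    · rw [h1]
      exact (Int.gcd_dvd_left _ _).trans (ep04_content_comp _ _)
    · rw [h1]
      exact (Int.gcd_dvd_right _ _).trans (ep04_content_comp _ _)
  exact Int.natCast_dvd_natCast.1 h2

theorem cont_congr (A B : ℤ[X]) (q : ℕ) (c c' : ℤ) (h : (q : ℤ) ∣ c - c') :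
    cont A B c q = cont A B c' q :=
  Nat.dvd_antisymm (ep04_cont_dvd A B q c c' ((dvd_sub_comm).1 h)) (ep04_cont_dvd A B q c' c h)

theorem wt_congr (p : ℕ) (A B : ℤ[X]) (k : ℕ) (c c' : ℤ) (h : (p : ℤ) ^ k ∣ c - c') :
    wt p A B c k = wt p A B c' k := by
  unfold wt
  rw [cont_congr A B (p ^ k) c c' (by rw [Nat.cast_pow]; exact h)]

theorem wt_zero (p : ℕ) (A B : ℤ[X]) (hAB : IsRelPrime A B) (c : ℤ) : wt p A B c 0 = 0 := by
  have h1 : ∀ F : ℤ[X], F.comp (C (0 : ℤ) + C ((1 : ℕ) : ℤ) * X) = F := by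
    intro F
    rw [Nat.cast_one, C_0, C_1, one_mul, zero_add, comp_X]
  have h2 : cont A B c 1 = 1 := by
    rw [cont_congr A B 1 c 0 (by rw [Nat.cast_one]; exact one_dvd _)]
    have h3 : IsUnit (C ((cont A B 0 1 : ℕ) : ℤ)) := by
      apply hAB
      · rw [← dvd_content_iff_C_dvd]
        have := Int.gcd_dvd_left (A.comp (C (0 : ℤ) + C ((1 : ℕ) : ℤ) * X)).content
          (B.comp (C (0 : ℤ) + C ((1 : ℕ) : ℤ) * X)).content
        rw [h1 A] at this
        unfold cont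
        rw [h1 A]
        exact this
      · rw [← dvd_content_iff_C_dvd]
        have := Int.gcd_dvd_right (A.comp (C (0 : ℤ) + C ((1 : ℕ) : ℤ) * X)).content
          (B.comp (C (0 : ℤ) + C ((1 : ℕ) : ℤ) * X)).content
        rw [h1 B] at this
        unfold cont
        rw [h1 B]
        exact this
    have h4 := isUnit_C.1 h3
    have h5 := Int.isUnit_iff_natAbs_eq.1 h4
    rwa [Int.natAbs_natCast] at h5
  unfold wt
  rw [pow_zero, h2, Nat.factorization_one]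
  rfl

theorem wt_mono (p : ℕ) (hp : p.Prime) (A B : ℤ[X]) (hAB : A ≠ 0 ∨ B ≠ 0) (c : ℤ) (k : ℕ) :
    wt p A B c k ≤ wt p A B c (k + 1) := by
  have h1 : ∀ F : ℤ[X], F.comp (C c + C ((p ^ (k + 1) : ℕ) : ℤ) * X) =
      (F.comp (C c + C ((p ^ k : ℕ) : ℤ) * X)).comp (C (p : ℤ) * X) := by
    intro F
    rw [comp_assoc]
    congr 1
    rw [add_comp, mul_comp, C_comp, C_comp, X_comp, ← mul_assoc, ← C_mul, ← Nat.cast_mul,
      ← pow_succ]
  obtain ⟨⟨H, hH⟩, ⟨G, hG⟩⟩ := wt_dvd p A B c k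
  apply le_wt p hp A B hAB
  · rw [h1, hH, mul_comp, C_comp]
    exact dvd_mul_right _ _
  · rw [h1, hG, mul_comp, C_comp]
    exact dvd_mul_right _ _

theorem inc_pow (p : ℕ) (hp : p.Prime) (A B : ℤ[X]) (c : ℤ) (k : ℕ) :
    inc A B (p ^ (k + 1)) c = wt p A B c (k + 1) - wt p A B c k := by
  unfold inc wt
  rw [hp.pow_minFac (Nat.succ_ne_zero k), pow_succ, Nat.mul_div_cancel _ hp.pos]

theorem inc_congr' (A B : ℤ[X]) (q : ℕ) (c c' : ℤ) (h : (q : ℤ) ∣ c - c') :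
    inc A B q c = inc A B q c' := by
  unfold inc
  have h1 : ((q / q.minFac : ℕ) : ℤ) ∣ c - c' :=
    (Int.natCast_dvd_natCast.2 (Nat.div_dvd_of_dvd (Nat.minFac_dvd q))).trans h
  rw [cont_congr A B q c c' h, cont_congr A B (q / q.minFac) c c' h1]

end Pool.Agent.LibER91
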