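import Mathlib

/-!
[EP91 EP05] MEDIUM, only Mathlib. Roots modulo `p`.

PLAN. `Fb := F.map (Int.castRingHom (ZMod p)) ≠ 0`. For `a < p`: `F.comp (C a + C p * X) = C (p ^ δ) * H`.
With `T := taylor a F = F.comp (X + C a)` (coefficients `b i`) we have `F.comp (C a + C p * X) =
T.comp (C p * X)`, whose coefficient `i` is `b i * p ^ i` (`Polynomial.comp_C_mul_X_coeff`). So for
`i < δ`: `p ^ δ ∣ b i * p ^ i` gives `p ∣ b i`. Hence `X ^ δ ∣ T.map (castRingHom (ZMod p))`
(`Polynomial.X_pow_dvd_iff`), i.e. `(X - C (a : ZMod p)) ^ δ ∣ Fb` (compose with `X - C a`;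
`Polynomial.taylor` API, `Polynomial.map_comp`), `δ a ≤ rootMultiplicity (a : ZMod p) Fb`
(`Polynomial.le_rootMultiplicity_iff`). The casts `a : ZMod p`, `a < p`, are distinct, so
`∑ a ∈ range p, rootMultiplicity a Fb ≤ card Fb.roots ≤ natDegree Fb ≤ n`
(`Multiset.sum_count_le_card` style: `Polynomial.count_roots`, `Multiset.toFinset_sum_count_eq`,
`Polynomial.card_roots'`; or by induction from the coprimality of the powers
`(X - C a) ^ δ a`, `Finset.prod_dvd_of_coprime`, and `natDegree_le_of_dvd`).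
-/

set_option autoImplicit false

open Polynomial

namespace Pool.Agent.LibER91

theorem roots_mod (p : ℕ) (hp : p.Prime) (F : ℤ[X]) (n : ℕ)
    (hF : F.map (Int.castRingHom (ZMod p)) ≠ 0)
    (hn : ∀ i, n < i → (p : ℤ) ∣ F.coeff i) (δ : ℕ → ℕ)
    (h : ∀ a, a < p → C ((p : ℤ) ^ δ a) ∣ F.comp (C (a : ℤ) + C (p : ℤ) * X)) :
    ∑ a ∈ Finset.range p, δ a ≤ n := by
  classical
  have : Fact p.Prime := ⟨hp⟩
  set f := Int.castRingHom (ZMod p) with hf
  have hp0 : (p : ℤ) ≠ 0 := by exact_mod_cast hp.ne_zero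
  have key : ∀ a ∈ Finset.range p, (X - C (a : ZMod p)) ^ δ a ∣ F.map f := by
    intro a ha
    rw [Finset.mem_range] at ha
    have h1 : F.comp (C (a : ℤ) + C (p : ℤ) * X) = (taylor (a : ℤ) F).comp (C (p : ℤ) * X) := by
      rw [taylor_apply, comp_assoc]
      congr 1
      rw [add_comp, X_comp, C_comp, add_comm]
    have h2 : ∀ i, i < δ a → (p : ℤ) ∣ (taylor (a : ℤ) F).coeff i := by
      intro i hi
      have h3 := (C_dvd_iff_dvd_coeff _ _).1 (h a ha) i
      rw [h1, comp_C_mul_X_coeff] at h3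
      have h4 : (p : ℤ) ^ (i + 1) ∣ (taylor (a : ℤ) F).coeff i * (p : ℤ) ^ i :=
        (pow_dvd_pow _ hi).trans h3
      rw [pow_succ, mul_comm] at h4
      exact (mul_dvd_mul_iff_right (pow_ne_zero i hp0)).1 h4
    have h5 : X ^ δ a ∣ (taylor (a : ℤ) F).map f := by
      rw [X_pow_dvd_iff]
      intro i hi
      rw [coeff_map, hf, Int.coe_castRingHom]
      exact (ZMod.intCast_zmod_eq_zero_iff_dvd _ _).2 (h2 i hi)
    obtain ⟨G, hG⟩ := h5
    have h6 : (taylor (a : ℤ) F).map f = (F.map f).comp (X + C (a : ZMod p)) := by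
      rw [taylor_apply, Polynomial.map_comp, Polynomial.map_add, map_X, map_C]
      congr 3
      simp [hf]
    have h7 : F.map f = ((taylor (a : ℤ) F).map f).comp (X - C (a : ZMod p)) := by
      rw [h6, comp_assoc]
      simp
    rw [h7, hG, mul_comp, pow_comp, X_comp]
    exact dvd_mul_right _ _
  have hcop : ∏ a ∈ Finset.range p, (X - C (a : ZMod p)) ^ δ a ∣ F.map f := by
    apply Finset.prod_dvd_of_coprime _ key
    intro a ha b hb hab
    apply IsCoprime.pow
    apply isCoprime_X_sub_C_of_isUnit_sub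
    rw [isUnit_iff_ne_zero, sub_ne_zero]
    intro h0
    apply hab
    have ha' : a < p := Finset.mem_range.1 ha
    have hb' : b < p := Finset.mem_range.1 hb
    have h1 := (ZMod.natCast_eq_natCast_iff' _ _ _).1 h0
    rwa [Nat.mod_eq_of_lt ha', Nat.mod_eq_of_lt hb'] at h1
  have hdeg := natDegree_le_of_dvd hcop hF
  rw [natDegree_prod_of_monic _ _ (fun a _ => (monic_X_sub_C _).pow _)] at hdeg
  have h8 : ∀ a ∈ Finset.range p, ((X - C (a : ZMod p)) ^ δ a).natDegree = δ a := by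
    intro a _
    rw [natDegree_pow, natDegree_X_sub_C, mul_one]
  rw [Finset.sum_congr rfl h8] at hdeg
  refine hdeg.trans ?_
  rw [natDegree_le_iff_coeff_eq_zero]
  intro i hi
  rw [coeff_map, hf, Int.coe_castRingHom]
  exact (ZMod.intCast_zmod_eq_zero_iff_dvd _ _).2 (hn i hi)

end Pool.Agent.LibER91
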