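import Pool.Agent.LibER91.EP04
import Pool.Agent.LibER91.EP05

/-!
[EP91 EP06] MEDIUM. Subadditivity of the increments on the tree of classes.

PLAN. Let `w = wt p A B c k`. By maximality of `w` (`le_wt` with `m = w + 1`) one of the two
polynomials, call it `H ∈ {A, B}`, satisfies `¬ C (p ^ (w+1)) ∣ H.comp (C c + C (p ^ k) * X)`; by
`wt_dvd` write `H.comp (C c + C (p ^ k) * X) = C (p ^ w) * F`; then `¬ C p ∣ F`, i.e.
`F.map (Int.castRingHom (ZMod p)) ≠ 0` (`ZMod.intCast_zmod_eq_zero_iff_dvd` on coefficients).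
For `a < p`: `H.comp (C (c + a p ^ k) + C (p ^ (k+1)) * X) = (H.comp (C c + C (p ^ k) * X)).comp
(C a + C p * X) = C (p ^ w) * F.comp (C a + C p * X)`, so `wt_dvd` at level `k + 1` gives
`C (p ^ (wt (k+1) - w)) ∣ F.comp (C a + C p * X)` (cancel; `wt (k+1) ≥ w` by `wt_congr`, `wt_mono`).
Apply `roots_mod` with `δ a = wt p A B (c + a p^k) (k+1) - wt p A B c k`.
* `sub_zero`: `k = 0`, `w = 0` (`wt_zero`), `F = H.comp (C c + C 1 * X)` has degree `≤ D`
  (`natDegree_comp_le`), so its coefficients beyond `D` vanish.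
* `sub_succ`: with `w' = wt p A B c k`, level `k + 1`: `H.comp (C c + C (p ^ k) * X) = C (p ^ w') * F'`
  (`wt_dvd` at level `k`), and `C (p ^ w) * F = C (p ^ w') * F'.comp (C p * X)`, i.e.
  `p ^ w * F.coeff i = p ^ w' * F'.coeff i * p ^ i`, so `p ∣ F.coeff i` for `i > w - w'`.
-/

set_option autoImplicit false

open Polynomial

namespace Pool.Agent.LibER91

private theorem ep06_comp (H : ℤ[X]) (c : ℤ) (p k : ℕ) (a : ℤ) :
    H.comp (C (c + a * (p : ℤ) ^ k) + C ((p ^ (k + 1) : ℕ) : ℤ) * X) =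
      (H.comp (C c + C ((p ^ k : ℕ) : ℤ) * X)).comp (C a + C (p : ℤ) * X) := by
  rw [comp_assoc]
  congr 1
  simp only [add_comp, mul_comp, C_comp, X_comp]
  push_cast
  simp only [C_add, C_mul, C_pow]
  ring

private theorem ep06_core (p : ℕ) (hp : p.Prime) (A B : ℤ[X]) (hAB : A ≠ 0 ∨ B ≠ 0) (c : ℤ)
    (k n : ℕ)
    (hn : ∀ H : ℤ[X], (H = A ∨ H = B) → ∀ F : ℤ[X],
      H.comp (C c + C ((p ^ k : ℕ) : ℤ) * X) = C ((p : ℤ) ^ wt p A B c k) * F →
        ∀ i, n < i → (p : ℤ) ∣ F.coeff i) :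
    ∑ a ∈ Finset.range p,
        (wt p A B (c + a * (p : ℤ) ^ k) (k + 1) - wt p A B c k) ≤ n := by
  have hp0 : (p : ℤ) ≠ 0 := by exact_mod_cast hp.ne_zero
  obtain ⟨H, hH, hH2, hH3⟩ : ∃ H : ℤ[X], (H = A ∨ H = B) ∧
      (∀ (c : ℤ) (k : ℕ), C ((p : ℤ) ^ wt p A B c k) ∣ H.comp (C c + C ((p ^ k : ℕ) : ℤ) * X)) ∧
      ¬ C ((p : ℤ) ^ (wt p A B c k + 1)) ∣ H.comp (C c + C ((p ^ k : ℕ) : ℤ) * X) := by
    by_contra hcon
    push Not at hcon
    have h1 := hcon A (Or.inl rfl) (fun c k => (wt_dvd p A B c k).1)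
    have h2 := hcon B (Or.inr rfl) (fun c k => (wt_dvd p A B c k).2)
    have h3 := le_wt p hp A B hAB c k _ h1 h2
    omega
  obtain ⟨F, hF⟩ := hH2 c k
  have hF0 : F.map (Int.castRingHom (ZMod p)) ≠ 0 := by
    intro h0
    apply hH3
    have h1 : C (p : ℤ) ∣ F := by
      rw [C_dvd_iff_dvd_coeff]
      intro i
      have h2 := congrArg (fun q => q.coeff i) h0
      simp only [coeff_map, coeff_zero] at h2
      exact (ZMod.intCast_zmod_eq_zero_iff_dvd _ _).1 h2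
    rw [hF, pow_succ, C_mul]
    exact mul_dvd_mul_left _ h1
  refine roots_mod p hp F n hF0 (hn H hH F hF) _ fun a _ => ?_
  have h1 := hH2 (c + a * (p : ℤ) ^ k) (k + 1)
  rw [ep06_comp, hF, mul_comp, C_comp] at h1
  have h2 : wt p A B c k ≤ wt p A B (c + a * (p : ℤ) ^ k) (k + 1) := by
    rw [wt_congr p A B k c (c + a * (p : ℤ) ^ k) ⟨-a, by ring⟩]
    exact wt_mono p hp A B hAB _ k
  obtain ⟨d, hd⟩ := Nat.exists_eq_add_of_le h2
  rw [hd, pow_add, C_mul] at h1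
  rw [hd, Nat.add_sub_cancel_left]
  have h3 : (C ((p : ℤ) ^ wt p A B c k) : ℤ[X]) ≠ 0 := by
    rw [Ne, C_eq_zero]
    exact pow_ne_zero _ hp0
  exact (mul_dvd_mul_iff_left h3).1 h1

theorem sub_zero (p : ℕ) (hp : p.Prime) (A B : ℤ[X]) (D : ℕ) (hAB : IsRelPrime A B)
    (hA : A.natDegree ≤ D) (hB : B.natDegree ≤ D) (c : ℤ) :
    ∑ a ∈ Finset.range p, wt p A B (c + a) 1 ≤ D := by
  have hAB' : A ≠ 0 ∨ B ≠ 0 := by
    by_contra hcon
    push Not at hcon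
    have h1 := hAB (d := 0) (by rw [hcon.1]) (by rw [hcon.2])
    exact not_isUnit_zero h1
  have h := ep06_core p hp A B hAB' c 0 D (by
    intro H hH F hF i hi
    have h0 : F.natDegree ≤ D := by
      have h1 : F = H.comp (C c + C ((p ^ 0 : ℕ) : ℤ) * X) := by
        rw [hF, wt_zero p A B hAB, pow_zero, C_1, one_mul]
      rw [h1]
      refine natDegree_comp_le.trans ?_
      have h2 : (C c + C ((p ^ 0 : ℕ) : ℤ) * X : ℤ[X]).natDegree ≤ 1 := by
        rw [add_comm]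
        exact natDegree_linear_le
      have h3 : H.natDegree ≤ D := by
        rcases hH with rfl | rfl
        · exact hA
        · exact hB
      calc H.natDegree * _ ≤ H.natDegree * 1 := Nat.mul_le_mul_left _ h2
        _ ≤ D := by omega
    rw [coeff_eq_zero_of_natDegree_lt (by omega)]
    exact dvd_zero _)
  rw [wt_zero p A B hAB] at h
  simpa using h

theorem sub_succ (p : ℕ) (hp : p.Prime) (A B : ℤ[X]) (hAB : A ≠ 0 ∨ B ≠ 0) (c : ℤ) (k : ℕ) :
    ∑ a ∈ Finset.range p,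
        (wt p A B (c + a * (p : ℤ) ^ (k + 1)) (k + 2) - wt p A B (c + a * (p : ℤ) ^ (k + 1)) (k + 1)) ≤
      wt p A B c (k + 1) - wt p A B c k := by
  have hp0 : (p : ℤ) ≠ 0 := by exact_mod_cast hp.ne_zero
  have h0 : ∀ a ∈ Finset.range p,
      (wt p A B (c + a * (p : ℤ) ^ (k + 1)) (k + 2) -
        wt p A B (c + a * (p : ℤ) ^ (k + 1)) (k + 1)) =
      (wt p A B (c + a * (p : ℤ) ^ (k + 1)) (k + 2) - wt p A B c (k + 1)) := by
    intro a _
    rw [wt_congr p A B (k + 1) (c + a * (p : ℤ) ^ (k + 1)) c ⟨a, by ring⟩]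
  rw [Finset.sum_congr rfl h0]
  refine ep06_core p hp A B hAB c (k + 1) _ ?_
  intro H hH F hF i hi
  have h1 : C ((p : ℤ) ^ wt p A B c k) ∣ H.comp (C c + C ((p ^ k : ℕ) : ℤ) * X) := by
    rcases hH with rfl | rfl
    · exact (wt_dvd p _ _ c k).1
    · exact (wt_dvd p _ _ c k).2
  obtain ⟨F', hF'⟩ := h1
  have h2 := ep06_comp H c p k 0
  rw [zero_mul, add_zero, hF, hF', mul_comp, C_comp, C_0, zero_add] at h2
  have h3 := congrArg (fun q => q.coeff i) h2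
  simp only [coeff_C_mul, comp_C_mul_X_coeff] at h3
  have h4 := wt_mono p hp A B hAB c k
  obtain ⟨d, hd⟩ := Nat.exists_eq_add_of_le h4
  rw [hd] at h3 hi
  rw [Nat.add_sub_cancel_left] at hi
  obtain ⟨j, rfl⟩ := Nat.exists_eq_add_of_lt hi
  refine ⟨(p : ℤ) ^ j * F'.coeff (d + j + 1), ?_⟩
  have h5 : (p : ℤ) ^ (wt p A B c k + d) ≠ 0 := pow_ne_zero _ hp0
  apply mul_left_cancel₀ h5
  rw [h3]
  ring

end Pool.Agent.LibER91
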