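import Pool.Agent.LibER91.EPDefs

/-!
[EP91 EP07] MEDIUM, pure combinatorics, only Mathlib. A family of discs with prescribed counts.

PLAN A (induction on `J`). `J = 0`: `c = 0`, `a = 0`, `cnt = n = d 0 b`. Step `J → J + 1`: given the
family for `J` (all `a l ≤ J`), for each class `b ∈ range (p ^ J)` the set
`L b = {l | a l = J, p ^ J ∣ c l - b}` has exactly `d J b` elements (`cnt` at level `J`) and
`∑ i < p, d (J+1) (b + i p ^ J) ≤ d J b`, so there is a function `g : L b → Option (Fin p)` (or
`ℕ → ℕ` on an enumeration of `L b`, by the partial sums) with exactly `d (J+1) (b + i p ^ J)`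
elements of `L b` mapped to `i` for each `i < p`. Move these points: new `c l = b + i p ^ J`,
`a l = J + 1`; the others stay. The counts at levels `≤ J` do not change (`c l` changes by a multiple
of `p ^ J`).
PLAN B. Index the family by `Σ k ∈ range (J+1), Σ b ∈ range (p ^ k), Fin (e k b)` with
`e k b = d k b - ∑ i < p, d (k+1) (b + i p ^ k)` for `k < J`, `e J b = d J b`; with
`f k := ∑ b' ∈ range (p ^ k) with b' ≡ b mod p ^ k', d k b'` one has
`∑_{b'} ∑_i d (k+1) (b' + i p ^ k) = f (k+1)` (base `p` digits), the count is
`∑_{k=k'}^{J-1} (f k - f (k+1)) + f J = f k' = d k' b`; the total (`k' = 0`) is `n`, so the index type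
is equivalent to `Fin n`.
-/

set_option autoImplicit false

namespace Pool.Agent.LibER91

private theorem EP07_part {α : Type} [DecidableEq α] (p : ℕ) : ∀ (L : Finset α) (m : ℕ → ℕ),
    ∑ i ∈ Finset.range p, m i ≤ L.card →
      ∃ g : α → ℕ, ∀ i < p, (L.filter (fun l => g l = i)).card = m i := by
  induction p with
  | zero => intro L m _; exact ⟨fun _ => 0, fun i hi => absurd hi (Nat.not_lt_zero i)⟩
  | succ p ih =>
    intro L m h
    rw [Finset.sum_range_succ] at h
    obtain ⟨M, hM, hMc⟩ := Finset.exists_subset_card_eq (show m p ≤ L.card by omega)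
    have h1 : ∑ i ∈ Finset.range p, m i ≤ (L \ M).card := by
      rw [Finset.card_sdiff_of_subset hM]; omega
    obtain ⟨g, hg⟩ := ih (L \ M) m h1
    refine ⟨fun l => if l ∈ M then p else if g l < p then g l else p + 1, fun i hi => ?_⟩
    rcases Nat.lt_succ_iff_lt_or_eq.mp hi with h2 | h2
    · rw [← hg i h2]
      congr 1
      ext l
      simp only [Finset.mem_filter, Finset.mem_sdiff]
      by_cases hl : l ∈ M
      · simp only [hl, if_true, not_true, and_false, false_and, iff_false, not_and]
        intro _ h3
        omega
      · simp only [hl, if_false, not_false_iff, and_true]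
        constructor
        · rintro ⟨h3, h4⟩
          refine ⟨h3, ?_⟩
          split_ifs at h4 with h5 <;> omega
        · rintro ⟨h3, h4⟩
          refine ⟨h3, ?_⟩
          rw [if_pos (by omega)]; exact h4
    · subst h2
      rw [← hMc]
      congr 1
      ext l
      simp only [Finset.mem_filter]
      by_cases hl : l ∈ M
      · simp [hl, hM hl]
      · simp only [hl, if_false, iff_false, not_and]
        intro _ h4
        split_ifs at h4 <;> omega

theorem family (p : ℕ) (hp : 1 < p) (J n : ℕ) (d : ℕ → ℤ → ℕ) (h0 : ∀ b, d 0 b = n)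
    (hper : ∀ k b b', (p : ℤ) ^ k ∣ b - b' → d k b = d k b')
    (hsub : ∀ k b, ∑ i ∈ Finset.range p, d (k + 1) (b + i * (p : ℤ) ^ k) ≤ d k b) :
    ∃ (c : Fin n → ℤ) (a : Fin n → ℕ), (∀ l, a l ≤ J) ∧ ∀ k, k ≤ J → ∀ b, cnt p c a b k = d k b := by
  classical
  induction J with
  | zero =>
    refine ⟨fun _ => 0, fun _ => 0, fun _ => le_rfl, fun k hk b => ?_⟩
    obtain rfl : k = 0 := by omega
    unfold cnt
    rw [h0 b]
    simp
  | succ J ih =>
    obtain ⟨c, a, ha, hcnt⟩ := ih
    have hP : (0 : ℤ) < (p : ℤ) ^ J := by positivity
    have hp0 : (0 : ℤ) < (p : ℤ) := by positivity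
    set L : ℤ → Finset (Fin n) := fun b =>
      Finset.univ.filter (fun l => J ≤ a l ∧ ((p : ℤ) ^ J) ∣ c l - b) with hL
    have hLc : ∀ b, (L b).card = d J b := by
      intro b
      rw [← hcnt J le_rfl b]
      unfold cnt
      simp only [hL]
    have hex : ∀ b, ∃ g : Fin n → ℕ, ∀ i < p,
        ((L b).filter (fun l => g l = i)).card = d (J + 1) (b + i * (p : ℤ) ^ J) := by
      intro b
      refine EP07_part p (L b) (fun i => d (J + 1) (b + i * (p : ℤ) ^ J)) ?_
      rw [hLc]
      exact hsub J b
    choose g hg using hex
    set r : Fin n → ℤ := fun l => c l % (p : ℤ) ^ J with hr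
    set mv : Fin n → Prop := fun l => a l = J ∧ g (r l) l < p with hmv
    refine ⟨fun l => if mv l then r l + (g (r l) l : ℤ) * (p : ℤ) ^ J else c l,
      fun l => if mv l then J + 1 else a l, fun l => ?_, fun k hk b => ?_⟩
    · dsimp only
      split_ifs
      · exact le_rfl
      · exact (ha l).trans (Nat.le_succ J)
    · have hrc : ∀ l, (p : ℤ) ^ J ∣ r l - c l := by
        intro l
        have h1 := Int.emod_add_mul_ediv (c l) ((p : ℤ) ^ J)
        exact ⟨-(c l / (p : ℤ) ^ J), by simp only [hr]; linear_combination h1⟩
      rcases Nat.lt_or_ge J k with hJk | hJk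
      · obtain rfl : k = J + 1 := by omega
        set b0 : ℤ := b % (p : ℤ) ^ J with hb0
        set q : ℤ := b / (p : ℤ) ^ J with hq
        have hb : b0 + (p : ℤ) ^ J * q = b := Int.emod_add_mul_ediv b ((p : ℤ) ^ J)
        set i0 : ℤ := q % (p : ℤ) with hi0
        have hi00 : 0 ≤ i0 := Int.emod_nonneg _ hp0.ne'
        have hi01 : i0 < p := Int.emod_lt_of_pos _ hp0
        have hqi : i0 + (p : ℤ) * (q / p) = q := Int.emod_add_mul_ediv q (p : ℤ)
        obtain ⟨i1, hi1⟩ := Int.eq_ofNat_of_zero_le hi00
        have hi1p : i1 < p := by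
          have : (i1 : ℤ) < p := by rw [← hi1]; exact hi01
          exact_mod_cast this
        have hdb : d (J + 1) b = d (J + 1) (b0 + (i1 : ℤ) * (p : ℤ) ^ J) := by
          refine hper _ _ _ ⟨q / p, ?_⟩
          rw [← hi1, pow_succ]
          linear_combination (-1 : ℤ) * hb - (p : ℤ) ^ J * hqi
        rw [hdb, ← hg b0 i1 hi1p]
        unfold cnt
        refine congrArg Finset.card ?_
        ext l
        simp only [Finset.mem_filter, Finset.mem_univ, true_and, hL]
        by_cases hm : mv l
        · rw [if_pos hm, if_pos hm]
          have h1 : 0 ≤ r l := Int.emod_nonneg _ hP.ne'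
          have h2 : r l < (p : ℤ) ^ J := Int.emod_lt_of_pos _ hP
          have h3 : 0 ≤ b0 := Int.emod_nonneg _ hP.ne'
          have h4 : b0 < (p : ℤ) ^ J := Int.emod_lt_of_pos _ hP
          constructor
          · rintro ⟨-, h5⟩
            have h6 : (p : ℤ) ^ J ∣ r l - b0 := by
              have h7 : (p : ℤ) ^ J ∣ r l + (g (r l) l : ℤ) * (p : ℤ) ^ J - b :=
                (pow_dvd_pow _ (Nat.le_succ J)).trans h5
              obtain ⟨w, hw⟩ := h7
              exact ⟨w - (g (r l) l : ℤ) + q, by linear_combination hw - hb⟩
            have h8 : r l = b0 := by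
              have h9 : (r l - b0) = 0 := by
                refine Int.eq_zero_of_abs_lt_dvd h6 ?_
                rw [abs_lt]
                constructor <;> linarith
              linarith
            rw [h8] at h5
            have h10 : (g b0 l : ℤ) = i1 := by
              obtain ⟨w, hw⟩ := h5
              have h11 : (p : ℤ) ^ J * ((g b0 l : ℤ) - q) = (p : ℤ) ^ J * (p * w) := by
                rw [pow_succ] at hw
                linear_combination hw - hb
              have h12 := mul_left_cancel₀ hP.ne' h11
              have h13 : (p : ℤ) ∣ (g b0 l : ℤ) - i1 := ⟨w + q / p, by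
                rw [← hi1]; linear_combination h12 - hqi⟩
              have h14 : g b0 l < p := by rw [← h8]; exact hm.2
              have h15 : (g b0 l : ℤ) - i1 = 0 := by
                refine Int.eq_zero_of_abs_lt_dvd h13 ?_
                rw [abs_lt]
                constructor <;> omega
              linarith
            refine ⟨⟨by rw [hm.1], ?_⟩, by exact_mod_cast h10⟩
            obtain ⟨w, hw⟩ := hrc l
            exact ⟨-w, by rw [← h8]; linear_combination (-1 : ℤ) * hw⟩
          · rintro ⟨⟨-, h5⟩, h6⟩
            have h8 : r l = b0 := by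
              have h9 : (r l - b0) = 0 := by
                refine Int.eq_zero_of_abs_lt_dvd (m := (p : ℤ) ^ J) ?_ ?_
                · have := dvd_add (hrc l) h5
                  rwa [sub_add_sub_cancel] at this
                · rw [abs_lt]
                  constructor <;> linarith
              linarith
            refine ⟨le_rfl, ?_⟩
            rw [h8, h6]
            refine ⟨-(q / p), ?_⟩
            rw [← hi1, pow_succ]
            linear_combination hb + (p : ℤ) ^ J * hqi
        · rw [if_neg hm, if_neg hm]
          constructor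
          · rintro ⟨h5, -⟩
            have := ha l
            omega
          · rintro ⟨⟨h5, h6⟩, h7⟩
            exfalso
            apply hm
            have h8 : r l = b0 := by
              have h1 : 0 ≤ r l := Int.emod_nonneg _ hP.ne'
              have h2 : r l < (p : ℤ) ^ J := Int.emod_lt_of_pos _ hP
              have h3 : 0 ≤ b0 := Int.emod_nonneg _ hP.ne'
              have h4 : b0 < (p : ℤ) ^ J := Int.emod_lt_of_pos _ hP
              have h9 : (r l - b0) = 0 := by
                refine Int.eq_zero_of_abs_lt_dvd (m := (p : ℤ) ^ J) ?_ ?_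
                · have := dvd_add (hrc l) h6
                  rwa [sub_add_sub_cancel] at this
                · rw [abs_lt]
                  constructor <;> linarith
              linarith
            refine ⟨le_antisymm (ha l) h5, ?_⟩
            rw [h8, h7]
            exact hi1p
      · rw [← hcnt k hJk b]
        unfold cnt
        refine congrArg Finset.card ?_
        ext l
        simp only [Finset.mem_filter, Finset.mem_univ, true_and]
        by_cases hm : mv l
        · rw [if_pos hm, if_pos hm]
          have h1 : (p : ℤ) ^ k ∣ r l + (g (r l) l : ℤ) * (p : ℤ) ^ J - c l := by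
            refine (pow_dvd_pow (p : ℤ) hJk).trans ?_
            obtain ⟨w, hw⟩ := hrc l
            exact ⟨w + g (r l) l, by linear_combination hw⟩
          have h2 : (p : ℤ) ^ k ∣ r l + (g (r l) l : ℤ) * (p : ℤ) ^ J - b ↔ (p : ℤ) ^ k ∣ c l - b := by
            have h3 : r l + (g (r l) l : ℤ) * (p : ℤ) ^ J - b =
                (r l + (g (r l) l : ℤ) * (p : ℤ) ^ J - c l) + (c l - b) := by ring
            rw [h3]
            exact (Int.dvd_add_right h1)
          rw [h2, hm.1]
          constructor
          · rintro ⟨h4, h5⟩
            exact ⟨by omega, h5⟩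
          · rintro ⟨h4, h5⟩
            exact ⟨by omega, h5⟩
        · rw [if_neg hm, if_neg hm]

end Pool.Agent.LibER91
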