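import Pool.Agent.LibER91.EPDefs

/-!
[EP91 EP08] SHORT/MEDIUM, pure combinatorics, only Mathlib. Two double countings.

PLAN. `count_lin`: `∑ k ∈ Icc 1 (a l), g k (c l) = ∑ k ∈ Icc 1 J, ∑ b ∈ range (p ^ k),
if k ≤ a l ∧ p ^ k ∣ c l - b then g k b else 0` (exactly one `b ∈ range (p ^ k)` is congruent to
`c l`: `b = (c l % p ^ k).toNat`, and `g k b = g k (c l)` by `hper`); exchange the sums,
`∑ l, if .. then g else 0 = cnt * g` (`Finset.sum_ite`, `Finset.card_filter`).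
`count_pairs`: for `i ≠ j`: `mt p (c i) (c j) (a i) (a j) = ∑ k ∈ Icc 1 J, ∑ b ∈ range (p ^ k),
[k ≤ a i ∧ p ^ k ∣ c i - b] * [k ≤ a j ∧ p ^ k ∣ c j - b]`; the sum over all ordered pairs `(i, j)`
of the right side is `∑ cnt ^ 2`, the diagonal gives `∑ cnt`, and `mt` is symmetric:
`∑_{i ≠ j} = 2 ∑_i ∑_{j > i}`.
-/

set_option autoImplicit false

namespace Pool.Agent.LibER91

/-- The indicator function. -/
private def EP08_I (p : ℕ) (c : ℤ) (a : ℕ) (k : ℕ) (b : ℤ) : ℕ :=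
  if k ≤ a ∧ ((p : ℤ) ^ k) ∣ c - b then 1 else 0

private theorem EP08_cnt {n : ℕ} (p : ℕ) (c : Fin n → ℤ) (a : Fin n → ℕ) (b : ℤ) (k : ℕ) :
    cnt p c a b k = ∑ l, EP08_I p (c l) (a l) k b := by
  unfold cnt EP08_I
  rw [Finset.card_filter]

private theorem EP08_iff (p : ℕ) (hp : 1 < p) (c : ℤ) (k b : ℕ) (hb : b ∈ Finset.range (p ^ k)) :
    ((p : ℤ) ^ k) ∣ c - b ↔ (c % (p : ℤ) ^ k).toNat = b := by
  have hp0 : (0 : ℤ) < (p : ℤ) ^ k := by positivity
  have h1 : 0 ≤ c % (p : ℤ) ^ k := Int.emod_nonneg _ hp0.ne'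
  have hb' : (b : ℤ) < (p : ℤ) ^ k := by
    have := Finset.mem_range.1 hb
    exact_mod_cast this
  have h3 : (b : ℤ) % (p : ℤ) ^ k = b := Int.emod_eq_of_lt (by positivity) hb'
  constructor
  · intro h
    have h2 : c % (p : ℤ) ^ k = (b : ℤ) % (p : ℤ) ^ k :=
      Int.emod_eq_emod_iff_emod_sub_eq_zero.2 (Int.emod_eq_zero_of_dvd h)
    rw [h2, h3, Int.toNat_natCast]
  · intro h
    have h4 : c % (p : ℤ) ^ k = b := by
      rw [← h, Int.toNat_of_nonneg h1]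
    rw [← h4]
    exact Int.dvd_self_sub_emod

/-- The sum over the residue classes. -/
private theorem EP08_sum (p : ℕ) (hp : 1 < p) (c : ℤ) (k : ℕ) (F : ℤ → ℕ)
    (hF : ∀ b : ℕ, ((p : ℤ) ^ k) ∣ c - b → F b = F c) :
    ∑ b ∈ Finset.range (p ^ k), (if ((p : ℤ) ^ k) ∣ c - (b : ℤ) then F b else 0) = F c := by
  have hp0 : (0 : ℤ) < (p : ℤ) ^ k := by positivity
  have h1 : 0 ≤ c % (p : ℤ) ^ k := Int.emod_nonneg _ hp0.ne'
  have hm : (c % (p : ℤ) ^ k).toNat ∈ Finset.range (p ^ k) := by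
    rw [Finset.mem_range]
    have h2 : c % (p : ℤ) ^ k < (p : ℤ) ^ k := Int.emod_lt_of_pos _ hp0
    have h3 : ((c % (p : ℤ) ^ k).toNat : ℤ) < ((p ^ k : ℕ) : ℤ) := by
      rw [Int.toNat_of_nonneg h1]
      push_cast
      exact h2
    exact_mod_cast h3
  have hd := (EP08_iff p hp c k _ hm).2 rfl
  rw [Finset.sum_eq_single_of_mem _ hm]
  · rw [if_pos hd, hF _ hd]
  · intro b hb hne
    rw [if_neg]
    intro h
    exact hne ((EP08_iff p hp c k b hb).1 h).symm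

theorem count_lin {n : ℕ} (p : ℕ) (hp : 1 < p) (J : ℕ) (c : Fin n → ℤ) (a : Fin n → ℕ)
    (ha : ∀ l, a l ≤ J) (g : ℕ → ℤ → ℕ)
    (hper : ∀ k b b', (p : ℤ) ^ k ∣ b - b' → g k b = g k b') :
    ∑ l, ∑ k ∈ Finset.Icc 1 (a l), g k (c l) =
      ∑ k ∈ Finset.Icc 1 J, ∑ b ∈ Finset.range (p ^ k), cnt p c a b k * g k b := by
  have h1 : ∀ k, ∑ b ∈ Finset.range (p ^ k), cnt p c a b k * g k b =
      ∑ l, ∑ b ∈ Finset.range (p ^ k), EP08_I p (c l) (a l) k b * g k b := by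
    intro k
    rw [Finset.sum_comm]
    refine Finset.sum_congr rfl fun b _ => ?_
    rw [EP08_cnt, Finset.sum_mul]
  simp only [h1]
  rw [Finset.sum_comm]
  refine Finset.sum_congr rfl fun l _ => ?_
  have h2 : ∀ k, ∑ b ∈ Finset.range (p ^ k), EP08_I p (c l) (a l) k b * g k b =
      if k ≤ a l then g k (c l) else 0 := by
    intro k
    by_cases hk : k ≤ a l
    · rw [if_pos hk, ← EP08_sum p hp (c l) k (g k) fun b hb => (hper k (c l) b hb).symm]
      refine Finset.sum_congr rfl fun b _ => ?_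
      unfold EP08_I
      by_cases hd : ((p : ℤ) ^ k) ∣ c l - (b : ℤ)
      · rw [if_pos ⟨hk, hd⟩, if_pos hd, one_mul]
      · rw [if_neg fun h => hd h.2, if_neg hd, zero_mul]
    · rw [if_neg hk]
      refine Finset.sum_eq_zero fun b _ => ?_
      unfold EP08_I
      rw [if_neg fun h => hk h.1, zero_mul]
  simp only [h2]
  rw [← Finset.sum_filter]
  refine Finset.sum_congr ?_ fun _ _ => rfl
  ext k
  simp only [Finset.mem_Icc, Finset.mem_filter]
  have := ha l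
  omega

private theorem EP08_mt (p : ℕ) (hp : 1 < p) (J : ℕ) (c c' : ℤ) (a a' : ℕ) (ha : a ≤ J) (_ : a' ≤ J) :
    mt p c c' a a' = ∑ k ∈ Finset.Icc 1 J, ∑ b ∈ Finset.range (p ^ k),
      EP08_I p c a k b * EP08_I p c' a' k b := by
  have h2 : ∀ k, ∑ b ∈ Finset.range (p ^ k), EP08_I p c a k b * EP08_I p c' a' k b =
      if k ≤ min a a' ∧ ((p : ℤ) ^ k) ∣ c - c' then 1 else 0 := by
    intro k
    by_cases hk : k ≤ min a a'
    · have hk1 : k ≤ a := hk.trans (min_le_left _ _)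
      have hk2 : k ≤ a' := hk.trans (min_le_right _ _)
      have h3 := EP08_sum p hp c k (fun b => if ((p : ℤ) ^ k) ∣ b - c' then 1 else 0) (by
        intro b hb
        have h4 : (((p : ℤ) ^ k) ∣ (b : ℤ) - c') ↔ (((p : ℤ) ^ k) ∣ c - c') := by
          constructor
          · intro h
            have := dvd_add hb h
            rwa [sub_add_sub_cancel] at this
          · intro h
            have := dvd_sub h hb
            rwa [sub_sub_sub_cancel_left] at this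
        simp only [h4])
      rw [show (if k ≤ min a a' ∧ ((p : ℤ) ^ k) ∣ c - c' then 1 else 0) =
        (if ((p : ℤ) ^ k) ∣ c - c' then 1 else 0) by simp only [hk, true_and], ← h3]
      refine Finset.sum_congr rfl fun b _ => ?_
      unfold EP08_I
      simp only [hk1, hk2, true_and]
      have h5 : (((p : ℤ) ^ k) ∣ c' - (b : ℤ)) ↔ (((p : ℤ) ^ k) ∣ (b : ℤ) - c') := dvd_sub_comm
      simp only [h5]
      by_cases hd : ((p : ℤ) ^ k) ∣ c - (b : ℤ)
      · rw [if_pos hd, if_pos hd, one_mul]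
      · rw [if_neg hd, if_neg hd, zero_mul]
    · rw [if_neg fun h => hk h.1]
      refine Finset.sum_eq_zero fun b _ => ?_
      unfold EP08_I
      by_cases h6 : k ≤ a
      · have h7 : ¬ k ≤ a' := fun h8 => hk (le_min h6 h8)
        rw [if_neg (fun h => h7 h.1 : ¬ (k ≤ a' ∧ ((p : ℤ) ^ k) ∣ c' - (b : ℤ))), mul_zero]
      · rw [if_neg (fun h => h6 h.1 : ¬ (k ≤ a ∧ ((p : ℤ) ^ k) ∣ c - (b : ℤ))), zero_mul]
  simp only [h2]
  unfold mt
  rw [← Finset.card_filter]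
  congr 1
  ext k
  simp only [Finset.mem_Icc, Finset.mem_filter, le_min_iff]
  constructor
  · rintro ⟨⟨h3, h4, h5⟩, h6⟩
    exact ⟨⟨h3, h4.trans ha⟩, ⟨h4, h5⟩, h6⟩
  · rintro ⟨⟨h3, -⟩, ⟨h4, h5⟩, h6⟩
    exact ⟨⟨h3, h4, h5⟩, h6⟩

theorem count_pairs {n : ℕ} (p : ℕ) (hp : 1 < p) (J : ℕ) (c : Fin n → ℤ) (a : Fin n → ℕ)
    (ha : ∀ l, a l ≤ J) :
    2 * (∑ i, ∑ j ∈ Finset.Ioi i, mt p (c i) (c j) (a i) (a j)) +
        ∑ k ∈ Finset.Icc 1 J, ∑ b ∈ Finset.range (p ^ k), cnt p c a b k =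
      ∑ k ∈ Finset.Icc 1 J, ∑ b ∈ Finset.range (p ^ k), cnt p c a b k ^ 2 := by
  set M : Fin n → Fin n → ℕ := fun i j => ∑ k ∈ Finset.Icc 1 J, ∑ b ∈ Finset.range (p ^ k),
      EP08_I p (c i) (a i) k b * EP08_I p (c j) (a j) k b with hM
  have hsym : ∀ i j, M i j = M j i := by
    intro i j
    simp only [hM, mul_comm]
  have hmt : ∀ i j, mt p (c i) (c j) (a i) (a j) = M i j := fun i j =>
    EP08_mt p hp J (c i) (c j) (a i) (a j) (ha i) (ha j)
  have hdiag : ∑ k ∈ Finset.Icc 1 J, ∑ b ∈ Finset.range (p ^ k), cnt p c a b k = ∑ i, M i i := by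
    simp only [hM, EP08_cnt]
    rw [Finset.sum_comm' (s := Finset.univ) (t := fun _ => Finset.Icc 1 J) (t' := Finset.Icc 1 J)
      (s' := fun _ => Finset.univ) (by simp)]
    refine Finset.sum_congr rfl fun k _ => ?_
    rw [Finset.sum_comm]
    refine Finset.sum_congr rfl fun i _ => Finset.sum_congr rfl fun b _ => ?_
    unfold EP08_I
    split_ifs <;> rfl
  have hsq : ∑ k ∈ Finset.Icc 1 J, ∑ b ∈ Finset.range (p ^ k), cnt p c a b k ^ 2 =
      ∑ i, ∑ j, M j i := by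
    simp only [hM, EP08_cnt]
    have h1 : ∀ k : ℕ, ∀ b : ℕ, (∑ l, EP08_I p (c l) (a l) k b) ^ 2 =
        ∑ i, ∑ j, EP08_I p (c j) (a j) k b * EP08_I p (c i) (a i) k b := by
      intro k b
      rw [sq, Finset.mul_sum]
      refine Finset.sum_congr rfl fun i _ => ?_
      rw [Finset.sum_mul]
    simp only [h1]
    have h2 : ∀ k : ℕ, ∑ b ∈ Finset.range (p ^ k), ∑ i, ∑ j,
        EP08_I p (c j) (a j) k b * EP08_I p (c i) (a i) k b =
        ∑ i, ∑ j, ∑ b ∈ Finset.range (p ^ k), EP08_I p (c j) (a j) k b * EP08_I p (c i) (a i) k b := by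
      intro k
      rw [Finset.sum_comm]
      refine Finset.sum_congr rfl fun i _ => ?_
      rw [Finset.sum_comm]
    simp only [h2]
    rw [Finset.sum_comm]
    refine Finset.sum_congr rfl fun i _ => ?_
    rw [Finset.sum_comm]
  rw [hdiag, hsq]
  simp only [hmt]
  have h3 := Finset.sum_sum_Ioi_add_eq_sum_sum_off_diag M
  have h4 : ∀ i, ∑ j, M j i = M i i + ∑ j ∈ {i}ᶜ, M j i := fun i =>
    Fintype.sum_eq_add_sum_compl i fun j => M j i
  simp only [h4]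
  rw [Finset.sum_add_distrib, ← h3]
  have h5 : ∀ i, ∑ j ∈ Finset.Ioi i, (M j i + M i j) = 2 * ∑ j ∈ Finset.Ioi i, M i j := by
    intro i
    rw [Finset.mul_sum]
    refine Finset.sum_congr rfl fun j _ => ?_
    rw [hsym j i]
    ring
  simp only [h5]
  rw [← Finset.mul_sum]
  ring

end Pool.Agent.LibER91
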