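import Pool.Agent.LibER91.EPDefs

/-!
[EP91 EP12] SHORT/MEDIUM, only Mathlib. The resultant of a coprime pair.

PLAN.
* `res_pos'`: `A`, `B` relatively prime in `ℤ[X]` are coprime in `ℚ[X]`: otherwise (`ℚ[X]` is a PID)
  a nonunit `h` divides both images; take a primitive `h' ∈ ℤ[X]` associated with `h` in `ℚ[X]`
  (`IsLocalization.integerNormalization`, `primPart`; `Polynomial.IsPrimitive.Int.dvd_iff_map_cast_dvd_map_cast`
  or `IsPrimitive.dvd_iff_fraction_map_dvd_fraction_map`): `h' ∣ A`, `h' ∣ B`, so `h'` is a unit,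
  contradiction (cf. also `IsPrimitive.isUnit_iff_isUnit_map`, `isRelPrime_iff...`).
  One of the degrees is exactly `D`. If both are `D`: `Polynomial.resultant_ne_zero` over `ℚ`, and
  `resultant_map_map`. If `A.natDegree = D > B.natDegree`: `resultant_add_right_deg`
  (`resultant A B D D = ± (lc A) ^ (D - deg B) * resultant A B D (deg B)`); symmetric case
  `resultant_add_left_deg` or `resultant_comm`. (Case `A = 0` or `B = 0`: the other one is a unit, `D = 0`.)
* `res_le'`: `res = |det (sylvester A B D D)|`, all entries have absolute value `≤ N`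
  (`Polynomial.sylvester`, `Fin.addCases`), `Matrix.det_le` gives `|det| ≤ (2D)! N ^ (2D)`, and
  `(2D)! ≤ (2D+1) ^ (2D)` (`Nat.factorial_le_pow`).
-/

set_option autoImplicit false

open Polynomial

namespace Pool.Agent.LibER91

theorem EP12_cop (A B : ℤ[X]) (hAB : IsRelPrime A B) :
    IsCoprime (A.map (Int.castRingHom ℚ)) (B.map (Int.castRingHom ℚ)) := by
  apply IsRelPrime.isCoprime
  intro h hA hB
  have hinj : Function.Injective (Int.castRingHom ℚ) := Int.cast_injective
  have h0 : h ≠ 0 := by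
    rintro rfl
    rw [zero_dvd_iff, Polynomial.map_eq_zero_iff hinj] at hA hB
    have h1 := @hAB X (by rw [hA]; exact dvd_zero _) (by rw [hB]; exact dvd_zero _)
    exact Polynomial.not_isUnit_X h1
  obtain ⟨b, hb, hb2⟩ := IsLocalization.integerNormalization_spec (nonZeroDivisors ℤ) h
  obtain ⟨f, hf⟩ : ∃ f, f = IsLocalization.integerNormalization (nonZeroDivisors ℤ) h := ⟨_, rfl⟩
  rw [← hf] at hb2
  have hb0 : b ≠ 0 := nonZeroDivisors.ne_zero hb
  have hbQ : (b : ℚ) ≠ 0 := by exact_mod_cast hb0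
  have hmap : f.map (Int.castRingHom ℚ) = C (b : ℚ) * h := by
    have h2 : (algebraMap ℤ ℚ) = Int.castRingHom ℚ := rfl
    rw [← h2, hb2, ← Int.cast_smul_eq_zsmul ℚ b h, Polynomial.smul_eq_C_mul]
  have hf0 : f ≠ 0 := by
    rintro rfl
    rw [Polynomial.map_zero] at hmap
    have := mul_ne_zero (C_ne_zero.2 hbQ) h0
    exact this hmap.symm
  have hc0 : f.content ≠ 0 := by rwa [Ne, Polynomial.content_eq_zero_iff]
  have hcQ : (f.content : ℚ) ≠ 0 := by exact_mod_cast hc0
  have hpp : C (f.content : ℚ) * f.primPart.map (Int.castRingHom ℚ) = C (b : ℚ) * h := by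
    rw [← hmap]
    conv_rhs => rw [f.eq_C_content_mul_primPart]
    rw [Polynomial.map_mul, Polynomial.map_C]
    rfl
  have hdvd : f.primPart.map (Int.castRingHom ℚ) ∣ h := by
    have h3 : h = C ((b : ℚ)⁻¹) * (C (f.content : ℚ) * f.primPart.map (Int.castRingHom ℚ)) := by
      rw [hpp, ← mul_assoc, ← C_mul, inv_mul_cancel₀ hbQ, C_1, one_mul]
    rw [h3, ← mul_assoc]
    exact Dvd.intro_left _ rfl
  have hdvd2 : h ∣ f.primPart.map (Int.castRingHom ℚ) := by
    have h3 : f.primPart.map (Int.castRingHom ℚ) = C ((f.content : ℚ)⁻¹) * (C (b : ℚ) * h) := by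
      rw [← hpp, ← mul_assoc, ← C_mul, inv_mul_cancel₀ hcQ, C_1, one_mul]
    rw [h3, ← mul_assoc]
    exact Dvd.intro_left _ rfl
  have hprim := f.isPrimitive_primPart
  have hA2 : f.primPart ∣ A :=
    (Polynomial.IsPrimitive.Int.dvd_iff_map_cast_dvd_map_cast _ _ hprim).2 (hdvd.trans hA)
  have hB2 : f.primPart ∣ B :=
    (Polynomial.IsPrimitive.Int.dvd_iff_map_cast_dvd_map_cast _ _ hprim).2 (hdvd.trans hB)
  have hu := hAB hA2 hB2
  have hu2 : IsUnit (f.primPart.map (Int.castRingHom ℚ)) :=
    hu.map (Polynomial.mapRingHom (Int.castRingHom ℚ))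
  exact isUnit_of_dvd_unit hdvd2 hu2

theorem EP12_ne (A B : ℤ[X]) (D : ℕ) (hAB : IsRelPrime A B) (hA : A.natDegree = D)
    (hB : B.natDegree ≤ D) : resultant A B D D ≠ 0 := by
  rcases Nat.eq_zero_or_pos D with rfl | hD
  · rw [resultant_zero_left_deg, pow_zero]
    exact one_ne_zero
  · have h1 := EP12_cop A B hAB
    have hinj : Function.Injective (Int.castRingHom ℚ) := Int.cast_injective
    have h2 := resultant_ne_zero _ _ h1
    rw [Polynomial.natDegree_map_eq_of_injective hinj,
      Polynomial.natDegree_map_eq_of_injective hinj, resultant_map_map] at h2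
    have h3 : A.resultant B A.natDegree B.natDegree ≠ 0 := by
      intro h4
      apply h2
      rw [h4, map_zero]
    rw [hA] at h3
    have h5 := resultant_add_right_deg A B D B.natDegree (D - B.natDegree) le_rfl
    rw [show B.natDegree + (D - B.natDegree) = D by omega] at h5
    rw [h5]
    refine mul_ne_zero (pow_ne_zero _ ?_) h3
    have hA0 : A ≠ 0 := by
      rintro rfl
      rw [natDegree_zero] at hA
      omega
    rw [← hA]
    exact Polynomial.leadingCoeff_ne_zero.2 hA0

theorem res_pos' (A B : ℤ[X]) (D : ℕ) (hAB : IsRelPrime A B) (hA : A.natDegree ≤ D)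
    (hB : B.natDegree ≤ D) (hD : D ≤ max A.natDegree B.natDegree) : 1 ≤ res A B D := by
  have h : resultant A B D D ≠ 0 := by
    rcases le_max_iff.1 hD with h1 | h1
    · exact EP12_ne A B D hAB (le_antisymm hA h1) hB
    · rw [resultant_comm]
      exact mul_ne_zero (pow_ne_zero _ (by norm_num))
        (EP12_ne B A D hAB.symm (le_antisymm hB h1) hA)
  unfold res
  exact Nat.one_le_iff_ne_zero.2 (Int.natAbs_ne_zero.2 h)

theorem res_le' (A B : ℤ[X]) (D : ℕ) (N : ℝ) (hN : 1 ≤ N) (hA : ∀ i, |(A.coeff i : ℝ)| ≤ N)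
    (hB : ∀ i, |(B.coeff i : ℝ)| ≤ N) (hpos : 1 ≤ res A B D) :
    Real.log (res A B D) ≤ 2 * D * Real.log (2 * D + 1) + 2 * D * Real.log N := by
  have hN0 : (0 : ℝ) ≤ N := by linarith
  have h1 : (res A B D : ℝ) =
      |(sylvester (A.map (Int.castRingHom ℝ)) (B.map (Int.castRingHom ℝ)) D D).det| := by
    have h2 := resultant_map_map A B D D (Int.castRingHom ℝ)
    have h3 : (sylvester (A.map (Int.castRingHom ℝ)) (B.map (Int.castRingHom ℝ)) D D).det =
      (A.map (Int.castRingHom ℝ)).resultant (B.map (Int.castRingHom ℝ)) D D := rfl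
    rw [h3, h2]
    unfold res
    rw [Nat.cast_natAbs, Int.cast_abs]
    rfl
  have h2 := Matrix.det_le (A := sylvester (A.map (Int.castRingHom ℝ))
    (B.map (Int.castRingHom ℝ)) D D) (abv := AbsoluteValue.abs) (x := N) (fun i j => by
      unfold sylvester
      rw [Matrix.of_apply]
      refine Fin.addCases (fun j₁ => ?_) (fun j₁ => ?_) j
      · rw [Fin.addCases_left]
        split_ifs
        · rw [Polynomial.coeff_map]
          exact hB _
        · simpa using hN0
      · rw [Fin.addCases_right]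
        split_ifs
        · rw [Polynomial.coeff_map]
          exact hA _
        · simpa using hN0)
  have h4 : (res A B D : ℝ) ≤ (2 * (D : ℝ) + 1) ^ (2 * D) * N ^ (2 * D) := by
    rw [h1]
    refine (show |_| ≤ _ from h2).trans ?_
    rw [Fintype.card_fin, nsmul_eq_mul, ← two_mul]
    refine mul_le_mul_of_nonneg_right ?_ (by positivity)
    have h5 : ((2 * D).factorial : ℝ) ≤ ((2 * D : ℕ) : ℝ) ^ (2 * D) := by
      exact_mod_cast Nat.factorial_le_pow (2 * D)
    refine h5.trans ?_
    apply pow_le_pow_left₀ (by positivity)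
    push_cast
    linarith
  have hpos' : (0 : ℝ) < res A B D := by exact_mod_cast hpos
  refine (Real.log_le_log hpos' h4).trans (le_of_eq ?_)
  rw [Real.log_mul (by positivity) (by positivity), Real.log_pow, Real.log_pow]
  push_cast
  ring

end Pool.Agent.LibER91
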