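import Pool.Agent.LibER91.EP02
import Pool.Agent.LibER91.EP03
import Pool.Agent.LibER91.EP06
import Pool.Agent.LibER91.EP07
import Pool.Agent.LibER91.EP08
import Pool.Agent.LibER91.EP12

/-!
The energy inequality for one prime.
-/

set_option autoImplicit false

open Polynomial

namespace Pool.Agent.LibER91

theorem e2a (A B : ℤ[X]) (D : ℕ) (hAB : IsRelPrime A B) (hA : A.natDegree ≤ D)
    (hB : B.natDegree ≤ D) (hD : D ≤ max A.natDegree B.natDegree) (p : ℕ) (hp : p.Prime)
    (c : Fin (D + D) → ℤ) (a : Fin (D + D) → ℕ) :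
    ∑ l, wt p A B (c l) (a l) ≤ (res A B D).factorization p +
      ∑ i, ∑ j ∈ Finset.Ioi i, mt p (c i) (c j) (a i) (a j) := by
  have hR : resultant A B D D ≠ 0 := by
    have h := res_pos' A B D hAB hA hB hD
    unfold res at h
    intro h0
    rw [h0] at h
    simp at h
  exact mult_generic p hp c a _ hR _ (generic_dvd A B p D hA hB c a)

private theorem ne_of_rel {A B : ℤ[X]} (hAB : IsRelPrime A B) : A ≠ 0 ∨ B ≠ 0 := by
  by_contra h
  push Not at h
  have h2 : IsUnit (X : ℤ[X]) := hAB (by rw [h.1]; exact dvd_zero _) (by rw [h.2]; exact dvd_zero _)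
  exact Polynomial.not_isUnit_X h2

theorem local_energy (A B : ℤ[X]) (D : ℕ) (hAB : IsRelPrime A B) (hA : A.natDegree ≤ D)
    (hB : B.natDegree ≤ D) (hD : D ≤ max A.natDegree B.natDegree) (p : ℕ) (hp : p.Prime) (J : ℕ) :
    ∑ k ∈ Finset.Icc 1 J, ∑ b ∈ Finset.range (p ^ k), (inc A B (p ^ k) b) ^ 2 ≤
      2 * (res A B D).factorization p := by
  have hne := ne_of_rel hAB
  -- the tree function
  let d : ℕ → ℤ → ℕ := fun k b => if k = 0 then D + D else wt p A B b k - wt p A B b (k - 1)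
  have hd0 : ∀ b, d 0 b = D + D := fun b => by simp [d]
  have hds : ∀ k b, d (k + 1) b = wt p A B b (k + 1) - wt p A B b k := fun k b => by simp [d]
  have hper : ∀ k b b', (p : ℤ) ^ k ∣ b - b' → d k b = d k b' := by
    intro k b b' h
    rcases k with _ | k
    · rw [hd0, hd0]
    · rw [hds, hds, wt_congr p A B (k + 1) b b' h,
        wt_congr p A B k b b' (dvd_trans (pow_dvd_pow _ (Nat.le_succ k)) h)]
  have hsub : ∀ k b, ∑ i ∈ Finset.range p, d (k + 1) (b + i * (p : ℤ) ^ k) ≤ d k b := by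
    intro k b
    rcases k with _ | k
    · rw [hd0]
      have h := sub_zero p hp A B D hAB hA hB b
      calc ∑ i ∈ Finset.range p, d (0 + 1) (b + i * (p : ℤ) ^ 0)
          ≤ ∑ a ∈ Finset.range p, wt p A B (b + a) 1 := by
            refine Finset.sum_le_sum fun i _ => ?_
            rw [hds]
            simp
        _ ≤ D := h
        _ ≤ D + D := by omega
    · rw [hds]
      have h := sub_succ p hp A B hne b k
      refine le_trans (le_of_eq ?_) h
      refine Finset.sum_congr rfl fun i _ => ?_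
      rw [hds]
  obtain ⟨c, a, haJ, hcnt⟩ := family p hp.one_lt J (D + D) d hd0 hper hsub
  have h1 := e2a A B D hAB hA hB hD p hp c a
  -- the sum of the weights
  have hw : ∀ l, wt p A B (c l) (a l) = ∑ k ∈ Finset.Icc 1 (a l), d k (c l) := by
    intro l
    have : ∀ n : ℕ, wt p A B (c l) n = ∑ k ∈ Finset.Icc 1 n, d k (c l) := by
      intro n
      induction n with
      | zero => simp [wt_zero p A B hAB]
      | succ n ih =>
        rw [Finset.sum_Icc_succ_top (by omega), ← ih, hds]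
        have := wt_mono p hp A B hne (c l) n
        omega
    exact this _
  have h2 := count_lin p hp.one_lt J c a haJ d hper
  have h3 := count_pairs p hp.one_lt J c a haJ
  have e1 : ∑ l, wt p A B (c l) (a l) =
      ∑ k ∈ Finset.Icc 1 J, ∑ b ∈ Finset.range (p ^ k), d k b ^ 2 := by
    rw [Finset.sum_congr rfl fun l _ => hw l, h2]
    refine Finset.sum_congr rfl fun k hk => Finset.sum_congr rfl fun b _ => ?_
    rw [hcnt k (Finset.mem_Icc.1 hk).2]
    ring
  have e2 : ∑ k ∈ Finset.Icc 1 J, ∑ b ∈ Finset.range (p ^ k), cnt p c a b k ^ 2 =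
      ∑ k ∈ Finset.Icc 1 J, ∑ b ∈ Finset.range (p ^ k), d k b ^ 2 := by
    refine Finset.sum_congr rfl fun k hk => Finset.sum_congr rfl fun b _ => ?_
    rw [hcnt k (Finset.mem_Icc.1 hk).2]
  have e3 : ∑ k ∈ Finset.Icc 1 J, ∑ b ∈ Finset.range (p ^ k), (inc A B (p ^ k) b) ^ 2 =
      ∑ k ∈ Finset.Icc 1 J, ∑ b ∈ Finset.range (p ^ k), d k b ^ 2 := by
    refine Finset.sum_congr rfl fun k hk => Finset.sum_congr rfl fun b _ => ?_
    obtain ⟨k, rfl⟩ : ∃ k', k = k' + 1 := ⟨k - 1, by have := (Finset.mem_Icc.1 hk).1; omega⟩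
    rw [inc_pow p hp A B b k, hds]
  rw [e3]
  rw [e2] at h3
  rw [e1] at h1
  omega

end Pool.Agent.LibER91
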