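import Mathlib

/-!
[EP91 EP10] SHORT/MEDIUM, only Mathlib. Sums over prime powers.

PLAN.
* `sum_prime_pow`: the terms with `vonMangoldt q ≠ 0` are the prime powers `q = p ^ k`, `k ≥ 1`,
  `p` prime, `p ^ k ≤ N` (i.e. `k ≤ Nat.log p N`), with `vonMangoldt (p ^ k) = log p`
  (`ArithmeticFunction.vonMangoldt_apply_pow`, `vonMangoldt_apply_prime`). Reindex the right side:
  `Finset.sum_sigma'` and `Finset.sum_bij'`/`Finset.sum_nbij'` between
  `{(p, k)}` and `(Finset.Icc 1 N).filter IsPrimePow` (map `(p, k) ↦ p ^ k`, inverse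
  `q ↦ (q.minFac, q.factorization q.minFac)`), `Nat.Prime.pow_minFac`, `IsPrimePow.minFac_pow_factorization_eq`.
* `sum_log_le`, `sum_log_eq`: `log n = ∑ p ∈ n.factorization.support, factorization p * log p`
  (`Real.log_nat_eq_sum_factorization`); compare the index sets (`Finset.sum_le_sum_of_subset_of_nonneg`,
  `Finset.sum_subset`; terms outside the support vanish; if `n ≤ N` all prime factors are `≤ N`).
-/

set_option autoImplicit false

namespace Pool.Agent.LibER91

theorem sum_prime_pow (N : ℕ) (h : ℕ → ℝ) :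
    ∑ q ∈ Finset.Icc 1 N, (ArithmeticFunction.vonMangoldt q : ℝ) * h q =
      ∑ p ∈ (Finset.range (N + 1)).filter Nat.Prime,
        Real.log p * ∑ k ∈ Finset.Icc 1 (Nat.log p N), h (p ^ k) := by
  classical
  have h1 : ∑ q ∈ Finset.Icc 1 N, (ArithmeticFunction.vonMangoldt q : ℝ) * h q =
      ∑ q ∈ (Finset.Icc 1 N).filter IsPrimePow,
        (ArithmeticFunction.vonMangoldt q : ℝ) * h q := by
    symm
    apply Finset.sum_filter_of_ne
    intro q _ hne
    by_contra hq
    apply hne
    rw [ArithmeticFunction.vonMangoldt_apply, if_neg hq, zero_mul]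
  rw [h1]
  simp only [Finset.mul_sum]
  rw [Finset.sum_sigma']
  symm
  refine Finset.sum_bij (fun x _ => x.1 ^ x.2) ?_ ?_ ?_ ?_
  · rintro ⟨p, k⟩ hx
    simp only [Finset.mem_sigma, Finset.mem_filter, Finset.mem_range, Finset.mem_Icc] at hx
    obtain ⟨⟨hpN, hp⟩, hk1, hk2⟩ := hx
    have hN : N ≠ 0 := by
      rintro rfl
      simp only [zero_add, Nat.lt_one_iff] at hpN
      exact hp.ne_zero hpN
    simp only [Finset.mem_filter, Finset.mem_Icc]
    refine ⟨⟨Nat.one_le_pow _ _ hp.pos, ?_⟩, ?_⟩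
    · exact Nat.pow_le_of_le_log hN hk2
    · exact (isPrimePow_nat_iff _).2 ⟨p, k, hp, hk1, rfl⟩
  · rintro ⟨p, k⟩ hx ⟨p', k'⟩ hx' heq
    simp only [Finset.mem_sigma, Finset.mem_filter, Finset.mem_range, Finset.mem_Icc] at hx hx'
    obtain ⟨⟨_, hp⟩, hk1, _⟩ := hx
    obtain ⟨⟨_, hp'⟩, hk1', _⟩ := hx'
    simp only at heq
    have e1 : p = p' := by
      have hd : p ∣ p' ^ k' := by
        rw [← heq]
        exact dvd_pow_self p (by omega)
      exact (Nat.prime_dvd_prime_iff_eq hp hp').1 (hp.dvd_of_dvd_pow hd)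
    subst e1
    have e2 : k = k' := Nat.pow_right_injective hp.two_le heq
    subst e2
    rfl
  · intro q hq
    simp only [Finset.mem_filter, Finset.mem_Icc] at hq
    obtain ⟨⟨hq1, hqN⟩, hpp⟩ := hq
    obtain ⟨p, k, hp, hk, rfl⟩ := (isPrimePow_nat_iff _).1 hpp
    refine ⟨⟨p, k⟩, ?_, rfl⟩
    simp only [Finset.mem_sigma, Finset.mem_filter, Finset.mem_range, Finset.mem_Icc]
    have hN : N ≠ 0 := by omega
    refine ⟨⟨?_, hp⟩, hk, Nat.le_log_of_pow_le hp.one_lt hqN⟩
    have : p ≤ p ^ k := Nat.le_self_pow (by omega) p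
    omega
  · rintro ⟨p, k⟩ hx
    simp only [Finset.mem_sigma, Finset.mem_filter, Finset.mem_range, Finset.mem_Icc] at hx
    obtain ⟨⟨_, hp⟩, hk1, _⟩ := hx
    show Real.log p * h (p ^ k) = _
    have hk0 : k ≠ 0 := by
      have : 1 ≤ k := hk1
      omega
    rw [ArithmeticFunction.vonMangoldt_apply_pow hk0,
      ArithmeticFunction.vonMangoldt_apply_prime hp]

theorem sum_log_le (n N : ℕ) (hn : n ≠ 0) :
    ∑ p ∈ (Finset.range (N + 1)).filter Nat.Prime, Real.log p * (n.factorization p : ℝ) ≤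
      Real.log n := by
  classical
  have h0 : Real.log n = ∑ p ∈ n.factorization.support, Real.log p * (n.factorization p : ℝ) := by
    rw [Real.log_nat_eq_sum_factorization, Finsupp.sum]
    exact Finset.sum_congr rfl fun p _ => mul_comm _ _
  rw [h0]
  have h1 : ∑ p ∈ (Finset.range (N + 1)).filter Nat.Prime,
      Real.log p * (n.factorization p : ℝ) =
      ∑ p ∈ ((Finset.range (N + 1)).filter Nat.Prime).filter (fun p => p ∈ n.factorization.support),
        Real.log p * (n.factorization p : ℝ) := by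
    symm
    apply Finset.sum_filter_of_ne
    intro p _ hne
    rw [Finsupp.mem_support_iff]
    intro h
    apply hne
    rw [h]
    simp
  rw [h1]
  apply Finset.sum_le_sum_of_subset_of_nonneg
  · intro p hp
    exact (Finset.mem_filter.1 hp).2
  · intro p _ _
    exact mul_nonneg (Real.log_natCast_nonneg p) (Nat.cast_nonneg _)

theorem sum_log_eq (n N : ℕ) (hn : n ≠ 0) (hN : n ≤ N) :
    ∑ p ∈ (Finset.range (N + 1)).filter Nat.Prime, Real.log p * (n.factorization p : ℝ) =
      Real.log n := by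
  classical
  have h0 : Real.log n = ∑ p ∈ n.factorization.support, Real.log p * (n.factorization p : ℝ) := by
    rw [Real.log_nat_eq_sum_factorization, Finsupp.sum]
    exact Finset.sum_congr rfl fun p _ => mul_comm _ _
  rw [h0]
  symm
  apply Finset.sum_subset
  · intro p hp
    rw [Nat.support_factorization, Nat.mem_primeFactors] at hp
    rw [Finset.mem_filter, Finset.mem_range]
    have := Nat.le_of_dvd (Nat.pos_of_ne_zero hn) hp.2.1
    exact ⟨by omega, hp.1⟩
  · intro p _ hp
    rw [Finsupp.mem_support_iff, not_not] at hp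
    rw [hp]
    simp

end Pool.Agent.LibER91
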