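import Pool.Agent.LibER91.EP04
import Pool.Agent.LibER91.EP10

/-!
[EP91 EP11] SHORT/MEDIUM. The decomposition (T) of the gcd.

PLAN.
* `wt_val`: `g := Int.gcd (A.eval x) (B.eval x) ≠ 0`, so `A ≠ 0 ∨ B ≠ 0`. Let `v = g.factorization p`,
  `v ≤ J`. `wt ≤ v`: `wt_dvd` evaluated at `X = 0` gives `p ^ wt ∣ A.eval x`, `B.eval x`, so
  `p ^ wt ∣ g` (`Int.dvd_gcd`). `v ≤ wt`: `le_wt` with `m = v`: write `A.comp (C x + C (p ^ J) * X) =
  C (A.eval x) + C (p ^ J) * H` (coefficient 0 is `A.eval x`; the coefficients `i ≥ 1` are divisible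
  by `p ^ J`: `A.comp (C x + C q * X) = (A.comp (C x + X)).comp (C q * X)`, `comp_C_mul_X_coeff`, or
  `X - 0`: `Polynomial.evalRingHom`/`sub_dvd_eval_sub` style: `C q * X ∣ A.comp (C x + C q * X) - A.comp (C x)`
  by `Polynomial.sub_dvd_eval_sub` in the ring `ℤ[X]` or `Polynomial.aeval`), and `p ^ v ∣ p ^ J`.
* `log_gcd`: `sum_prime_pow` with `h q = inc A B q x`; for a prime `p ≤ N`, `J := Nat.log p N`:
  `∑ k ∈ Icc 1 J, inc A B (p ^ k) x = wt p A B x J - wt p A B x 0 = wt p A B x J` (telescoping, `inc_pow`,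
  `wt_mono`, `wt_zero`) `= g.factorization p` by `wt_val` (`p ^ v ≤ g ≤ N` so `v ≤ Nat.log p N`,
  `Nat.le_log_of_pow_le` or `Nat.pow_le_iff_le_log`); then `sum_log_eq`.
-/

set_option autoImplicit false

open Polynomial

namespace Pool.Agent.LibER91

private theorem EP11_ne (A B : ℤ[X]) (x : ℤ)
    (hx : Int.gcd (A.eval x) (B.eval x) ≠ 0) : A ≠ 0 ∨ B ≠ 0 := by
  by_contra h
  push Not at h
  apply hx
  rw [h.1, h.2]
  simp

private theorem EP11_dvd_comp (A : ℤ[X]) (x q m : ℤ) (h1 : m ∣ A.eval x) (h2 : m ∣ q) :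
    C m ∣ A.comp (C x + C q * X) := by
  have e1 : A.comp (C x + C q * X) = (A.map C).eval (C x + C q * X) := by
    rw [Polynomial.comp, Polynomial.eval₂_eq_eval_map]
  have e2 : C (A.eval x) = (A.map C).eval (C x) := by
    rw [← Polynomial.comp_C, Polynomial.comp, Polynomial.eval₂_eq_eval_map]
  have e3 : (C x + C q * X) - C x ∣ (A.map C).eval (C x + C q * X) - (A.map C).eval (C x) :=
    Polynomial.sub_dvd_eval_sub _ _ _
  rw [← e1, ← e2] at e3
  have e4 : C m ∣ (C x + C q * X) - C x := by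
    have : (C x + C q * X) - C x = C q * X := by ring
    rw [this]
    exact Dvd.dvd.mul_right (map_dvd C h2) X
  have e5 : C m ∣ C (A.eval x) := map_dvd C h1
  have e6 := dvd_add (e4.trans e3) e5
  rwa [sub_add_cancel] at e6

theorem wt_val (p : ℕ) (hp : p.Prime) (A B : ℤ[X]) (x : ℤ)
    (hx : Int.gcd (A.eval x) (B.eval x) ≠ 0) (J : ℕ)
    (hJ : (Int.gcd (A.eval x) (B.eval x)).factorization p ≤ J) :
    wt p A B x J = (Int.gcd (A.eval x) (B.eval x)).factorization p := by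
  have hAB := EP11_ne A B x hx
  apply le_antisymm
  · obtain ⟨h1, h2⟩ := wt_dvd p A B x J
    have key : ∀ F : ℤ[X], C ((p : ℤ) ^ wt p A B x J) ∣ F.comp (C x + C ((p ^ J : ℕ) : ℤ) * X) →
        (p : ℤ) ^ wt p A B x J ∣ F.eval x := by
      rintro F ⟨G, hG⟩
      refine ⟨G.eval 0, ?_⟩
      have := congrArg (Polynomial.eval 0) hG
      simpa using this
    rw [← hp.pow_dvd_iff_le_factorization hx]
    have h3 := Int.dvd_coe_gcd (key A h1) (key B h2)
    exact_mod_cast h3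
  · have hd : p ^ (Int.gcd (A.eval x) (B.eval x)).factorization p ∣
        Int.gcd (A.eval x) (B.eval x) := Nat.ordProj_dvd _ _
    have hd' : (p : ℤ) ^ (Int.gcd (A.eval x) (B.eval x)).factorization p ∣
        (Int.gcd (A.eval x) (B.eval x) : ℤ) := by exact_mod_cast hd
    have hq : (p : ℤ) ^ (Int.gcd (A.eval x) (B.eval x)).factorization p ∣ ((p ^ J : ℕ) : ℤ) := by
      have := pow_dvd_pow p hJ
      exact_mod_cast this
    apply le_wt p hp A B hAB x J
    · exact EP11_dvd_comp A x _ _ (hd'.trans (Int.gcd_dvd_left ..)) hq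
    · exact EP11_dvd_comp B x _ _ (hd'.trans (Int.gcd_dvd_right ..)) hq

private theorem EP11_tel (p : ℕ) (hp : p.Prime) (A B : ℤ[X]) (hAB : IsRelPrime A B)
    (hne : A ≠ 0 ∨ B ≠ 0) (x : ℤ) (J : ℕ) :
    ∑ k ∈ Finset.Icc 1 J, inc A B (p ^ k) x = wt p A B x J := by
  induction J with
  | zero => simp [wt_zero p A B hAB x]
  | succ J ih =>
    rw [Finset.sum_Icc_succ_top (by omega), ih, inc_pow p hp]
    have := wt_mono p hp A B hne x J
    omega

theorem log_gcd' (A B : ℤ[X]) (hAB : IsRelPrime A B) (x : ℤ)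
    (hx : Int.gcd (A.eval x) (B.eval x) ≠ 0) (N : ℕ) (hN : Int.gcd (A.eval x) (B.eval x) ≤ N) :
    Real.log (Int.gcd (A.eval x) (B.eval x)) =
      ∑ q ∈ Finset.Icc 1 N, (ArithmeticFunction.vonMangoldt q : ℝ) * (inc A B q x : ℝ) := by
  have hne := EP11_ne A B x hx
  rw [← sum_log_eq _ N hx hN, sum_prime_pow N (fun q => (inc A B q x : ℝ))]
  refine Finset.sum_congr rfl fun p hp => ?_
  rw [Finset.mem_filter, Finset.mem_range] at hp
  obtain ⟨hpN, hp⟩ := hp
  congr 1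
  have h1 : (Int.gcd (A.eval x) (B.eval x)).factorization p ≤ Nat.log p N := by
    apply Nat.le_log_of_pow_le hp.one_lt
    exact (Nat.le_of_dvd (Nat.pos_of_ne_zero hx) (Nat.ordProj_dvd _ _)).trans hN
  rw [← wt_val p hp A B x hx _ h1, ← EP11_tel p hp A B hAB hne x (Nat.log p N)]
  push_cast
  rfl

end Pool.Agent.LibER91
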