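import Mathlib

/-!
[EP91 EP13] MEDIUM/STRONG, only Mathlib. Weighted Fekete sets, for any absolute value of `ℚ`.

PLAN. `n := G.natDegree`. Among the subsets `U ⊆ T` with `n + 1` elements (`T.powersetCard (n+1)`,
nonempty) choose one maximizing
`Ψ U = (∏ x ∈ U, ∏ y ∈ U.erase x, f (x - y)) / (∏ x ∈ U, f (G.eval x)) ^ 2`.
For `Y` of cardinality `n` and `x ∉ Y`: `Ψ (insert x Y) = Ψ Y * (∏ y ∈ Y, f (x - y)) ^ 2 / f (G.eval x) ^ 2`
(`f` is symmetric: `AbsoluteValue.map_sub`). Hence for `x ∈ U`, `Y = U.erase x`, `t ∈ T`, `t ∉ Y`: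
`(∏ y ∈ Y, f (t - y)) / f (G.eval t) ≤ (∏ y ∈ Y, f (x - y)) / f (G.eval x)` (*)
(`Ψ Y > 0` since the elements are distinct and `G` does not vanish; `abs_le_abs`/`pow_le_pow_left`).
Lagrange (`Lagrange.leadingCoeff_eq_sum` with `v = (Int.cast : ℤ → ℚ)`, `s = U`, applied to
`G.map (Int.castRingHom ℚ)`): `(G.leadingCoeff : ℚ) = ∑ x ∈ U, G.eval x / ∏ y ∈ U.erase x, (x - y)`;
`hsum` gives `x ∈ U` with `f lc ≤ κ * f (G.eval x) / ∏ y ∈ U.erase x, f (x - y)`. Take `Y = U.erase x` and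
combine with (*).
-/

set_option autoImplicit false

open Polynomial

namespace Pool.Agent.LibER91

private theorem ep13_insert (f : AbsoluteValue ℚ ℝ) (x : ℤ) (Y : Finset ℤ) (hx : x ∉ Y) :
    ∏ z ∈ insert x Y, ∏ y ∈ (insert x Y).erase z, f ((z : ℚ) - (y : ℚ)) =
      (∏ z ∈ Y, ∏ y ∈ Y.erase z, f ((z : ℚ) - (y : ℚ))) * (∏ y ∈ Y, f ((x : ℚ) - (y : ℚ))) ^ 2 := by
  rw [Finset.prod_insert hx, Finset.erase_insert hx]
  have h1 : ∀ z ∈ Y, ∏ y ∈ (insert x Y).erase z, f ((z : ℚ) - (y : ℚ)) =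
      f ((x : ℚ) - (z : ℚ)) * ∏ y ∈ Y.erase z, f ((z : ℚ) - (y : ℚ)) := by
    intro z hz
    have hzx : x ≠ z := fun h => hx (h ▸ hz)
    rw [Finset.erase_insert_of_ne hzx, Finset.prod_insert (fun h => hx (Finset.mem_of_mem_erase h)),
      AbsoluteValue.map_sub]
  rw [Finset.prod_congr rfl h1, Finset.prod_mul_distrib]
  ring

private theorem ep13_pos (f : AbsoluteValue ℚ ℝ) (Y : Finset ℤ) :
    0 < ∏ z ∈ Y, ∏ y ∈ Y.erase z, f ((z : ℚ) - (y : ℚ)) := by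
  refine Finset.prod_pos fun z _ => Finset.prod_pos fun y hy => f.pos ?_
  rw [sub_ne_zero]
  exact fun h => (Finset.ne_of_mem_erase hy) (by exact_mod_cast h.symm)

theorem fekete (f : AbsoluteValue ℚ ℝ) (κ : ℝ) (hκ : 0 ≤ κ) (G : ℤ[X]) (hG : G ≠ 0)
    (T : Finset ℤ) (hT : G.natDegree + 1 ≤ T.card) (h0 : ∀ t ∈ T, G.eval t ≠ 0)
    (hsum : ∀ (U : Finset ℤ) (z : ℤ → ℚ), U.card = G.natDegree + 1 →
      ∃ i ∈ U, f (∑ j ∈ U, z j) ≤ κ * f (z i)) :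
    ∃ Y ⊆ T, Y.card = G.natDegree ∧ ∀ t ∈ T, t ∉ Y →
      f (G.leadingCoeff : ℚ) * ∏ y ∈ Y, f ((t : ℚ) - (y : ℚ)) ≤ κ * f ((G.eval t : ℤ) : ℚ) := by
  have hne : (T.powersetCard (G.natDegree + 1)).Nonempty := Finset.powersetCard_nonempty.mpr hT
  obtain ⟨U, hU, hmax⟩ := Finset.exists_max_image (T.powersetCard (G.natDegree + 1))
    (fun U => (∏ z ∈ U, ∏ y ∈ U.erase z, f ((z : ℚ) - (y : ℚ))) / (∏ z ∈ U, f ((G.eval z : ℤ) : ℚ)) ^ 2) hne
  rw [Finset.mem_powersetCard] at hU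
  obtain ⟨hUT, hUc⟩ := hU
  have hg : ∀ t ∈ T, 0 < f ((G.eval t : ℤ) : ℚ) := fun t ht => f.pos (by exact_mod_cast h0 t ht)
  -- the comparison
  have hstar : ∀ x ∈ U, ∀ t ∈ T, t ∉ U.erase x →
      (∏ y ∈ U.erase x, f ((t : ℚ) - (y : ℚ))) / f ((G.eval t : ℤ) : ℚ) ≤
        (∏ y ∈ U.erase x, f ((x : ℚ) - (y : ℚ))) / f ((G.eval x : ℤ) : ℚ) := by
    intro x hx t ht htY
    have hxT : x ∈ T := hUT hx
    have hYc : (U.erase x).card = G.natDegree := by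
      rw [Finset.card_erase_of_mem hx, hUc]
      rfl
    have hmem : insert t (U.erase x) ∈ T.powersetCard (G.natDegree + 1) := by
      rw [Finset.mem_powersetCard]
      refine ⟨Finset.insert_subset ht ((Finset.erase_subset _ _).trans hUT), ?_⟩
      rw [Finset.card_insert_of_notMem htY, hYc]
    have h1 := hmax _ hmem
    have h2 : insert x (U.erase x) = U := Finset.insert_erase hx
    rw [← h2] at h1
    rw [h2] at h1
    have h3 : ∀ z : ℤ, z ∈ T → z ∉ U.erase x →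
        (∏ w ∈ insert z (U.erase x), ∏ y ∈ (insert z (U.erase x)).erase w, f ((w : ℚ) - (y : ℚ))) /
          (∏ w ∈ insert z (U.erase x), f ((G.eval w : ℤ) : ℚ)) ^ 2 =
        ((∏ w ∈ U.erase x, ∏ y ∈ (U.erase x).erase w, f ((w : ℚ) - (y : ℚ))) /
          (∏ w ∈ U.erase x, f ((G.eval w : ℤ) : ℚ)) ^ 2) *
          ((∏ y ∈ U.erase x, f ((z : ℚ) - (y : ℚ))) / f ((G.eval z : ℤ) : ℚ)) ^ 2 := by
      intro z _ hz
      rw [ep13_insert f z _ hz, Finset.prod_insert hz, mul_pow, div_pow, mul_comm (f ((G.eval z : ℤ) : ℚ) ^ 2),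
        mul_div_mul_comm]
    have h4 := h3 t ht htY
    have h5 := h3 x hxT (Finset.notMem_erase x U)
    rw [h2] at h5
    rw [h4, h5] at h1
    have hpos : 0 < (∏ w ∈ U.erase x, ∏ y ∈ (U.erase x).erase w, f ((w : ℚ) - (y : ℚ))) /
          (∏ w ∈ U.erase x, f ((G.eval w : ℤ) : ℚ)) ^ 2 := by
      refine div_pos (ep13_pos f _) (pow_pos (Finset.prod_pos fun w hw => hg w ?_) 2)
      exact hUT (Finset.mem_of_mem_erase hw)
    have h6 := le_of_mul_le_mul_left h1 hpos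
    have h7 : 0 ≤ (∏ y ∈ U.erase x, f ((x : ℚ) - (y : ℚ))) / f ((G.eval x : ℤ) : ℚ) :=
      div_nonneg (Finset.prod_nonneg fun _ _ => f.nonneg _) (f.nonneg _)
    exact le_of_sq_le_sq h6 h7
  -- Lagrange
  have hinj : Set.InjOn (fun z : ℤ => (z : ℚ)) U := fun a _ b _ h => Int.cast_injective h
  have hdeg : (U.card : WithBot ℕ) = (G.map (Int.castRingHom ℚ)).degree + 1 := by
    rw [Polynomial.degree_map_eq_of_injective (RingHom.injective_int _), Polynomial.degree_eq_natDegree hG, hUc]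
    rfl
  have hL := Lagrange.leadingCoeff_eq_sum hinj hdeg
  rw [Polynomial.leadingCoeff_map_of_injective (RingHom.injective_int _)] at hL
  obtain ⟨x, hx, hle⟩ := hsum U (fun z => (G.map (Int.castRingHom ℚ)).eval (z : ℚ) / ∏ j ∈ U.erase z, ((z : ℚ) - (j : ℚ))) hUc
  rw [← hL] at hle
  refine ⟨U.erase x, (Finset.erase_subset _ _).trans hUT, ?_, fun t ht htY => ?_⟩
  · rw [Finset.card_erase_of_mem hx, hUc]
    rfl
  have hev : (G.map (Int.castRingHom ℚ)).eval (x : ℚ) = ((G.eval x : ℤ) : ℚ) := by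
    have := Polynomial.eval_intCast_map (Int.castRingHom ℚ) G x
    rw [this]
    rfl
  simp only [hev] at hle
  rw [map_div₀, map_prod] at hle
  have hlc : f ((Int.castRingHom ℚ) G.leadingCoeff) = f (G.leadingCoeff : ℚ) := rfl
  rw [hlc] at hle
  have hPx : 0 < ∏ y ∈ U.erase x, f ((x : ℚ) - (y : ℚ)) := by
    refine Finset.prod_pos fun y hy => f.pos ?_
    rw [sub_ne_zero]
    exact fun h => (Finset.ne_of_mem_erase hy) (by exact_mod_cast h.symm)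
  have hgt := hg t ht
  have hgx := hg x (hUT hx)
  have h8 := hstar x hx t ht htY
  have hPt : 0 ≤ ∏ y ∈ U.erase x, f ((t : ℚ) - (y : ℚ)) := Finset.prod_nonneg fun _ _ => f.nonneg _
  rw [div_le_div_iff₀ hgt hgx] at h8
  -- h8 : Pt * gx ≤ Px * gt ; hle : lc ≤ κ * (gx / Px)
  calc f (G.leadingCoeff : ℚ) * ∏ y ∈ U.erase x, f ((t : ℚ) - (y : ℚ))
      ≤ (κ * (f ((G.eval x : ℤ) : ℚ) / ∏ y ∈ U.erase x, f ((x : ℚ) - (y : ℚ)))) *
          ∏ y ∈ U.erase x, f ((t : ℚ) - (y : ℚ)) := mul_le_mul_of_nonneg_right hle hPt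
    _ = κ * ((∏ y ∈ U.erase x, f ((t : ℚ) - (y : ℚ))) * f ((G.eval x : ℤ) : ℚ)) /
          ∏ y ∈ U.erase x, f ((x : ℚ) - (y : ℚ)) := by ring
    _ ≤ κ * ((∏ y ∈ U.erase x, f ((x : ℚ) - (y : ℚ))) * f ((G.eval t : ℤ) : ℚ)) /
          ∏ y ∈ U.erase x, f ((x : ℚ) - (y : ℚ)) :=
        div_le_div_of_nonneg_right (mul_le_mul_of_nonneg_left h8 hκ) hPx.le
    _ = κ * f ((G.eval t : ℤ) : ℚ) := by
        rw [mul_div_assoc, mul_div_cancel_left₀ _ hPx.ne']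

end Pool.Agent.LibER91
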