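import Pool.Agent.LibER91.EP13

/-!
[EP91 EP14] The p-adic case of the weighted Fekete set.
-/

set_option autoImplicit false

open Polynomial

namespace Pool.Agent.LibER91

private theorem EP14_val (p : ℕ) [Fact p.Prime] (z : ℤ) (hz : z ≠ 0) :
    Rat.AbsoluteValue.padic p ((z : ℤ) : ℚ) = ((p : ℝ) ^ (padicValInt p z))⁻¹ := by
  rw [Rat.AbsoluteValue.padic_eq_padicNorm, padicNorm.eq_zpow_of_nonzero (by exact_mod_cast hz),
    padicValRat.of_int]
  push_cast
  rw [zpow_neg, zpow_natCast]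

theorem fekete_padic (p : ℕ) (hp : p.Prime) (G : ℤ[X]) (hG : G ≠ 0)
    (T : Finset ℤ) (hT : G.natDegree + 1 ≤ T.card) (h0 : ∀ t ∈ T, G.eval t ≠ 0) :
    ∃ Y ⊆ T, Y.card = G.natDegree ∧ ∀ t ∈ T, t ∉ Y →
      padicValInt p (G.eval t) ≤ padicValInt p G.leadingCoeff + ∑ y ∈ Y, padicValInt p (t - y) := by
  haveI := Fact.mk hp
  have hp0 : (0 : ℝ) < p := by exact_mod_cast hp.pos
  have hp1 : (1 : ℝ) < p := by exact_mod_cast hp.one_lt
  obtain ⟨Y, hY, hc, h⟩ := fekete (Rat.AbsoluteValue.padic p) 1 zero_le_one G hG T hT h0 (by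
    intro U z hU
    have hne : U.Nonempty := by
      rw [← Finset.card_pos]
      omega
    obtain ⟨i, hi, hmax⟩ := Finset.exists_max_image U (fun j => padicNorm p (z j)) hne
    refine ⟨i, hi, ?_⟩
    rw [one_mul, Rat.AbsoluteValue.padic_eq_padicNorm, Rat.AbsoluteValue.padic_eq_padicNorm]
    exact_mod_cast padicNorm.sum_le hne fun j hj => hmax j hj)
  refine ⟨Y, hY, hc, fun t ht htY => ?_⟩
  have h1 := h t ht htY
  rw [one_mul, EP14_val p _ (leadingCoeff_ne_zero.2 hG), EP14_val p _ (h0 t ht)] at h1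
  have h2 : ∏ y ∈ Y, Rat.AbsoluteValue.padic p ((t : ℚ) - (y : ℚ)) =
      ((p : ℝ) ^ (∑ y ∈ Y, padicValInt p (t - y)))⁻¹ := by
    rw [← Finset.prod_pow_eq_pow_sum, ← Finset.prod_inv_distrib]
    refine Finset.prod_congr rfl fun y hy => ?_
    have hne : t - y ≠ 0 := by
      intro h
      exact htY ((sub_eq_zero.1 h) ▸ hy)
    rw [← EP14_val p _ hne]
    push_cast
    rfl
  rw [h2, ← mul_inv, ← pow_add, inv_le_inv₀ (by positivity) (by positivity)] at h1
  exact (pow_le_pow_iff_right₀ hp1).1 h1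

end Pool.Agent.LibER91
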