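import Mathlib

/-!
[EP91 EP15] SHORT/MEDIUM, only Mathlib. Two sums over an interval of integers.

PLAN.
* `sum_val`: for `t ≠ y` in the interval, `0 < |t - y| < p ^ K`, so
  `padicValInt p (t - y) = #{j ∈ Icc 1 (K - 1) : p ^ j ∣ t - y}` (`padicValInt_dvd_iff`,
  `padicValInt` of an integer of absolute value `< p ^ K` is `< K`). Exchange:
  `∑ t, val = ∑ j ∈ Icc 1 (K-1), #{t ≠ y in the interval : p ^ j ∣ t - y} = ∑ j (p ^ (K - j) - 1)`
  (`≤ p ^ (K-j)` is enough; `Int.Ico_filter_modEq_card` / `Int.Ico_filter_dvd_card`, or `sum_period` below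
  with `g = indicator`), and `∑ j ∈ Icc 1 (K-1), p ^ (K-j) ≤ p ^ K / (p - 1)` (geometric sum).
* `sum_period`: induction on `s`: `Ico M0 (M0 + m (s+1)) = Ico M0 (M0 + m s) ∪ Ico (M0 + m s) (M0 + m s + m)`;
  an interval of length `m` is a complete residue system: `b ↦` the unique `t` in the interval with
  `m ∣ t - b` is a bijection from `range m` (`Finset.sum_nbij'`, `Int.emod_emod_of_dvd`, `Int.toNat`),
  or: the sum over `Ico (M+1) (M+1+m)` equals the sum over `Ico M (M+m)` by periodicity, and induct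
  down to `M = 0` (`Int.induction_on`).
-/

set_option autoImplicit false

namespace Pool.Agent.LibER91

private theorem ep15_one (m : ℕ) (hm : 1 ≤ m) (M : ℤ) (g : ℤ → ℕ) (hg : ∀ b b', (m : ℤ) ∣ b - b' → g b = g b') :
    ∑ t ∈ Finset.Ico M (M + (m : ℤ)), g t = ∑ b ∈ Finset.range m, g b := by
  have hm0 : (0 : ℤ) < m := by exact_mod_cast hm
  refine Finset.sum_nbij' (fun t => (t % (m : ℤ)).toNat) (fun b => M + ((b : ℤ) - M) % (m : ℤ)) ?_ ?_ ?_ ?_ ?_
  · intro t _
    rw [Finset.mem_range]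
    have h1 := Int.emod_nonneg t hm0.ne'
    have h2 := Int.emod_lt_of_pos t hm0
    omega
  · intro b _
    rw [Finset.mem_Ico]
    have h1 := Int.emod_nonneg ((b : ℤ) - M) hm0.ne'
    have h2 := Int.emod_lt_of_pos ((b : ℤ) - M) hm0
    omega
  · intro t ht
    rw [Finset.mem_Ico] at ht
    have h1 := Int.emod_nonneg t hm0.ne'
    have h3 : (((t % (m : ℤ)).toNat : ℕ) : ℤ) = t % (m : ℤ) := Int.toNat_of_nonneg h1
    have h4 : (t % (m : ℤ) - M) % (m : ℤ) = t - M := by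
      rw [Int.emod_sub_emod]
      exact Int.emod_eq_of_lt (by omega) (by omega)
    show M + ((((t % (m : ℤ)).toNat : ℕ) : ℤ) - M) % (m : ℤ) = t
    rw [h3, h4]
    ring
  · intro b hb
    rw [Finset.mem_range] at hb
    have h4 : (M + ((b : ℤ) - M) % (m : ℤ)) % (m : ℤ) = b := by
      rw [Int.add_emod_emod, add_sub_cancel]
      exact Int.emod_eq_of_lt (by omega) (by omega)
    show ((M + ((b : ℤ) - M) % (m : ℤ)) % (m : ℤ)).toNat = b
    rw [h4]
    rfl
  · intro t _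
    have h1 := Int.emod_nonneg t hm0.ne'
    have h3 : (((t % (m : ℤ)).toNat : ℕ) : ℤ) = t % (m : ℤ) := Int.toNat_of_nonneg h1
    refine hg _ _ ?_
    rw [h3]
    exact Int.dvd_self_sub_emod

private theorem ep15_period (m s : ℕ) (hm : 1 ≤ m) (M0 : ℤ) (g : ℤ → ℕ)
    (hg : ∀ b b', (m : ℤ) ∣ b - b' → g b = g b') :
    ∑ t ∈ Finset.Ico M0 (M0 + (m : ℤ) * s), g t = s * ∑ b ∈ Finset.range m, g b := by
  induction s with
  | zero => simp
  | succ s ih =>
    have hm0 : (0 : ℤ) ≤ m := Int.natCast_nonneg m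
    have hms : (0 : ℤ) ≤ (m : ℤ) * s := by positivity
    have h1 : M0 + (m : ℤ) * ((s + 1 : ℕ) : ℤ) = (M0 + (m : ℤ) * s) + m := by
      push_cast
      ring
    have h2 : ∑ t ∈ Finset.Ico M0 (M0 + (m : ℤ) * ((s + 1 : ℕ) : ℤ)), g t =
        ∑ t ∈ Finset.Ico M0 (M0 + (m : ℤ) * s), g t +
          ∑ t ∈ Finset.Ico (M0 + (m : ℤ) * s) ((M0 + (m : ℤ) * s) + m), g t := by
      rw [h1, ← Finset.Ico_union_Ico_eq_Ico (show M0 ≤ M0 + (m : ℤ) * s by linarith)
        (show M0 + (m : ℤ) * s ≤ (M0 + (m : ℤ) * s) + m by linarith)]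
      refine Finset.sum_union ?_
      rw [Finset.disjoint_left]
      intro t ht ht'
      rw [Finset.mem_Ico] at ht ht'
      omega
    rw [h2, ih, ep15_one m hm _ g hg]
    ring

private theorem ep15_val (p : ℕ) (hp : p.Prime) (z : ℤ) (K : ℕ) (hz : z ≠ 0) (hzK : |z| < (p : ℤ) ^ K) :
    padicValInt p z ≤ ((Finset.Icc 1 (K - 1)).filter (fun j => ((p : ℤ) ^ j) ∣ z)).card := by
  have : Fact p.Prime := ⟨hp⟩
  have hd : ∀ j, j ≤ padicValInt p z → ((p : ℤ) ^ j) ∣ z := fun j hj =>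
    (padicValInt_dvd_iff j z).mpr (Or.inr hj)
  have hv : padicValInt p z < K := by
    by_contra hcon
    rw [not_lt] at hcon
    have h1 := Int.le_of_dvd (abs_pos.mpr hz) ((dvd_abs _ _).mpr (hd K hcon))
    omega
  calc padicValInt p z = (Finset.Icc 1 (padicValInt p z)).card := by rw [Nat.card_Icc]; rfl
    _ ≤ _ := by
      refine Finset.card_le_card fun j hj => ?_
      rw [Finset.mem_Icc] at hj
      rw [Finset.mem_filter, Finset.mem_Icc]
      exact ⟨⟨hj.1, by omega⟩, hd j hj.2⟩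

theorem sum_val (p : ℕ) (hp : p.Prime) (M0 y : ℤ) (K : ℕ)
    (hy : y ∈ Finset.Ico M0 (M0 + (p : ℤ) ^ K)) :
    (∑ t ∈ (Finset.Ico M0 (M0 + (p : ℤ) ^ K)).erase y, (padicValInt p (t - y) : ℝ)) ≤
      (p : ℝ) ^ K / ((p : ℝ) - 1) := by
  have hp1 : (1 : ℝ) < p := by exact_mod_cast hp.one_lt
  have hcount : ∀ j ∈ Finset.Icc 1 (K - 1),
      (((Finset.Ico M0 (M0 + (p : ℤ) ^ K)).erase y).filter (fun t => ((p : ℤ) ^ j) ∣ t - y)).card ≤ p ^ (K - j) := by
    intro j hj
    rw [Finset.mem_Icc] at hj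
    have hjK : j ≤ K := by omega
    have hpj : 1 ≤ p ^ j := Nat.one_le_pow _ _ hp.pos
    have h1 := ep15_period (p ^ j) (p ^ (K - j)) hpj M0 (fun t => if ((p : ℤ) ^ j) ∣ t - y then 1 else 0) (by
      intro b b' hbb
      have hbb' : ((p : ℤ) ^ j) ∣ b - b' := by exact_mod_cast hbb
      have h2 : (((p : ℤ) ^ j) ∣ b - y) ↔ (((p : ℤ) ^ j) ∣ b' - y) := by
        constructor
        · intro h
          have h3 := dvd_sub h hbb'
          have h4 : b - y - (b - b') = b' - y := by ring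
          rwa [h4] at h3
        · intro h
          have h3 := dvd_add h hbb'
          have h4 : b' - y + (b - b') = b - y := by ring
          rwa [h4] at h3
      simp only [h2])
    have hK : ((p ^ j : ℕ) : ℤ) * ((p ^ (K - j) : ℕ) : ℤ) = (p : ℤ) ^ K := by
      push_cast
      rw [← pow_add, Nat.add_sub_cancel' hjK]
    rw [hK, ← Finset.card_filter, ← Finset.card_filter] at h1
    have h5 : ((Finset.range (p ^ j)).filter (fun b : ℕ => ((p : ℤ) ^ j) ∣ (b : ℤ) - y)).card ≤ 1 := by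
      rw [Finset.card_le_one]
      intro a ha b hb
      rw [Finset.mem_filter, Finset.mem_range] at ha hb
      have h6 := dvd_sub ha.2 hb.2
      have h7 : (a : ℤ) - y - (b - y) = a - b := by ring
      rw [h7] at h6
      have ha1 : (a : ℤ) < (p : ℤ) ^ j := by exact_mod_cast ha.1
      have hb1 : (b : ℤ) < (p : ℤ) ^ j := by exact_mod_cast hb.1
      have h8 : (a : ℤ) - b = 0 := by
        refine Int.eq_zero_of_abs_lt_dvd h6 ?_
        rw [abs_lt]
        constructor <;> omega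
      omega
    calc (((Finset.Ico M0 (M0 + (p : ℤ) ^ K)).erase y).filter (fun t => ((p : ℤ) ^ j) ∣ t - y)).card
        ≤ ((Finset.Ico M0 (M0 + (p : ℤ) ^ K)).filter (fun t => ((p : ℤ) ^ j) ∣ t - y)).card :=
          Finset.card_le_card (Finset.filter_subset_filter _ (Finset.erase_subset _ _))
      _ = p ^ (K - j) * ((Finset.range (p ^ j)).filter (fun b : ℕ => ((p : ℤ) ^ j) ∣ (b : ℤ) - y)).card := h1
      _ ≤ p ^ (K - j) * 1 := Nat.mul_le_mul_left _ h5
      _ = _ := mul_one _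
  have hnat : ∑ t ∈ (Finset.Ico M0 (M0 + (p : ℤ) ^ K)).erase y, padicValInt p (t - y) ≤
      ∑ j ∈ Finset.Icc 1 (K - 1), p ^ (K - j) := by
    calc ∑ t ∈ (Finset.Ico M0 (M0 + (p : ℤ) ^ K)).erase y, padicValInt p (t - y)
        ≤ ∑ t ∈ (Finset.Ico M0 (M0 + (p : ℤ) ^ K)).erase y,
            ((Finset.Icc 1 (K - 1)).filter (fun j => ((p : ℤ) ^ j) ∣ t - y)).card := by
          refine Finset.sum_le_sum fun t ht => ?_
          rw [Finset.mem_erase, Finset.mem_Ico] at ht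
          rw [Finset.mem_Ico] at hy
          refine ep15_val p hp (t - y) K (sub_ne_zero.mpr ht.1) ?_
          rw [abs_lt]
          constructor <;> omega
      _ = ∑ t ∈ (Finset.Ico M0 (M0 + (p : ℤ) ^ K)).erase y, ∑ j ∈ Finset.Icc 1 (K - 1),
            (if ((p : ℤ) ^ j) ∣ t - y then 1 else 0) :=
          Finset.sum_congr rfl fun t _ => Finset.card_filter _ _
      _ = ∑ j ∈ Finset.Icc 1 (K - 1), ∑ t ∈ (Finset.Ico M0 (M0 + (p : ℤ) ^ K)).erase y,
            (if ((p : ℤ) ^ j) ∣ t - y then 1 else 0) := Finset.sum_comm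
      _ ≤ ∑ j ∈ Finset.Icc 1 (K - 1), p ^ (K - j) := by
          refine Finset.sum_le_sum fun j hj => ?_
          rw [← Finset.card_filter]
          exact hcount j hj
  have hgeom : ∑ j ∈ Finset.Icc 1 (K - 1), (p : ℝ) ^ (K - j) ≤ (p : ℝ) ^ K / ((p : ℝ) - 1) := by
    rcases Nat.eq_zero_or_pos K with h0 | hK
    · subst h0
      rw [Finset.Icc_eq_empty (by omega), Finset.sum_empty]
      exact div_nonneg (by positivity) (by linarith)
    · have h1 : Finset.Icc 1 (K - 1) = Finset.Ico 1 K := by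
        ext j
        rw [Finset.mem_Icc, Finset.mem_Ico]
        omega
      rw [h1, Finset.sum_Ico_reflect (fun i => (p : ℝ) ^ i) 1 (by omega : K ≤ K + 1)]
      have h2 : K + 1 - K = 1 := by omega
      rw [h2, Nat.add_sub_cancel, geom_sum_Ico hp1.ne' (by omega)]
      refine div_le_div_of_nonneg_right ?_ (by linarith)
      have : (0 : ℝ) ≤ (p : ℝ) ^ 1 := by positivity
      linarith
  calc (∑ t ∈ (Finset.Ico M0 (M0 + (p : ℤ) ^ K)).erase y, (padicValInt p (t - y) : ℝ))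
      = ((∑ t ∈ (Finset.Ico M0 (M0 + (p : ℤ) ^ K)).erase y, padicValInt p (t - y) : ℕ) : ℝ) := by
        push_cast
        rfl
    _ ≤ ((∑ j ∈ Finset.Icc 1 (K - 1), p ^ (K - j) : ℕ) : ℝ) := by exact_mod_cast hnat
    _ = ∑ j ∈ Finset.Icc 1 (K - 1), (p : ℝ) ^ (K - j) := by push_cast; rfl
    _ ≤ _ := hgeom

theorem sum_period (m s : ℕ) (hm : 1 ≤ m) (M0 : ℤ) (g : ℤ → ℕ)
    (hg : ∀ b b', (m : ℤ) ∣ b - b' → g b = g b') :
    ∑ t ∈ Finset.Ico M0 (M0 + (m : ℤ) * s), g t = s * ∑ b ∈ Finset.range m, g b :=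
  ep15_period m s hm M0 g hg

end Pool.Agent.LibER91
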