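import Pool.Agent.LibER91.EP04
import Pool.Agent.LibER91.EP14
import Pool.Agent.LibER91.EP15

/-!
[EP91 EP16] MEDIUM. (MEAN) for one prime and the weights of one level.

PLAN. `n = G.natDegree`, `v = padicValInt p G.leadingCoeff`, `W = ∑ b ∈ range (p ^ J), wt p A B b J`.
`G` has finitely many roots: choose `M0` larger than all of them (`G.roots.toFinset`, or
`Polynomial.eventually_ne...`), so `G.eval t ≠ 0` for `t ≥ M0`. For every `K ≥ J` with
`n + 1 ≤ p ^ K`: `T = Ico M0 (M0 + p ^ K)`, `fekete_padic` gives `Y`. For `t ∈ T \ Y`: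
`r * wt p A B t J ≤ padicValInt p (G.eval t)` (hypothesis `hG` evaluated at `X = 0`:
`p ^ (r * wt) ∣ G.eval t`, `padicValInt_dvd_iff`) `≤ v + ∑ y ∈ Y, padicValInt p (t - y)`. Sum over
`T \ Y` (`sum_val` for each `y`; the terms `t ∈ Y`, `t ≠ y` are nonnegative):
`r * ∑ t ∈ T \ Y, wt t J ≤ p ^ K * v + n * p ^ K / (p - 1)`. For `t ∈ Y`: `wt t J ≤ W` (periodicity,
single term of the sum), so `∑ t ∈ T, wt t J ≤ ∑ t ∈ T \ Y, wt t J + n * W`, and
`∑ t ∈ T, wt t J = p ^ (K - J) * W` (`sum_period` with `m = p ^ J`, `s = p ^ (K - J)`, `wt_congr`).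
Divide by `p ^ K`: `r * W / p ^ J ≤ v + n / (p - 1) + r * n * W / p ^ K` for all large `K`;
`K → ∞` (`ge_of_tendsto'`/`le_of_forall_pos_le_add`, `tendsto_pow_atTop_atTop_of_one_lt`).
-/

set_option autoImplicit false

open Polynomial

namespace Pool.Agent.LibER91

theorem EP16_root (G : ℤ[X]) (hG0 : G ≠ 0) : ∃ M0 : ℤ, ∀ t : ℤ, M0 ≤ t → G.eval t ≠ 0 := by
  have hfin : {t : ℤ | IsRoot G t}.Finite := Polynomial.finite_setOf_isRoot hG0
  obtain ⟨M, hM⟩ := hfin.bddAbove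
  refine ⟨M + 1, fun t ht h => ?_⟩
  have h1 : t ≤ M := hM h
  omega

theorem EP16_val (p : ℕ) (hp : p.Prime) (A B G : ℤ[X]) (r J : ℕ)
    (hG : ∀ c : ℤ, C ((p : ℤ) ^ (r * wt p A B c J)) ∣ G.comp (C c + C ((p ^ J : ℕ) : ℤ) * X))
    (t : ℤ) (ht : G.eval t ≠ 0) : r * wt p A B t J ≤ padicValInt p (G.eval t) := by
  haveI := Fact.mk hp
  have h1 := hG t
  have h2 : (p : ℤ) ^ (r * wt p A B t J) ∣ G.eval t := by
    obtain ⟨F, hF⟩ := h1
    have h3 : (G.comp (C t + C ((p ^ J : ℕ) : ℤ) * X)).eval 0 =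
        (C ((p : ℤ) ^ (r * wt p A B t J)) * F).eval 0 := by rw [hF]
    rw [Polynomial.eval_comp, Polynomial.eval_mul, Polynomial.eval_C, Polynomial.eval_add,
      Polynomial.eval_mul, Polynomial.eval_C, Polynomial.eval_C, Polynomial.eval_X, mul_zero,
      add_zero] at h3
    exact ⟨_, h3⟩
  rcases (padicValInt_dvd_iff _ _).1 h2 with h | h
  · exact absurd h ht
  · exact h

theorem mean_level (p : ℕ) (hp : p.Prime) (A B G : ℤ[X]) (r J : ℕ) (hG0 : G ≠ 0)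
    (hG : ∀ c : ℤ, C ((p : ℤ) ^ (r * wt p A B c J)) ∣ G.comp (C c + C ((p ^ J : ℕ) : ℤ) * X)) :
    (r : ℝ) * ((∑ b ∈ Finset.range (p ^ J), (wt p A B b J : ℝ)) / (p : ℝ) ^ J) ≤
      padicValInt p G.leadingCoeff + G.natDegree / ((p : ℝ) - 1) := by
  classical
  obtain ⟨M0, hM0⟩ := EP16_root G hG0
  obtain ⟨n, hn⟩ : ∃ n, n = G.natDegree := ⟨_, rfl⟩
  obtain ⟨v, hv⟩ : ∃ v, v = padicValInt p G.leadingCoeff := ⟨_, rfl⟩
  obtain ⟨W, hW⟩ : ∃ W : ℕ, W = ∑ b ∈ Finset.range (p ^ J), wt p A B b J := ⟨_, rfl⟩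
  have hWR : (∑ b ∈ Finset.range (p ^ J), (wt p A B b J : ℝ)) = W := by
    rw [hW]
    push_cast
    rfl
  rw [hWR, ← hn, ← hv]
  have hp1 : 1 < p := hp.one_lt
  have hpR : (1 : ℝ) < p := by exact_mod_cast hp1
  have hpJ : (0 : ℝ) < (p : ℝ) ^ J := by positivity
  have hper : ∀ b b' : ℤ, ((p ^ J : ℕ) : ℤ) ∣ b - b' → wt p A B b J = wt p A B b' J := by
    intro b b' h
    apply wt_congr
    push_cast at h
    exact h
  -- the main inequality
  have hmain : ∀ K : ℕ, J ≤ K → n + 1 ≤ p ^ K →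
      (r : ℝ) * ((p : ℝ) ^ (K - J) * W) ≤ (p : ℝ) ^ K * v + n * ((p : ℝ) ^ K / ((p : ℝ) - 1)) +
        r * (n * W) := by
    intro K hJK hnK
    obtain ⟨T, hT⟩ : ∃ T : Finset ℤ, T = Finset.Ico M0 (M0 + (p : ℤ) ^ K) := ⟨_, rfl⟩
    have hTc : T.card = p ^ K := by
      rw [hT, Int.card_Ico]
      have : M0 + (p : ℤ) ^ K - M0 = ((p ^ K : ℕ) : ℤ) := by push_cast; ring
      rw [this, Int.toNat_natCast]
    obtain ⟨Y, hYT, hYc, hY⟩ := fekete_padic p hp G hG0 T (by rw [hTc, ← hn]; exact hnK)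
      (fun t ht => hM0 t (by rw [hT, Finset.mem_Ico] at ht; exact ht.1))
    rw [← hn] at hYc
    rw [← hv] at hY
    -- the sum over `T`
    have hsumT : ∑ t ∈ T, wt p A B t J = p ^ (K - J) * W := by
      have h1 := sum_period (p ^ J) (p ^ (K - J)) (Nat.one_le_pow _ _ hp1.le) M0
        (fun t => wt p A B t J) hper
      have e : M0 + ((p ^ J : ℕ) : ℤ) * ((p ^ (K - J) : ℕ) : ℤ) = M0 + (p : ℤ) ^ K := by
        rw [← Nat.cast_mul, ← pow_add, Nat.add_sub_cancel' hJK]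
        push_cast
        rfl
      rw [e, ← hT, ← hW] at h1
      exact h1
    -- a single weight
    have hone : ∀ t : ℤ, wt p A B t J ≤ W := by
      intro t
      have hm : (0 : ℤ) < ((p ^ J : ℕ) : ℤ) := by exact_mod_cast Nat.pos_of_ne_zero (by positivity)
      have h0 := Int.emod_nonneg t hm.ne'
      have h1 := Int.emod_lt_of_pos t hm
      obtain ⟨b, hb⟩ := Int.eq_ofNat_of_zero_le h0
      rw [hb] at h1
      have h2 : wt p A B t J = wt p A B b J := by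
        apply hper
        have h3 := Int.emod_add_mul_ediv t ((p ^ J : ℕ) : ℤ)
        rw [hb] at h3
        exact ⟨t / ((p ^ J : ℕ) : ℤ), by linarith⟩
      rw [h2, hW]
      have hbm : b < p ^ J := by exact_mod_cast h1
      exact Finset.single_le_sum (f := fun b : ℕ => wt p A B (b : ℤ) J) (fun _ _ => Nat.zero_le _)
        (Finset.mem_range.2 hbm)
    have hsplit : ∑ t ∈ T, wt p A B t J =
        ∑ t ∈ T \ Y, wt p A B t J + ∑ t ∈ Y, wt p A B t J := by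
      rw [Finset.sum_sdiff hYT]
    have hYsum : ∑ t ∈ Y, wt p A B t J ≤ n * W := by
      calc ∑ t ∈ Y, wt p A B t J ≤ ∑ _t ∈ Y, W := Finset.sum_le_sum fun t _ => hone t
        _ = n * W := by rw [Finset.sum_const, hYc, smul_eq_mul]
    -- the sum over `T \ Y`
    have hTY : (r : ℝ) * (∑ t ∈ T \ Y, wt p A B t J : ℕ) ≤
        (p : ℝ) ^ K * v + n * ((p : ℝ) ^ K / ((p : ℝ) - 1)) := by
      have h1 : ∀ t ∈ T \ Y, (r : ℝ) * (wt p A B t J : ℝ) ≤
          (v : ℝ) + ∑ y ∈ Y, (padicValInt p (t - y) : ℝ) := by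
        intro t ht
        rw [Finset.mem_sdiff] at ht
        have htM : M0 ≤ t := by
          have := ht.1
          rw [hT, Finset.mem_Ico] at this
          exact this.1
        have h2 := EP16_val p hp A B G r J hG t (hM0 t htM)
        have h3 := h2.trans (hY t ht.1 ht.2)
        exact_mod_cast h3
      have h4 : ∑ t ∈ T \ Y, (r : ℝ) * (wt p A B t J : ℝ) ≤
          ∑ t ∈ T \ Y, ((v : ℝ) + ∑ y ∈ Y, (padicValInt p (t - y) : ℝ)) := Finset.sum_le_sum h1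
      rw [← Finset.mul_sum, Finset.sum_add_distrib, Finset.sum_comm] at h4
      have h5 : ∑ _t ∈ T \ Y, (v : ℝ) ≤ (p : ℝ) ^ K * v := by
        rw [Finset.sum_const, nsmul_eq_mul]
        refine mul_le_mul_of_nonneg_right ?_ (Nat.cast_nonneg v)
        have h6 : (T \ Y).card ≤ p ^ K := by
          rw [← hTc]
          exact Finset.card_le_card Finset.sdiff_subset
        exact_mod_cast h6
      have h7 : ∑ y ∈ Y, ∑ t ∈ T \ Y, (padicValInt p (t - y) : ℝ) ≤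
          n * ((p : ℝ) ^ K / ((p : ℝ) - 1)) := by
        calc ∑ y ∈ Y, ∑ t ∈ T \ Y, (padicValInt p (t - y) : ℝ) ≤
            ∑ _y ∈ Y, (p : ℝ) ^ K / ((p : ℝ) - 1) := by
              refine Finset.sum_le_sum fun y hy => ?_
              have h8 := sum_val p hp M0 y K (by rw [← hT]; exact hYT hy)
              rw [← hT] at h8
              refine le_trans (Finset.sum_le_sum_of_subset_of_nonneg ?_ ?_) h8
              · intro t ht
                rw [Finset.mem_sdiff] at ht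
                rw [Finset.mem_erase]
                exact ⟨fun h => ht.2 (h ▸ hy), ht.1⟩
              · intro _ _ _
                exact Nat.cast_nonneg _
          _ = n * ((p : ℝ) ^ K / ((p : ℝ) - 1)) := by
              rw [Finset.sum_const, hYc, nsmul_eq_mul]
      push_cast
      linarith
    have h9 : ((∑ t ∈ T, wt p A B t J : ℕ) : ℝ) = (p : ℝ) ^ (K - J) * W := by
      rw [hsumT]
      push_cast
      rfl
    have h10 : ((∑ t ∈ T, wt p A B t J : ℕ) : ℝ) ≤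
        ((∑ t ∈ T \ Y, wt p A B t J : ℕ) : ℝ) + n * W := by
      have : ∑ t ∈ T, wt p A B t J ≤ ∑ t ∈ T \ Y, wt p A B t J + n * W := by
        rw [hsplit]
        exact Nat.add_le_add_left hYsum _
      exact_mod_cast this
    rw [h9] at h10
    have hr0 : (0 : ℝ) ≤ r := Nat.cast_nonneg r
    have h11 := mul_le_mul_of_nonneg_left h10 hr0
    rw [mul_add] at h11
    linarith
  -- the limit
  by_contra hcon
  push Not at hcon
  obtain ⟨δ, hδ⟩ : ∃ δ : ℝ, δ = (r : ℝ) * ((W : ℝ) / (p : ℝ) ^ J) -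
    ((v : ℝ) + (n : ℝ) / ((p : ℝ) - 1)) := ⟨_, rfl⟩
  have hδ0 : 0 < δ := by rw [hδ]; linarith
  obtain ⟨K₀, hK₀⟩ := exists_nat_gt ((r : ℝ) * (n * W) / δ)
  obtain ⟨K, hK⟩ : ∃ K, K = K₀ + J + n + 1 := ⟨_, rfl⟩
  have hKp : K < p ^ K := Nat.lt_pow_self hp1
  have h1 := hmain K (by omega) (by omega)
  have hpK : (0 : ℝ) < (p : ℝ) ^ K := by positivity
  have hKR : (K₀ : ℝ) < (p : ℝ) ^ K := by
    have : K₀ < p ^ K := by omega
    exact_mod_cast this
  have h2 : (r : ℝ) * (n * W) < δ * (p : ℝ) ^ K := by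
    rw [div_lt_iff₀ hδ0] at hK₀
    calc (r : ℝ) * (n * W) < K₀ * δ := hK₀
      _ ≤ (p : ℝ) ^ K * δ := mul_le_mul_of_nonneg_right hKR.le hδ0.le
      _ = δ * (p : ℝ) ^ K := mul_comm _ _
  have h3 : (r : ℝ) * ((p : ℝ) ^ (K - J) * W) = (r : ℝ) * ((W : ℝ) / (p : ℝ) ^ J) * (p : ℝ) ^ K := by
    have h4 : (p : ℝ) ^ K = (p : ℝ) ^ (K - J) * (p : ℝ) ^ J := by
      rw [← pow_add, Nat.sub_add_cancel (by omega)]
    rw [h4]
    field_simp
  have h5 : (p : ℝ) ^ K * v + n * ((p : ℝ) ^ K / ((p : ℝ) - 1)) =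
      ((v : ℝ) + (n : ℝ) / ((p : ℝ) - 1)) * (p : ℝ) ^ K := by ring
  rw [h3, h5] at h1
  have h6 : δ * (p : ℝ) ^ K = (r : ℝ) * ((W : ℝ) / (p : ℝ) ^ J) * (p : ℝ) ^ K -
      ((v : ℝ) + (n : ℝ) / ((p : ℝ) - 1)) * (p : ℝ) ^ K := by
    rw [hδ]
    ring
  linarith

end Pool.Agent.LibER91
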