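import Pool.Agent.LibER91.EP04
import Pool.Agent.LibER91.EP15

/-!
[EP91 EP17] SHORT/MEDIUM. The mean of the weights of level `J` is the sum of the means of the
increments.

PLAN. Induction on `J`. `J = 0`: `wt_zero`. Step: `wt b (J+1) = wt b J + (wt b (J+1) - wt b J)`
(`wt_mono`), and `∑ b ∈ range (p ^ (J+1)), wt b J = p * ∑ b ∈ range (p ^ J), wt b J`
(`sum_period` with `m = p ^ J`, `s = p`, `M0 = 0`, `wt_congr`; `Finset.sum` over `Ico (0:ℤ) (n:ℤ)` versus
`range n`: `Int.Ico` image of `Nat.cast`, or use the induction form of `sum_period` twice).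
-/

set_option autoImplicit false

open Polynomial

namespace Pool.Agent.LibER91

theorem EP17_sum (p J : ℕ) (hp : p.Prime) (g : ℤ → ℕ)
    (hg : ∀ b b', ((p ^ J : ℕ) : ℤ) ∣ b - b' → g b = g b') :
    ∑ b ∈ Finset.range (p ^ (J + 1)), g b = p * ∑ b ∈ Finset.range (p ^ J), g b := by
  have hp0 : 1 ≤ p := hp.one_lt.le
  have h1 := sum_period (p ^ J) p (Nat.one_le_pow _ _ hp0) 0 g hg
  have h2 := sum_period (p ^ (J + 1)) 1 (Nat.one_le_pow _ _ hp0) 0 g (fun b b' h => by
    refine hg b b' (dvd_trans ?_ h)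
    rw [pow_succ]
    push_cast
    exact Dvd.intro _ rfl)
  have e : (0 : ℤ) + ((p ^ J : ℕ) : ℤ) * (p : ℕ) = 0 + ((p ^ (J + 1) : ℕ) : ℤ) * (1 : ℕ) := by
    push_cast
    ring
  rw [e, h2] at h1
  rw [one_mul] at h1
  exact h1

theorem mean_wt (p : ℕ) (hp : p.Prime) (A B : ℤ[X]) (hAB : IsRelPrime A B) (J : ℕ) :
    (∑ b ∈ Finset.range (p ^ J), (wt p A B b J : ℝ)) / (p : ℝ) ^ J =
      ∑ k ∈ Finset.Icc 1 J, (∑ b ∈ Finset.range (p ^ k), (inc A B (p ^ k) b : ℝ)) / (p : ℝ) ^ k := by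
  have hne : A ≠ 0 ∨ B ≠ 0 := by
    by_contra hcon
    push Not at hcon
    have h1 := @hAB X (by rw [hcon.1]; exact dvd_zero _) (by rw [hcon.2]; exact dvd_zero _)
    exact Polynomial.not_isUnit_X h1
  have hp0 : (p : ℝ) ≠ 0 := by exact_mod_cast hp.ne_zero
  induction J with
  | zero => simp [wt_zero p A B hAB]
  | succ J ih =>
    rw [Finset.sum_Icc_succ_top (by omega), ← ih]
    have h1 : ∀ b : ℕ, (wt p A B b (J + 1) : ℝ) = wt p A B b J + inc A B (p ^ (J + 1)) b := by
      intro b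
      have h2 := inc_pow p hp A B b J
      have h3 := wt_mono p hp A B hne b J
      have h4 : wt p A B b (J + 1) = wt p A B b J + inc A B (p ^ (J + 1)) b := by omega
      exact_mod_cast h4
    have h5 := EP17_sum p J hp (fun b => wt p A B b J) (fun b b' h => by
      apply wt_congr
      push_cast at h
      exact h)
    have h6 : (∑ b ∈ Finset.range (p ^ (J + 1)), (wt p A B b J : ℝ)) =
        p * ∑ b ∈ Finset.range (p ^ J), (wt p A B b J : ℝ) := by exact_mod_cast h5
    rw [Finset.sum_congr rfl (fun b _ => h1 b), Finset.sum_add_distrib, h6, add_div]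
    congr 1
    rw [pow_succ]
    field_simp

end Pool.Agent.LibER91
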