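import Pool.Agent.LibMaier.Mertens1

/-!
[EP91 EP18] Mertens.
-/

set_option autoImplicit false

namespace Pool.Agent.LibER91

private theorem EP18_tel (P : ℕ) (hP : 1 ≤ P) :
    ∑ n ∈ Finset.Icc 2 P, Real.log n * (1 / ((n : ℝ) * ((n : ℝ) - 1))) ≤
      2 - (Real.log P + 2) / P := by
  induction P, hP using Nat.le_induction with
  | base => norm_num
  | succ P hP ih =>
    rw [Finset.sum_Icc_succ_top (by omega)]
    have hP0 : (0 : ℝ) < P := by exact_mod_cast hP
    have hlog : Real.log (P + 1) - Real.log P ≤ 1 / (P : ℝ) := by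
      rw [← Real.log_div (by positivity) (by positivity)]
      have := Real.log_le_sub_one_of_pos (x := ((P : ℝ) + 1) / P) (by positivity)
      have e : ((P : ℝ) + 1) / P - 1 = 1 / P := by field_simp; ring
      linarith
    have hP1 : (1 : ℝ) ≤ P := by exact_mod_cast hP
    have key : Real.log ((P + 1 : ℕ) : ℝ) * (1 / (((P + 1 : ℕ) : ℝ) * (((P + 1 : ℕ) : ℝ) - 1))) ≤
        (Real.log P + 2) / P - (Real.log ((P + 1 : ℕ) : ℝ) + 2) / ((P + 1 : ℕ) : ℝ) := by
      push_cast
      have e1 : (P : ℝ) + 1 - 1 = P := by ring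
      rw [e1, mul_one_div, div_sub_div _ _ hP0.ne' (by positivity), mul_comm ((P : ℝ) + 1) P]
      refine div_le_div_of_nonneg_right ?_ (by positivity)
      have h2 : (P : ℝ) * (Real.log (P + 1) - Real.log P) ≤ 1 := by
        calc (P : ℝ) * (Real.log (P + 1) - Real.log P) ≤ P * (1 / P) :=
              mul_le_mul_of_nonneg_left hlog hP0.le
          _ = 1 := by field_simp
      have h3 : Real.log (P + 1) - Real.log P ≤ 1 :=
        hlog.trans (by rw [div_le_one hP0]; exact hP1)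
      nlinarith [h2, h3]
    linarith

theorem mertens_up : ∃ C0 : ℝ, 0 ≤ C0 ∧ ∀ P : ℕ, 1 ≤ P →
    ∑ p ∈ (Finset.range (P + 1)).filter Nat.Prime, Real.log p * (1 / ((p : ℝ) - 1)) ≤
      Real.log P + C0 := by
  obtain ⟨K, hK, hM⟩ := Pool.Agent.LibMaier.mertens_first
  refine ⟨K + 2, by linarith, fun P hP => ?_⟩
  have hP1 : (1 : ℝ) ≤ P := by exact_mod_cast hP
  have h1 := hM P hP1
  rw [Nat.floor_natCast] at h1
  have h1' := (abs_le.1 h1).2
  have h2 := EP18_tel P hP
  have h0 : (0 : ℝ) ≤ (Real.log P + 2) / P := by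
    have := Real.log_nonneg hP1
    positivity
  have hset : (Finset.range (P + 1)).filter Nat.Prime = Pool.Agent.LibMaier.PN P := by
    ext p
    rw [Pool.Agent.LibMaier.mem_PN, Finset.mem_filter, Finset.mem_range, Nat.lt_succ_iff]
  have h3 : ∑ p ∈ (Finset.range (P + 1)).filter Nat.Prime,
      Real.log p * (1 / ((p : ℝ) * ((p : ℝ) - 1))) ≤
      ∑ n ∈ Finset.Icc 2 P, Real.log n * (1 / ((n : ℝ) * ((n : ℝ) - 1))) := by
    refine Finset.sum_le_sum_of_subset_of_nonneg ?_ ?_
    · intro p hp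
      rw [Finset.mem_filter, Finset.mem_range] at hp
      exact Finset.mem_Icc.2 ⟨hp.2.two_le, by omega⟩
    · intro n hn _
      have h2n : (2 : ℝ) ≤ n := by exact_mod_cast (Finset.mem_Icc.1 hn).1
      have : (0 : ℝ) ≤ Real.log n := Real.log_nonneg (by linarith)
      have h4 : (0 : ℝ) ≤ (n : ℝ) * ((n : ℝ) - 1) := by nlinarith
      positivity
  have h4 : ∑ p ∈ (Finset.range (P + 1)).filter Nat.Prime, Real.log p * (1 / ((p : ℝ) - 1)) =
      ∑ p ∈ (Finset.range (P + 1)).filter Nat.Prime, Real.log p / p +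
      ∑ p ∈ (Finset.range (P + 1)).filter Nat.Prime,
        Real.log p * (1 / ((p : ℝ) * ((p : ℝ) - 1))) := by
    rw [← Finset.sum_add_distrib]
    refine Finset.sum_congr rfl fun p hp => ?_
    have hp2 : (2 : ℝ) ≤ p := by exact_mod_cast (Finset.mem_filter.1 hp).2.two_le
    have hp0 : (p : ℝ) ≠ 0 := by linarith
    have hp1 : (p : ℝ) - 1 ≠ 0 := by intro h; linarith
    field_simp
    ring
  rw [h4]
  have h5 : ∑ p ∈ (Finset.range (P + 1)).filter Nat.Prime, Real.log p / p =
      Pool.Agent.LibMaier.TN P := by rw [hset, Pool.Agent.LibMaier.TN]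
  rw [h5]
  linarith

end Pool.Agent.LibER91
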