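import Pool.Agent.LibER91.EPDefs

/-!
[EP91 EP19] SHORT. The weights of a form in `A, B`.

PLAN. Inline the first statement of EP04: `C (p ^ w)` divides `A' := A.comp (C c + C (p ^ j) * X)` and
`B' := B.comp (..)` (`Nat.ordProj_dvd`, `Int.gcd_dvd_left/right`, `C_dvd_iff_dvd_coeff`,
`content_dvd_coeff`). `(GG f A B r t0).comp (..) = ∑ i ∈ range (r+1), C (f.coeff i) * (-B') ^ i * A' ^ (r-i) +
(.. + C t0) * A' ^ r` (`simp [GG, Polynomial.Polynomial.sum_comp, mul_comp, pow_comp]`), each term is divisible by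
`C (p ^ w) ^ r = C (p ^ (r * w))`: `(-B') ^ i * A' ^ (r - i)` with `i + (r - i) = r` for `i ≤ r`.
-/

set_option autoImplicit false

open Polynomial

namespace Pool.Agent.LibER91

private theorem EP19_wt (p : ℕ) (A B : ℤ[X]) (c : ℤ) (k : ℕ) :
    C ((p : ℤ) ^ wt p A B c k) ∣ A.comp (C c + C ((p ^ k : ℕ) : ℤ) * X) ∧
      C ((p : ℤ) ^ wt p A B c k) ∣ B.comp (C c + C ((p ^ k : ℕ) : ℤ) * X) := by
  have h : ((p : ℤ) ^ wt p A B c k) ∣ (cont A B c (p ^ k) : ℤ) := by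
    have := Nat.ordProj_dvd (cont A B c (p ^ k)) p
    exact_mod_cast this
  constructor
  · rw [C_dvd_iff_dvd_coeff]
    intro i
    exact h.trans ((Int.gcd_dvd_left ..).trans (content_dvd_coeff i))
  · rw [C_dvd_iff_dvd_coeff]
    intro i
    exact h.trans ((Int.gcd_dvd_right ..).trans (content_dvd_coeff i))

theorem wt_form' (f A B : ℤ[X]) (r : ℕ) (t0 : ℤ) (p : ℕ) (c : ℤ) (j : ℕ) :
    C ((p : ℤ) ^ (r * wt p A B c j)) ∣ (GG f A B r t0).comp (C c + C ((p ^ j : ℕ) : ℤ) * X) := by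
  obtain ⟨hA, hB⟩ := EP19_wt p A B c j
  have e1 : C ((p : ℤ) ^ (r * wt p A B c j)) = (C ((p : ℤ) ^ wt p A B c j) : ℤ[X]) ^ r := by
    rw [← C_pow, ← pow_mul, mul_comm]
  rw [e1]
  unfold GG
  rw [add_comp, Polynomial.sum_comp, mul_comp, pow_comp]
  refine dvd_add (Finset.dvd_sum fun i hi => ?_) (Dvd.dvd.mul_left (pow_dvd_pow_of_dvd hA r) _)
  have hi' : i ≤ r := Nat.lt_succ_iff.1 (Finset.mem_range.1 hi)
  rw [mul_comp, mul_comp, pow_comp, pow_comp, neg_comp, mul_assoc]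
  refine Dvd.dvd.mul_left ?_ _
  calc (C ((p : ℤ) ^ wt p A B c j) : ℤ[X]) ^ r =
      (C ((p : ℤ) ^ wt p A B c j)) ^ i * (C ((p : ℤ) ^ wt p A B c j)) ^ (r - i) := by
        rw [← pow_add, Nat.add_sub_cancel' hi']
    _ ∣ _ := mul_dvd_mul (pow_dvd_pow_of_dvd ((dvd_neg).2 hB) i) (pow_dvd_pow_of_dvd hA _)

end Pool.Agent.LibER91
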