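import Pool.Agent.LibER91.Defs

/-!
Block EP (board EP91, helper81): the p-adic part of Step 4. Definitions and common statements.

Notation: `wt p A B c k` is the exponent of `p` in the gcd of all coefficients of `A (c + p ^ k X)`,
`B (c + p ^ k X)`.
-/

set_option autoImplicit false

open Polynomial

namespace Pool.Agent.LibER91

/-- The number of levels `1 ≤ k ≤ min a a'` at which `c` and `c'` are in the same class. -/
noncomputable def mt (p : ℕ) (c c' : ℤ) (a a' : ℕ) : ℕ := by
  classical exact ((Finset.Icc 1 (min a a')).filter (fun k => ((p : ℤ) ^ k) ∣ c - c')).card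

/-- The number of members of the family `(c l, a l)` in the disc `b + p ^ k Z_p`. -/
noncomputable def cnt {n : ℕ} (p : ℕ) (c : Fin n → ℤ) (a : Fin n → ℕ) (b : ℤ) (k : ℕ) : ℕ := by
  classical exact (Finset.univ.filter (fun l => k ≤ a l ∧ ((p : ℤ) ^ k) ∣ c l - b)).card

/-- The generic point of the disc `c + p ^ k Z_p`. -/
noncomputable def gp {n : ℕ} (p : ℕ) (c : Fin n → ℤ) (a : Fin n → ℕ) (l : Fin n) :
    MvPolynomial (Fin n) ℤ :=
  MvPolynomial.C (c l) + MvPolynomial.C ((p : ℤ) ^ a l) * MvPolynomial.X l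

/-- The Vandermonde product of the generic points. -/
noncomputable def vd {n : ℕ} (p : ℕ) (c : Fin n → ℤ) (a : Fin n → ℕ) : MvPolynomial (Fin n) ℤ :=
  ∏ i : Fin n, ∏ j ∈ Finset.Ioi i, (gp p c a j - gp p c a i)

end Pool.Agent.LibER91
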