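import Mathlib

set_option autoImplicit false

namespace Pool.Agent.LibER91

/-- The range statement for pencils of quartic Thue equations. -/
def Pencil4 : Prop :=
  ∀ ε : ℝ, 0 < ε → ε < 1 → ∃ δ : ℝ, 0 < δ ∧ ∃ T0 : ℝ, 1 < T0 ∧ ∀ T : ℝ, T0 ≤ T → ∀ R : ℝ, 1 ≤ R →
    R ≤ T ^ δ → ∀ a1 a2 a3 a4 : ℤ, a4 ≠ 0 → |(a1 : ℝ)| * R ≤ T → |(a2 : ℝ)| * R ^ 2 ≤ T →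
    |(a3 : ℝ)| * R ^ 3 ≤ T → |(a4 : ℝ)| * R ^ 4 ≤ T →
    {d : ℤ | ∃ p q : ℤ, q ≠ 0 ∧ |(q : ℝ)| ≤ Real.exp (T ^ (1 - ε)) ∧ |(p : ℝ)| ≤ R * |(q : ℝ)| ∧
      a4 * p ^ 4 + a3 * p ^ 3 * q + a2 * p ^ 2 * q ^ 2 + a1 * p * q ^ 3 + d * q ^ 4 = 1}.Finite ∧
    ({d : ℤ | ∃ p q : ℤ, q ≠ 0 ∧ |(q : ℝ)| ≤ Real.exp (T ^ (1 - ε)) ∧ |(p : ℝ)| ≤ R * |(q : ℝ)| ∧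
      a4 * p ^ 4 + a3 * p ^ 3 * q + a2 * p ^ 2 * q ^ 2 + a1 * p * q ^ 3 + d * q ^ 4 = 1}.ncard : ℝ)
      ≤ T ^ (1 - δ)

/-- The range statement for pencils of cubic Thue equations. -/
def Pencil3 : Prop :=
  ∀ ε : ℝ, 0 < ε → ε < 1 → ∃ δ : ℝ, 0 < δ ∧ ∃ T0 : ℝ, 1 < T0 ∧ ∀ T : ℝ, T0 ≤ T → ∀ R : ℝ, 1 ≤ R →
    R ≤ T ^ δ → ∀ a1 a2 a3 : ℤ, a3 ≠ 0 → |(a1 : ℝ)| * R ≤ T → |(a2 : ℝ)| * R ^ 2 ≤ T →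
    |(a3 : ℝ)| * R ^ 3 ≤ T →
    {d : ℤ | ∃ p q : ℤ, q ≠ 0 ∧ |(q : ℝ)| ≤ Real.exp (T ^ (1 - ε)) ∧ |(p : ℝ)| ≤ R * |(q : ℝ)| ∧
      a3 * p ^ 3 + a2 * p ^ 2 * q + a1 * p * q ^ 2 + d * q ^ 3 = 1}.Finite ∧
    ({d : ℤ | ∃ p q : ℤ, q ≠ 0 ∧ |(q : ℝ)| ≤ Real.exp (T ^ (1 - ε)) ∧ |(p : ℝ)| ≤ R * |(q : ℝ)| ∧
      a3 * p ^ 3 + a2 * p ^ 2 * q + a1 * p * q ^ 2 + d * q ^ 3 = 1}.ncard : ℝ)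
      ≤ T ^ (1 - δ)

end Pool.Agent.LibER91
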