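import Pool.Agent.LibER91.Defs
import Pool.Agent.LibER91.PencilDefs

set_option autoImplicit false

open Polynomial

namespace Pool.Agent.LibER91

/-- The count in one patch. -/
def PatchCount : Prop :=
  ∀ r : ℕ, 3 ≤ r → ∀ ε : ℝ, 0 < ε → ε < 1 → ∃ c : ℝ, 0 < c ∧ c ≤ ε ∧ ∃ δ : ℝ, 0 < δ ∧ ∃ T0 : ℝ, 1 < T0 ∧
    ∀ T : ℝ, T0 ≤ T → ∀ f : ℤ[X], f.natDegree = r → ∀ R0 : ℝ, 1 ≤ R0 → R0 ≤ T ^ δ → nz R0 f ≤ T →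
    ∀ θ : ℝ, |θ| ≤ R0 → ∀ L : ℝ, 4 / 9 * Real.log T ≤ L → L ≤ T ^ (1 - ε) →
    (patch f r θ (L * T ^ c / T) L).Finite ∧
      ((patch f r θ (L * T ^ c / T) L).ncard : ℝ) ≤ L * T ^ c * T ^ (-δ)

end Pool.Agent.LibER91
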