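import Pool.Agent.LibER91.Defs
import Pool.Agent.LibER91.PencilDefs
import Pool.Agent.LibER91.PatchDefs

set_option autoImplicit false

open Polynomial

namespace Pool.Agent.LibER91

theorem po_union (b : ℝ) (U : ℕ → Set ℤ) : ∀ n : ℕ,
    (∀ j < n, (U j).Finite ∧ ((U j).ncard : ℝ) ≤ b) →
    (⋃ j ∈ Finset.range n, U j).Finite ∧ ((⋃ j ∈ Finset.range n, U j).ncard : ℝ) ≤ n * b := by
  intro n
  induction n with
  | zero => intro _; simp
  | succ n ih =>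
    intro h
    obtain ⟨h1, h2⟩ := ih (fun j hj => h j (by omega))
    obtain ⟨h3, h4⟩ := h n (by omega)
    have e : (⋃ j ∈ Finset.range (n + 1), U j) = (⋃ j ∈ Finset.range n, U j) ∪ U n := by
      ext x
      simp only [Set.mem_iUnion, Finset.mem_range, Set.mem_union, exists_prop]
      constructor
      · rintro ⟨j, hj, hx⟩
        rcases Nat.lt_or_ge j n with hjn | hjn
        · exact Or.inl ⟨j, hjn, hx⟩
        · have : j = n := by omega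
          subst this
          exact Or.inr hx
      · rintro (⟨j, hj, hx⟩ | hx)
        · exact ⟨j, by omega, hx⟩
        · exact ⟨n, by omega, hx⟩
    rw [e]
    refine ⟨h1.union h3, ?_⟩
    have h5 : ((⋃ j ∈ Finset.range n, U j) ∪ U n).ncard ≤
        (⋃ j ∈ Finset.range n, U j).ncard + (U n).ncard := Set.ncard_union_le _ _
    have h6 : ((((⋃ j ∈ Finset.range n, U j) ∪ U n).ncard : ℕ) : ℝ) ≤
        ((⋃ j ∈ Finset.range n, U j).ncard : ℝ) + ((U n).ncard : ℝ) := by exact_mod_cast h5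
    push_cast
    linarith

theorem po_cover (b : ℝ) (U : ℕ → Set ℤ) (n : ℕ) (S : Set ℤ)
    (h : ∀ j < n, (U j).Finite ∧ ((U j).ncard : ℝ) ≤ b)
    (hS : S ⊆ ⋃ j ∈ Finset.range n, U j) : S.Finite ∧ (S.ncard : ℝ) ≤ n * b := by
  obtain ⟨h1, h2⟩ := po_union b U n h
  refine ⟨h1.subset hS, le_trans ?_ h2⟩
  exact_mod_cast Set.ncard_le_ncard hS h1

/-- The parameters with a solution of small height. -/
theorem po_small (f : ℤ[X]) (r : ℕ) (R B : ℝ) (hR : 1 ≤ R) (hB : 1 ≤ B) (S : Set ℤ)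
    (hS : ∀ t ∈ S, ∃ P Q : ℤ, Sol f r t P Q ∧ |(Q : ℝ)| ≤ B ∧ |(P : ℝ)| ≤ R * |(Q : ℝ)|) :
    S.Finite ∧ (S.ncard : ℝ) ≤ 9 * R * B ^ 2 := by
  set F : Finset ℤ := ((Finset.Icc (-⌊R * B⌋) ⌊R * B⌋) ×ˢ (Finset.Icc (-⌊B⌋) ⌊B⌋)).image
    (fun z : ℤ × ℤ =>
      (1 - ∑ i ∈ Finset.range (r + 1), f.coeff i * z.1 ^ i * z.2 ^ (r - i)) / z.2 ^ r) with hF
  have hsub : S ⊆ (F : Set ℤ) := by
    intro t ht
    obtain ⟨P, Q, ⟨hQ, hs⟩, h1, h2⟩ := hS t ht
    rw [hF]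
    simp only [Finset.coe_image, Set.mem_image, Finset.mem_coe, Finset.mem_product, Finset.mem_Icc,
      Prod.exists]
    have h3 : |(P : ℝ)| ≤ R * B := h2.trans (mul_le_mul_of_nonneg_left h1 (by linarith))
    have hP := abs_le.mp h3
    have hQ' := abs_le.mp h1
    refine ⟨P, Q, ⟨⟨?_, ?_⟩, ?_, ?_⟩, ?_⟩
    · have : -P ≤ ⌊R * B⌋ := Int.le_floor.mpr (by push_cast; linarith [hP.1])
      linarith
    · exact Int.le_floor.mpr hP.2
    · have : -Q ≤ ⌊B⌋ := Int.le_floor.mpr (by push_cast; linarith [hQ'.1])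
      linarith
    · exact Int.le_floor.mpr hQ'.2
    · have hQr : Q ^ r ≠ 0 := pow_ne_zero _ hQ
      have : 1 - ∑ i ∈ Finset.range (r + 1), f.coeff i * P ^ i * Q ^ (r - i) = t * Q ^ r := by
        linarith
      rw [this]
      exact Int.mul_ediv_cancel _ hQr
  have hfin : S.Finite := F.finite_toSet.subset hsub
  refine ⟨hfin, ?_⟩
  have h1 : S.ncard ≤ F.card := by
    have := Set.ncard_le_ncard hsub F.finite_toSet
    rwa [Set.ncard_coe_finset] at this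
  have h2 : F.card ≤ (Finset.Icc (-⌊R * B⌋) ⌊R * B⌋).card * (Finset.Icc (-⌊B⌋) ⌊B⌋).card := by
    rw [hF, ← Finset.card_product]
    exact Finset.card_image_le
  have hc : ∀ x : ℝ, 1 ≤ x → ((Finset.Icc (-⌊x⌋) ⌊x⌋).card : ℝ) ≤ 3 * x := by
    intro x hx
    have h0 : 0 ≤ ⌊x⌋ := Int.floor_nonneg.mpr (by linarith)
    have e : ((Finset.Icc (-⌊x⌋) ⌊x⌋).card : ℤ) = ⌊x⌋ + 1 - (-⌊x⌋) := by
      rw [Int.card_Icc]
      exact Int.toNat_of_nonneg (by linarith)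
    have e' : ((Finset.Icc (-⌊x⌋) ⌊x⌋).card : ℝ) = (⌊x⌋ : ℝ) + 1 - (-(⌊x⌋ : ℝ)) := by
      exact_mod_cast e
    rw [e']
    have := Int.floor_le x
    linarith
  have hRB : 1 ≤ R * B := by nlinarith
  have h3 := hc (R * B) hRB
  have h4 := hc B hB
  have h5 : (S.ncard : ℝ) ≤ ((Finset.Icc (-⌊R * B⌋) ⌊R * B⌋).card : ℝ) *
      ((Finset.Icc (-⌊B⌋) ⌊B⌋).card : ℝ) := by
    exact_mod_cast h1.trans h2
  calc (S.ncard : ℝ) ≤ ((Finset.Icc (-⌊R * B⌋) ⌊R * B⌋).card : ℝ) *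
      ((Finset.Icc (-⌊B⌋) ⌊B⌋).card : ℝ) := h5
    _ ≤ (3 * (R * B)) * (3 * B) := mul_le_mul h3 h4 (Nat.cast_nonneg _) (by nlinarith)
    _ = 9 * R * B ^ 2 := by ring

/-- The parameters with a solution of height about `exp L`. -/
theorem po_range (f : ℤ[X]) (r : ℕ) (R ρ L b : ℝ) (hR : 0 ≤ R) (hρ : 0 < ρ) (hb : 0 ≤ b)
    (h : ∀ θ : ℝ, |θ| ≤ R → (patch f r θ ρ L).Finite ∧ ((patch f r θ ρ L).ncard : ℝ) ≤ b)
    (S : Set ℤ)
    (hS : ∀ t ∈ S, ∃ P Q : ℤ, Sol f r t P Q ∧ Real.exp (9 / 10 * L) ≤ |(Q : ℝ)| ∧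
      |(Q : ℝ)| ≤ Real.exp L ∧ |(P : ℝ)| ≤ R * |(Q : ℝ)|) :
    S.Finite ∧ (S.ncard : ℝ) ≤ (2 * R / ρ + 1) * b := by
  have hq : 0 ≤ 2 * R / ρ := by positivity
  obtain ⟨h1, h2⟩ := po_cover b (fun j => patch f r (-R + ρ * j) ρ L) (⌊2 * R / ρ⌋₊ + 1) S
    (by
      intro j hj
      apply h
      have h1 : (j : ℝ) ≤ 2 * R / ρ := by
        have : j ≤ ⌊2 * R / ρ⌋₊ := by omega
        exact (Nat.le_floor_iff hq).mp this
      have h2 : ρ * j ≤ 2 * R := by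
        have := mul_le_mul_of_nonneg_left h1 hρ.le
        rwa [mul_div_cancel₀ _ hρ.ne'] at this
      have h3 : 0 ≤ ρ * j := by positivity
      rw [abs_le]
      constructor <;> linarith)
    (by
      intro t ht
      obtain ⟨P, Q, hs, h1, h2, h3⟩ := hS t ht
      have hQ : Q ≠ 0 := hs.1
      have hQ' : 0 < |(Q : ℝ)| := abs_pos.mpr (by exact_mod_cast hQ)
      have h4 : |(P : ℝ) / Q| ≤ R := by
        rw [abs_div, div_le_iff₀ hQ']
        exact h3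
      have h5 := abs_le.mp h4
      have h6 : 0 ≤ ((P : ℝ) / Q + R) / ρ := div_nonneg (by linarith [h5.1]) hρ.le
      simp only [Set.mem_iUnion, Finset.mem_range, exists_prop]
      refine ⟨⌊((P : ℝ) / Q + R) / ρ⌋₊, ?_, P, Q, hs, h1, h2, ?_⟩
      · have : ⌊((P : ℝ) / Q + R) / ρ⌋₊ ≤ ⌊2 * R / ρ⌋₊ := by
          apply Nat.floor_le_floor
          apply div_le_div_of_nonneg_right _ hρ.le
          linarith [h5.2]
        omega
      · have h7 := Nat.floor_le h6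
        have h8 := (Nat.lt_floor_add_one (((P : ℝ) / Q + R) / ρ)).le
        have h9 : ρ * (⌊((P : ℝ) / Q + R) / ρ⌋₊ : ℝ) ≤ (P : ℝ) / Q + R := by
          have := mul_le_mul_of_nonneg_left h7 hρ.le
          rwa [mul_div_cancel₀ _ hρ.ne'] at this
        have h10 : (P : ℝ) / Q + R ≤ ρ * ((⌊((P : ℝ) / Q + R) / ρ⌋₊ : ℝ) + 1) := by
          have := mul_le_mul_of_nonneg_left h8 hρ.le
          rwa [mul_div_cancel₀ _ hρ.ne'] at this
        rw [abs_le]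
        constructor <;> linarith)
  refine ⟨h1, h2.trans ?_⟩
  apply mul_le_mul_of_nonneg_right _ hb
  push_cast
  have := Nat.floor_le hq
  linarith

/-- The conditions on the size of the parameter. -/
theorem po_event (K ε δ : ℝ) (hε : 0 < ε) (hε1 : ε < 1) (hδ : 0 < δ) : ∃ T2 : ℝ, ∀ x : ℝ, T2 ≤ x →
    K * (12 + 30 * Real.log x) ≤ x ^ (2 * δ) ∧ 10 / 9 ≤ x ^ (ε / 2) ∧
    4 / 9 * Real.log x ≤ x ^ (1 - ε / 2) ∧ 9 / 4 ≤ Real.log x := by
  have e1 : ∀ᶠ x : ℝ in Filter.atTop, K * (12 + 30 * Real.log x) ≤ x ^ (2 * δ) := by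
    have h1 : (fun x : ℝ => K * (12 + 30 * Real.log x)) =o[Filter.atTop] (fun x : ℝ => x ^ (2 * δ)) := by
      have h2 : (fun x : ℝ => (12 : ℝ)) =o[Filter.atTop] (fun x : ℝ => x ^ (2 * δ)) := by
        apply Asymptotics.isLittleO_const_left.mpr
        right
        exact tendsto_norm_atTop_atTop.comp (tendsto_rpow_atTop (by linarith))
      have h3 := (isLittleO_log_rpow_atTop (r := 2 * δ) (by linarith)).const_mul_left 30
      exact (h2.add h3).const_mul_left K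
    have h4 := h1.bound (show (0 : ℝ) < 1 by norm_num)
    filter_upwards [h4, Filter.eventually_gt_atTop (0 : ℝ)] with x hx hx0
    rw [one_mul, Real.norm_of_nonneg (Real.rpow_nonneg hx0.le _)] at hx
    exact (le_abs_self _).trans hx
  have e2 : ∀ᶠ x : ℝ in Filter.atTop, 10 / 9 ≤ x ^ (ε / 2) :=
    (tendsto_rpow_atTop (by linarith)).eventually_ge_atTop _
  have e3 : ∀ᶠ x : ℝ in Filter.atTop, 4 / 9 * Real.log x ≤ x ^ (1 - ε / 2) := by
    have h3 := (isLittleO_log_rpow_atTop (r := 1 - ε / 2) (by linarith)).const_mul_left (4 / 9)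
    have h4 := h3.bound (show (0 : ℝ) < 1 by norm_num)
    filter_upwards [h4, Filter.eventually_gt_atTop (0 : ℝ)] with x hx hx0
    rw [one_mul, Real.norm_of_nonneg (Real.rpow_nonneg hx0.le _)] at hx
    exact (le_abs_self _).trans hx
  have e4 : ∀ᶠ x : ℝ in Filter.atTop, 9 / 4 ≤ Real.log x :=
    Real.tendsto_log_atTop.eventually_ge_atTop _
  obtain ⟨T2, hT2⟩ := Filter.eventually_atTop.mp (e1.and (e2.and (e3.and e4)))
  exact ⟨T2, fun x hx => hT2 x hx⟩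

/-- The choice of the range. -/
theorem po_find (x y : ℝ) (hx : 9 / 4 ≤ Real.log x) (hy : 9 / 10 * (4 / 9 * Real.log x) < y) :
    ∃ i : ℕ, y ≤ (10 / 9 : ℝ) ^ i * (4 / 9 * Real.log x) ∧
      9 / 10 * ((10 / 9 : ℝ) ^ i * (4 / 9 * Real.log x)) < y ∧
      ((10 / 9 : ℝ) ^ i * (4 / 9 * Real.log x) ≤ 4 / 9 * Real.log x ∨
        (10 / 9 : ℝ) ^ i * (4 / 9 * Real.log x) ≤ 10 / 9 * y) := by
  classical
  have hpos : 0 < 4 / 9 * Real.log x := by linarith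
  have hex : ∃ i : ℕ, y ≤ (10 / 9 : ℝ) ^ i * (4 / 9 * Real.log x) := by
    obtain ⟨i, hi⟩ := pow_unbounded_of_one_lt (y / (4 / 9 * Real.log x)) (show (1 : ℝ) < 10 / 9 by norm_num)
    refine ⟨i, ?_⟩
    rw [div_lt_iff₀ hpos] at hi
    exact hi.le
  refine ⟨Nat.find hex, Nat.find_spec hex, ?_, ?_⟩
  · rcases Nat.eq_zero_or_pos (Nat.find hex) with h0 | h0
    · rw [h0]; simpa using hy
    · obtain ⟨k, hk⟩ : ∃ k, Nat.find hex = k + 1 := ⟨Nat.find hex - 1, by omega⟩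
      have h1 := Nat.find_min hex (m := k) (by omega)
      rw [hk, pow_succ]
      push Not at h1
      linarith
  · rcases Nat.eq_zero_or_pos (Nat.find hex) with h0 | h0
    · left; rw [h0]; simp
    · right
      obtain ⟨k, hk⟩ : ∃ k, Nat.find hex = k + 1 := ⟨Nat.find hex - 1, by omega⟩
      have h1 := Nat.find_min hex (m := k) (by omega)
      rw [hk, pow_succ]
      push Not at h1
      linarith

theorem po_idx (x : ℝ) (i : ℕ) (hx : 9 / 4 ≤ Real.log x)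
    (h : (10 / 9 : ℝ) ^ i * (4 / 9 * Real.log x) ≤ x) : i < ⌊10 * Real.log x⌋₊ + 1 := by
  have h1 : (10 / 9 : ℝ) ^ i ≤ x := by
    have h2 : (10 / 9 : ℝ) ^ i * 1 ≤ (10 / 9 : ℝ) ^ i * (4 / 9 * Real.log x) :=
      mul_le_mul_of_nonneg_left (by linarith) (by positivity)
    linarith
  have h3 : (i : ℝ) * Real.log (10 / 9) ≤ Real.log x := by
    rw [← Real.log_pow]
    exact Real.log_le_log (by positivity) h1
  have h4 : (1 : ℝ) / 10 ≤ Real.log (10 / 9) := by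
    have := Real.one_sub_inv_le_log_of_pos (show (0 : ℝ) < 10 / 9 by norm_num)
    norm_num at this ⊢
    linarith
  have h5 : (i : ℝ) * (1 / 10) ≤ (i : ℝ) * Real.log (10 / 9) :=
    mul_le_mul_of_nonneg_left h4 (Nat.cast_nonneg _)
  have h6 : (i : ℝ) ≤ 10 * Real.log x := by linarith
  have := Nat.le_floor h6
  omega

/-- The general statement on pencils. -/
theorem pencil_gen (h : PatchCount) (r : ℕ) (hr : 3 ≤ r) (ε : ℝ) (hε : 0 < ε) (hε1 : ε < 1)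
    (K : ℝ) (hK : 1 ≤ K) :
    ∃ δ : ℝ, 0 < δ ∧ ∃ T0 : ℝ, 1 < T0 ∧ ∀ T : ℝ, T0 ≤ T → ∀ R : ℝ, 1 ≤ R →
    R ≤ T ^ δ → ∀ f : ℤ[X], f.natDegree = r → nz R f ≤ K * T → ∀ S : Set ℤ,
    (∀ t ∈ S, ∃ P Q : ℤ, Sol f r t P Q ∧ |(Q : ℝ)| ≤ Real.exp (T ^ (1 - ε)) ∧
      |(P : ℝ)| ≤ R * |(Q : ℝ)|) →
    S.Finite ∧ (S.ncard : ℝ) ≤ T ^ (1 - δ) := by
  obtain ⟨c, hc, hcε, δ1, hδ1, T1, hT1, hp⟩ := h r hr (ε / 2) (by linarith) (by linarith)
  set δ2 : ℝ := min δ1 (1 / 10) with hδ2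
  have h21 : δ2 ≤ δ1 := min_le_left _ _
  have h22 : δ2 ≤ 1 / 10 := min_le_right _ _
  have h20 : 0 < δ2 := lt_min hδ1 (by norm_num)
  obtain ⟨T2, hT2⟩ := po_event K ε (δ2 / 4) hε hε1 (by linarith)
  refine ⟨δ2 / 4, by linarith, max (max T1 T2) 2, by
    exact lt_of_lt_of_le (by norm_num) (le_max_right _ _), ?_⟩
  intro T hT R hR1 hR f hf hn S hS
  have hT2' : 2 ≤ T := (le_max_right _ _).trans hT
  have hTT1 : T1 ≤ T := ((le_max_left _ _).trans (le_max_left _ _)).trans hT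
  have hTT2 : T2 ≤ T := ((le_max_right _ _).trans (le_max_left _ _)).trans hT
  set x : ℝ := K * T with hx
  have hTx : T ≤ x := by rw [hx]; nlinarith
  have hx0 : 0 < x := by linarith
  have hx1 : 1 < x := by linarith
  obtain ⟨e1, e2, e3, e4⟩ := hT2 x (hTT2.trans hTx)
  have hRx : R ≤ x ^ (δ2 / 4) :=
    hR.trans (Real.rpow_le_rpow (by linarith) hTx (by linarith))
  have hRx1 : R ≤ x ^ δ1 := hRx.trans (Real.rpow_le_rpow_of_exponent_le hx1.le (by linarith))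
  have hp' := hp x (hTT1.trans hTx) f hf R hR1 hRx1 hn
  -- the ranges
  set Lf : ℕ → ℝ := fun i => (10 / 9 : ℝ) ^ i * (4 / 9 * Real.log x) with hLf
  have hLpos : ∀ i, 0 < Lf i := fun i => mul_pos (by positivity) (by linarith)
  have hLge : ∀ i, 4 / 9 * Real.log x ≤ Lf i := by
    intro i
    have h1 : (1 : ℝ) ≤ (10 / 9 : ℝ) ^ i := one_le_pow₀ (by norm_num)
    have h2 : 0 < 4 / 9 * Real.log x := by linarith
    show 4 / 9 * Real.log x ≤ (10 / 9 : ℝ) ^ i * (4 / 9 * Real.log x)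
    nlinarith
  set B : ℝ := Real.exp (9 / 10 * (4 / 9 * Real.log x)) with hB
  have hB1 : 1 ≤ B := Real.one_le_exp (by linarith)
  have hB2 : B ^ 2 = x ^ ((8 : ℝ) / 10) := by
    rw [hB, ← Real.exp_nat_mul, Real.rpow_def_of_pos hx0]
    congr 1
    push_cast
    ring
  set S0 : Set ℤ := {t | t ∈ S ∧ ∃ P Q : ℤ, Sol f r t P Q ∧ |(Q : ℝ)| ≤ B ∧
    |(P : ℝ)| ≤ R * |(Q : ℝ)|} with hS0
  set U : ℕ → Set ℤ := fun i => {t | t ∈ S ∧ Lf i ≤ x ^ (1 - ε / 2) ∧ ∃ P Q : ℤ, Sol f r t P Q ∧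
    Real.exp (9 / 10 * Lf i) ≤ |(Q : ℝ)| ∧ |(Q : ℝ)| ≤ Real.exp (Lf i) ∧
    |(P : ℝ)| ≤ R * |(Q : ℝ)|} with hU
  have c0 : S0.Finite ∧ (S0.ncard : ℝ) ≤ 9 * R * B ^ 2 :=
    po_small f r R B hR1 hB1 S0 (fun t ht => ht.2)
  have c1 : ∀ i < ⌊10 * Real.log x⌋₊ + 1,
      (U i).Finite ∧ ((U i).ncard : ℝ) ≤ 3 * R * x ^ (1 - δ2) := by
    intro i _
    by_cases hi : Lf i ≤ x ^ (1 - ε / 2)
    · have hρ : 0 < Lf i * x ^ c / x := div_pos (mul_pos (hLpos i) (Real.rpow_pos_of_pos hx0 _)) hx0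
      have hb : 0 ≤ Lf i * x ^ c * x ^ (-δ1) :=
        mul_nonneg (mul_nonneg (hLpos i).le (Real.rpow_nonneg hx0.le _)) (Real.rpow_nonneg hx0.le _)
      obtain ⟨h1, h2⟩ := po_range f r R (Lf i * x ^ c / x) (Lf i) (Lf i * x ^ c * x ^ (-δ1))
        (by linarith) hρ hb (fun θ hθ => hp' θ hθ (Lf i) (hLge i) hi) (U i)
        (fun t ht => ht.2.2)
      refine ⟨h1, h2.trans ?_⟩
      have hxc : 0 < x ^ c := Real.rpow_pos_of_pos hx0 _
      have h3 : (2 * R / (Lf i * x ^ c / x) + 1) * (Lf i * x ^ c * x ^ (-δ1)) =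
          (2 * R * x + Lf i * x ^ c) * x ^ (-δ1) := by
        have := (hLpos i).ne'
        have := hxc.ne'
        have := hx0.ne'
        field_simp
      rw [h3]
      have h4 : Lf i * x ^ c ≤ x := by
        have h5 : x ^ c ≤ x ^ (ε / 2) := Real.rpow_le_rpow_of_exponent_le hx1.le hcε
        calc Lf i * x ^ c ≤ x ^ (1 - ε / 2) * x ^ (ε / 2) :=
              mul_le_mul hi h5 hxc.le (Real.rpow_nonneg hx0.le _)
          _ = x := by
              rw [← Real.rpow_add hx0]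
              norm_num
      have h6 : 2 * R * x + Lf i * x ^ c ≤ 3 * R * x := by nlinarith
      have h7 : x ^ (-δ1) ≤ x ^ (-δ2) := Real.rpow_le_rpow_of_exponent_le hx1.le (by linarith)
      calc (2 * R * x + Lf i * x ^ c) * x ^ (-δ1) ≤ (3 * R * x) * x ^ (-δ2) :=
            mul_le_mul h6 h7 (Real.rpow_nonneg hx0.le _) (by positivity)
        _ = 3 * R * x ^ (1 - δ2) := by
            rw [sub_eq_add_neg, Real.rpow_add hx0, Real.rpow_one]
            ring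
    · have he : U i = ∅ := by
        ext t
        constructor
        · rintro ⟨_, h2, _⟩
          exact absurd h2 hi
        · intro hx
          exact absurd hx (Set.notMem_empty t)
      rw [he]
      refine ⟨Set.finite_empty, ?_⟩
      rw [Set.ncard_empty]
      push_cast
      positivity
  obtain ⟨c2, c3⟩ := po_union _ U _ c1
  have hsub : S ⊆ S0 ∪ ⋃ j ∈ Finset.range (⌊10 * Real.log x⌋₊ + 1), U j := by
    intro t ht
    obtain ⟨P, Q, hs, h1, h2⟩ := hS t ht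
    have hQ : Q ≠ 0 := hs.1
    have hQ' : 0 < |(Q : ℝ)| := abs_pos.mpr (by exact_mod_cast hQ)
    by_cases hq : |(Q : ℝ)| ≤ B
    · exact Or.inl ⟨ht, P, Q, hs, hq, h2⟩
    · right
      push Not at hq
      have hy : 9 / 10 * (4 / 9 * Real.log x) < Real.log |(Q : ℝ)| := by
        rw [Real.lt_log_iff_exp_lt hQ']
        exact hq
      obtain ⟨i, hi1, hi2, hi3⟩ := po_find x (Real.log |(Q : ℝ)|) e4 hy
      have hyT : Real.log |(Q : ℝ)| ≤ T ^ (1 - ε) := by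
        rw [Real.log_le_iff_le_exp hQ']
        exact h1
      have hL : Lf i ≤ x ^ (1 - ε / 2) := by
        rcases hi3 with h3 | h3
        · exact h3.trans e3
        · refine h3.trans ?_
          have h4 : T ^ (1 - ε) ≤ x ^ (1 - ε) := Real.rpow_le_rpow (by linarith) hTx (by linarith)
          calc 10 / 9 * Real.log |(Q : ℝ)| ≤ x ^ (ε / 2) * x ^ (1 - ε) := by
                apply mul_le_mul e2 (hyT.trans h4) _ (Real.rpow_nonneg hx0.le _)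
                linarith
            _ = x ^ (1 - ε / 2) := by
                rw [← Real.rpow_add hx0]
                congr 1
                ring
      have hLx : Lf i ≤ x := by
        refine hL.trans ?_
        calc x ^ (1 - ε / 2) ≤ x ^ (1 : ℝ) :=
              Real.rpow_le_rpow_of_exponent_le hx1.le (by linarith)
          _ = x := Real.rpow_one x
      simp only [Set.mem_iUnion, Finset.mem_range, exists_prop]
      refine ⟨i, po_idx x i e4 hLx, ht, hL, P, Q, hs, ?_, ?_, h2⟩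
      · rw [← Real.le_log_iff_exp_le hQ']
        exact hi2.le
      · rw [← Real.log_le_iff_le_exp hQ']
        exact hi1
  have hfin := c0.1.union c2
  refine ⟨hfin.subset hsub, ?_⟩
  have n1 : (S.ncard : ℝ) ≤ (S0.ncard : ℝ) +
      ((⋃ j ∈ Finset.range (⌊10 * Real.log x⌋₊ + 1), U j).ncard : ℝ) := by
    have := (Set.ncard_le_ncard hsub hfin).trans (Set.ncard_union_le _ _)
    exact_mod_cast this
  have n2 : ((⌊10 * Real.log x⌋₊ + 1 : ℕ) : ℝ) ≤ 10 * Real.log x + 1 := by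
    push_cast
    have := Nat.floor_le (show 0 ≤ 10 * Real.log x by linarith)
    linarith
  have hxd : 0 < x ^ (1 - δ2) := Real.rpow_pos_of_pos hx0 _
  have n3 : (S.ncard : ℝ) ≤ 9 * R * x ^ (1 - δ2) + (10 * Real.log x + 1) * (3 * R * x ^ (1 - δ2)) := by
    have h1 : B ^ 2 ≤ x ^ (1 - δ2) := by
      rw [hB2]
      exact Real.rpow_le_rpow_of_exponent_le hx1.le (by linarith)
    have h2 : 9 * R * B ^ 2 ≤ 9 * R * x ^ (1 - δ2) :=
      mul_le_mul_of_nonneg_left h1 (by linarith)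
    have h3 : ((⌊10 * Real.log x⌋₊ + 1 : ℕ) : ℝ) * (3 * R * x ^ (1 - δ2)) ≤
        (10 * Real.log x + 1) * (3 * R * x ^ (1 - δ2)) :=
      mul_le_mul_of_nonneg_right n2 (by positivity)
    linarith [c0.2]
  have n4 : 9 * R * x ^ (1 - δ2) + (10 * Real.log x + 1) * (3 * R * x ^ (1 - δ2)) =
      R * x ^ (1 - δ2) * (12 + 30 * Real.log x) := by ring
  rw [n4] at n3
  have n5 : K * (S.ncard : ℝ) ≤ x ^ (1 - δ2 / 4) := by
    calc K * (S.ncard : ℝ) ≤ K * (R * x ^ (1 - δ2) * (12 + 30 * Real.log x)) :=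
          mul_le_mul_of_nonneg_left n3 (by linarith)
      _ = (R * x ^ (1 - δ2)) * (K * (12 + 30 * Real.log x)) := by ring
      _ ≤ (x ^ (δ2 / 4) * x ^ (1 - δ2)) * x ^ (2 * (δ2 / 4)) := by
          apply mul_le_mul _ e1 _ (by positivity)
          · exact mul_le_mul_of_nonneg_right hRx hxd.le
          · exact mul_nonneg (by linarith) (by linarith)
      _ = x ^ (1 - δ2 / 4) := by
          rw [← Real.rpow_add hx0, ← Real.rpow_add hx0]
          congr 1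
          ring
  have n6 : x ^ (1 - δ2 / 4) ≤ K * T ^ (1 - δ2 / 4) := by
    rw [hx, Real.mul_rpow (by linarith) (by linarith)]
    apply mul_le_mul_of_nonneg_right _ (Real.rpow_nonneg (by linarith) _)
    calc K ^ (1 - δ2 / 4) ≤ K ^ (1 : ℝ) := Real.rpow_le_rpow_of_exponent_le hK (by linarith)
      _ = K := Real.rpow_one K
  have n7 := n5.trans n6
  exact le_of_mul_le_mul_left n7 (by linarith)

theorem po_co3 (S : Type) [CommRing S] (b1 b2 b3 : S) :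
    (C b3 * X ^ 3 + C b2 * X ^ 2 + C b1 * X + C 0 : S[X]).coeff 0 = 0 ∧
    (C b3 * X ^ 3 + C b2 * X ^ 2 + C b1 * X + C 0 : S[X]).coeff 1 = b1 ∧
    (C b3 * X ^ 3 + C b2 * X ^ 2 + C b1 * X + C 0 : S[X]).coeff 2 = b2 ∧
    (C b3 * X ^ 3 + C b2 * X ^ 2 + C b1 * X + C 0 : S[X]).coeff 3 = b3 ∧
    (C b3 * X ^ 3 + C b2 * X ^ 2 + C b1 * X + C 0 : S[X]).coeff 4 = 0 := by
  refine ⟨?_, ?_, ?_, ?_, ?_⟩ <;> simp [coeff_X, coeff_C]

theorem po_co4 (S : Type) [CommRing S] (b1 b2 b3 b4 : S) :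
    (C b4 * X ^ 4 + (C b3 * X ^ 3 + C b2 * X ^ 2 + C b1 * X + C 0) : S[X]).coeff 0 = 0 ∧
    (C b4 * X ^ 4 + (C b3 * X ^ 3 + C b2 * X ^ 2 + C b1 * X + C 0) : S[X]).coeff 1 = b1 ∧
    (C b4 * X ^ 4 + (C b3 * X ^ 3 + C b2 * X ^ 2 + C b1 * X + C 0) : S[X]).coeff 2 = b2 ∧
    (C b4 * X ^ 4 + (C b3 * X ^ 3 + C b2 * X ^ 2 + C b1 * X + C 0) : S[X]).coeff 3 = b3 ∧
    (C b4 * X ^ 4 + (C b3 * X ^ 3 + C b2 * X ^ 2 + C b1 * X + C 0) : S[X]).coeff 4 = b4 := by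
  obtain ⟨h0, h1, h2, h3, h4⟩ := po_co3 S b1 b2 b3
  refine ⟨?_, ?_, ?_, ?_, ?_⟩
  · rw [coeff_add, h0]; simp
  · rw [coeff_add, h1]; simp
  · rw [coeff_add, h2]; simp
  · rw [coeff_add, h3]; simp
  · rw [coeff_add, h4]; simp

theorem po_nz3 (a1 a2 a3 : ℤ) (h3 : a3 ≠ 0) (R : ℝ) :
    (C a3 * X ^ 3 + C a2 * X ^ 2 + C a1 * X + C 0 : ℤ[X]).natDegree = 3 ∧
    nz R (C a3 * X ^ 3 + C a2 * X ^ 2 + C a1 * X + C 0 : ℤ[X]) =
      |(a1 : ℝ)| * R + |(a2 : ℝ)| * R ^ 2 + |(a3 : ℝ)| * R ^ 3 := by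
  have hd : (C a3 * X ^ 3 + C a2 * X ^ 2 + C a1 * X + C 0 : ℤ[X]).natDegree = 3 :=
    natDegree_cubic h3
  refine ⟨hd, ?_⟩
  have hd' : ((C a3 * X ^ 3 + C a2 * X ^ 2 + C a1 * X + C 0 : ℤ[X]).map
      (Int.castRingHom ℝ)).natDegree = 3 := by
    rw [natDegree_map_eq_of_injective (RingHom.injective_int _)]
    exact hd
  obtain ⟨c0, c1, c2, c3, _⟩ := po_co3 ℤ a1 a2 a3
  unfold nz nr
  rw [hd']
  simp only [Finset.sum_range_succ, Finset.sum_range_zero, coeff_map, c0, c1, c2, c3]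
  simp

theorem po_nz4 (a1 a2 a3 a4 : ℤ) (h4 : a4 ≠ 0) (R : ℝ) :
    (C a4 * X ^ 4 + (C a3 * X ^ 3 + C a2 * X ^ 2 + C a1 * X + C 0) : ℤ[X]).natDegree = 4 ∧
    nz R (C a4 * X ^ 4 + (C a3 * X ^ 3 + C a2 * X ^ 2 + C a1 * X + C 0) : ℤ[X]) =
      |(a1 : ℝ)| * R + |(a2 : ℝ)| * R ^ 2 + |(a3 : ℝ)| * R ^ 3 + |(a4 : ℝ)| * R ^ 4 := by
  have hd : (C a4 * X ^ 4 + (C a3 * X ^ 3 + C a2 * X ^ 2 + C a1 * X + C 0) : ℤ[X]).natDegree = 4 := by
    have h1 : (C a3 * X ^ 3 + C a2 * X ^ 2 + C a1 * X + C 0 : ℤ[X]).degree ≤ 3 := degree_cubic_le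
    have h2 : (C a4 * X ^ 4 : ℤ[X]).degree = 4 := by
      exact_mod_cast degree_C_mul_X_pow 4 h4
    have h3 : (C a4 * X ^ 4 + (C a3 * X ^ 3 + C a2 * X ^ 2 + C a1 * X + C 0) : ℤ[X]).degree = 4 := by
      rw [degree_add_eq_left_of_degree_lt]
      · exact h2
      · rw [h2]
        exact lt_of_le_of_lt h1 (by norm_num)
    exact natDegree_eq_of_degree_eq_some h3
  refine ⟨hd, ?_⟩
  have hd' : ((C a4 * X ^ 4 + (C a3 * X ^ 3 + C a2 * X ^ 2 + C a1 * X + C 0) : ℤ[X]).map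
      (Int.castRingHom ℝ)).natDegree = 4 := by
    rw [natDegree_map_eq_of_injective (RingHom.injective_int _)]
    exact hd
  obtain ⟨c0, c1, c2, c3, c4⟩ := po_co4 ℤ a1 a2 a3 a4
  unfold nz nr
  rw [hd']
  simp only [Finset.sum_range_succ, Finset.sum_range_zero, coeff_map, c0, c1, c2, c3, c4]
  simp

/-- The range statement for cubics from the count in one patch. -/
theorem pencil3_of_patch (h : PatchCount) : Pencil3 := by
  intro ε hε hε1
  obtain ⟨δ, hδ, T0, hT0, hg⟩ := pencil_gen h 3 le_rfl ε hε hε1 3 (by norm_num)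
  refine ⟨δ, hδ, T0, hT0, ?_⟩
  intro T hT R hR1 hR a1 a2 a3 ha3 h1 h2 h3
  obtain ⟨hd, hn⟩ := po_nz3 a1 a2 a3 ha3 R
  obtain ⟨c0, c1, c2, c3, _⟩ := po_co3 ℤ a1 a2 a3
  apply hg T hT R hR1 hR _ hd (by rw [hn]; linarith)
  rintro t ⟨p, q, hq, hq1, hp, he⟩
  refine ⟨p, q, ⟨hq, ?_⟩, hq1, hp⟩
  rw [← he]
  simp only [Finset.sum_range_succ, Finset.sum_range_zero, c0, c1, c2, c3]
  norm_num
  ring

/-- The range statement for quartics from the count in one patch. -/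
theorem pencil4_of_patch (h : PatchCount) : Pencil4 := by
  intro ε hε hε1
  obtain ⟨δ, hδ, T0, hT0, hg⟩ := pencil_gen h 4 (by norm_num) ε hε hε1 4 (by norm_num)
  refine ⟨δ, hδ, T0, hT0, ?_⟩
  intro T hT R hR1 hR a1 a2 a3 a4 ha4 h1 h2 h3 h4
  obtain ⟨hd, hn⟩ := po_nz4 a1 a2 a3 a4 ha4 R
  obtain ⟨c0, c1, c2, c3, c4⟩ := po_co4 ℤ a1 a2 a3 a4
  apply hg T hT R hR1 hR _ hd (by rw [hn]; linarith)
  rintro t ⟨p, q, hq, hq1, hp, he⟩
  refine ⟨p, q, ⟨hq, ?_⟩, hq1, hp⟩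
  rw [← he]
  simp only [Finset.sum_range_succ, Finset.sum_range_zero, c0, c1, c2, c3, c4]
  norm_num
  ring

end Pool.Agent.LibER91
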