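import Pool.Agent.LibER91.Red3Lab
import Pool.Agent.LibER91.PencilDefs

/-!
# The two counts of bases of a given type, exponential version
-/

set_option autoImplicit false

namespace Pool.Agent.LibER91

open LibHall

/-- The general bound. -/
theorem red3_triv (A L N1 N2 : ℝ) (hA : 3000 ≤ A) (hL : L ≤ A) (hN1 : 0 < N1) (hN2 : 0 < N2)
    (hN : N1 * N2 = 6) (S : Finset ((ℤ × ℤ) × (ℤ × ℤ) × (ℤ × ℤ)))
    (hS : ∀ s ∈ S, IsGE A L s.1.1 s.1.2 ∧ IsW A N1 N2 s.1.1 s.1.2 s.2.1 s.2.2) :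
    (S.card : ℝ) ≤ 2 * 10 ^ 17 * (A ^ 4 * Real.log A) := by
  classical
  have hA0 : 0 < A := by linarith
  have hlA : 0 ≤ Real.log A := Real.log_nonneg (by linarith)
  rcases S.eq_empty_or_nonempty with rfl | ⟨s0, hs0⟩
  · simp only [Finset.card_empty, Nat.cast_zero]
    positivity
  have hfacts := fun s (hs : s ∈ S) => red3_W_facts A L N1 N2 (by linarith) hN1 hN2 hN s.1.1 s.1.2
    s.2.1 s.2.2 (hS s hs).1 (hS s hs).2
  obtain ⟨hR0, hR3, -⟩ := hfacts s0 hs0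
  have hmaps : ∀ s ∈ S, (red3Lab N1 N2 s, T3 s.1.1 s.1.2 s.2.2 s.2.2 s.2.2) ∈
      red3Box A N1 N2 ×ˢ Finset.Icc (-⌊6 * A * N2 ^ 3⌋) ⌊6 * A * N2 ^ 3⌋ := by
    intro s hs
    rw [Finset.mem_product]
    exact ⟨red3_mem A L N1 N2 hA hL hN1 hN2 hN s (hS s hs),
      C3b_mem _ _ (hfacts s hs).2.2.2.2.2.2.1⟩
  have hinj : Set.InjOn (fun s : (ℤ × ℤ) × (ℤ × ℤ) × (ℤ × ℤ) =>
      (red3Lab N1 N2 s, T3 s.1.1 s.1.2 s.2.2 s.2.2 s.2.2))
      (S : Set ((ℤ × ℤ) × (ℤ × ℤ) × (ℤ × ℤ))) := by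
    intro s hs s' hs' heq
    simp only [red3Lab, Prod.mk.injEq] at heq
    obtain ⟨⟨e0, e1, e2, ek, ef⟩, e3⟩ := heq
    exact red3_inj A L N1 N2 hA hN1 hN2 hN s s' (hS s hs) (hS s' hs') e0 e1 e2 e3 ek ef
  have hcard := Finset.card_le_card_of_injOn _ hmaps hinj
  rw [Finset.card_product] at hcard
  have hcard' : (S.card : ℝ) ≤ ((red3Box A N1 N2).card : ℝ) *
      ((Finset.Icc (-⌊6 * A * N2 ^ 3⌋) ⌊6 * A * N2 ^ 3⌋).card : ℝ) := by exact_mod_cast hcard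
  have h1 := red3_box_card A N1 N2 hA hN1 hN2 hN hR0 hR3
  have h2 := C3b_card_le (6 * A * N2 ^ 3) hR3
  have h3 : N1 ^ 3 * N2 ^ 3 = 216 := by
    calc N1 ^ 3 * N2 ^ 3 = (N1 * N2) ^ 3 := by ring
      _ = 216 := by rw [hN]; norm_num
  calc (S.card : ℝ) ≤ ((red3Box A N1 N2).card : ℝ) *
      ((Finset.Icc (-⌊6 * A * N2 ^ 3⌋) ⌊6 * A * N2 ^ 3⌋).card : ℝ) := hcard'
    _ ≤ (4 * 10 ^ 13 * (A ^ 3 * N1 ^ 3 * Real.log A)) * (3 * (6 * A * N2 ^ 3)) :=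
        mul_le_mul h1 h2 (Nat.cast_nonneg _) (by positivity)
    _ = 72 * 10 ^ 13 * (N1 ^ 3 * N2 ^ 3) * (A ^ 4 * Real.log A) := by ring
    _ ≤ 2 * 10 ^ 17 * (A ^ 4 * Real.log A) := by
        apply mul_le_mul_of_nonneg_right _ (by positivity)
        rw [h3]
        norm_num

/-- The bound from the range statement for the pencils. -/
theorem red3_main (A L N1 N2 T R ε δ : ℝ) (hA : 3000 ≤ A) (hL : L ≤ A) (hN1 : 0 < N1)
    (hN2 : 0 < N2) (hN : N1 * N2 = 6)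
    (hP : ∀ a1 a2 a3 : ℤ, a3 ≠ 0 → |(a1 : ℝ)| * R ≤ T → |(a2 : ℝ)| * R ^ 2 ≤ T →
      |(a3 : ℝ)| * R ^ 3 ≤ T →
      {d : ℤ | ∃ p q : ℤ, q ≠ 0 ∧ |(q : ℝ)| ≤ Real.exp (T ^ (1 - ε)) ∧ |(p : ℝ)| ≤ R * |(q : ℝ)| ∧
        a3 * p ^ 3 + a2 * p ^ 2 * q + a1 * p * q ^ 2 + d * q ^ 3 = 1}.Finite ∧
      ({d : ℤ | ∃ p q : ℤ, q ≠ 0 ∧ |(q : ℝ)| ≤ Real.exp (T ^ (1 - ε)) ∧
        |(p : ℝ)| ≤ R * |(q : ℝ)| ∧
        a3 * p ^ 3 + a2 * p ^ 2 * q + a1 * p * q ^ 2 + d * q ^ 3 = 1}.ncard : ℝ)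
        ≤ T ^ (1 - δ))
    (hR : 1 ≤ R) (hRΘ : 20 * N2 / N1 ≤ R) (h1 : 108 * A * N2 * R ≤ T)
    (h2 : 108 * A * N1 * R ^ 2 ≤ T) (h3 : 6 * A * N1 ^ 3 * R ^ 3 ≤ T) (hT : 1 ≤ T)
    (hLT : L / 2 ≤ T ^ (1 - ε))
    (S : Finset ((ℤ × ℤ) × (ℤ × ℤ) × (ℤ × ℤ)))
    (hS : ∀ s ∈ S, IsGE A L s.1.1 s.1.2 ∧ IsW A N1 N2 s.1.1 s.1.2 s.2.1 s.2.2) :
    (S.card : ℝ) ≤ 4 * 10 ^ 13 * (A ^ 3 * N1 ^ 3 * Real.log A) * T ^ (1 - δ) := by
  classical
  have hA0 : 0 < A := by linarith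
  have hT0 : 0 < T := by linarith
  have hR0' : 0 < R := by linarith
  have hlA : 0 ≤ Real.log A := Real.log_nonneg (by linarith)
  rcases S.eq_empty_or_nonempty with rfl | ⟨s0, hs0⟩
  · simp only [Finset.card_empty, Nat.cast_zero]
    positivity
  have hfacts := fun s (hs : s ∈ S) => red3_W_facts A L N1 N2 (by linarith) hN1 hN2 hN s.1.1 s.1.2
    s.2.1 s.2.2 (hS s hs).1 (hS s hs).2
  obtain ⟨hR0, hR3, -⟩ := hfacts s0 hs0
  have hfib : ∀ l ∈ S.image (red3Lab N1 N2),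
      (S.filter (fun s => red3Lab N1 N2 s = l)).card ≤ ⌊T ^ (1 - δ)⌋₊ := by
    intro l hl
    rw [Finset.mem_image] at hl
    obtain ⟨t, ht, rfl⟩ := hl
    obtain ⟨-, -, -, k0, k1, k2, -⟩ := hfacts t ht
    have hc0 : T3 t.1.1 t.1.2 t.2.1 t.2.1 t.2.1 ≠ 0 := (hS t ht).2.2.2.2.2.2.2.1
    obtain ⟨hfin, hcard⟩ := hP (3 * T3 t.1.1 t.1.2 t.2.1 t.2.2 t.2.2)
      (3 * T3 t.1.1 t.1.2 t.2.1 t.2.1 t.2.2) (T3 t.1.1 t.1.2 t.2.1 t.2.1 t.2.1) hc0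
      (by
        push_cast
        rw [abs_mul, abs_of_pos (by norm_num : (0 : ℝ) < 3)]
        refine le_trans ?_ h1
        calc 3 * |(T3 t.1.1 t.1.2 t.2.1 t.2.2 t.2.2 : ℝ)| * R ≤ 3 * (36 * A * N2) * R := by
              gcongr
          _ = 108 * A * N2 * R := by ring)
      (by
        push_cast
        rw [abs_mul, abs_of_pos (by norm_num : (0 : ℝ) < 3)]
        refine le_trans ?_ h2
        calc 3 * |(T3 t.1.1 t.1.2 t.2.1 t.2.1 t.2.2 : ℝ)| * R ^ 2 ≤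
              3 * (36 * A * N1) * R ^ 2 := by
              gcongr
          _ = 108 * A * N1 * R ^ 2 := by ring)
      (by
        refine le_trans ?_ h3
        gcongr)
    apply Nat.le_floor
    refine le_trans ?_ hcard
    rw [Nat.cast_le]
    have himg : ((S.filter (fun s => red3Lab N1 N2 s = red3Lab N1 N2 t)).image
        (fun s => T3 s.1.1 s.1.2 s.2.2 s.2.2 s.2.2)).card =
        (S.filter (fun s => red3Lab N1 N2 s = red3Lab N1 N2 t)).card := by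
      apply Finset.card_image_of_injOn
      intro s hs s' hs' e3
      have hs := Finset.mem_filter.1 (Finset.mem_coe.1 hs)
      have hs' := Finset.mem_filter.1 (Finset.mem_coe.1 hs')
      have heq := hs.2.trans hs'.2.symm
      simp only [red3Lab, Prod.mk.injEq] at heq
      obtain ⟨e0, e1, e2, ek, ef⟩ := heq
      exact red3_inj A L N1 N2 hA hN1 hN2 hN s s' (hS s hs.1) (hS s' hs'.1) e0 e1 e2 e3 ek ef
    rw [← himg, ← Set.ncard_coe_finset]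
    apply Set.ncard_le_ncard _ hfin
    intro d hd
    rw [Finset.mem_coe, Finset.mem_image] at hd
    obtain ⟨s, hs, rfl⟩ := hd
    rw [Finset.mem_filter] at hs
    obtain ⟨hs, heq⟩ := hs
    simp only [red3Lab, Prod.mk.injEq] at heq
    obtain ⟨e0, e1, e2, -, -⟩ := heq
    obtain ⟨-, -, hb0, -, -, -, -, hbx, hIsS⟩ := hfacts s hs
    obtain ⟨hCF, -, hab, -⟩ := hIsS
    simp only at hCF hab
    refine ⟨s.2.2.2, -s.2.1.2, neg_ne_zero.2 hb0, ?_, ?_, ?_⟩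
    · rw [Int.cast_neg, abs_neg]
      refine hbx.trans ?_
      have hx0 : (0 : ℝ) < s.1.1 := by exact_mod_cast (hS s hs).1.1
      have hsq : 0 < √(s.1.1 : ℝ) := Real.sqrt_pos.2 hx0
      rw [← Real.log_le_iff_le_exp hsq, Real.log_sqrt hx0.le]
      have h8 := (hS s hs).1.2.2.1
      linarith
    · refine hab.trans ?_
      gcongr
    · rw [← e0, ← e1, ← e2]
      unfold CF at hCF
      linear_combination hCF
  have hmul := Finset.card_le_mul_card_image S _ hfib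
  have hsub : S.image (red3Lab N1 N2) ⊆ red3Box A N1 N2 := by
    intro l hl
    rw [Finset.mem_image] at hl
    obtain ⟨t, ht, rfl⟩ := hl
    exact red3_mem A L N1 N2 hA hL hN1 hN2 hN t (hS t ht)
  have hbox := red3_box_card A N1 N2 hA hN1 hN2 hN hR0 hR3
  have hTp : 0 ≤ T ^ (1 - δ) := by positivity
  have hmul' : (S.card : ℝ) ≤ (⌊T ^ (1 - δ)⌋₊ : ℝ) * ((S.image (red3Lab N1 N2)).card : ℝ) := by
    exact_mod_cast hmul
  have hsub' : ((S.image (red3Lab N1 N2)).card : ℝ) ≤ ((red3Box A N1 N2).card : ℝ) := by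
    exact_mod_cast Finset.card_le_card hsub
  calc (S.card : ℝ) ≤ (⌊T ^ (1 - δ)⌋₊ : ℝ) * ((S.image (red3Lab N1 N2)).card : ℝ) := hmul'
    _ ≤ T ^ (1 - δ) * (4 * 10 ^ 13 * (A ^ 3 * N1 ^ 3 * Real.log A)) :=
        mul_le_mul (Nat.floor_le hTp) (hsub'.trans hbox) (Nat.cast_nonneg _) hTp
    _ = 4 * 10 ^ 13 * (A ^ 3 * N1 ^ 3 * Real.log A) * T ^ (1 - δ) := mul_comm _ _

end Pool.Agent.LibER91
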