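import Mathlib

/-!
# Inequalities for the exponential version
-/

set_option autoImplicit false

namespace Pool.Agent.LibER91

/-- The asymptotic inequality. -/
theorem red3_asymp (η : ℝ) (hη : 0 < η) : ∀ᶠ A : ℝ in Filter.atTop,
    (Real.log A + 9) * (4 * 10 ^ 17) * Real.log A ≤ A ^ η := by
  have hη4 : 0 < η / 4 := by positivity
  have h1 : ∀ᶠ A : ℝ in Filter.atTop, Real.log A ≤ A ^ (η / 4) := by
    have := (isLittleO_log_rpow_atTop hη4).bound (by norm_num : (0 : ℝ) < 1)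
    filter_upwards [this, Filter.eventually_ge_atTop (1 : ℝ)] with A hA h1
    rw [one_mul, Real.norm_of_nonneg (Real.log_nonneg h1),
      Real.norm_of_nonneg (by positivity)] at hA
    exact hA
  have h2 : ∀ᶠ A : ℝ in Filter.atTop, 10 ^ 18 ≤ A ^ (η / 4) :=
    (tendsto_rpow_atTop hη4).eventually_ge_atTop _
  filter_upwards [h1, h2, Filter.eventually_ge_atTop (1 : ℝ)] with A h3 h4 h5
  have hA0 : 0 < A := by linarith
  have hlog : 0 ≤ Real.log A := Real.log_nonneg h5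
  have hV : (A ^ (η / 4)) ^ 4 = A ^ η := by
    rw [← Real.rpow_natCast, ← Real.rpow_mul hA0.le]
    congr 1
    push_cast
    ring
  set V := A ^ (η / 4) with hVdef
  have hV0 : 0 < V := by positivity
  have hV1 : 1 ≤ V := by linarith
  have e1 : Real.log A + 9 ≤ 2 * V := by linarith
  calc (Real.log A + 9) * (4 * 10 ^ 17) * Real.log A ≤ (2 * V) * (4 * 10 ^ 17) * V := by
        gcongr
    _ = (8 * 10 ^ 17) * V ^ 2 := by ring
    _ ≤ V * V ^ 2 := by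
        apply mul_le_mul_of_nonneg_right _ (by positivity)
        linarith
    _ = V ^ 3 := by ring
    _ ≤ V ^ 4 := pow_le_pow_right₀ hV1 (by norm_num)
    _ = A ^ η := hV

/-- The choice of the parameters. -/
theorem red3_par (ε δ η A : ℝ) (hε : 0 < ε) (hε1 : ε < 1) (hδ : 0 < δ) (hη : 0 < η)
    (hηδ : 30 * η ≤ δ) (hA : 3000 ≤ A) :
    1 ≤ A ^ η ∧ A ≤ A * (A ^ η) ^ 13 ∧ (A ^ η) ^ 3 ≤ (A * (A ^ η) ^ 13) ^ δ ∧
    A ^ (1 - ε) / 2 ≤ (A * (A ^ η) ^ 13) ^ (1 - ε) ∧ A ^ (1 - ε) ≤ A ∧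
    (A ^ η) ^ 3 * (A * (A ^ η) ^ 13) ^ (1 - δ) ≤ A := by
  have hA0 : 0 < A := by linarith
  have hA1 : 1 ≤ A := by linarith
  have hU1 : 1 ≤ A ^ η := Real.one_le_rpow hA1 hη.le
  have hT : A * (A ^ η) ^ 13 = A ^ (1 + 13 * η) := by
    rw [← Real.rpow_natCast, ← Real.rpow_mul hA0.le, Real.rpow_add hA0, Real.rpow_one]
    congr 2
    push_cast
    ring
  have hU3 : (A ^ η) ^ 3 = A ^ (3 * η) := by
    rw [← Real.rpow_natCast, ← Real.rpow_mul hA0.le]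
    congr 1
    push_cast
    ring
  have hAT : A ≤ A * (A ^ η) ^ 13 := le_mul_of_one_le_right hA0.le (one_le_pow₀ hU1)
  refine ⟨hU1, hAT, ?_, ?_, ?_, ?_⟩
  · rw [hU3]
    calc A ^ (3 * η) ≤ A ^ δ := Real.rpow_le_rpow_of_exponent_le hA1 (by linarith)
      _ ≤ (A * (A ^ η) ^ 13) ^ δ := Real.rpow_le_rpow hA0.le hAT hδ.le
  · have h1 : A ^ (1 - ε) ≤ (A * (A ^ η) ^ 13) ^ (1 - ε) :=
      Real.rpow_le_rpow hA0.le hAT (by linarith)
    have h2 : 0 < A ^ (1 - ε) := by positivity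
    linarith
  · calc A ^ (1 - ε) ≤ A ^ (1 : ℝ) := Real.rpow_le_rpow_of_exponent_le hA1 (by linarith)
      _ = A := Real.rpow_one A
  · rw [hU3, hT, ← Real.rpow_mul hA0.le, ← Real.rpow_add hA0]
    calc A ^ (3 * η + (1 + 13 * η) * (1 - δ)) ≤ A ^ (1 : ℝ) := by
          apply Real.rpow_le_rpow_of_exponent_le hA1
          have : 0 ≤ η * δ := by positivity
          nlinarith
      _ = A := Real.rpow_one A

/-- The conditions of the range statement. -/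
theorem red3_cond (A U N1 N2 : ℝ) (hA : 0 < A) (hU : 1296 ≤ U) (hN1 : 0 < N1) (hN2 : 0 < N2)
    (h1 : N1 ≤ 6 * U) (h2 : N2 ≤ 6 * U) :
    108 * A * N2 * U ^ 3 ≤ A * U ^ 13 ∧ 108 * A * N1 * (U ^ 3) ^ 2 ≤ A * U ^ 13 ∧
    6 * A * N1 ^ 3 * (U ^ 3) ^ 3 ≤ A * U ^ 13 := by
  have hU0 : 0 < U := by linarith
  have hU1 : 1 ≤ U := by linarith
  refine ⟨?_, ?_, ?_⟩
  · calc 108 * A * N2 * U ^ 3 ≤ 108 * A * (6 * U) * U ^ 3 := by gcongr
      _ = A * U ^ 4 * 648 := by ring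
      _ ≤ A * U ^ 4 * U := by
          apply mul_le_mul_of_nonneg_left _ (by positivity)
          linarith
      _ = A * U ^ 5 := by ring
      _ ≤ A * U ^ 13 := by
          apply mul_le_mul_of_nonneg_left _ hA.le
          exact pow_le_pow_right₀ hU1 (by norm_num)
  · calc 108 * A * N1 * (U ^ 3) ^ 2 ≤ 108 * A * (6 * U) * (U ^ 3) ^ 2 := by gcongr
      _ = A * U ^ 7 * 648 := by ring
      _ ≤ A * U ^ 7 * U := by
          apply mul_le_mul_of_nonneg_left _ (by positivity)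
          linarith
      _ = A * U ^ 8 := by ring
      _ ≤ A * U ^ 13 := by
          apply mul_le_mul_of_nonneg_left _ hA.le
          exact pow_le_pow_right₀ hU1 (by norm_num)
  · calc 6 * A * N1 ^ 3 * (U ^ 3) ^ 3 ≤ 6 * A * (6 * U) ^ 3 * (U ^ 3) ^ 3 := by gcongr
      _ = A * U ^ 12 * 1296 := by ring
      _ ≤ A * U ^ 12 * U := mul_le_mul_of_nonneg_left hU (by positivity)
      _ = A * U ^ 13 := by ring

/-- The final bound in the main case. -/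
theorem red3_fin (A U N N1 X l : ℝ) (hA : 0 < A) (hU : 0 < U) (hl : 0 ≤ l)
    (hN : N ^ 2 * N1 ^ 3 ≤ 216 * U) (hX0 : 0 ≤ X) (hX : U ^ 3 * X ≤ A) :
    N ^ 2 * (4 * 10 ^ 13 * (A ^ 3 * N1 ^ 3 * l) * X) ≤ 2 * 10 ^ 17 * (A ^ 4 * l) / U ^ 2 := by
  rw [le_div_iff₀ (by positivity)]
  calc N ^ 2 * (4 * 10 ^ 13 * (A ^ 3 * N1 ^ 3 * l) * X) * U ^ 2
      = (N ^ 2 * N1 ^ 3) * (4 * 10 ^ 13 * (A ^ 3 * l * X * U ^ 2)) := by ring
    _ ≤ (216 * U) * (4 * 10 ^ 13 * (A ^ 3 * l * X * U ^ 2)) :=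
        mul_le_mul_of_nonneg_right hN (by positivity)
    _ = 864 * 10 ^ 13 * (A ^ 3 * l) * (U ^ 3 * X) := by ring
    _ ≤ 864 * 10 ^ 13 * (A ^ 3 * l) * A := mul_le_mul_of_nonneg_left hX (by positivity)
    _ = 864 * 10 ^ 13 * (A ^ 4 * l) := by ring
    _ ≤ 2 * 10 ^ 17 * (A ^ 4 * l) := by
        apply mul_le_mul_of_nonneg_right _ (by positivity)
        norm_num

/-- The final bound in the other case. -/
theorem red3_fin' (A U N l : ℝ) (hA : 0 < A) (hU : 0 < U) (hl : 0 ≤ l) (hN0 : 0 < N)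
    (hN : N * U ≤ 1) :
    N ^ 2 * (2 * 10 ^ 17 * (A ^ 4 * l)) ≤ 2 * 10 ^ 17 * (A ^ 4 * l) / U ^ 2 := by
  rw [le_div_iff₀ (by positivity)]
  calc N ^ 2 * (2 * 10 ^ 17 * (A ^ 4 * l)) * U ^ 2
      = (N * U) ^ 2 * (2 * 10 ^ 17 * (A ^ 4 * l)) := by ring
    _ ≤ 1 ^ 2 * (2 * 10 ^ 17 * (A ^ 4 * l)) := by
        apply mul_le_mul_of_nonneg_right _ (by positivity)
        exact pow_le_pow_left₀ (by positivity) hN 2
    _ = 2 * 10 ^ 17 * (A ^ 4 * l) := by ring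

end Pool.Agent.LibER91
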