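import Pool.Agent.LibHall43.D2
import Pool.Agent.LibHall43.D3
import Pool.Agent.LibHall43.D3a
import Pool.Agent.LibHall43.D1a
import Pool.Agent.LibHall43.D1b
import Pool.Agent.LibER91.Red3Count
import Pool.Agent.LibER91.Red3Num

/-!
# The number of irreducible pairs in the main range, exponential version
-/

set_option autoImplicit false

namespace Pool.Agent.LibER91

open LibHall

/-- The bound for the bases of one type. -/
theorem red3_type (ε δ η T0 A : ℝ) (hε : 0 < ε) (hε1 : ε < 1) (hδ : 0 < δ) (hη : 0 < η)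
    (hηδ : 30 * η ≤ δ) (hA : 3000 ≤ A) (hAT : T0 ≤ A) (hU : 1296 ≤ A ^ η)
    (hP : ∀ T : ℝ, T0 ≤ T → ∀ R : ℝ, 1 ≤ R →
      R ≤ T ^ δ → ∀ a1 a2 a3 : ℤ, a3 ≠ 0 → |(a1 : ℝ)| * R ≤ T → |(a2 : ℝ)| * R ^ 2 ≤ T →
      |(a3 : ℝ)| * R ^ 3 ≤ T →
      {d : ℤ | ∃ p q : ℤ, q ≠ 0 ∧ |(q : ℝ)| ≤ Real.exp (T ^ (1 - ε)) ∧ |(p : ℝ)| ≤ R * |(q : ℝ)| ∧
        a3 * p ^ 3 + a2 * p ^ 2 * q + a1 * p * q ^ 2 + d * q ^ 3 = 1}.Finite ∧
      ({d : ℤ | ∃ p q : ℤ, q ≠ 0 ∧ |(q : ℝ)| ≤ Real.exp (T ^ (1 - ε)) ∧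
        |(p : ℝ)| ≤ R * |(q : ℝ)| ∧
        a3 * p ^ 3 + a2 * p ^ 2 * q + a1 * p * q ^ 2 + d * q ^ 3 = 1}.ncard : ℝ)
        ≤ T ^ (1 - δ))
    (N N1 N2 : ℝ) (hN : 0 < N) (hN2 : N ≤ 2)
    (hc : (N1 = N ∧ N2 = 6 / N) ∨ (N1 = 6 / N ∧ N2 = N)) :
    ∃ B : ℝ, N ^ 2 * B ≤ 2 * 10 ^ 17 * (A ^ 4 * Real.log A) / (A ^ η) ^ 2 ∧
      ∀ S : Finset ((ℤ × ℤ) × (ℤ × ℤ) × (ℤ × ℤ)),
      (∀ s ∈ S, IsGE A (A ^ (1 - ε)) s.1.1 s.1.2 ∧ IsW A N1 N2 s.1.1 s.1.2 s.2.1 s.2.2) →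
      (S.card : ℝ) ≤ B := by
  have hA0 : 0 < A := by linarith
  have hlA : 0 ≤ Real.log A := Real.log_nonneg (by linarith)
  obtain ⟨hU1, hT1, hR, hLT, hL, hX⟩ := red3_par ε δ η A hε hε1 hδ hη hηδ hA
  set U := A ^ η with hUdef
  have hU0 : 0 < U := by linarith
  have h6N : 0 < 6 / N := by positivity
  have hN10 : 0 < N1 := by rcases hc with ⟨h, -⟩ | ⟨h, -⟩ <;> rw [h] <;> assumption
  have hN20 : 0 < N2 := by rcases hc with ⟨-, h⟩ | ⟨-, h⟩ <;> rw [h] <;> assumption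
  have hNN : N1 * N2 = 6 := by
    rcases hc with ⟨h1, h2⟩ | ⟨h1, h2⟩
    · rw [h1, h2]; field_simp
    · rw [h1, h2]; field_simp
  rcases le_or_gt 1 (N * U) with hcase | hcase
  · -- the main case
    have h1N : 1 / N ≤ U := by
      rw [div_le_iff₀ hN]
      linarith
    have h6N' : 6 / N ≤ 6 * U := by
      calc 6 / N = 6 * (1 / N) := by ring
        _ ≤ 6 * U := by linarith
    have hb1 : N1 ≤ 6 * U := by
      rcases hc with ⟨h1, h2⟩ | ⟨h1, h2⟩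
      · rw [h1]; linarith
      · rw [h1]; exact h6N'
    have hb2 : N2 ≤ 6 * U := by
      rcases hc with ⟨h1, h2⟩ | ⟨h1, h2⟩
      · rw [h2]; exact h6N'
      · rw [h2]; linarith
    have hΘ : 20 * N2 / N1 ≤ U ^ 3 := by
      rcases hc with ⟨h1, h2⟩ | ⟨h1, h2⟩
      · rw [h1, h2]
        calc 20 * (6 / N) / N = 120 * (1 / N) ^ 2 := by ring
          _ ≤ 120 * U ^ 2 := by
            apply mul_le_mul_of_nonneg_left _ (by norm_num)
            exact pow_le_pow_left₀ (by positivity) h1N 2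
          _ ≤ U * U ^ 2 := by
            apply mul_le_mul_of_nonneg_right _ (by positivity)
            linarith
          _ = U ^ 3 := by ring
      · rw [h1, h2]
        calc 20 * N / (6 / N) = 10 / 3 * N ^ 2 := by
              field_simp
              ring
          _ ≤ 10 / 3 * 2 ^ 2 := by
            apply mul_le_mul_of_nonneg_left _ (by norm_num)
            exact pow_le_pow_left₀ hN.le hN2 2
          _ ≤ 1296 := by norm_num
          _ ≤ U := hU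
          _ = U ^ 1 := (pow_one U).symm
          _ ≤ U ^ 3 := pow_le_pow_right₀ hU1 (by norm_num)
    have hNN' : N ^ 2 * N1 ^ 3 ≤ 216 * U := by
      rcases hc with ⟨h1, h2⟩ | ⟨h1, h2⟩
      · rw [h1]
        calc N ^ 2 * N ^ 3 = N ^ 5 := by ring
          _ ≤ 2 ^ 5 := pow_le_pow_left₀ hN.le hN2 5
          _ ≤ 216 * U := by linarith
      · rw [h1]
        calc N ^ 2 * (6 / N) ^ 3 = 216 * (1 / N) := by
              field_simp
              ring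
          _ ≤ 216 * U := by linarith
    obtain ⟨c1, c2, c3⟩ := red3_cond A U N1 N2 hA0 hU hN10 hN20 hb1 hb2
    refine ⟨4 * 10 ^ 13 * (A ^ 3 * N1 ^ 3 * Real.log A) * (A * U ^ 13) ^ (1 - δ), ?_, ?_⟩
    · exact red3_fin A U N N1 _ _ hA0 hU0 hlA hNN' (by positivity) hX
    · intro S hS
      exact red3_main A (A ^ (1 - ε)) N1 N2 (A * U ^ 13) (U ^ 3) ε δ hA hL hN10 hN20 hNN
        (hP (A * U ^ 13) (hAT.trans hT1) (U ^ 3) (one_le_pow₀ hU1) hR) (one_le_pow₀ hU1) hΘ c1 c2 c3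
        (by linarith) hLT S hS
  · refine ⟨2 * 10 ^ 17 * (A ^ 4 * Real.log A), red3_fin' A U N _ hA0 hU0 hlA hN hcase.le, ?_⟩
    intro S hS
    exact red3_triv A (A ^ (1 - ε)) N1 N2 hA hL hN10 hN20 hNN S hS

/-- The number of irreducible pairs in the main range, exponential version. -/
theorem red3_good (hP3 : Pencil3) (ε : ℝ) (hε : 0 < ε) (hε1 : ε < 1) :
    ∃ η : ℝ, 0 < η ∧ η ≤ 1 / 100 ∧ ∃ A0 : ℝ, 1 < A0 ∧ ∀ A : ℝ, A0 ≤ A →
    ∀ G : Finset (ℤ × ℤ),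
    (∀ p ∈ G, IsGE A (A ^ (1 - ε)) p.1 p.2 ∧ ∀ r : ℤ, r ^ 3 - 3 * p.1 * r + 2 * p.2 ≠ 0) →
    (G.card : ℝ) ≤ A ^ (4 - η) := by
  classical
  obtain ⟨δ, hδ, T0, hT0, hP⟩ := hP3 ε hε hε1
  set η : ℝ := min (1 / 100) (δ / 30) with hη
  have hη0 : 0 < η := lt_min (by norm_num) (by positivity)
  have hηδ : 30 * η ≤ δ := by
    have := min_le_right (1 / 100 : ℝ) (δ / 30)
    rw [← hη] at this
    linarith
  refine ⟨η, hη0, min_le_left _ _, ?_⟩
  obtain ⟨A1, hA1⟩ := Filter.eventually_atTop.1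
    ((tendsto_rpow_atTop hη0).eventually_ge_atTop (1296 : ℝ))
  obtain ⟨A3, hA3⟩ := Filter.eventually_atTop.1 (red3_asymp η hη0)
  refine ⟨max T0 (max A1 (max A3 3000)), lt_of_lt_of_le hT0 (le_max_left _ _), ?_⟩
  intro A hA G hG
  have hAT0 : T0 ≤ A := le_trans (le_max_left _ _) hA
  have hAA1 : A1 ≤ A := le_trans (le_trans (le_max_left _ _) (le_max_right _ _)) hA
  have hAA3 : A3 ≤ A :=
    le_trans (le_trans (le_trans (le_max_left _ _) (le_max_right _ _)) (le_max_right _ _)) hA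
  have hA3000 : 3000 ≤ A :=
    le_trans (le_trans (le_trans (le_max_right _ _) (le_max_right _ _)) (le_max_right _ _)) hA
  have hA1' : (1 : ℝ) ≤ A := by linarith
  have hA0 : (0 : ℝ) < A := by linarith
  have hU := hA1 A hAA1
  have hlog : 0 ≤ Real.log A := Real.log_nonneg hA1'
  have hU0 : 0 < A ^ η := by positivity
  -- the basis
  have hGC : ∀ p ∈ G, ∃ C : ℕ, IsG A C p.1 p.2 := fun p hp =>
    red3_isG (by linarith) (hG p hp).1
  have hxge : ∀ p ∈ G, A ^ 2 ≤ (p.1 : ℝ) := by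
    intro p hp
    obtain ⟨C, hC⟩ := hGC p hp
    exact D3_x_ge hA1' hC
  have hbasis : ∀ p : ℤ × ℤ, p ∈ G → ∃ v1 v2 : ℤ × ℤ, v1.1 * v2.2 - v2.1 * v1.2 = 1 ∧
      0 < Qn A p.1 v1 ∧ Qn A p.1 v1 ≤ 2 ∧ Qn A p.1 v1 * Qn A p.1 v2 ≤ 2 := by
    intro p hp
    exact exists_basis A hA1' p.1 (hxge p hp)
  choose! v1 v2 hv using hbasis
  have hidx : ∀ p : ℤ × ℤ, p ∈ G → ∃ i : ℕ, (2 / 2 ^ i : ℝ) ^ 2 / 4 < Qn A p.1 (v1 p) ∧
      Qn A p.1 (v1 p) ≤ (2 / 2 ^ i : ℝ) ^ 2 := by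
    intro p hp
    exact D3_index _ (hv p hp).2.1 (hv p hp).2.2.1
  choose! idx hidx using hidx
  have hirr : ∀ p ∈ G, ∀ v : ℤ × ℤ, v ≠ 0 → T3 p.1 p.2 v v v ≠ 0 := by
    intro p hp v hv0
    exact T3_ne_zero p.1 p.2 (hG p hp).2 v hv0
  have hv1ne : ∀ p ∈ G, v1 p ≠ 0 := by
    intro p hp h0
    have := (hv p hp).1
    rw [h0] at this
    simp at this
  set I : ℕ := ⌊Real.log A + 8⌋₊ with hI
  have hidxle : ∀ p ∈ G, idx p ∈ Finset.range (I + 1) := by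
    intro p hp
    rw [Finset.mem_range, Nat.lt_succ_iff, hI]
    apply Nat.le_floor
    have h1 := (hidx p hp).2
    obtain ⟨C, hC⟩ := hGC p hp
    have h2 := D3_Q_ge hA1' hC (v1 p) (hv p hp).2.1 (hirr p hp _ (hv1ne p hp))
    have h3 : 1 ≤ 6 * A * Qn A p.1 (v1 p) := by
      rcases h2 with h2 | h2
      · exact h2
      · nlinarith
    have e : ((2 : ℝ) / 2 ^ (idx p)) ^ 2 = 4 / 4 ^ (idx p) := by
      rw [div_pow, ← pow_mul, mul_comm, pow_mul]; norm_num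
    rw [e] at h1
    have h4 : (0 : ℝ) < 4 ^ (idx p) := by positivity
    have h5 : (4 : ℝ) ^ (idx p) ≤ 24 * A := by
      have h6 : 1 ≤ 6 * A * (4 / 4 ^ (idx p)) := by
        apply le_trans h3
        apply mul_le_mul_of_nonneg_left h1
        positivity
      rw [← mul_div_assoc, le_div_iff₀ h4] at h6
      linarith
    have h7 : Real.log ((4 : ℝ) ^ (idx p)) ≤ Real.log (24 * A) := Real.log_le_log h4 h5
    rw [Real.log_pow, Real.log_mul (by norm_num) hA0.ne'] at h7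
    have h8 : (1 : ℝ) ≤ Real.log 4 := by
      have : Real.log 4 = 2 * Real.log 2 := by
        rw [show (4 : ℝ) = 2 ^ 2 by norm_num, Real.log_pow]; norm_num
      have h9 := Real.log_two_gt_d9
      linarith
    have h10 : Real.log 24 ≤ 8 := by
      have h11 : Real.log 24 ≤ Real.log 32 := Real.log_le_log (by norm_num) (by norm_num)
      have h12 : Real.log 32 = 5 * Real.log 2 := by
        rw [show (32 : ℝ) = 2 ^ 5 by norm_num, Real.log_pow]; norm_num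
      have h13 := Real.log_two_lt_d9
      linarith
    have h14 : ((idx p : ℕ) : ℝ) ≤ (idx p : ℝ) * Real.log 4 := by
      have : (0 : ℝ) ≤ (idx p : ℝ) := Nat.cast_nonneg _
      nlinarith
    linarith
  -- the two cases
  set PA : ℤ × ℤ → Prop := fun p =>
    Qn A p.1 (v1 p) ≤ 100 * (((v1 p).2 : ℝ) * A / √(p.1 : ℝ)) ^ 2 with hPA
  have hN : ∀ i : ℕ, (0 : ℝ) < 2 / 2 ^ i := by
    intro i
    positivity
  have hN2 : ∀ i : ℕ, (2 / 2 ^ i : ℝ) ≤ 2 := by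
    intro i
    rw [div_le_iff₀ (by positivity)]
    have : (1 : ℝ) ≤ 2 ^ i := one_le_pow₀ (by norm_num)
    linarith
  have hfamA : ∀ i : ℕ, ∀ p ∈ (G.filter (fun p => idx p = i)).filter PA, ∀ n : ℕ,
      (n : ℝ) * (2 / 2 ^ i : ℝ) ^ 2 ≤ 1 →
      IsW A (2 / 2 ^ i : ℝ) (6 / (2 / 2 ^ i : ℝ)) p.1 p.2 (v1 p) (v2 p + (n : ℤ) • v1 p) := by
    intro i p hp n hn
    have hs1' := Finset.mem_filter.1 hp
    have hs1'' := Finset.mem_filter.1 hs1'.1
    have hpG := hs1''.1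
    have hb := hidx _ hpG
    rw [hs1''.2] at hb
    exact family_A A (2 / 2 ^ i) hA1' (hN i) (hN2 i) p.1 p.2 (hxge _ hpG)
      (hirr _ hpG) (v1 p) (v2 p) (hv _ hpG).1 hb.1 hb.2 (hv _ hpG).2.2.1
      (hv _ hpG).2.2.2 hs1'.2 n hn
  have hfamB : ∀ i : ℕ, ∀ p ∈ (G.filter (fun p => idx p = i)).filter (fun p => ¬ PA p), ∀ n : ℕ,
      (n : ℝ) * (2 / 2 ^ i : ℝ) ^ 2 ≤ 1 →
      IsW A (6 / (2 / 2 ^ i : ℝ)) (2 / 2 ^ i : ℝ) p.1 p.2 (v2 p + (n : ℤ) • v1 p) (-(v1 p)) := by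
    intro i p hp n hn
    have hs1' := Finset.mem_filter.1 hp
    have hs1'' := Finset.mem_filter.1 hs1'.1
    have hpG := hs1''.1
    have hb := hidx _ hpG
    rw [hs1''.2] at hb
    have hnot := hs1'.2
    rw [hPA] at hnot
    simp only [not_le] at hnot
    exact family_B A (2 / 2 ^ i) hA1' (hN i) (hN2 i) p.1 p.2 (hxge _ hpG)
      (hirr _ hpG) (v1 p) (v2 p) (hv _ hpG).1 hb.1 hb.2 (hv _ hpG).2.2.1
      (hv _ hpG).2.2.2 hnot n hn
  have hTA : ∀ i : ℕ, (((G.filter (fun p => idx p = i)).filter PA).card : ℝ)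
      ≤ 2 * 10 ^ 17 * (A ^ 4 * Real.log A) / (A ^ η) ^ 2 := by
    intro i
    obtain ⟨B, hB1, hB2⟩ := red3_type ε δ η T0 A hε hε1 hδ hη0 hηδ hA3000 hAT0 hU hP
      (2 / 2 ^ i : ℝ) (2 / 2 ^ i : ℝ) (6 / (2 / 2 ^ i : ℝ)) (hN i) (hN2 i) (Or.inl ⟨rfl, rfl⟩)
    refine le_trans ?_ hB1
    refine mult_count ((G.filter (fun p => idx p = i)).filter PA) (2 / 2 ^ i : ℝ) B (hN i)
      (fun p n => (v1 p, v2 p + (n : ℤ) • v1 p)) ?_ ?_
    · intro p hp n n' h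
      have hpG : p ∈ G := (Finset.mem_filter.1 (Finset.mem_filter.1 hp).1).1
      have h2 := congrArg Prod.snd h
      exact D3_smul_inj (v1 p) (v2 p) (hv1ne p hpG) n n' h2
    · intro S hS
      apply hB2 S
      intro s hs
      obtain ⟨hs1, n, hn, hs2⟩ := hS s hs
      have hpG := (Finset.mem_filter.1 (Finset.mem_filter.1 hs1).1).1
      refine ⟨(hG _ hpG).1, ?_⟩
      rw [hs2]
      exact hfamA i s.1 hs1 n hn
  have hTB : ∀ i : ℕ, (((G.filter (fun p => idx p = i)).filter (fun p => ¬ PA p)).card : ℝ)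
      ≤ 2 * 10 ^ 17 * (A ^ 4 * Real.log A) / (A ^ η) ^ 2 := by
    intro i
    obtain ⟨B, hB1, hB2⟩ := red3_type ε δ η T0 A hε hε1 hδ hη0 hηδ hA3000 hAT0 hU hP
      (2 / 2 ^ i : ℝ) (6 / (2 / 2 ^ i : ℝ)) (2 / 2 ^ i : ℝ) (hN i) (hN2 i) (Or.inr ⟨rfl, rfl⟩)
    refine le_trans ?_ hB1
    refine mult_count ((G.filter (fun p => idx p = i)).filter (fun p => ¬ PA p))
      (2 / 2 ^ i : ℝ) B (hN i) (fun p n => (v2 p + (n : ℤ) • v1 p, -(v1 p))) ?_ ?_
    · intro p hp n n' h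
      have hpG : p ∈ G := (Finset.mem_filter.1 (Finset.mem_filter.1 hp).1).1
      have h2 := congrArg Prod.fst h
      exact D3_smul_inj (v1 p) (v2 p) (hv1ne p hpG) n n' h2
    · intro S hS
      apply hB2 S
      intro s hs
      obtain ⟨hs1, n, hn, hs2⟩ := hS s hs
      have hpG := (Finset.mem_filter.1 (Finset.mem_filter.1 hs1).1).1
      refine ⟨(hG _ hpG).1, ?_⟩
      rw [hs2]
      exact hfamB i s.1 hs1 n hn
  -- summation
  have hsum : G.card = ∑ i ∈ Finset.range (I + 1), (G.filter (fun p => idx p = i)).card :=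
    Finset.card_eq_sum_card_fiberwise (f := idx) (t := Finset.range (I + 1))
      (by intro p hp; exact hidxle p hp)
  have hcast : (G.card : ℝ) = ∑ i ∈ Finset.range (I + 1),
      ((G.filter (fun p => idx p = i)).card : ℝ) := by
    rw [hsum]; push_cast; rfl
  have hI' : (I : ℝ) ≤ Real.log A + 8 := by
    rw [hI]
    apply Nat.floor_le
    linarith
  have hfin := hA3 A hAA3
  have h4η : A ^ (4 - η) = A ^ 4 / A ^ η := by
    rw [Real.rpow_sub hA0]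
    congr 1
    exact_mod_cast Real.rpow_natCast A 4
  calc (G.card : ℝ) = ∑ i ∈ Finset.range (I + 1),
        ((G.filter (fun p => idx p = i)).card : ℝ) := hcast
    _ ≤ ∑ _i ∈ Finset.range (I + 1),
        (2 * (2 * 10 ^ 17 * (A ^ 4 * Real.log A) / (A ^ η) ^ 2)) := by
      apply Finset.sum_le_sum
      intro i _
      have h1 : (G.filter (fun p => idx p = i)).card
          = ((G.filter (fun p => idx p = i)).filter PA).card
            + ((G.filter (fun p => idx p = i)).filter (fun p => ¬ PA p)).card :=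
        (Finset.card_filter_add_card_filter_not _).symm
      rw [h1]
      push_cast
      have h2 := hTA i
      have h3 := hTB i
      linarith
    _ = ((I : ℝ) + 1) * (2 * (2 * 10 ^ 17 * (A ^ 4 * Real.log A) / (A ^ η) ^ 2)) := by
      rw [Finset.sum_const, Finset.card_range, nsmul_eq_mul]; push_cast; ring
    _ ≤ (Real.log A + 9) * (2 * (2 * 10 ^ 17 * (A ^ 4 * Real.log A) / (A ^ η) ^ 2)) := by
      apply mul_le_mul_of_nonneg_right _ (by positivity)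
      linarith
    _ = ((Real.log A + 9) * (4 * 10 ^ 17) * Real.log A) * (A ^ 4 / (A ^ η) ^ 2) := by ring
    _ ≤ A ^ η * (A ^ 4 / (A ^ η) ^ 2) := by
      apply mul_le_mul_of_nonneg_right hfin (by positivity)
    _ = A ^ (4 - η) := by
      rw [h4η]
      field_simp

end Pool.Agent.LibER91
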