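import Pool.Agent.LibER91.PA
import Pool.Agent.LibER91.PencilOf
import Pool.Agent.LibER91.Red3Final

set_option autoImplicit false

namespace Pool.Agent.LibER91

theorem pencil3 : Pencil3 := pencil3_of_patch patch_count

end Pool.Agent.LibER91
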