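import Pool.Agent.LibER91.Red4Dyadic
import Pool.Agent.LibHLP.FinalU

set_option autoImplicit false

open Filter

namespace Pool.Agent.LibER91

open Pool.Agent.LibHLP

/-- The number of dyadic ranges. -/
theorem dyadic_numberR (κ : ℝ) (hκ : 0 < κ) : ∃ c0 : ℝ, 0 ≤ c0 ∧ ∀ H : ℝ, 1 ≤ H → ∃ n : ℕ,
    (n : ℝ) ≤ c0 * H ^ κ ∧
    ∀ (lam : ℝ) (a b c d e : ℤ), 0 < lam → lam ≤ 1 → Bounds 5152 H lam a b c d e →
      ∃ i < n, (1 / 2 : ℝ) ^ i / 2 < lam ∧ lam ≤ (1 / 2 : ℝ) ^ i := by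
  obtain ⟨c0, hc0⟩ : ∃ c0 : ℝ, c0 = Real.log 5152 / Real.log 2 + 1 + κ⁻¹ / Real.log 2 :=
    ⟨_, rfl⟩
  have hl2 : 0 < Real.log 2 := Real.log_pos (by norm_num)
  have hl5 : 0 < Real.log 5152 := Real.log_pos (by norm_num)
  have hc00 : 0 ≤ c0 := by rw [hc0]; positivity
  refine ⟨c0, hc00, ?_⟩
  intro H hH1
  have hHpos : 0 < H := by linarith
  obtain ⟨n, hn⟩ : ∃ n : ℕ, n = ⌊Real.log (5152 * H) / Real.log 2⌋₊ + 1 := ⟨_, rfl⟩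
  have hlog0 : 0 ≤ Real.log (5152 * H) / Real.log 2 := by
    apply div_nonneg _ hl2.le
    exact Real.log_nonneg (by linarith)
  refine ⟨n, ?_, ?_⟩
  · have h1 : (n : ℝ) ≤ Real.log (5152 * H) / Real.log 2 + 1 := by
      rw [hn]; push_cast
      have := Nat.floor_le hlog0
      linarith
    have h2 : Real.log (5152 * H) = Real.log 5152 + Real.log H :=
      Real.log_mul (by norm_num) hHpos.ne'
    have h3 : Real.log H ≤ κ⁻¹ * H ^ κ := by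
      have := Real.log_le_rpow_div hHpos.le hκ
      calc Real.log H ≤ H ^ κ / κ := this
        _ = κ⁻¹ * H ^ κ := by rw [div_eq_inv_mul]
    have h4 : (1 : ℝ) ≤ H ^ κ := Real.one_le_rpow hH1 hκ.le
    have h5 : Real.log (5152 * H) / Real.log 2 ≤
        Real.log 5152 / Real.log 2 * H ^ κ + κ⁻¹ / Real.log 2 * H ^ κ := by
      rw [h2, add_div]
      apply add_le_add
      · exact le_mul_of_one_le_right (by positivity) h4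
      · rw [div_mul_eq_mul_div]
        exact div_le_div_of_nonneg_right h3 hl2.le
    rw [hc0]
    nlinarith
  · intro lam a b c d e h0 h1 hg
    have h2 := lam_inv_le hH1 h0 h1 hg
    have h3 : 1 ≤ 1 / lam := by rw [le_div_iff₀ h0]; linarith
    obtain ⟨i, hi1, hi2⟩ := exists_nat_pow_near h3 (show (1 : ℝ) < 2 by norm_num)
    refine ⟨i, ?_, ?_, ?_⟩
    · rw [hn, Nat.lt_add_one_iff]
      apply Nat.le_floor
      rw [le_div_iff₀ hl2, ← Real.log_pow]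
      apply Real.log_le_log (by positivity)
      exact hi1.trans h2
    · rw [div_lt_iff₀ h0] at hi2
      rw [one_div, inv_pow, div_lt_iff₀ (by norm_num : (0 : ℝ) < 2), inv_lt_iff_one_lt_mul₀
        (by positivity)]
      calc (1 : ℝ) < 2 ^ (i + 1) * lam := hi2
        _ = lam * 2 * 2 ^ i := by ring
    · rw [le_div_iff₀ h0] at hi1
      rw [one_div, inv_pow]
      rw [le_inv_comm₀ h0 (by positivity), ← one_div, le_div_iff₀ h0]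
      linarith

/-- The reduction for one exponent `ε < 1`. -/
theorem red4_aux (ε δ T0 κ : ℝ) (hε1 : ε < 1)
    (hpen : ∀ T : ℝ, T0 ≤ T → ∀ R : ℝ, 1 ≤ R → R ≤ T ^ δ → ∀ a1 a2 a3 a4 : ℤ, a4 ≠ 0 →
      |(a1 : ℝ)| * R ≤ T → |(a2 : ℝ)| * R ^ 2 ≤ T → |(a3 : ℝ)| * R ^ 3 ≤ T →
      |(a4 : ℝ)| * R ^ 4 ≤ T →
      (pencilSet a1 a2 a3 a4 R (Real.exp (T ^ (1 - ε)))).Finite ∧
      ((pencilSet a1 a2 a3 a4 R (Real.exp (T ^ (1 - ε)))).ncard : ℝ) ≤ T ^ (1 - δ))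
    (hδ1 : δ ≤ 1) (hκ : 0 < κ) (hκδ : 6 * κ ≤ δ) (hκ1 : κ ≤ 1 / 100) :
    ∃ K : ℝ, ∀ H : ℝ, 1 ≤ H →
    {p : ℤ × ℤ | |(p.1 : ℝ)| ≤ H ^ 2 ∧ |(p.2 : ℝ)| ≤ H ^ 3 ∧ 4 * p.1 ^ 3 + 27 * p.2 ^ 2 ≠ 0 ∧
      ∃ x y : ℤ, y ^ 2 = x ^ 3 + p.1 * x + p.2 ∧
        |(x : ℝ)| ≤ Real.exp (H ^ (1 - ε))}.Finite ∧
    ({p : ℤ × ℤ | |(p.1 : ℝ)| ≤ H ^ 2 ∧ |(p.2 : ℝ)| ≤ H ^ 3 ∧ 4 * p.1 ^ 3 + 27 * p.2 ^ 2 ≠ 0 ∧
      ∃ x y : ℤ, y ^ 2 = x ^ 3 + p.1 * x + p.2 ∧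
        |(x : ℝ)| ≤ Real.exp (H ^ (1 - ε))}.ncard : ℝ)
        ≤ K * H ^ (5 - κ / 2) := by
  obtain ⟨H0, K1, hH0, hK1, hdy⟩ := dyadic_countR ε δ T0 κ hε1 hpen hδ1 hκ hκδ
  obtain ⟨K2, hK2, hsmall⟩ := small_count
  obtain ⟨K3, hK3, hmult⟩ := mult_countU
  obtain ⟨c0, hc0, hnum⟩ := dyadic_numberR (κ / 2) (by linarith)
  refine ⟨c0 * (K1 + K3) + K2 + 9 * H0, fun H hH => ?_⟩
  have hHpos : 0 < H := by linarith
  have hp0 : 0 < H ^ (5 - κ / 2) := Real.rpow_pos_of_pos hHpos _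
  -- the trivial bound
  have hbox : {p : ℤ × ℤ | |(p.1 : ℝ)| ≤ H ^ 2 ∧ |(p.2 : ℝ)| ≤ H ^ 3 ∧
      4 * p.1 ^ 3 + 27 * p.2 ^ 2 ≠ 0 ∧
      ∃ x y : ℤ, y ^ 2 = x ^ 3 + p.1 * x + p.2 ∧
        |(x : ℝ)| ≤ Real.exp (H ^ (1 - ε))} ⊆
      ((ball (H ^ 2) ×ˢ ball (H ^ 3) : Finset (ℤ × ℤ)) : Set (ℤ × ℤ)) := by
    rintro p ⟨h1, h2, _⟩
    rw [Finset.mem_coe, Finset.mem_product, mem_ball, mem_ball]
    exact ⟨h1, h2⟩
  have hfin := (Finset.finite_toSet _).subset hbox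
  refine ⟨hfin, ?_⟩
  rcases lt_or_ge H H0 with hlt | hge
  · have h1 : ({p : ℤ × ℤ | |(p.1 : ℝ)| ≤ H ^ 2 ∧ |(p.2 : ℝ)| ≤ H ^ 3 ∧
        4 * p.1 ^ 3 + 27 * p.2 ^ 2 ≠ 0 ∧
        ∃ x y : ℤ, y ^ 2 = x ^ 3 + p.1 * x + p.2 ∧
          |(x : ℝ)| ≤ Real.exp (H ^ (1 - ε))}.ncard : ℝ) ≤
        ((ball (H ^ 2)).card : ℝ) * ((ball (H ^ 3)).card : ℝ) := by
      have h2 := Set.ncard_le_ncard hbox (Finset.finite_toSet _)
      rw [Set.ncard_coe_finset, Finset.card_product] at h2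
      exact_mod_cast h2
    have hH2 : (1 : ℝ) ≤ H ^ 2 := one_le_pow₀ hH
    have hH3 : (1 : ℝ) ≤ H ^ 3 := one_le_pow₀ hH
    have h3 : ((ball (H ^ 2)).card : ℝ) ≤ 3 * H ^ 2 := by
      have := card_ball (H ^ 2) (by positivity)
      linarith
    have h4 : ((ball (H ^ 3)).card : ℝ) ≤ 3 * H ^ 3 := by
      have := card_ball (H ^ 3) (by positivity)
      linarith
    have h5 : H ^ (5 : ℕ) ≤ H0 * H ^ (5 - κ / 2) := by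
      have h6 : H ^ (5 : ℕ) = H ^ (κ / 2) * H ^ (5 - κ / 2) := by
        rw [← Real.rpow_add hHpos, ← Real.rpow_natCast]
        congr 1
        push_cast
        ring
      rw [h6]
      apply mul_le_mul_of_nonneg_right _ hp0.le
      calc H ^ (κ / 2) ≤ H ^ (1 : ℝ) :=
            Real.rpow_le_rpow_of_exponent_le hH (by linarith)
        _ = H := Real.rpow_one H
        _ ≤ H0 := hlt.le
    calc _ ≤ ((ball (H ^ 2)).card : ℝ) * ((ball (H ^ 3)).card : ℝ) := h1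
      _ ≤ (3 * H ^ 2) * (3 * H ^ 3) := mul_le_mul h3 h4 (Nat.cast_nonneg _) (by positivity)
      _ = 9 * H ^ (5 : ℕ) := by ring
      _ ≤ 9 * (H0 * H ^ (5 - κ / 2)) := by linarith
      _ = (9 * H0) * H ^ (5 - κ / 2) := by ring
      _ ≤ (c0 * (K1 + K3) + K2 + 9 * H0) * H ^ (5 - κ / 2) := by
          apply mul_le_mul_of_nonneg_right _ hp0.le
          have : 0 ≤ c0 * (K1 + K3) := by positivity
          linarith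
  · obtain ⟨hs1, hs2⟩ := hsmall H hH
    obtain ⟨n, hn1, hn2⟩ := hnum H hH
    set X : ℝ := Real.exp (H ^ (1 - ε)) with hX
    set S2 : Set (ℤ × ℤ) := {p | |(p.1 : ℝ)| ≤ H ^ 2 ∧ |(p.2 : ℝ)| ≤ H ^ 3 ∧
      ∃ x y : ℤ, y ^ 2 = x ^ 3 + p.1 * x + p.2 ∧ (x : ℝ) ≤ 16 * H ^ 4} with hS2
    set ψ : (ℤ × ℤ × ℤ × ℤ) × ℤ → ℤ × ℤ := fun F =>
      invMap (F.1.1, F.1.2.1, F.1.2.2.1, F.1.2.2.2, F.2) with hψ
    -- the sets of pairs for one dyadic interval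
    set Z : ℕ → Set (ℤ × ℤ) := fun i =>
      {p | p ∈ multSet H ((1 / 2 : ℝ) ^ i) ∧
        (H ^ (-κ) ≤ (1 / 2 : ℝ) ^ i → p ∈ ψ '' dyU_S H ((1 / 2 : ℝ) ^ i) X)} with hZ
    have hZb : ∀ i < n, (Z i).Finite ∧
        ((Z i).ncard : ℝ) ≤ (K1 + K3) * H ^ (5 - κ) := by
      intro i _
      have hL0 : (0 : ℝ) < (1 / 2 : ℝ) ^ i := by positivity
      have hL1 : (1 / 2 : ℝ) ^ i ≤ 1 := pow_le_one₀ (by norm_num) (by norm_num)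
      obtain ⟨hm1, hm2⟩ := hmult H hH _ hL0 hL1
      have hq0 : 0 < H ^ (5 - κ) := Real.rpow_pos_of_pos hHpos _
      have hZm : Z i ⊆ multSet H ((1 / 2 : ℝ) ^ i) := fun p hp => hp.1
      refine ⟨hm1.subset hZm, ?_⟩
      by_cases hlow : H ^ (-κ) ≤ (1 / 2 : ℝ) ^ i
      · obtain ⟨hd1, hd2⟩ := hdy H hge ((1 / 2 : ℝ) ^ i) X hL0 hL1 hlow le_rfl
        have hZd : Z i ⊆ ψ '' dyU_S H ((1 / 2 : ℝ) ^ i) X := fun p hp => hp.2 hlow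
        have h1 : (Z i).ncard ≤ (dyU_S H ((1 / 2 : ℝ) ^ i) X).ncard :=
          (Set.ncard_le_ncard hZd (hd1.image ψ)).trans (Set.ncard_image_le hd1)
        calc ((Z i).ncard : ℝ) ≤ ((dyU_S H ((1 / 2 : ℝ) ^ i) X).ncard : ℝ) := by
              exact_mod_cast h1
          _ ≤ K1 * H ^ (5 - κ) := hd2
          _ ≤ (K1 + K3) * H ^ (5 - κ) := by
              apply mul_le_mul_of_nonneg_right _ hq0.le
              linarith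
      · have h1 := Set.ncard_le_ncard hZm hm1
        have h2 : ((1 / 2 : ℝ) ^ i) ^ 2 ≤ H ^ (-(2 * κ)) := by
          calc ((1 / 2 : ℝ) ^ i) ^ 2 ≤ (H ^ (-κ)) ^ 2 :=
                pow_le_pow_left₀ hL0.le (not_le.1 hlow).le 2
            _ = H ^ (-(2 * κ)) := by
                rw [← Real.rpow_natCast, ← Real.rpow_mul hHpos.le]
                congr 1
                push_cast
                ring
        have h3 : H ^ 5 * H ^ (-(2 * κ)) ≤ H ^ (5 - κ) := by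
          rw [← Real.rpow_natCast, ← Real.rpow_add hHpos]
          apply Real.rpow_le_rpow_of_exponent_le hH
          push_cast
          linarith
        calc ((Z i).ncard : ℝ) ≤ ((multSet H ((1 / 2 : ℝ) ^ i)).ncard : ℝ) := by
              exact_mod_cast h1
          _ ≤ K3 * H ^ 5 * ((1 / 2 : ℝ) ^ i) ^ 2 := hm2
          _ ≤ K3 * H ^ 5 * H ^ (-(2 * κ)) := by gcongr
          _ = K3 * (H ^ 5 * H ^ (-(2 * κ))) := by ring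
          _ ≤ K3 * H ^ (5 - κ) := by gcongr
          _ ≤ (K1 + K3) * H ^ (5 - κ) := by
              apply mul_le_mul_of_nonneg_right _ hq0.le
              linarith
    obtain ⟨hU1, hU2⟩ := ncard_iUnion n Z _ hZb
    have hcover : {p : ℤ × ℤ | |(p.1 : ℝ)| ≤ H ^ 2 ∧ |(p.2 : ℝ)| ≤ H ^ 3 ∧
        4 * p.1 ^ 3 + 27 * p.2 ^ 2 ≠ 0 ∧
        ∃ x y : ℤ, y ^ 2 = x ^ 3 + p.1 * x + p.2 ∧ |(x : ℝ)| ≤ X} ⊆
        (⋃ i ∈ Finset.range n, Z i) ∪ S2 := by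
      rintro ⟨A, B⟩ ⟨hA, hB, hd, x, y, hE, hx⟩
      by_cases hx4 : (x : ℝ) ≤ 16 * H ^ 4
      · exact Or.inr ⟨hA, hB, x, y, hE, hx4⟩
      · left
        push Not at hx4
        have hE' : |y| ^ 2 = x ^ 3 + A * x + B := by rw [sq_abs]; exact hE
        obtain ⟨lam, a, b, c, d, e, hl0, hl1, hbd, hrep, hinv⟩ := reductionU x |y| A B H X hH hx4
          ((le_abs_self _).trans hx) (abs_nonneg y) hA hB hd hE'
        obtain ⟨i, hin, hi1, hi2⟩ := hn2 lam a b c d e hl0 hl1 hbd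
        simp only [Set.mem_iUnion, Finset.mem_range]
        refine ⟨i, hin, ⟨lam, hi1, hi2, a, b, c, d, e, hbd, hinv⟩, fun _ => ?_⟩
        exact ⟨((a, b, c, d), e), ⟨lam, hi1, hi2, hbd, hrep⟩, invMap_of_Inv hinv⟩
    have h1 : ({p : ℤ × ℤ | |(p.1 : ℝ)| ≤ H ^ 2 ∧ |(p.2 : ℝ)| ≤ H ^ 3 ∧
        4 * p.1 ^ 3 + 27 * p.2 ^ 2 ≠ 0 ∧
        ∃ x y : ℤ, y ^ 2 = x ^ 3 + p.1 * x + p.2 ∧ |(x : ℝ)| ≤ X}.ncard : ℝ) ≤
        ((⋃ i ∈ Finset.range n, Z i).ncard : ℝ) + (S2.ncard : ℝ) := by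
      have h2 := Set.ncard_le_ncard hcover (hU1.union hs1)
      have h3 := Set.ncard_union_le (⋃ i ∈ Finset.range n, Z i) S2
      exact_mod_cast h2.trans h3
    have hH0pos : 0 < H0 := by linarith
    have e1 : H ^ (κ / 2) * H ^ (5 - κ) = H ^ (5 - κ / 2) := by
      rw [← Real.rpow_add hHpos]
      congr 1
      ring
    have e2 : H ^ (499 / 100 : ℝ) ≤ H ^ (5 - κ / 2) :=
      Real.rpow_le_rpow_of_exponent_le hH (by linarith)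
    calc _ ≤ ((⋃ i ∈ Finset.range n, Z i).ncard : ℝ) + (S2.ncard : ℝ) := h1
      _ ≤ n * ((K1 + K3) * H ^ (5 - κ)) + K2 * H ^ (499 / 100 : ℝ) :=
          add_le_add hU2 hs2
      _ ≤ (c0 * H ^ (κ / 2)) * ((K1 + K3) * H ^ (5 - κ)) +
          K2 * H ^ (5 - κ / 2) := by gcongr
      _ = c0 * (K1 + K3) * (H ^ (κ / 2) * H ^ (5 - κ)) +
          K2 * H ^ (5 - κ / 2) := by ring
      _ = (c0 * (K1 + K3) + K2) * H ^ (5 - κ / 2) := by rw [e1]; ring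
      _ ≤ (c0 * (K1 + K3) + K2 + 9 * H0) * H ^ (5 - κ / 2) := by
          apply mul_le_mul_of_nonneg_right _ hp0.le
          linarith

/-- The reduction: `Pencil4` implies the power saving theorem with the range `exp (H^(1-ε))`. -/
theorem red4 (hP : Pencil4) : ∀ ε : ℝ, 0 < ε → ∃ δ : ℝ, 0 < δ ∧ ∃ K : ℝ, ∀ H : ℝ, 1 ≤ H →
    {p : ℤ × ℤ | |(p.1 : ℝ)| ≤ H ^ 2 ∧ |(p.2 : ℝ)| ≤ H ^ 3 ∧ 4 * p.1 ^ 3 + 27 * p.2 ^ 2 ≠ 0 ∧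
      ∃ x y : ℤ, y ^ 2 = x ^ 3 + p.1 * x + p.2 ∧
        |(x : ℝ)| ≤ Real.exp (H ^ (1 - ε))}.Finite ∧
    ({p : ℤ × ℤ | |(p.1 : ℝ)| ≤ H ^ 2 ∧ |(p.2 : ℝ)| ≤ H ^ 3 ∧ 4 * p.1 ^ 3 + 27 * p.2 ^ 2 ≠ 0 ∧
      ∃ x y : ℤ, y ^ 2 = x ^ 3 + p.1 * x + p.2 ∧
        |(x : ℝ)| ≤ Real.exp (H ^ (1 - ε))}.ncard : ℝ)
        ≤ K * H ^ (5 - δ) := by
  intro ε hε
  -- it is enough to treat `ε < 1`
  obtain ⟨ε', hε'0, hε'1, hε'ε⟩ : ∃ ε' : ℝ, 0 < ε' ∧ ε' < 1 ∧ ε' ≤ ε := by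
    refine ⟨min ε (1 / 2), lt_min hε (by norm_num), ?_, min_le_left _ _⟩
    exact lt_of_le_of_lt (min_le_right _ _) (by norm_num)
  obtain ⟨δ0, hδ0, T0, hT0, hpen⟩ := hP ε' hε'0 hε'1
  -- decrease `δ0`
  set δ1 : ℝ := min δ0 (1 / 100) with hδ1
  have hδ1pos : 0 < δ1 := lt_min hδ0 (by norm_num)
  have hδ1le : δ1 ≤ δ0 := min_le_left _ _
  have hδ1le' : δ1 ≤ 1 / 100 := min_le_right _ _
  have hpen' : ∀ T : ℝ, T0 ≤ T → ∀ R : ℝ, 1 ≤ R → R ≤ T ^ δ1 → ∀ a1 a2 a3 a4 : ℤ, a4 ≠ 0 →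
      |(a1 : ℝ)| * R ≤ T → |(a2 : ℝ)| * R ^ 2 ≤ T → |(a3 : ℝ)| * R ^ 3 ≤ T →
      |(a4 : ℝ)| * R ^ 4 ≤ T →
      (pencilSet a1 a2 a3 a4 R (Real.exp (T ^ (1 - ε')))).Finite ∧
      ((pencilSet a1 a2 a3 a4 R (Real.exp (T ^ (1 - ε')))).ncard : ℝ) ≤ T ^ (1 - δ1) := by
    intro T hT R hR hRT a1 a2 a3 a4 h4 b1 b2 b3 b4
    have hT1 : 1 ≤ T := by linarith
    obtain ⟨f, c⟩ := hpen T hT R hR (hRT.trans (Real.rpow_le_rpow_of_exponent_le hT1 hδ1le))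
      a1 a2 a3 a4 h4 b1 b2 b3 b4
    exact ⟨f, c.trans (Real.rpow_le_rpow_of_exponent_le hT1 (by linarith))⟩
  obtain ⟨K, hK⟩ := red4_aux ε' δ1 T0 (δ1 / 6) hε'1 hpen' (by linarith) (by linarith)
    (by linarith) (by linarith)
  refine ⟨δ1 / 6 / 2, by linarith, K, fun H hH => ?_⟩
  obtain ⟨f, c⟩ := hK H hH
  have hsub : {p : ℤ × ℤ | |(p.1 : ℝ)| ≤ H ^ 2 ∧ |(p.2 : ℝ)| ≤ H ^ 3 ∧
      4 * p.1 ^ 3 + 27 * p.2 ^ 2 ≠ 0 ∧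
      ∃ x y : ℤ, y ^ 2 = x ^ 3 + p.1 * x + p.2 ∧
        |(x : ℝ)| ≤ Real.exp (H ^ (1 - ε))} ⊆
      {p : ℤ × ℤ | |(p.1 : ℝ)| ≤ H ^ 2 ∧ |(p.2 : ℝ)| ≤ H ^ 3 ∧ 4 * p.1 ^ 3 + 27 * p.2 ^ 2 ≠ 0 ∧
      ∃ x y : ℤ, y ^ 2 = x ^ 3 + p.1 * x + p.2 ∧
        |(x : ℝ)| ≤ Real.exp (H ^ (1 - ε'))} := by
    rintro p ⟨h1, h2, h3, x, y, h4, h5⟩
    refine ⟨h1, h2, h3, x, y, h4, h5.trans (Real.exp_le_exp.2 ?_)⟩
    exact Real.rpow_le_rpow_of_exponent_le hH (by linarith)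
  refine ⟨f.subset hsub, le_trans ?_ c⟩
  exact_mod_cast Set.ncard_le_ncard hsub f

end Pool.Agent.LibER91
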