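import Pool.Agent.LibER91.PA
import Pool.Agent.LibER91.PencilOf
import Pool.Agent.LibER91.Red4

set_option autoImplicit false

namespace Pool.Agent.LibER91

theorem pencil4 : Pencil4 := pencil4_of_patch patch_count

theorem final4 : ∀ ε : ℝ, 0 < ε → ∃ δ : ℝ, 0 < δ ∧ ∃ K : ℝ, ∀ H : ℝ, 1 ≤ H →
    {p : ℤ × ℤ | |(p.1 : ℝ)| ≤ H ^ 2 ∧ |(p.2 : ℝ)| ≤ H ^ 3 ∧ 4 * p.1 ^ 3 + 27 * p.2 ^ 2 ≠ 0 ∧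
      ∃ x y : ℤ, y ^ 2 = x ^ 3 + p.1 * x + p.2 ∧
        |(x : ℝ)| ≤ Real.exp (H ^ (1 - ε))}.Finite ∧
    ({p : ℤ × ℤ | |(p.1 : ℝ)| ≤ H ^ 2 ∧ |(p.2 : ℝ)| ≤ H ^ 3 ∧ 4 * p.1 ^ 3 + 27 * p.2 ^ 2 ≠ 0 ∧
      ∃ x y : ℤ, y ^ 2 = x ^ 3 + p.1 * x + p.2 ∧
        |(x : ℝ)| ≤ Real.exp (H ^ (1 - ε))}.ncard : ℝ) ≤ K * H ^ (5 - δ) :=
  fun ε hε => red4 pencil4 ε hε

end Pool.Agent.LibER91
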