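import Pool.Agent.LibER91.Defs

/-!
Row G1 (MEDIUM, only Mathlib): the polynomial `GG f A B r t0 = ∑_{i≤r} f_i (-B)^i A^(r-i) + (X + t0) A^r`.

Plan. `natDegree_GG`: `α = natDegree A`, `β = natDegree B`. If `β ≤ α` (then `A ≠ 0`, or `A = 0` and `B` a nonzero constant,
where `G = C (lc f * (-B)^r)`, treat separately): every summand `f_i (-B)^i A^(r-i)` has degree `≤ r α`, `(X + t0) A^r` has degree
exactly `r α + 1`. If `α < β`: the term `i = r` has degree exactly `r β` (`f_r ≠ 0`), the others `≤ (r-1) β + α < r β`, and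
`(X + t0) A^r` has degree `≤ 1 + r α ≤ 1 + r (β - 1) < r β` because `r ≥ 2`.
`eval_GG`: `Sol` gives `IsCoprime P Q`; from `A(x) P = - B(x) Q`: `Q ∣ A(x)`, `A(x) = k Q`, `B(x) = - k P`, so
`gcd(A(x), B(x)) = |k|` and `G(x) = k^r (∑ f_i P^i Q^(r-i) + t Q^r) = k^r`.
-/

set_option autoImplicit false

open Polynomial

namespace Pool.Agent.LibER91

private theorem G1_term (f A B : ℤ[X]) {r i M : ℕ} (hi : i ≤ r)
    (h : i * B.natDegree + (r - i) * A.natDegree ≤ M) :
    (C (f.coeff i) * (-B) ^ i * A ^ (r - i)).natDegree ≤ M := by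
  refine natDegree_mul_le.trans (le_trans (add_le_add ?_ natDegree_pow_le) h)
  refine natDegree_mul_le.trans ?_
  rw [natDegree_C, zero_add]
  refine natDegree_pow_le.trans ?_
  rw [natDegree_neg]

private theorem G1_lin (A : ℤ[X]) (hA : A ≠ 0) (r : ℕ) (t0 : ℤ) :
    ((X + C t0) * A ^ r).natDegree = 1 + r * A.natDegree := by
  rw [natDegree_mul (X_add_C_ne_zero t0) (pow_ne_zero r hA), natDegree_X_add_C, natDegree_pow]

theorem natDegree_GG (f A B : ℤ[X]) (r : ℕ) (t0 : ℤ) (hr : 2 ≤ r) (hf : f.natDegree = r)
    (hAB : A ≠ 0 ∨ B ≠ 0) :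
    r * max A.natDegree B.natDegree ≤ (GG f A B r t0).natDegree ∧
      (GG f A B r t0).natDegree ≤ r * max A.natDegree B.natDegree + 1 ∧ GG f A B r t0 ≠ 0 := by
  have hfr : f.coeff r ≠ 0 := by
    have h0 : f ≠ 0 := by
      intro h
      rw [h, natDegree_zero] at hf
      omega
    have := leadingCoeff_ne_zero.2 h0
    rwa [leadingCoeff, hf] at this
  have hsplit : GG f A B r t0 =
      (∑ i ∈ Finset.range r, C (f.coeff i) * (-B) ^ i * A ^ (r - i)) +
        C (f.coeff r) * (-B) ^ r + (X + C t0) * A ^ r := by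
    unfold GG
    rw [Finset.sum_range_succ, Nat.sub_self, pow_zero, mul_one]
  have htop : B ≠ 0 → (C (f.coeff r) * (-B) ^ r).natDegree = r * B.natDegree := by
    intro hB
    rw [natDegree_C_mul hfr, natDegree_pow, natDegree_neg]
  by_cases hA : A = 0
  · -- only the last term remains
    have hB : B ≠ 0 := hAB.resolve_left (not_not.2 hA)
    have hs0 : ∑ i ∈ Finset.range r, C (f.coeff i) * (-B) ^ i * A ^ (r - i) = 0 := by
      refine Finset.sum_eq_zero fun i hi => ?_
      have : r - i ≠ 0 := by
        have := Finset.mem_range.1 hi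
        omega
      rw [hA, zero_pow this, mul_zero]
    have hG : GG f A B r t0 = C (f.coeff r) * (-B) ^ r := by
      rw [hsplit, hs0, zero_add, hA, zero_pow (by omega), mul_zero, add_zero]
    have hne : GG f A B r t0 ≠ 0 := by
      rw [hG]
      exact mul_ne_zero (C_ne_zero.2 hfr) (pow_ne_zero r (neg_ne_zero.2 hB))
    have hmax : max A.natDegree B.natDegree = B.natDegree := by
      rw [hA, natDegree_zero]
      exact max_eq_right (Nat.zero_le _)
    rw [hmax]
    refine ⟨?_, ?_, hne⟩
    · rw [hG, htop hB]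
    · rw [hG, htop hB]
      omega
  · rcases le_or_gt B.natDegree A.natDegree with hle | hlt
    · -- the linear term dominates
      have h1 : (∑ i ∈ Finset.range r, C (f.coeff i) * (-B) ^ i * A ^ (r - i)).natDegree ≤
          r * A.natDegree := by
        refine natDegree_sum_le_of_forall_le _ _ fun i hi => ?_
        have hi' := (Finset.mem_range.1 hi).le
        refine G1_term f A B hi' ?_
        calc i * B.natDegree + (r - i) * A.natDegree
            ≤ i * A.natDegree + (r - i) * A.natDegree :=
              Nat.add_le_add_right (Nat.mul_le_mul_left i hle) _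
          _ = (i + (r - i)) * A.natDegree := by ring
          _ = r * A.natDegree := by rw [Nat.add_sub_cancel' hi']
      have h2 : (C (f.coeff r) * (-B) ^ r).natDegree ≤ r * A.natDegree := by
        have := G1_term f A B (r := r) (i := r) (M := r * A.natDegree) le_rfl (by
          rw [Nat.sub_self, zero_mul, add_zero]
          exact Nat.mul_le_mul_left r hle)
        rwa [Nat.sub_self, pow_zero, mul_one] at this
      have h3 := G1_lin A hA r t0
      have h4 : ((∑ i ∈ Finset.range r, C (f.coeff i) * (-B) ^ i * A ^ (r - i)) +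
          C (f.coeff r) * (-B) ^ r).natDegree ≤ r * A.natDegree :=
        (natDegree_add_le _ _).trans (max_le h1 h2)
      have h5 : (GG f A B r t0).natDegree = 1 + r * A.natDegree := by
        rw [hsplit, natDegree_add_eq_right_of_natDegree_lt (by rw [h3]; omega), h3]
      have hmax : max A.natDegree B.natDegree = A.natDegree := max_eq_left hle
      rw [hmax, h5]
      refine ⟨by omega, by omega, fun h => ?_⟩
      rw [h, natDegree_zero] at h5
      omega
    · -- the last term dominates
      have hB : B ≠ 0 := by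
        intro h
        rw [h, natDegree_zero] at hlt
        omega
      have h1 : (∑ i ∈ Finset.range r, C (f.coeff i) * (-B) ^ i * A ^ (r - i)).natDegree ≤
          (r - 1) * B.natDegree + A.natDegree := by
        refine natDegree_sum_le_of_forall_le _ _ fun i hi => ?_
        have hi' := Finset.mem_range.1 hi
        refine G1_term f A B hi'.le ?_
        obtain ⟨k, hk⟩ : ∃ k, r = i + 1 + k := ⟨r - (i + 1), by omega⟩
        have e1 : r - i = k + 1 := by omega
        have e2 : r - 1 = i + k := by omega
        rw [e1, e2]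
        have e3 : k * A.natDegree ≤ k * B.natDegree := Nat.mul_le_mul_left k hlt.le
        nlinarith
      have hrB : (r - 1) * B.natDegree + A.natDegree < r * B.natDegree := by
        obtain ⟨k, hk⟩ : ∃ k, r = k + 1 := ⟨r - 1, by omega⟩
        rw [hk, Nat.add_sub_cancel]
        nlinarith
      have hrA : 1 + r * A.natDegree < r * B.natDegree := by
        have : r * (A.natDegree + 1) ≤ r * B.natDegree := Nat.mul_le_mul_left r hlt
        nlinarith
      have h3 := G1_lin A hA r t0
      have h4 := htop hB
      have h5 : ((∑ i ∈ Finset.range r, C (f.coeff i) * (-B) ^ i * A ^ (r - i)) +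
          C (f.coeff r) * (-B) ^ r).natDegree = r * B.natDegree := by
        rw [natDegree_add_eq_right_of_natDegree_lt (by rw [h4]; omega), h4]
      have h6 : (GG f A B r t0).natDegree = r * B.natDegree := by
        rw [hsplit, natDegree_add_eq_left_of_natDegree_lt (by rw [h3, h5]; exact hrA), h5]
      have hmax : max A.natDegree B.natDegree = B.natDegree := max_eq_right hlt.le
      rw [hmax, h6]
      refine ⟨le_rfl, by omega, fun h => ?_⟩
      rw [h, natDegree_zero] at h6
      omega

theorem eval_GG (f A B : ℤ[X]) (r : ℕ) (t0 t P Q : ℤ) (hS : Sol f r t P Q)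
    (hAB : A.eval (t - t0) * P + B.eval (t - t0) * Q = 0) (hA : A.eval (t - t0) ≠ 0) :
    ((GG f A B r t0).eval (t - t0)).natAbs =
      Int.gcd (A.eval (t - t0)) (B.eval (t - t0)) ^ r := by
  obtain ⟨hQ, hS⟩ := hS
  have hev : (GG f A B r t0).eval (t - t0) =
      ∑ i ∈ Finset.range (r + 1), f.coeff i * (-(B.eval (t - t0))) ^ i * A.eval (t - t0) ^ (r - i) +
        t * A.eval (t - t0) ^ r := by
    unfold GG
    rw [eval_add, eval_finsetSum, eval_mul, eval_add, eval_X, eval_C, eval_pow]
    congr 1
    · refine Finset.sum_congr rfl fun i _ => ?_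
      rw [eval_mul, eval_mul, eval_C, eval_pow, eval_pow, eval_neg]
    · ring
  rw [hev]
  rcases Nat.eq_zero_or_pos r with hr | hr
  · subst hr
    simp only [pow_zero]
    rw [show (∑ i ∈ Finset.range (0 + 1), f.coeff i * (-(B.eval (t - t0))) ^ i *
        A.eval (t - t0) ^ (0 - i)) = f.coeff 0 by simp]
    have h1 : f.coeff 0 + t = 1 := by simpa using hS
    rw [mul_one, h1]
    rfl
  · have hcop : IsCoprime P Q := by
      rw [Int.isCoprime_iff_gcd_eq_one]
      have hd : ((Int.gcd P Q : ℕ) : ℤ) ∣ 1 := by
        have d1 : ((Int.gcd P Q : ℕ) : ℤ) ∣ P := Int.gcd_dvd_left ..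
        have d2 : ((Int.gcd P Q : ℕ) : ℤ) ∣ Q := Int.gcd_dvd_right ..
        rw [← hS]
        refine dvd_add (Finset.dvd_sum fun i hi => ?_) (Dvd.dvd.mul_left (dvd_pow d2 (by omega)) _)
        rcases Nat.eq_zero_or_pos i with h | h
        · rw [h, Nat.sub_zero]
          exact Dvd.dvd.mul_left (dvd_pow d2 (by omega)) _
        · exact Dvd.dvd.mul_right (Dvd.dvd.mul_left (dvd_pow d1 (by omega)) _) _
      have := Int.natAbs_dvd_natAbs.2 hd
      simpa using this
    obtain ⟨k, hk⟩ : Q ∣ A.eval (t - t0) := by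
      have h1 : Q ∣ A.eval (t - t0) * P := by
        have : A.eval (t - t0) * P = Q * (-(B.eval (t - t0))) := by linarith
        exact ⟨_, this⟩
      exact hcop.symm.dvd_of_dvd_mul_right h1
    have hB : B.eval (t - t0) = -(k * P) := by
      have h1 : Q * (B.eval (t - t0) + k * P) = 0 := by
        rw [hk] at hAB
        linarith
      rcases mul_eq_zero.1 h1 with h | h
      · exact absurd h hQ
      · linarith
    have hsum : ∑ i ∈ Finset.range (r + 1), f.coeff i * (-(B.eval (t - t0))) ^ i *
        A.eval (t - t0) ^ (r - i) + t * A.eval (t - t0) ^ r = k ^ r := by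
      rw [hB, hk]
      have h1 : ∀ i ∈ Finset.range (r + 1), f.coeff i * (- -(k * P)) ^ i * (Q * k) ^ (r - i) =
          k ^ r * (f.coeff i * P ^ i * Q ^ (r - i)) := by
        intro i hi
        have hi' : i ≤ r := Nat.lt_succ_iff.1 (Finset.mem_range.1 hi)
        rw [neg_neg, mul_pow, mul_pow]
        have h2 : k ^ r = k ^ i * k ^ (r - i) := by
          rw [← pow_add, Nat.add_sub_cancel' hi']
        rw [h2]
        ring
      rw [Finset.sum_congr rfl h1, ← Finset.mul_sum]
      calc k ^ r * (∑ i ∈ Finset.range (r + 1), f.coeff i * P ^ i * Q ^ (r - i)) +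
            t * (Q * k) ^ r
          = k ^ r * (∑ i ∈ Finset.range (r + 1), f.coeff i * P ^ i * Q ^ (r - i) + t * Q ^ r) := by
            rw [mul_pow]
            ring
        _ = k ^ r := by rw [hS, mul_one]
    rw [hsum, Int.natAbs_pow]
    congr 1
    rw [hB, hk, Int.gcd_neg, mul_comm Q k, Int.gcd_mul_left]
    have h3 : Int.gcd Q P = 1 := Int.isCoprime_iff_gcd_eq_one.1 hcop.symm
    rw [h3, mul_one]

end Pool.Agent.LibER91
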