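import Pool.Agent.LibER91.N1

/-!
Row G2 (SHORT/MEDIUM, Mathlib + API N1): the leading coefficient of `GG`, and two small facts.

Plan. `lc_GG_le`: `|lc G| ≤ nz 1 G` (`abs_coeff_int_le`), and `nz 1` is submultiplicative and subadditive (N1, map to `ℝ[X]`):
`nz 1 (GG f A B r t0) ≤ ∑_{i ≤ r} |f_i| N^i N^(r-i) + (1 + |t0|) N^r ≤ (T + 1 + |t0|) N^r`.
`eval_ne_zero`: if `A(x) = B(x) = 0` then `X - C x` divides both (`dvd_iff_isRoot`) and is not a unit.
`card_roots_shift`: the number of `t ∈ S` with `g(t - t0) = 0` is at most `natDegree g` (`Polynomial.card_roots'`, injective shift).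
-/

set_option autoImplicit false

open Polynomial

namespace Pool.Agent.LibER91

private theorem G2_map_GG (f A B : ℤ[X]) (r : ℕ) (t0 : ℤ) :
    (GG f A B r t0).map (Int.castRingHom ℝ) =
      ∑ i ∈ Finset.range (r + 1), (C ((f.coeff i : ℤ) : ℝ) * ((-(B.map (Int.castRingHom ℝ))) ^ i *
        (A.map (Int.castRingHom ℝ)) ^ (r - i))) +
        (X + C (t0 : ℝ)) * (A.map (Int.castRingHom ℝ)) ^ r := by
  unfold GG
  rw [Polynomial.map_add, Polynomial.map_sum, Polynomial.map_mul, Polynomial.map_add, Polynomial.map_pow,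
    Polynomial.map_X, Polynomial.map_C]
  congr 1
  refine Finset.sum_congr rfl fun i _ => ?_
  rw [Polynomial.map_mul, Polynomial.map_mul, Polynomial.map_pow, Polynomial.map_pow, Polynomial.map_neg,
    Polynomial.map_C, mul_assoc]
  simp only [eq_intCast]

theorem lc_GG_le (f A B : ℤ[X]) (r : ℕ) (t0 : ℤ) (T N : ℝ) (hf : f.natDegree ≤ r) (hT : nz 1 f ≤ T)
    (hN : 1 ≤ N) (hA : nz 1 A ≤ N) (hB : nz 1 B ≤ N) :
    |((GG f A B r t0).leadingCoeff : ℝ)| ≤ (T + 1 + |(t0 : ℝ)|) * N ^ r := by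
  have h0 : (0 : ℝ) ≤ 1 := zero_le_one
  have hN0 : 0 ≤ N := zero_le_one.trans hN
  have h1 : |((GG f A B r t0).leadingCoeff : ℝ)| ≤ nz 1 (GG f A B r t0) := by
    have := abs_coeff_int_le 1 le_rfl (GG f A B r t0) (GG f A B r t0).natDegree
    exact this
  refine h1.trans ?_
  obtain ⟨A', hA'⟩ : ∃ A' : ℝ[X], A' = A.map (Int.castRingHom ℝ) := ⟨_, rfl⟩
  obtain ⟨B', hB'⟩ : ∃ B' : ℝ[X], B' = B.map (Int.castRingHom ℝ) := ⟨_, rfl⟩
  have hAn : nr 1 A' ≤ N := by rw [hA']; exact hA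
  have hBn : nr 1 B' ≤ N := by rw [hB']; exact hB
  have pA : ∀ k : ℕ, nr 1 (A' ^ k) ≤ N ^ k := fun k =>
    (nr_pow_le 1 h0 A' k).trans (pow_le_pow_left₀ (nr_nonneg 1 h0 A') hAn k)
  have pB : ∀ k : ℕ, nr 1 ((-B') ^ k) ≤ N ^ k := fun k => by
    refine (nr_pow_le 1 h0 (-B') k).trans ?_
    rw [nr_neg]
    exact pow_le_pow_left₀ (nr_nonneg 1 h0 B') hBn k
  unfold nz
  rw [G2_map_GG, ← hA', ← hB']
  have hs : nr 1 (∑ i ∈ Finset.range (r + 1), (C ((f.coeff i : ℤ) : ℝ) * ((-B') ^ i * A' ^ (r - i)))) ≤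
      T * N ^ r := by
    refine (nr_sum_le 1 h0 _ _).trans ?_
    have hterm : ∀ i ∈ Finset.range (r + 1),
        nr 1 (C ((f.coeff i : ℤ) : ℝ) * ((-B') ^ i * A' ^ (r - i))) ≤ |(f.coeff i : ℝ)| * N ^ r := by
      intro i hi
      have hir : i ≤ r := by
        have := Finset.mem_range.mp hi
        omega
      rw [nr_C_mul]
      refine mul_le_mul_of_nonneg_left ?_ (abs_nonneg _)
      have h2 : nr 1 ((-B') ^ i * A' ^ (r - i)) ≤ N ^ i * N ^ (r - i) :=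
        (nr_mul_le 1 h0 _ _).trans (mul_le_mul (pB i) (pA (r - i)) (nr_nonneg 1 h0 _) (pow_nonneg hN0 i))
      rw [← pow_add, Nat.add_sub_cancel' hir] at h2
      exact h2
    refine (Finset.sum_le_sum hterm).trans ?_
    rw [← Finset.sum_mul]
    refine mul_le_mul_of_nonneg_right ?_ (pow_nonneg hN0 r)
    have h3 := nz_eq 1 f (r + 1) (by omega)
    simp only [one_pow, mul_one] at h3
    rw [← h3]
    exact hT
  have hx : nr 1 ((X + C (t0 : ℝ)) * A' ^ r) ≤ (1 + |(t0 : ℝ)|) * N ^ r := by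
    refine (nr_mul_le 1 h0 _ _).trans ?_
    have h4 : nr 1 (X + C (t0 : ℝ)) ≤ 1 + |(t0 : ℝ)| := by
      have h5 := nr_add_le 1 h0 (X : ℝ[X]) (C (t0 : ℝ))
      rw [nr_X, nr_C] at h5
      exact h5
    exact mul_le_mul h4 (pA r) (nr_nonneg 1 h0 _) (by positivity)
  calc nr 1 (∑ i ∈ Finset.range (r + 1), (C ((f.coeff i : ℤ) : ℝ) * ((-B') ^ i * A' ^ (r - i))) +
        (X + C (t0 : ℝ)) * A' ^ r) ≤ T * N ^ r + (1 + |(t0 : ℝ)|) * N ^ r :=
        (nr_add_le 1 h0 _ _).trans (add_le_add hs hx)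
    _ = (T + 1 + |(t0 : ℝ)|) * N ^ r := by ring

theorem eval_ne_zero (A B : ℤ[X]) (h : IsRelPrime A B) (x : ℤ) : A.eval x ≠ 0 ∨ B.eval x ≠ 0 := by
  by_contra hc
  push Not at hc
  obtain ⟨hA, hB⟩ := hc
  have h1 : (X - C x) ∣ A := dvd_iff_isRoot.mpr hA
  have h2 : (X - C x) ∣ B := dvd_iff_isRoot.mpr hB
  exact Polynomial.not_isUnit_X_sub_C x (h h1 h2)

theorem card_roots_shift (g : ℤ[X]) (hg : g ≠ 0) (S : Finset ℤ) (t0 : ℤ) :
    (S.filter (fun t => g.eval (t - t0) = 0)).card ≤ g.natDegree := by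
  classical
  refine le_trans ?_ (Polynomial.card_roots' g)
  refine le_trans ?_ (Multiset.toFinset_card_le g.roots)
  refine Finset.card_le_card_of_injOn (fun t => t - t0) ?_ ?_
  · intro t ht
    have ht' := (Finset.mem_filter.mp (Finset.mem_coe.mp ht)).2
    rw [Finset.mem_coe, Multiset.mem_toFinset, Polynomial.mem_roots hg]
    exact ht'
  · intro a _ b _ hab
    have hab' : a - t0 = b - t0 := hab
    linarith

end Pool.Agent.LibER91
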