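import Pool.Agent.LibER91.D1

/-!
Row H1 (SHORT/MEDIUM): the parameters of a patch lie in a short interval.

Plan. For `t ∈ patch f r θ ρ L` with `P, Q`: dividing `Sol` by `Q ^ r` gives `t = 1/Q^r - f(P/Q)`, `|1/Q^r| ≤ 1` (`Q` a nonzero
integer), `|f(P/Q) - f(θ)| ≤ r 2^r T ρ` (`eval_sub_le` in D1, `|P/Q| ≤ R0 + 1 ≤ 2 R0`), and `|-f(θ) - ⌊-f(θ)⌋| ≤ 1`.
`patch_finite`: a set of integers in a bounded interval is finite (`Set.finite_Icc` for `ℤ`).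
-/

set_option autoImplicit false

open Polynomial

namespace Pool.Agent.LibER91

theorem patch_bound (f : ℤ[X]) (r : ℕ) (hf : f.natDegree ≤ r) (R0 T θ ρ L : ℝ) (hR : 1 ≤ R0)
    (hT : nz R0 f ≤ T) (hθ : |θ| ≤ R0) (hρ0 : 0 < ρ) (hρ1 : ρ ≤ 1) (t : ℤ)
    (ht : t ∈ patch f r θ ρ L) :
    |((t - ⌊-(f.map (Int.castRingHom ℝ)).eval θ⌋ : ℤ) : ℝ)| ≤ r * 2 ^ r * T * ρ + 2 := by
  obtain ⟨P, Q, ⟨hQ, hs⟩, -, -, hPQ⟩ := ht
  have hQ0 : (Q : ℝ) ≠ 0 := Int.cast_ne_zero.2 hQ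
  have hQr : (Q : ℝ) ^ r ≠ 0 := pow_ne_zero _ hQ0
  have hT0 : 0 ≤ T := by
    refine le_trans ?_ hT
    unfold nz nr
    exact Finset.sum_nonneg fun i _ => mul_nonneg (abs_nonneg _) (pow_nonneg (by linarith) _)
  have hev : ∀ x : ℝ, (f.map (Int.castRingHom ℝ)).eval x =
      ∑ i ∈ Finset.range (r + 1), (f.coeff i : ℝ) * x ^ i := by
    intro x
    rw [eval_eq_sum_range' (n := r + 1)
      (lt_of_le_of_lt natDegree_map_le (Nat.lt_succ_of_le hf))]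
    refine Finset.sum_congr rfl fun i _ => ?_
    rw [coeff_map]
    rfl
  have hs' : (∑ i ∈ Finset.range (r + 1), (f.coeff i : ℝ) * (P : ℝ) ^ i * (Q : ℝ) ^ (r - i)) +
      (t : ℝ) * (Q : ℝ) ^ r = 1 := by
    exact_mod_cast hs
  have h1 : (f.map (Int.castRingHom ℝ)).eval ((P : ℝ) / Q) + t = 1 / (Q : ℝ) ^ r := by
    rw [eq_div_iff hQr, add_mul, hev, Finset.sum_mul, ← hs']
    congr 1
    refine Finset.sum_congr rfl fun i hi => ?_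
    have hi' : i ≤ r := Nat.lt_succ_iff.1 (Finset.mem_range.1 hi)
    have h2 : (Q : ℝ) ^ r = (Q : ℝ) ^ i * (Q : ℝ) ^ (r - i) := by
      rw [← pow_add, Nat.add_sub_cancel' hi']
    rw [h2, div_pow]
    field_simp
  have h3 : |1 / (Q : ℝ) ^ r| ≤ 1 := by
    rw [abs_div, abs_one, abs_pow]
    have h4 : (1 : ℝ) ≤ |(Q : ℝ)| := by
      rw [← Int.cast_abs]
      exact_mod_cast Int.one_le_abs hQ
    have h5 : (1 : ℝ) ≤ |(Q : ℝ)| ^ r := one_le_pow₀ h4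
    exact (div_le_one (by linarith)).2 h5
  have hx : |(P : ℝ) / Q| ≤ 2 * R0 := by
    have h6 : |(P : ℝ) / Q| ≤ |(P : ℝ) / Q - θ| + |θ| := by
      have := abs_add_le ((P : ℝ) / Q - θ) θ
      rwa [sub_add_cancel] at this
    linarith
  have h7 := eval_sub_le f r hf R0 T hR hT ((P : ℝ) / Q) θ hx (by linarith)
  have h8 : r * 2 ^ r * T * |(P : ℝ) / Q - θ| ≤ r * 2 ^ r * T * ρ :=
    mul_le_mul_of_nonneg_left hPQ (by positivity)
  have h9 := Int.floor_le (-(f.map (Int.castRingHom ℝ)).eval θ)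
  have h10 := Int.lt_floor_add_one (-(f.map (Int.castRingHom ℝ)).eval θ)
  have h11 := abs_le.1 h7
  have h12 := abs_le.1 h3
  rw [Int.cast_sub, abs_le]
  constructor <;> linarith [h11.1, h11.2, h12.1, h12.2]

theorem patch_finite (f : ℤ[X]) (r : ℕ) (hf : f.natDegree ≤ r) (R0 T θ ρ L : ℝ) (hR : 1 ≤ R0)
    (hT : nz R0 f ≤ T) (hθ : |θ| ≤ R0) (hρ0 : 0 < ρ) (hρ1 : ρ ≤ 1) :
    (patch f r θ ρ L).Finite := by
  set M : ℝ := r * 2 ^ r * T * ρ + 2 with hM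
  set t0 : ℤ := ⌊-(f.map (Int.castRingHom ℝ)).eval θ⌋ with ht0
  refine (Set.finite_Icc (t0 - ⌊M⌋) (t0 + ⌊M⌋)).subset fun t ht => ?_
  have h := patch_bound f r hf R0 T θ ρ L hR hT hθ hρ0 hρ1 t ht
  rw [← hM, ← ht0, ← Int.cast_abs] at h
  have h1 : |t - t0| ≤ ⌊M⌋ := Int.le_floor.2 h
  have h2 := abs_le.1 h1
  exact ⟨by linarith [h2.1], by linarith [h2.2]⟩

/-- The number of elements of a set of integers in an interval. -/
theorem card_le_of_abs_le (S : Finset ℤ) (t0 : ℤ) (M : ℝ) (hM : 0 ≤ M)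
    (h : ∀ t ∈ S, |((t - t0 : ℤ) : ℝ)| ≤ M) : (S.card : ℝ) ≤ 2 * M + 1 := by
  have h1 : S ⊆ Finset.Icc (t0 - ⌊M⌋) (t0 + ⌊M⌋) := by
    intro t ht
    have h2 := h t ht
    rw [← Int.cast_abs] at h2
    have h3 : |t - t0| ≤ ⌊M⌋ := Int.le_floor.2 h2
    have h4 := abs_le.1 h3
    exact Finset.mem_Icc.2 ⟨by linarith [h4.1], by linarith [h4.2]⟩
  have h5 := Finset.card_le_card h1
  rw [Int.card_Icc] at h5
  have h6 : 0 ≤ ⌊M⌋ := Int.floor_nonneg.2 hM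
  have h7 : ((S.card : ℤ) : ℝ) ≤ ((2 * ⌊M⌋ + 1 : ℤ) : ℝ) := by
    refine Int.cast_le.2 ?_
    have h8 : (S.card : ℤ) ≤ ((t0 + ⌊M⌋ + 1 - (t0 - ⌊M⌋)).toNat : ℤ) := by exact_mod_cast h5
    rw [Int.toNat_of_nonneg (by linarith)] at h8
    linarith
  have h9 := Int.floor_le M
  push_cast at h7
  linarith

end Pool.Agent.LibER91
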