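import Pool.Agent.LibER91.EP09
import Pool.Agent.LibER91.EP11
import Pool.Agent.LibER91.EP12
import Pool.Agent.LibER91.EP16
import Pool.Agent.LibER91.EP17
import Pool.Agent.LibER91.EP18
import Pool.Agent.LibER91.EP19

/-!
Block EP (helper81): the p-adic part.
-/

set_option autoImplicit false

open Polynomial ArithmeticFunction

namespace Pool.Agent.LibER91

/-- (E2) The sum of the squares of the local multiplicities. -/
theorem energy (A B : ℤ[X]) (D : ℕ) (hAB : IsRelPrime A B) (hA : A.natDegree ≤ D)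
    (hB : B.natDegree ≤ D) (hD : D ≤ max A.natDegree B.natDegree) (N : ℕ) :
    ∑ q ∈ Finset.Icc 1 N, (vonMangoldt q : ℝ) * ∑ c ∈ Finset.range q, (inc A B q c : ℝ) ^ 2 ≤
      2 * Real.log (res A B D) := by
  rw [sum_prime_pow N (fun q => ∑ c ∈ Finset.range q, (inc A B q c : ℝ) ^ 2)]
  have hres := res_pos' A B D hAB hA hB hD
  have h2 := sum_log_le (res A B D) N (by omega)
  calc ∑ p ∈ (Finset.range (N + 1)).filter Nat.Prime,
        Real.log p * ∑ k ∈ Finset.Icc 1 (Nat.log p N), ∑ c ∈ Finset.range (p ^ k),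
          (inc A B (p ^ k) c : ℝ) ^ 2
      ≤ ∑ p ∈ (Finset.range (N + 1)).filter Nat.Prime,
          Real.log p * (2 * ((res A B D).factorization p : ℝ)) := by
        refine Finset.sum_le_sum fun p hp => ?_
        have hp' : p.Prime := (Finset.mem_filter.1 hp).2
        refine mul_le_mul_of_nonneg_left ?_ (Real.log_nonneg (by exact_mod_cast hp'.one_lt.le))
        have := local_energy A B D hAB hA hB hD p hp' (Nat.log p N)
        exact_mod_cast this
    _ = 2 * ∑ p ∈ (Finset.range (N + 1)).filter Nat.Prime,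
          Real.log p * ((res A B D).factorization p : ℝ) := by
        rw [Finset.mul_sum]
        exact Finset.sum_congr rfl fun p _ => by ring
    _ ≤ 2 * Real.log (res A B D) := by linarith

private theorem mean_local (p : ℕ) (hp : p.Prime) (A B G : ℤ[X]) (r J : ℕ) (hAB : IsRelPrime A B)
    (hG0 : G ≠ 0)
    (hG : ∀ c : ℤ, C ((p : ℤ) ^ (r * wt p A B c J)) ∣ G.comp (C c + C ((p ^ J : ℕ) : ℤ) * X)) :
    (r : ℝ) * ∑ k ∈ Finset.Icc 1 J,
        (∑ b ∈ Finset.range (p ^ k), (inc A B (p ^ k) b : ℝ)) / ((p ^ k : ℕ) : ℝ) ≤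
      (G.leadingCoeff.natAbs.factorization p : ℝ) + G.natDegree * (1 / ((p : ℝ) - 1)) := by
  have h := mean_level p hp A B G r J hG0 hG
  rw [mean_wt p hp A B hAB J] at h
  have e : (G.leadingCoeff.natAbs.factorization p : ℝ) = (padicValInt p G.leadingCoeff : ℝ) := by
    rw [padicValInt, Nat.factorization_def _ hp]
  rw [e, mul_one_div]
  refine le_trans (le_of_eq ?_) h
  congr 1
  refine Finset.sum_congr rfl fun k _ => ?_
  push_cast
  rfl

/-- (MEAN) The uniform mean of the increments. -/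
theorem mean : ∃ C0 : ℝ, 0 ≤ C0 ∧ ∀ (A B G : ℤ[X]) (r P : ℕ), IsRelPrime A B → G ≠ 0 → 1 ≤ P →
    (∀ p : ℕ, p.Prime → ∀ (c : ℤ) (j : ℕ),
      C ((p : ℤ) ^ (r * wt p A B c j)) ∣ G.comp (C c + C ((p ^ j : ℕ) : ℤ) * X)) →
    (r : ℝ) * ∑ q ∈ Finset.Icc 1 P, (vonMangoldt q : ℝ) *
      ((∑ c ∈ Finset.range q, (inc A B q c : ℝ)) / q) ≤
      Real.log |(G.leadingCoeff : ℝ)| + G.natDegree * (Real.log P + C0) := by
  obtain ⟨C0, hC0, hM⟩ := mertens_up
  refine ⟨C0, hC0, fun A B G r P hAB hG0 hP hG => ?_⟩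
  rw [sum_prime_pow P (fun q => (∑ c ∈ Finset.range q, (inc A B q c : ℝ)) / q), Finset.mul_sum]
  have hlc : G.leadingCoeff.natAbs ≠ 0 := by
    rw [Int.natAbs_ne_zero]
    exact leadingCoeff_ne_zero.2 hG0
  have h2 := sum_log_le G.leadingCoeff.natAbs P hlc
  have h3 := hM P hP
  have e : Real.log |(G.leadingCoeff : ℝ)| = Real.log (G.leadingCoeff.natAbs : ℝ) := by
    rw [Nat.cast_natAbs, Int.cast_abs]
  rw [e]
  calc ∑ p ∈ (Finset.range (P + 1)).filter Nat.Prime, (r : ℝ) *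
        (Real.log p * ∑ k ∈ Finset.Icc 1 (Nat.log p P),
          (∑ c ∈ Finset.range (p ^ k), (inc A B (p ^ k) c : ℝ)) / ((p ^ k : ℕ) : ℝ))
      ≤ ∑ p ∈ (Finset.range (P + 1)).filter Nat.Prime,
          (Real.log p * (G.leadingCoeff.natAbs.factorization p : ℝ) +
            G.natDegree * (Real.log p * (1 / ((p : ℝ) - 1)))) := by
        refine Finset.sum_le_sum fun p hp => ?_
        have hp' : p.Prime := (Finset.mem_filter.1 hp).2
        have hl := mean_local p hp' A B G r (Nat.log p P) hAB hG0 (fun c => hG p hp' c _)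
        have := mul_le_mul_of_nonneg_left hl
          (Real.log_nonneg (x := (p : ℝ)) (by exact_mod_cast hp'.one_lt.le))
        nlinarith [this]
    _ = ∑ p ∈ (Finset.range (P + 1)).filter Nat.Prime,
          Real.log p * (G.leadingCoeff.natAbs.factorization p : ℝ) +
          G.natDegree * ∑ p ∈ (Finset.range (P + 1)).filter Nat.Prime,
            (Real.log p * (1 / ((p : ℝ) - 1))) := by
        rw [Finset.sum_add_distrib, Finset.mul_sum]
    _ ≤ Real.log (G.leadingCoeff.natAbs : ℝ) + G.natDegree * (Real.log P + C0) := by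
        have : (0 : ℝ) ≤ G.natDegree := Nat.cast_nonneg _
        exact add_le_add h2 (mul_le_mul_of_nonneg_left h3 this)

/-- (T) The decomposition of the gcd. -/
theorem log_gcd (A B : ℤ[X]) (hAB : IsRelPrime A B) (x : ℤ)
    (hx : Int.gcd (A.eval x) (B.eval x) ≠ 0) (N : ℕ) (hN : Int.gcd (A.eval x) (B.eval x) ≤ N) :
    Real.log (Int.gcd (A.eval x) (B.eval x)) =
      ∑ q ∈ Finset.Icc 1 N, (vonMangoldt q : ℝ) * (inc A B q x : ℝ) :=
  log_gcd' A B hAB x hx N hN

/-- The increments are periodic. -/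
theorem inc_congr (A B : ℤ[X]) (q : ℕ) (c c' : ℤ) (h : (q : ℤ) ∣ c - c') :
    inc A B q c = inc A B q c' :=
  inc_congr' A B q c c' h

/-- The weights of a form of degree `r` in `A, B`. -/
theorem wt_form (f A B : ℤ[X]) (r : ℕ) (t0 : ℤ) (p : ℕ) (_hp : p.Prime) (c : ℤ) (j : ℕ)
    (_hAB : IsRelPrime A B) :
    C ((p : ℤ) ^ (r * wt p A B c j)) ∣ (GG f A B r t0).comp (C c + C ((p ^ j : ℕ) : ℤ) * X) :=
  wt_form' f A B r t0 p c j

/-- The resultant is not zero. -/
theorem res_pos (A B : ℤ[X]) (D : ℕ) (hAB : IsRelPrime A B) (hA : A.natDegree ≤ D)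
    (hB : B.natDegree ≤ D) (hD : D ≤ max A.natDegree B.natDegree) : 1 ≤ res A B D :=
  res_pos' A B D hAB hA hB hD

/-- The size of the resultant. -/
theorem res_le (A B : ℤ[X]) (D : ℕ) (N : ℝ) (hN : 1 ≤ N) (hA : ∀ i, |(A.coeff i : ℝ)| ≤ N)
    (hB : ∀ i, |(B.coeff i : ℝ)| ≤ N) (hpos : 1 ≤ res A B D) :
    Real.log (res A B D) ≤ 2 * D * Real.log (2 * D + 1) + 2 * D * Real.log N :=
  res_le' A B D N hN hA hB hpos

end Pool.Agent.LibER91
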