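import Pool.Agent.LibER91.AR44Arch
import Pool.Agent.LibER91.AR44Compare
import Pool.Agent.LibER91.PAdic

/-!
Block AR (helper44): the main inequality.
-/

set_option autoImplicit false

open Polynomial ArithmeticFunction

namespace Pool.Agent.LibER91

/-- (MAIN) -/
theorem main_ineq : ∃ C1 : ℝ, 0 ≤ C1 ∧ ∀ (A B G : ℤ[X]) (D r : ℕ) (S : Finset ℤ) (l : ℝ) (P : ℕ),
    IsRelPrime A B → A.natDegree ≤ D → B.natDegree ≤ D → D ≤ max A.natDegree B.natDegree →
    1 ≤ G.natDegree → 2 * G.natDegree ≤ S.card →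
    (∀ p : ℕ, p.Prime → ∀ (c : ℤ) (j : ℕ),
      C ((p : ℤ) ^ (r * wt p A B c j)) ∣ G.comp (C c + C ((p ^ j : ℕ) : ℤ) * X)) →
    (∀ x ∈ S, (G.eval x).natAbs = Int.gcd (A.eval x) (B.eval x) ^ r ∧
      Int.gcd (A.eval x) (B.eval x) ≠ 0) →
    (S.card : ℝ) ≤ l → (∀ x ∈ S, ∀ x' ∈ S, |((x - x' : ℤ) : ℝ)| ≤ l) → 1 ≤ P → P ≤ S.card →
    (G.natDegree : ℝ) * Real.log (S.card / P) ≤ C1 * G.natDegree +
      (G.natDegree / S.card) * (Real.log |(G.leadingCoeff : ℝ)| +
        G.natDegree * Real.log S.card) +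
      r * (√(2 * Real.log (res A B D) * (Real.log (l / S.card) + C1)) +
        (l / P + 1) / S.card * (2 * Real.log (res A B D))) := by
  classical
  obtain ⟨C0, hC0, hen⟩ := s_energy
  obtain ⟨C2, hC2, hmean⟩ := mean
  have hlog12 : 0 ≤ Real.log 12 := Real.log_nonneg (by norm_num)
  refine ⟨C0 + C2 + Real.log 12 + 1, by positivity, ?_⟩
  intro A B G D r S l P hAB hA hB hD hG1 hn hwt hval' hsl hdist hP hPs
  have hG0 : G ≠ 0 := by
    intro h
    rw [h, Polynomial.natDegree_zero] at hG1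
    omega
  have hgcd : ∀ x ∈ S, Int.gcd (A.eval x) (B.eval x) ≠ 0 := fun x hx => (hval' x hx).2
  have hval : ∀ x ∈ S, |G.eval x| = (Int.gcd (A.eval x) (B.eval x) : ℤ) ^ r := by
    intro x hx
    rw [Int.abs_eq_natAbs, (hval' x hx).1]
    push_cast
    rfl
  obtain ⟨n, hnn⟩ : ∃ n, n = G.natDegree := ⟨_, rfl⟩
  obtain ⟨s, hs⟩ : ∃ s, s = S.card := ⟨_, rfl⟩
  have hs1 : 1 ≤ S.card := hP.trans hPs
  have hl1 : (1 : ℝ) ≤ l := by
    have : (1 : ℝ) ≤ (S.card : ℝ) := by exact_mod_cast hs1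
    linarith
  set E : ℝ := 2 * Real.log (res A B D) with hE
  have hE0 : 0 ≤ E := mul_nonneg (by norm_num) (Real.log_natCast_nonneg _)
  set V : ℝ := (S.card : ℝ) ^ 2 * (Real.log (l / S.card) + C0) with hV
  have hΛ : ∀ q : ℕ, (0 : ℝ) ≤ vonMangoldt q := fun q => vonMangoldt_nonneg
  -- a common bound for the gcds
  obtain ⟨N, hN1, hN2⟩ : ∃ N : ℕ, (∀ x ∈ S, Int.gcd (A.eval x) (B.eval x) ≤ N) ∧ P ≤ N := by
    refine ⟨(∑ x ∈ S, Int.gcd (A.eval x) (B.eval x)) + P, ?_, by omega⟩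
    intro x hx
    have := Finset.single_le_sum (f := fun x => Int.gcd (A.eval x) (B.eval x))
      (fun _ _ => Nat.zero_le _) hx
    omega
  have hcomp := compare_abs (inc A B) (fun q c c' h => inc_congr A B q c c' h) E
    (fun N => energy A B D hAB hA hB hD N) S l V (hen S l hs1 hsl hdist) (by linarith) hdist P N
    hP hPs hN2
  -- the sum of the logarithms
  have hsum : ∑ x ∈ S, Real.log |((G.eval x : ℤ) : ℝ)| =
      r * ∑ x ∈ S, ∑ q ∈ Finset.Icc 1 N, (vonMangoldt q : ℝ) * (inc A B q x : ℝ) := by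
    rw [Finset.mul_sum]
    apply Finset.sum_congr rfl
    intro x hx
    rw [← log_gcd A B hAB x (hgcd x hx) N (hN1 x hx)]
    have h1 : |((G.eval x : ℤ) : ℝ)| = (Int.gcd (A.eval x) (B.eval x) : ℝ) ^ r := by
      have := hval x hx
      exact_mod_cast this
    rw [h1, Real.log_pow]
  have hne : ∀ x ∈ S, G.eval x ≠ 0 := by
    intro x hx h
    have h1 := hval x hx
    rw [h, abs_zero] at h1
    have h2 : (Int.gcd (A.eval x) (B.eval x) : ℤ) ^ r ≠ 0 := by
      apply pow_ne_zero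
      exact_mod_cast hgcd x hx
    exact h2 h1.symm
  have harch := arch G S (by omega) hne
  rw [hsum, ← hnn, ← hs] at harch
  have hm := hmean A B G r P hAB hG0 hP hwt
  rw [← hnn] at hm
  rw [← hs] at hcomp hPs hn hsl hs1
  rw [← hnn] at hn ⊢
  rw [← hs]
  -- abbreviations
  set Mn : ℝ := ∑ q ∈ Finset.Icc 1 P, (vonMangoldt q : ℝ) *
      ((∑ c ∈ Finset.range q, (inc A B q c : ℝ)) / q) with hMn
  set lc : ℝ := Real.log |(G.leadingCoeff : ℝ)| with hlc
  have hs0 : (0 : ℝ) < s := by exact_mod_cast hs1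
  have hs1' : (1 : ℝ) ≤ s := by exact_mod_cast hs1
  have hP0 : (0 : ℝ) < P := by exact_mod_cast hP
  have hn' : 2 * (n : ℝ) ≤ s := by exact_mod_cast hn
  have hn0 : (0 : ℝ) ≤ n := Nat.cast_nonneg _
  have hr0 : (0 : ℝ) ≤ r := Nat.cast_nonneg _
  have hlogs : 0 ≤ Real.log s := Real.log_nonneg hs1'
  have hlogls : 0 ≤ Real.log (l / s) := by
    apply Real.log_nonneg
    rw [le_div_iff₀ hs0, one_mul]
    exact hsl
  -- the square root
  have hsq : √V * √E ≤ s * √(E * (Real.log (l / s) + (C0 + C2 + Real.log 12 + 1))) := by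
    rw [hV, ← hs, Real.sqrt_mul (by positivity), Real.sqrt_sq hs0.le, mul_assoc,
      ← Real.sqrt_mul (by positivity)]
    apply mul_le_mul_of_nonneg_left _ hs0.le
    apply Real.sqrt_le_sqrt
    rw [mul_comm]
    apply mul_le_mul_of_nonneg_left _ hE0
    linarith
  set Rt : ℝ := √(E * (Real.log (l / s) + (C0 + C2 + Real.log 12 + 1))) with hRt
  -- the combination
  have h1 : (r : ℝ) * ∑ x ∈ S, ∑ q ∈ Finset.Icc 1 N, (vonMangoldt q : ℝ) * (inc A B q x : ℝ) ≤
      s * (lc + n * (Real.log P + C2)) + r * (s * Rt) + r * ((l / P + 1) * E) := by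
    calc (r : ℝ) * ∑ x ∈ S, ∑ q ∈ Finset.Icc 1 N, (vonMangoldt q : ℝ) * (inc A B q x : ℝ)
        ≤ r * (s * Mn + √V * √E + (l / P + 1) * E) := mul_le_mul_of_nonneg_left hcomp hr0
      _ = s * (r * Mn) + r * (√V * √E) + r * ((l / P + 1) * E) := by ring
      _ ≤ _ := by
          apply add_le_add (add_le_add _ _) le_rfl
          · exact mul_le_mul_of_nonneg_left hm hs0.le
          · exact mul_le_mul_of_nonneg_left hsq hr0
  have h2 : Real.log ((s : ℝ) / 12) ≤ Real.log (((s : ℝ) - n) / 6) := by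
    apply Real.log_le_log (by positivity)
    linarith
  have h3 : Real.log ((s : ℝ) / 12) = Real.log s - Real.log 12 :=
    Real.log_div hs0.ne' (by norm_num)
  have h4 : Real.log ((n : ℝ) + 1) ≤ n := by
    have := Real.log_le_sub_one_of_pos (show (0 : ℝ) < (n : ℝ) + 1 by positivity)
    linarith
  have h5 : Real.log ((s : ℝ) / P) = Real.log s - Real.log P :=
    Real.log_div hs0.ne' hP0.ne'
  have hsn : 0 ≤ (s : ℝ) - n := by linarith
  have h6 : ((s : ℝ) - n) * (n * (Real.log s - Real.log 12)) ≤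
      ((s : ℝ) - n) * (n * Real.log (((s : ℝ) - n) / 6)) := by
    apply mul_le_mul_of_nonneg_left _ hsn
    apply mul_le_mul_of_nonneg_left _ hn0
    linarith
  have h7 : ((s : ℝ) - n) * Real.log ((n : ℝ) + 1) ≤ s * n := by
    apply mul_le_mul _ h4 (Real.log_nonneg (by linarith)) hs0.le
    linarith
  have h8 : 0 ≤ (n : ℝ) * (n * Real.log 12) := by positivity
  have h9 : (s : ℝ) * (n * (Real.log s - Real.log P)) ≤
      s * ((C2 + Real.log 12 + 1) * n) + n * (lc + n * Real.log s) +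
        r * (s * Rt + (l / P + 1) * E) := by
    nlinarith
  rw [h5]
  have h10 : s * ((C0 + C2 + Real.log 12 + 1) * n + n / s * (lc + n * Real.log s) +
      r * (Rt + (l / P + 1) / s * E)) =
      s * ((C2 + Real.log 12 + 1) * n) + s * (C0 * n) + n * (lc + n * Real.log s) +
        r * (s * Rt + (l / P + 1) * E) := by
    field_simp
    ring
  have h11 : 0 ≤ (s : ℝ) * (C0 * n) := by positivity
  apply le_of_mul_le_mul_left _ hs0
  rw [h10]
  linarith

end Pool.Agent.LibER91
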