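import Pool.Agent.LibER91.Defs

/-!
Row N1 (SHORT/MEDIUM, only Mathlib): the API of the `l1` norm `nr ρ f = ∑ |coeff i| ρ ^ i` of a real polynomial and
of `nz ρ f = nr ρ (f.map)` for integral polynomials.

Plan. `nr_eq`: terms with index above `natDegree` vanish (`Finset.sum_subset` or `Finset.sum_range_succ`). Everything
else follows from `nr_eq` with a common bound of the degrees. `nr_mul_le`: coefficients of the product (`coeff_mul`),
triangle inequality and `Finset.Nat.sum_antidiagonal...`; an easier way: induct on `f` by `Polynomial.induction_on'`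
(monomials and sums), with `nr_add_le` and the case of a monomial. `nr_prod_le`, `nr_pow_le`: induction.
`abs_eval_le`: `Polynomial.eval_eq_sum_range`.
-/

set_option autoImplicit false

open Polynomial

namespace Pool.Agent.LibER91

theorem nr_eq (ρ : ℝ) (f : ℝ[X]) (n : ℕ) (hn : f.natDegree < n) :
    nr ρ f = ∑ i ∈ Finset.range n, |f.coeff i| * ρ ^ i := by
  unfold nr
  refine Finset.sum_subset (Finset.range_mono hn) fun i _ hi => ?_
  rw [Finset.mem_range, not_lt] at hi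
  rw [coeff_eq_zero_of_natDegree_lt (by omega), abs_zero, zero_mul]

theorem nr_nonneg (ρ : ℝ) (hρ : 0 ≤ ρ) (f : ℝ[X]) : 0 ≤ nr ρ f :=
  Finset.sum_nonneg fun _ _ => mul_nonneg (abs_nonneg _) (pow_nonneg hρ _)

theorem nr_add_le (ρ : ℝ) (hρ : 0 ≤ ρ) (f g : ℝ[X]) : nr ρ (f + g) ≤ nr ρ f + nr ρ g := by
  have h1 := natDegree_add_le f g
  have h2 := le_max_left f.natDegree g.natDegree
  have h3 := le_max_right f.natDegree g.natDegree
  rw [nr_eq ρ (f + g) (max f.natDegree g.natDegree + 1) (by omega),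
    nr_eq ρ f (max f.natDegree g.natDegree + 1) (by omega),
    nr_eq ρ g (max f.natDegree g.natDegree + 1) (by omega), ← Finset.sum_add_distrib]
  refine Finset.sum_le_sum fun i _ => ?_
  rw [coeff_add, ← add_mul]
  exact mul_le_mul_of_nonneg_right (abs_add_le _ _) (pow_nonneg hρ _)

private noncomputable def N1_abs (f : ℝ[X]) : ℝ[X] :=
  ∑ i ∈ Finset.range (f.natDegree + 1), monomial i |f.coeff i|

private theorem N1_abs_coeff (f : ℝ[X]) (i : ℕ) : (N1_abs f).coeff i = |f.coeff i| := by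
  unfold N1_abs
  rw [finsetSum_coeff]
  simp only [coeff_monomial]
  rw [Finset.sum_ite_eq' (Finset.range (f.natDegree + 1)) i (fun j => |f.coeff j|)]
  split_ifs with h
  · rfl
  · rw [Finset.mem_range, not_lt] at h
    rw [coeff_eq_zero_of_natDegree_lt (by omega), abs_zero]

private theorem N1_eval (ρ : ℝ) (f : ℝ[X]) : (N1_abs f).eval ρ = nr ρ f := by
  unfold N1_abs nr
  rw [eval_finsetSum]
  refine Finset.sum_congr rfl fun i _ => ?_
  rw [eval_monomial]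

theorem nr_mul_le (ρ : ℝ) (hρ : 0 ≤ ρ) (f g : ℝ[X]) : nr ρ (f * g) ≤ nr ρ f * nr ρ g := by
  rw [← N1_eval ρ f, ← N1_eval ρ g, ← eval_mul]
  obtain ⟨N, hN⟩ : ∃ N, N = max (f * g).natDegree (N1_abs f * N1_abs g).natDegree + 1 := ⟨_, rfl⟩
  have h2 := le_max_left (f * g).natDegree (N1_abs f * N1_abs g).natDegree
  have h3 := le_max_right (f * g).natDegree (N1_abs f * N1_abs g).natDegree
  rw [nr_eq ρ (f * g) N (by omega), eval_eq_sum_range' (n := N) (by omega)]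
  refine Finset.sum_le_sum fun k _ => mul_le_mul_of_nonneg_right ?_ (pow_nonneg hρ _)
  rw [coeff_mul, coeff_mul]
  refine (Finset.abs_sum_le_sum_abs _ _).trans (Finset.sum_le_sum fun x _ => ?_)
  rw [N1_abs_coeff, N1_abs_coeff, abs_mul]

theorem nr_neg (ρ : ℝ) (f : ℝ[X]) : nr ρ (-f) = nr ρ f := by
  unfold nr
  rw [natDegree_neg]
  refine Finset.sum_congr rfl fun i _ => ?_
  rw [coeff_neg, abs_neg]

theorem nr_C (ρ a : ℝ) : nr ρ (C a) = |a| := by
  unfold nr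
  rw [natDegree_C, zero_add, Finset.sum_range_one, coeff_C_zero, pow_zero, mul_one]

theorem nr_X (ρ : ℝ) : nr ρ (X : ℝ[X]) = ρ := by
  unfold nr
  rw [natDegree_X, Finset.sum_range_succ, Finset.sum_range_one, coeff_X_zero, coeff_X_one]
  simp

theorem nr_C_mul (ρ a : ℝ) (f : ℝ[X]) : nr ρ (C a * f) = |a| * nr ρ f := by
  have h1 := natDegree_C_mul_le a f
  rw [nr_eq ρ (C a * f) (f.natDegree + 1) (by omega)]
  unfold nr
  rw [Finset.mul_sum]
  refine Finset.sum_congr rfl fun i _ => ?_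
  rw [coeff_C_mul, abs_mul, mul_assoc]

theorem nr_sum_le {ι : Type} (ρ : ℝ) (hρ : 0 ≤ ρ) (s : Finset ι) (f : ι → ℝ[X]) :
    nr ρ (∑ i ∈ s, f i) ≤ ∑ i ∈ s, nr ρ (f i) := by
  classical
  induction s using Finset.induction_on with
  | empty =>
    rw [Finset.sum_empty, Finset.sum_empty, ← C_0, nr_C, abs_zero]
  | insert a s ha ih =>
    rw [Finset.sum_insert ha, Finset.sum_insert ha]
    exact (nr_add_le ρ hρ _ _).trans (add_le_add le_rfl ih)

theorem nr_prod_le {ι : Type} (ρ : ℝ) (hρ : 0 ≤ ρ) (s : Finset ι) (f : ι → ℝ[X]) :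
    nr ρ (∏ i ∈ s, f i) ≤ ∏ i ∈ s, nr ρ (f i) := by
  classical
  induction s using Finset.induction_on with
  | empty =>
    rw [Finset.prod_empty, Finset.prod_empty, ← C_1, nr_C, abs_one]
  | insert a s ha ih =>
    rw [Finset.prod_insert ha, Finset.prod_insert ha]
    exact (nr_mul_le ρ hρ _ _).trans (mul_le_mul_of_nonneg_left ih (nr_nonneg ρ hρ _))

theorem nr_pow_le (ρ : ℝ) (hρ : 0 ≤ ρ) (f : ℝ[X]) (n : ℕ) : nr ρ (f ^ n) ≤ nr ρ f ^ n := by
  induction n with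
  | zero => rw [pow_zero, pow_zero, ← C_1, nr_C, abs_one]
  | succ n ih =>
    rw [pow_succ, pow_succ]
    exact (nr_mul_le ρ hρ _ _).trans (mul_le_mul_of_nonneg_right ih (nr_nonneg ρ hρ _))

theorem abs_coeff_le (ρ : ℝ) (hρ : 0 ≤ ρ) (f : ℝ[X]) (i : ℕ) : |f.coeff i| * ρ ^ i ≤ nr ρ f := by
  rw [nr_eq ρ f (max i f.natDegree + 1) (by have := le_max_right i f.natDegree; omega)]
  exact Finset.single_le_sum (f := fun i => |f.coeff i| * ρ ^ i)
    (fun j _ => mul_nonneg (abs_nonneg _) (pow_nonneg hρ _))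
    (Finset.mem_range.2 (by have := le_max_left i f.natDegree; omega))

theorem abs_eval_le (ρ : ℝ) (f : ℝ[X]) (x : ℝ) (hx : |x| ≤ ρ) : |f.eval x| ≤ nr ρ f := by
  rw [eval_eq_sum_range]
  refine (Finset.abs_sum_le_sum_abs _ _).trans (Finset.sum_le_sum fun i _ => ?_)
  rw [abs_mul, abs_pow]
  exact mul_le_mul_of_nonneg_left (pow_le_pow_left₀ (abs_nonneg _) hx _) (abs_nonneg _)

theorem nr_mono (ρ ρ' : ℝ) (hρ : 0 ≤ ρ) (h : ρ ≤ ρ') (f : ℝ[X]) : nr ρ f ≤ nr ρ' f :=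
  Finset.sum_le_sum fun _ _ =>
    mul_le_mul_of_nonneg_left (pow_le_pow_left₀ hρ h _) (abs_nonneg _)

theorem nz_eq (ρ : ℝ) (f : ℤ[X]) (n : ℕ) (hn : f.natDegree < n) :
    nz ρ f = ∑ i ∈ Finset.range n, |(f.coeff i : ℝ)| * ρ ^ i := by
  unfold nz
  rw [nr_eq ρ _ n (lt_of_le_of_lt natDegree_map_le hn)]
  refine Finset.sum_congr rfl fun i _ => ?_
  rw [coeff_map]
  rfl

theorem abs_coeff_int_le (ρ : ℝ) (hρ : 1 ≤ ρ) (f : ℤ[X]) (i : ℕ) : |(f.coeff i : ℝ)| ≤ nz ρ f := by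
  have h1 := abs_coeff_le ρ (by linarith) (f.map (Int.castRingHom ℝ)) i
  rw [coeff_map] at h1
  refine le_trans ?_ h1
  show |(f.coeff i : ℝ)| ≤ |(f.coeff i : ℝ)| * ρ ^ i
  exact le_mul_of_one_le_right (abs_nonneg _) (one_le_pow₀ hρ)

theorem nz_nonneg (ρ : ℝ) (hρ : 0 ≤ ρ) (f : ℤ[X]) : 0 ≤ nz ρ f := nr_nonneg ρ hρ _

theorem abs_eval_int_le (ρ : ℝ) (f : ℤ[X]) (x : ℤ) (hx : |(x : ℝ)| ≤ ρ) :
    |((f.eval x : ℤ) : ℝ)| ≤ nz ρ f := by
  have h1 := abs_eval_le ρ (f.map (Int.castRingHom ℝ)) x hx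
  rw [eval_intCast_map] at h1
  unfold nz
  simpa using h1

/-- The variation of a polynomial under a small shift. -/
theorem nz_shift (ρ : ℝ) (hρ : 1 ≤ ρ) (f : ℤ[X]) (D : ℕ) (hf : f.natDegree ≤ D) (x δ : ℝ)
    (hx : |x| ≤ ρ) (hδ : |x - δ| ≤ ρ) :
    |(f.map (Int.castRingHom ℝ)).eval (x - δ) - (f.map (Int.castRingHom ℝ)).eval x| ≤
      |δ| * D * nz ρ f := by
  have hd : (f.map (Int.castRingHom ℝ)).natDegree < D + 1 :=
    lt_of_le_of_lt natDegree_map_le (by omega)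
  rw [eval_eq_sum_range' hd, eval_eq_sum_range' hd, ← Finset.sum_sub_distrib]
  unfold nz
  rw [nr_eq ρ _ (D + 1) hd, Finset.mul_sum]
  refine (Finset.abs_sum_le_sum_abs _ _).trans (Finset.sum_le_sum fun i hi => ?_)
  rw [Finset.mem_range] at hi
  rw [← mul_sub, abs_mul]
  have h1 := abs_pow_sub_pow_le (x - δ) x i
  have h2 : |x - δ - x| = |δ| := by
    rw [sub_sub_cancel_left, abs_neg]
  rw [h2] at h1
  have h3 : max |x - δ| |x| ^ (i - 1) ≤ ρ ^ i := by
    refine (pow_le_pow_left₀ (le_max_of_le_left (abs_nonneg _)) (max_le hδ hx) _).trans ?_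
    exact pow_le_pow_right₀ hρ (by omega)
  have h4 : (i : ℝ) ≤ D := by exact_mod_cast (by omega : i ≤ D)
  have h5 : |(x - δ) ^ i - x ^ i| ≤ |δ| * D * ρ ^ i := by
    refine h1.trans ?_
    refine mul_le_mul ?_ h3 (by positivity) (by positivity)
    exact mul_le_mul_of_nonneg_left h4 (abs_nonneg _)
  calc |(f.map (Int.castRingHom ℝ)).coeff i| * |(x - δ) ^ i - x ^ i|
      ≤ |(f.map (Int.castRingHom ℝ)).coeff i| * (|δ| * D * ρ ^ i) :=
        mul_le_mul_of_nonneg_left h5 (abs_nonneg _)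
    _ = |δ| * D * (|(f.map (Int.castRingHom ℝ)).coeff i| * ρ ^ i) := by ring

end Pool.Agent.LibER91
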