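import Pool.Agent.LibER91.N1

/-!
Row N2 (MEDIUM, Mathlib + API N1): Gelfond's inequality on the disc of radius `ρ`.

Plan. For an integral polynomial `F` put `F' = (F.map (Int.castRingHom ℂ)).comp (C (ρ : ℂ) * X)`; its coefficients are
`F.coeff i * ρ ^ i` (`Polynomial.comp_C_mul_X_coeff`), so `nz ρ F = ∑ ‖F'.coeff i‖`. Mathlib
(`Mathlib/Analysis/Polynomial/MahlerMeasure.lean`): `mahlerMeasure_mul`, `leadingCoeff_le_mahlerMeasure`,
`mahlerMeasure_le_sum_norm_coeff`, `norm_coeff_le_choose_mul_mahlerMeasure n p : ‖p.coeff n‖ ≤ choose (natDegree) n * M p`.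
Then `nz ρ A ≤ 2 ^ natDegree A * M(A')` (sum of the binomial coefficients), `M(g') ≥ ‖lc g'‖ = |lc g| ρ ^ natDegree g ≥
ρ ^ natDegree g` since `lc g` is a nonzero integer, and `M(A') M(g') = M((g A)') ≤ nz ρ (g * A)`.
-/

set_option autoImplicit false

open Polynomial

namespace Pool.Agent.LibER91

/-- The scaled complex polynomial. -/
private noncomputable def N2_sc (ρ : ℝ) (F : ℤ[X]) : ℂ[X] :=
  (F.map (Int.castRingHom ℂ)).comp (C (ρ : ℂ) * X)

private lemma N2_coeff (ρ : ℝ) (F : ℤ[X]) (i : ℕ) :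
    (N2_sc ρ F).coeff i = (F.coeff i : ℂ) * (ρ : ℂ) ^ i := by
  unfold N2_sc
  rw [comp_C_mul_X_coeff, coeff_map]
  simp

private lemma N2_norm_coeff (ρ : ℝ) (hρ : 0 < ρ) (F : ℤ[X]) (i : ℕ) :
    ‖(N2_sc ρ F).coeff i‖ = |(F.coeff i : ℝ)| * ρ ^ i := by
  rw [N2_coeff, norm_mul, norm_pow, Complex.norm_real, Real.norm_of_nonneg hρ.le]
  congr 1
  rw [← Complex.ofReal_intCast, Complex.norm_real, Real.norm_eq_abs]

private lemma N2_natDegree (ρ : ℝ) (hρ : 0 < ρ) (F : ℤ[X]) :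
    (N2_sc ρ F).natDegree = F.natDegree := by
  unfold N2_sc
  have h0 : (C (ρ : ℂ) * X : ℂ[X]).natDegree = 1 := natDegree_C_mul_X _ (by exact_mod_cast hρ.ne')
  rw [natDegree_comp, h0, mul_one, natDegree_map_eq_of_injective]
  intro a b hab
  simpa using hab

private lemma N2_nz (ρ : ℝ) (hρ : 0 < ρ) (F : ℤ[X]) :
    nz ρ F = ∑ i ∈ Finset.range (F.natDegree + 1), ‖(N2_sc ρ F).coeff i‖ := by
  rw [nz_eq ρ F (F.natDegree + 1) (by omega)]
  refine Finset.sum_congr rfl fun i _ => ?_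
  rw [N2_norm_coeff ρ hρ F i]

private lemma N2_le_mahler (ρ : ℝ) (hρ : 0 < ρ) (F : ℤ[X]) :
    nz ρ F ≤ 2 ^ F.natDegree * (N2_sc ρ F).mahlerMeasure := by
  rw [N2_nz ρ hρ F]
  have h1 : ∀ i ∈ Finset.range (F.natDegree + 1),
      ‖(N2_sc ρ F).coeff i‖ ≤ (F.natDegree.choose i : ℝ) * (N2_sc ρ F).mahlerMeasure := by
    intro i _
    have := norm_coeff_le_choose_mul_mahlerMeasure i (N2_sc ρ F)
    rwa [N2_natDegree ρ hρ F] at this
  refine (Finset.sum_le_sum h1).trans ?_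
  rw [← Finset.sum_mul]
  refine mul_le_mul_of_nonneg_right ?_ (mahlerMeasure_nonneg _)
  have := Nat.sum_range_choose F.natDegree
  exact_mod_cast this.le

private lemma N2_mahler_le (ρ : ℝ) (hρ : 0 < ρ) (F : ℤ[X]) :
    (N2_sc ρ F).mahlerMeasure ≤ nz ρ F := by
  refine (mahlerMeasure_le_sum_norm_coeff _).trans ?_
  rw [N2_nz ρ hρ F, sum_over_range _ (fun _ => norm_zero), N2_natDegree ρ hρ F]

private lemma N2_lc (ρ : ℝ) (hρ : 0 < ρ) (g : ℤ[X]) (hg : g ≠ 0) :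
    ρ ^ g.natDegree ≤ (N2_sc ρ g).mahlerMeasure := by
  refine le_trans ?_ (leadingCoeff_le_mahlerMeasure _)
  rw [leadingCoeff, N2_natDegree ρ hρ g, N2_norm_coeff ρ hρ g]
  have h1 : (1 : ℝ) ≤ |(g.coeff g.natDegree : ℝ)| := by
    have h2 : g.coeff g.natDegree ≠ 0 := by
      rw [coeff_natDegree]
      exact leadingCoeff_ne_zero.2 hg
    have h3 := Int.one_le_abs h2
    exact_mod_cast h3
  have h4 : 0 ≤ ρ ^ g.natDegree := by positivity
  nlinarith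

theorem gelfond (ρ : ℝ) (hρ : 0 < ρ) (g A : ℤ[X]) (hg : g ≠ 0) :
    nz ρ A * ρ ^ g.natDegree ≤ 2 ^ A.natDegree * nz ρ (g * A) := by
  have h1 := N2_le_mahler ρ hρ A
  have h2 := N2_lc ρ hρ g hg
  have h3 : (N2_sc ρ (g * A)).mahlerMeasure =
      (N2_sc ρ g).mahlerMeasure * (N2_sc ρ A).mahlerMeasure := by
    rw [← mahlerMeasure_mul]
    congr 1
    unfold N2_sc
    rw [Polynomial.map_mul, mul_comp]
  have h4 := N2_mahler_le ρ hρ (g * A)
  have h5 : 0 ≤ (N2_sc ρ A).mahlerMeasure := mahlerMeasure_nonneg _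
  have h6 : 0 ≤ ρ ^ g.natDegree := by positivity
  calc nz ρ A * ρ ^ g.natDegree
      ≤ (2 ^ A.natDegree * (N2_sc ρ A).mahlerMeasure) * ρ ^ g.natDegree :=
        mul_le_mul_of_nonneg_right h1 h6
    _ ≤ (2 ^ A.natDegree * (N2_sc ρ A).mahlerMeasure) * (N2_sc ρ g).mahlerMeasure :=
        mul_le_mul_of_nonneg_left h2 (by positivity)
    _ = 2 ^ A.natDegree * (N2_sc ρ (g * A)).mahlerMeasure := by rw [h3]; ring
    _ ≤ 2 ^ A.natDegree * nz ρ (g * A) := mul_le_mul_of_nonneg_left h4 (by positivity)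

end Pool.Agent.LibER91
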