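import Pool.Agent.LibER91.U2

/-!
Row U3 (MEDIUM): the hypotheses of `relation` (file B2) with `a = (7/5) L`, `κ = (101/100) L`, `m = mP`, `ρ = rhoP`.

Plan. `log (2 R0 (e Z)^m) = log (2 R0) + m (1 + log Z)` (`Real.log_mul`, `Real.log_pow`, `Real.log_exp`), `log (2 R0) ≤ log 2 +
10^-4 log T ≤ log 2 + (9/4) 10^-4 L ≤ L/1000` for large `T` (U1 with a large `K`). So with U2: `log M1 ≤ L/400`,
`log M2 - m betaP ≤ L/400`.
(κ) `η = exp(-L)/4`, `1/η = 4 exp L`, `log (4 m M2 / η) = log (16 m) + L + log M2 ≤ L + log (16 m) + L/400 + m betaP`,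
`m betaP ≤ 13 L + 13 log T ≤ 43 L`; so the left side is `≤ 64 m e^L (60 L / betaP + 2) ≤ C L^2 e^L ≤ e^(1.01 L)` (`m ≤ C L`,
`betaP ≥ ε/2`; U1: `K log L ≤ L`).
(Y) `Y := max 0 (...) ≤ (1.4 + 1.01 + 0.0025) L = 2.4125 L`. Left side `≤ 1.0125 m L + 2.4125^2/2 L^2/betaP + 2.4125 L`, and
`m (1.4 - 1.0125) L ≥ 0.3875 (13 L / betaP + 12) L = 5.03 L^2/betaP + 4.65 L`: strictly larger.
(pert) `4 R0 m^2 e^(1.4 L) E1 e^(-0.9 r L) ≤ e^(-L)/4`: `r ≥ 3` gives the exponent `-0.3 L` against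
`log (16 R0 m^2) + L/800 ≤ 0.2 L`.
-/

set_option autoImplicit false

namespace Pool.Agent.LibER91

private theorem U3_logM (m : ℕ) (R0 Z : ℝ) (hR : 1 ≤ R0) (hZ : 0 < Z) :
    Real.log (2 * R0 * (Real.exp 1 * Z) ^ m) = Real.log (2 * R0) + m * (1 + Real.log Z) := by
  have h1 : 0 < Real.exp 1 * Z := mul_pos (Real.exp_pos 1) hZ
  have h2 : (2 * R0 : ℝ) ≠ 0 := by
    have : 0 < 2 * R0 := by linarith
    exact this.ne'
  rw [Real.log_mul h2 (pow_pos h1 m).ne', Real.log_pow, Real.log_mul (Real.exp_pos 1).ne' hZ.ne', Real.log_exp]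

private theorem U3_log2R (L lt R0 : ℝ) (hR : 1 ≤ R0) (hRl : Real.log R0 ≤ 1 / 10 ^ 4 * lt)
    (hlt : lt ≤ 9 / 4 * L) (hL : 10 ^ 5 ≤ L) : Real.log (2 * R0) ≤ L / 1000 := by
  rw [Real.log_mul two_ne_zero (by linarith : (0 : ℝ) < R0).ne']
  have h1 : Real.log 2 ≤ 1 := by
    have := Real.log_two_lt_d9
    linarith
  linarith

private theorem U3_kappa (m : ℕ) (L lt β R0 Z2 ε C1 : ℝ) (hε : 0 < ε) (hC1 : 0 < C1) (hm : 12 ≤ (m : ℝ))
    (hm2 : (m : ℝ) ≤ 13 * L / β + 13) (hβ : 0 < β) (hβl : β ≤ lt) (hβ2 : ε / 2 * lt ≤ β) (hlt1 : 1 ≤ lt)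
    (hlt : lt ≤ 9 / 4 * L) (hL : 10 ^ 5 ≤ L) (hmlt : (m : ℝ) * lt ≤ C1 * L) (hR : 1 ≤ R0)
    (hRl : Real.log R0 ≤ 1 / 10 ^ 4 * lt) (hZ2 : 0 < Z2)
    (h2 : (m : ℝ) * (1 + Real.log Z2) - m * β ≤ L / 800)
    (hlL : 10 ^ 5 * Real.log L ≤ L) (hlC1 : 1000 * Real.log (16 * C1) ≤ L)
    (hlC2 : 1000 * Real.log (64 * C1 * (92 / ε + 2)) ≤ L) :
    16 * (m : ℝ) * ((7 / 5 * L + Real.log (4 * (m : ℝ) * (2 * R0 * (Real.exp 1 * Z2) ^ m) /
      (Real.exp (-L) / 4))) / β + 2) / (Real.exp (-L) / 4) ≤ Real.exp (101 / 100 * L) := by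
  have hL0 : 0 < L := by linarith
  have hm0 : 0 < (m : ℝ) := by linarith
  have hmC : (m : ℝ) ≤ C1 * L := by
    have : (m : ℝ) * 1 ≤ m * lt := mul_le_mul_of_nonneg_left hlt1 hm0.le
    linarith
  have hR2 := U3_log2R L lt R0 hR hRl hlt hL
  have hM := U3_logM m R0 Z2 hR hZ2
  have hMpos : 0 < 2 * R0 * (Real.exp 1 * Z2) ^ m :=
    mul_pos (by linarith) (pow_pos (mul_pos (Real.exp_pos 1) hZ2) m)
  have hlog16 : Real.log (16 * (m : ℝ)) ≤ L / 500 := by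
    have h3 : Real.log (16 * (m : ℝ)) ≤ Real.log (16 * C1 * L) := by
      apply Real.log_le_log (by linarith)
      linarith
    rw [Real.log_mul (by linarith : (0 : ℝ) < 16 * C1).ne' hL0.ne'] at h3
    linarith
  have hX : Real.log (4 * (m : ℝ) * (2 * R0 * (Real.exp 1 * Z2) ^ m) / (Real.exp (-L) / 4)) =
      Real.log (16 * (m : ℝ)) + L + (Real.log (2 * R0) + m * (1 + Real.log Z2)) := by
    have e1 : 4 * (m : ℝ) * (2 * R0 * (Real.exp 1 * Z2) ^ m) / (Real.exp (-L) / 4) =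
        (16 * (m : ℝ)) * Real.exp L * (2 * R0 * (Real.exp 1 * Z2) ^ m) := by
      rw [Real.exp_neg]
      field_simp
      ring
    rw [e1, Real.log_mul (mul_pos (by linarith) (Real.exp_pos L)).ne' hMpos.ne',
      Real.log_mul (by linarith : (0 : ℝ) < 16 * m).ne' (Real.exp_pos L).ne', Real.log_exp, hM]
  rw [hX]
  have hmβ : (m : ℝ) * β ≤ 43 * L := by
    have h4 : (m : ℝ) * β ≤ (13 * L / β + 13) * β := mul_le_mul_of_nonneg_right hm2 hβ.le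
    have h5 : (13 * L / β + 13) * β = 13 * L + 13 * β := by
      field_simp
    linarith
  have hW : (7 / 5 * L + (Real.log (16 * (m : ℝ)) + L + (Real.log (2 * R0) + m * (1 + Real.log Z2)))) / β + 2 ≤
      (92 / ε + 2) * L := by
    have h6 : 7 / 5 * L + (Real.log (16 * (m : ℝ)) + L + (Real.log (2 * R0) + m * (1 + Real.log Z2))) ≤
        46 * L := by linarith
    have h7 : (7 / 5 * L + (Real.log (16 * (m : ℝ)) + L + (Real.log (2 * R0) + m * (1 + Real.log Z2)))) / β ≤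
        46 * L / β := div_le_div_of_nonneg_right h6 hβ.le
    have h8 : 46 * L / β ≤ 46 * L / (ε / 2) := by
      apply div_le_div_of_nonneg_left (by linarith) (by linarith)
      have : ε / 2 * 1 ≤ ε / 2 * lt := mul_le_mul_of_nonneg_left hlt1 (by linarith)
      linarith
    have h9 : 46 * L / (ε / 2) = 92 / ε * L := by
      field_simp
      ring
    have : (92 / ε + 2) * L = 92 / ε * L + 2 * L := by ring
    rw [this]
    linarith
  have hC2 : 0 < 64 * C1 * (92 / ε + 2) := by positivity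
  have hfin : 64 * C1 * (92 / ε + 2) * L ^ 2 * Real.exp L ≤ Real.exp (101 / 100 * L) := by
    have e2 : 64 * C1 * (92 / ε + 2) * L ^ 2 * Real.exp L =
        Real.exp (Real.log (64 * C1 * (92 / ε + 2)) + 2 * Real.log L + L) := by
      rw [Real.exp_add, Real.exp_add, Real.exp_log hC2]
      congr 2
      rw [show (2 : ℝ) * Real.log L = ((2 : ℕ) : ℝ) * Real.log L by norm_num, ← Real.log_pow,
        Real.exp_log (pow_pos hL0 2)]
    rw [e2]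
    apply Real.exp_le_exp.mpr
    linarith
  refine le_trans ?_ hfin
  have e3 : ∀ W : ℝ, 16 * (m : ℝ) * W / (Real.exp (-L) / 4) = 64 * (m * W) * Real.exp L := by
    intro W
    rw [Real.exp_neg]
    field_simp
    ring
  rw [e3]
  refine mul_le_mul_of_nonneg_right ?_ (Real.exp_pos L).le
  have hq : 0 ≤ (92 / ε + 2) * L := by positivity
  have h10 := mul_le_mul_of_nonneg_left hW hm0.le
  have h11 : (m : ℝ) * ((92 / ε + 2) * L) ≤ C1 * L * ((92 / ε + 2) * L) := mul_le_mul_of_nonneg_right hmC hq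
  have e4 : 64 * C1 * (92 / ε + 2) * L ^ 2 = 64 * (C1 * L * ((92 / ε + 2) * L)) := by ring
  rw [e4]
  linarith

private theorem U3_Y (m : ℕ) (L lt β R0 Z1 Z2 : ℝ) (hm : 12 ≤ (m : ℝ))
    (hm1 : 13 * L / β + 12 ≤ (m : ℝ)) (hβ : 0 < β)
    (hlt : lt ≤ 9 / 4 * L) (hL : 10 ^ 5 ≤ L) (hR : 1 ≤ R0)
    (hRl : Real.log R0 ≤ 1 / 10 ^ 4 * lt) (hZ1 : 0 < Z1) (hZ2 : 0 < Z2)
    (h1 : (m : ℝ) * (1 + Real.log Z1) ≤ L / 800)
    (h2 : (m : ℝ) * (1 + Real.log Z2) - m * β ≤ L / 800) :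
    (m : ℝ) * (101 / 100 * L + Real.log (2 * R0 * (Real.exp 1 * Z1) ^ m)) +
      max 0 (7 / 5 * L + 101 / 100 * L + Real.log (2 * R0 * (Real.exp 1 * Z2) ^ m) - m * β) ^ 2 / (2 * β) +
      max 0 (7 / 5 * L + 101 / 100 * L + Real.log (2 * R0 * (Real.exp 1 * Z2) ^ m) - m * β) <
      m * (7 / 5 * L) := by
  have hL0 : 0 < L := by linarith
  have hm0 : 0 < (m : ℝ) := by linarith
  have hR2 := U3_log2R L lt R0 hR hRl hlt hL
  rw [U3_logM m R0 Z1 hR hZ1, U3_logM m R0 Z2 hR hZ2]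
  obtain ⟨Y, hY⟩ : ∃ Y, Y = max 0 (7 / 5 * L + 101 / 100 * L + (Real.log (2 * R0) + m * (1 + Real.log Z2)) - m * β) :=
    ⟨_, rfl⟩
  rw [← hY]
  have hY0 : 0 ≤ Y := by rw [hY]; exact le_max_left _ _
  have hY1 : Y ≤ 2.4125 * L := by
    rw [hY]
    apply max_le
    · positivity
    · linarith
  have hY2 : Y ^ 2 ≤ (2.4125 * L) ^ 2 := pow_le_pow_left₀ hY0 hY1 2
  have hY3 : Y ^ 2 / (2 * β) ≤ 2.92 * (L ^ 2 / β) := by
    have h3 : Y ^ 2 / (2 * β) ≤ (2.4125 * L) ^ 2 / (2 * β) := div_le_div_of_nonneg_right hY2 (by linarith)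
    have h4 : (2.4125 * L) ^ 2 / (2 * β) = (2.4125 ^ 2 / 2) * (L ^ 2 / β) := by
      field_simp
    have h5 : 0 ≤ L ^ 2 / β := by positivity
    have h6 : (2.4125 ^ 2 / 2 : ℝ) ≤ 2.92 := by norm_num
    have h7 : (2.4125 ^ 2 / 2 : ℝ) * (L ^ 2 / β) ≤ 2.92 * (L ^ 2 / β) := mul_le_mul_of_nonneg_right h6 h5
    linarith
  have h8 : (m : ℝ) * (101 / 100 * L + (Real.log (2 * R0) + m * (1 + Real.log Z1))) ≤ m * (1.0125 * L) := by
    apply mul_le_mul_of_nonneg_left _ hm0.le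
    linarith
  have h9 : (13 * L / β + 12) * (0.3875 * L) ≤ m * (0.3875 * L) :=
    mul_le_mul_of_nonneg_right hm1 (by positivity)
  have h10 : (13 * L / β + 12) * (0.3875 * L) = 5.0375 * (L ^ 2 / β) + 4.65 * L := by
    field_simp
    ring
  have h11 : 0 < L ^ 2 / β := by positivity
  have h12 : (m : ℝ) * (7 / 5 * L) = m * (1.0125 * L) + m * (0.3875 * L) := by ring
  rw [h12]
  linarith

private theorem U3_pert (r : ℕ) (hr : 3 ≤ r) (m : ℕ) (L lt R0 Z1 C1 : ℝ) (hC1 : 0 < C1) (hm : 12 ≤ (m : ℝ))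
    (hlt1 : 1 ≤ lt)
    (hlt : lt ≤ 9 / 4 * L) (hL : 10 ^ 5 ≤ L) (hmlt : (m : ℝ) * lt ≤ C1 * L) (hR : 1 ≤ R0)
    (hRl : Real.log R0 ≤ 1 / 10 ^ 4 * lt) (hZ1 : 0 < Z1)
    (h1 : (m : ℝ) * (1 + Real.log Z1) ≤ L / 800)
    (hlL : 10 ^ 5 * Real.log L ≤ L) (hlC1 : 1000 * Real.log (16 * C1) ≤ L) :
    4 * R0 * (m : ℝ) ^ 2 * Real.exp (7 / 5 * L) * (Real.exp 1 * Z1) ^ m * Real.exp (-(9 / 10 * r * L)) ≤
      Real.exp (-L) / 4 := by
  have hL0 : 0 < L := by linarith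
  have hm0 : 0 < (m : ℝ) := by linarith
  have hmC : (m : ℝ) ≤ C1 * L := by
    have : (m : ℝ) * 1 ≤ m * lt := mul_le_mul_of_nonneg_left hlt1 hm0.le
    linarith
  have hlog16 : Real.log (16 * (m : ℝ)) ≤ L / 500 := by
    have h3 : Real.log (16 * (m : ℝ)) ≤ Real.log (16 * C1 * L) := by
      apply Real.log_le_log (by linarith)
      linarith
    rw [Real.log_mul (by linarith : (0 : ℝ) < 16 * C1).ne' hL0.ne'] at h3
    linarith
  have e1 : (m : ℝ) ^ 2 * 16 ≤ Real.exp (L / 100) := by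
    have e2 : (m : ℝ) ^ 2 * 16 ≤ (16 * m) ^ 2 := by nlinarith [sq_nonneg (m : ℝ)]
    refine e2.trans ?_
    rw [← Real.exp_log (pow_pos (by linarith : (0 : ℝ) < 16 * m) 2), Real.log_pow]
    apply Real.exp_le_exp.mpr
    push_cast
    linarith
  have e3 : R0 ≤ Real.exp (L / 100) := by
    rw [← Real.exp_log (by linarith : 0 < R0)]
    apply Real.exp_le_exp.mpr
    linarith
  have e4 : (Real.exp 1 * Z1) ^ m ≤ Real.exp (L / 800) := by
    rw [← Real.exp_log (pow_pos (mul_pos (Real.exp_pos 1) hZ1) m), Real.log_pow,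
      Real.log_mul (Real.exp_pos 1).ne' hZ1.ne', Real.log_exp]
    exact Real.exp_le_exp.mpr h1
  have e5 : Real.exp (-(9 / 10 * r * L)) ≤ Real.exp (-(27 / 10 * L)) := by
    apply Real.exp_le_exp.mpr
    have hr' : (3 : ℝ) ≤ r := by exact_mod_cast hr
    have : 3 * L ≤ r * L := mul_le_mul_of_nonneg_right hr' hL0.le
    nlinarith
  have e6 : 4 * R0 * (m : ℝ) ^ 2 * Real.exp (7 / 5 * L) * (Real.exp 1 * Z1) ^ m * Real.exp (-(9 / 10 * r * L)) =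
      (R0 * ((m : ℝ) ^ 2 * 16) * (Real.exp 1 * Z1) ^ m * Real.exp (-(9 / 10 * r * L)) * Real.exp (7 / 5 * L)) / 4 := by
    ring
  rw [e6]
  apply div_le_div_of_nonneg_right _ (by norm_num : (0 : ℝ) ≤ 4)
  have e7 : R0 * ((m : ℝ) ^ 2 * 16) ≤ Real.exp (L / 100) * Real.exp (L / 100) :=
    mul_le_mul e3 e1 (by positivity) (Real.exp_pos _).le
  have e8 : R0 * ((m : ℝ) ^ 2 * 16) * (Real.exp 1 * Z1) ^ m ≤
      Real.exp (L / 100) * Real.exp (L / 100) * Real.exp (L / 800) :=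
    mul_le_mul e7 e4 (pow_nonneg (mul_pos (Real.exp_pos 1) hZ1).le m) (by positivity)
  have e9 : R0 * ((m : ℝ) ^ 2 * 16) * (Real.exp 1 * Z1) ^ m * Real.exp (-(9 / 10 * r * L)) ≤
      Real.exp (L / 100) * Real.exp (L / 100) * Real.exp (L / 800) * Real.exp (-(27 / 10 * L)) :=
    mul_le_mul e8 e5 (Real.exp_pos _).le (by positivity)
  refine (mul_le_mul_of_nonneg_right e9 (Real.exp_pos _).le).trans ?_
  rw [← Real.exp_add, ← Real.exp_add, ← Real.exp_add, ← Real.exp_add]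
  apply Real.exp_le_exp.mpr
  linarith

theorem u_relation (r : ℕ) (hr : 3 ≤ r) (ε : ℝ) (h0 : 0 < ε) (h1 : ε < 1) : ∃ T0 : ℝ, 1 < T0 ∧
    ∀ T : ℝ, T0 ≤ T → ∀ R0 : ℝ, 1 ≤ R0 → R0 ≤ T ^ (1 / 10 ^ 4 : ℝ) → ∀ L : ℝ,
    4 / 9 * Real.log T ≤ L → L ≤ T ^ (1 - ε) →
    (16 * mP ε T L * ((7 / 5 * L + Real.log (4 * mP ε T L * (2 * R0 *
      (Real.exp 1 * ((2 ^ r * T + 2) / mP ε T L + 1)) ^ mP ε T L) /
      (Real.exp (-L) / 4))) / (-Real.log (rhoP ε T L)) + 2) / (Real.exp (-L) / 4) ≤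
      Real.exp (101 / 100 * L)) ∧
    (mP ε T L * (101 / 100 * L + Real.log (2 * R0 *
      (Real.exp 1 * ((2 ^ r * T * rhoP ε T L + 2) / mP ε T L + 1)) ^ mP ε T L)) +
      max 0 (7 / 5 * L + 101 / 100 * L + Real.log (2 * R0 *
        (Real.exp 1 * ((2 ^ r * T + 2) / mP ε T L + 1)) ^ mP ε T L) -
        mP ε T L * (-Real.log (rhoP ε T L))) ^ 2 / (2 * (-Real.log (rhoP ε T L))) +
      max 0 (7 / 5 * L + 101 / 100 * L + Real.log (2 * R0 *
        (Real.exp 1 * ((2 ^ r * T + 2) / mP ε T L + 1)) ^ mP ε T L) -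
        mP ε T L * (-Real.log (rhoP ε T L))) < mP ε T L * (7 / 5 * L)) ∧
    (4 * R0 * (mP ε T L : ℝ) ^ 2 * Real.exp (7 / 5 * L) *
      (Real.exp 1 * ((2 ^ r * T * rhoP ε T L + 2) / mP ε T L + 1)) ^ mP ε T L *
      Real.exp (-(9 / 10 * r * L)) ≤ Real.exp (-L) / 4) := by
  obtain ⟨C1, hC1d⟩ : ∃ C1 : ℝ, C1 = 26 / ε + 30 := ⟨_, rfl⟩
  have hC1 : 0 < C1 := by rw [hC1d]; positivity
  obtain ⟨K, hK⟩ : ∃ K : ℝ, K = 10 ^ 5 + 1000 * |Real.log (16 * C1)| +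
    1000 * |Real.log (64 * C1 * (92 / ε + 2))| := ⟨_, rfl⟩
  have a1 := abs_nonneg (Real.log (16 * C1))
  have a2 := abs_nonneg (Real.log (64 * C1 * (92 / ε + 2)))
  have b1 := le_abs_self (Real.log (16 * C1))
  have b2 := le_abs_self (Real.log (64 * C1 * (92 / ε + 2)))
  obtain ⟨T1, hT1, H1⟩ := u_basic ε h0 h1 K
  obtain ⟨T2, hT2, H2⟩ := u_norms r ε h0 h1
  refine ⟨max T1 T2, lt_of_lt_of_le hT1 (le_max_left _ _), ?_⟩
  intro T hT R0 hR hR' L hL1 hL2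
  have hTT1 : T1 ≤ T := (le_max_left _ _).trans hT
  have hTT2 : T2 ≤ T := (le_max_right _ _).trans hT
  obtain ⟨g1, g2, g3, g4, g5, g6, g7, g8, g9, g10, g11, g12, g13, g14, g15⟩ := H1 T hTT1 L hL1 hL2
  obtain ⟨k1, k2⟩ := H2 T hTT2 L hL1 hL2
  have hT0 : 0 < T := by linarith
  have hbeta : betaP ε T L = -Real.log (rhoP ε T L) := rfl
  have hβpos : 0 < betaP ε T L := by
    have : 0 < ε / 2 * Real.log T := by positivity
    linarith
  have hL5 : 10 ^ 5 ≤ L := by linarith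
  have hm12 : 12 ≤ (mP ε T L : ℝ) := by
    have : 0 ≤ 13 * L / betaP ε T L := by positivity
    linarith
  have hlogL : 0 ≤ Real.log L := Real.log_nonneg g4
  have hlL : 10 ^ 5 * Real.log L ≤ L := by
    have : 10 ^ 5 * Real.log L ≤ K * Real.log L := by
      apply mul_le_mul_of_nonneg_right _ hlogL
      linarith
    linarith
  have hRl : Real.log R0 ≤ 1 / 10 ^ 4 * Real.log T := by
    rw [← Real.log_rpow hT0]
    exact Real.log_le_log (by linarith) hR'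
  have hlt : Real.log T ≤ 9 / 4 * L := by linarith
  rw [← hC1d] at g13
  have hmpos : 0 < (mP ε T L : ℝ) := by linarith
  have hZ1 : 0 < (2 ^ r * T * rhoP ε T L + 2) / mP ε T L + 1 := by positivity
  have hZ2 : 0 < (2 ^ r * T + 2) / mP ε T L + 1 := by positivity
  rw [← hbeta]
  refine ⟨?_, ?_, ?_⟩
  · exact U3_kappa (mP ε T L) L (Real.log T) (betaP ε T L) R0 _ ε C1 h0 hC1 hm12 g12 hβpos g10 g9 g3 hlt hL5
      g13 hR hRl hZ2 k2 hlL (by linarith) (by linarith)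
  · exact U3_Y (mP ε T L) L (Real.log T) (betaP ε T L) R0 _ _ hm12 g11 hβpos hlt hL5 hR hRl hZ1 hZ2 k1 k2
  · exact U3_pert r hr (mP ε T L) L (Real.log T) R0 _ C1 hC1 hm12 g3 hlt hL5 g13 hR hRl hZ1 k1 hlL (by linarith)

end Pool.Agent.LibER91
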