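import Pool.Agent.LibER91.U1

/-!
Row U4 (MEDIUM): the cardinality conditions. `s` is the number of elements of `S` (after removing at most `mP` elements
from a set with more than `L T^c T^(-δ)` elements), `c = cP ε`, `δ = deltaP r ε ≤ min (10^-4) (c/8)`.

Plan. `mP log T ≤ (26/ε+30) L` gives `mP ≤ (1/4) L T^(c-δ)` for large `T` (`T^(c-δ) ≥ T^(c/2)`, U1). So `s ≥ (3/4) L T^(c-δ)`.
`r mP + 2 ≤ s`, `2 (r mP + 1) ≤ s`, `radP ≤ T`, `mP ≤ radP`. `T (3 ρ)^r ≤ 3^r T ρ^2` (`ρ = rhoP ≤ 1`, `r ≥ 2`),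
`T ρ^2 = L T^c ρ ≤ L T^c T^(-ε/2)` (U1), which is `< s - 2` since `δ < ε/4`.
`4 ≤ exp (9/10 r L)`. `⌈D T^(c/2)⌉₊ ≤ s` for `D ≤ mP`.
-/

set_option autoImplicit false

namespace Pool.Agent.LibER91

private theorem U4_delta (r : ℕ) (ε : ℝ) (h0 : 0 < ε) (h1 : ε < 1) :
    deltaP r ε ≤ cP ε / 8 ∧ 0 ≤ deltaP r ε := by
  have hc : 0 < cP ε := by unfold cP; positivity
  have hc1 : cP ε ≤ 1 := by unfold cP; rw [div_le_one (by positivity)]; linarith
  have hC3 : 28 ≤ C3P r := by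
    unfold C3P
    have : (0 : ℝ) ≤ r := Nat.cast_nonneg r
    linarith
  have hpos : 0 < 1024 * C3P r := by linarith
  constructor
  · unfold deltaP
    refine le_trans (min_le_right _ _) ?_
    rw [div_le_div_iff₀ hpos (by norm_num)]
    have a1 : cP ε ^ 2 ≤ cP ε := by
      rw [sq]
      have := mul_le_mul_of_nonneg_left hc1 hc.le
      linarith
    have a2 : cP ε * 8 ≤ cP ε * (1024 * C3P r) := mul_le_mul_of_nonneg_left (by linarith) hc.le
    linarith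
  · unfold deltaP
    apply le_min
    · positivity
    · positivity

theorem u_card (r : ℕ) (hr : 3 ≤ r) (ε : ℝ) (h0 : 0 < ε) (h1 : ε < 1) : ∃ T0 : ℝ, 1 < T0 ∧
    ∀ T : ℝ, T0 ≤ T → ∀ L : ℝ, 4 / 9 * Real.log T ≤ L → L ≤ T ^ (1 - ε) → ∀ s : ℕ,
    L * T ^ cP ε * T ^ (-deltaP r ε) ≤ s + mP ε T L →
    L * T ^ cP ε * T ^ (-deltaP r ε) / 2 ≤ s ∧ 2 * (r * mP ε T L + 1) ≤ s ∧
    radP r ε T L ≤ T ∧ (mP ε T L : ℝ) ≤ radP r ε T L ∧ 1 ≤ radP r ε T L ∧
    T * (3 * rhoP ε T L) ^ r < (s : ℝ) - 2 ∧ 4 ≤ Real.exp (9 / 10 * r * L) ∧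
    (∀ D : ℕ, D ≤ mP ε T L → ⌈D * T ^ (cP ε / 2)⌉₊ ≤ s) := by
  have hr' : (3 : ℝ) ≤ r := by exact_mod_cast hr
  have hC : 0 < 26 / ε + 30 := by positivity
  have h2r : (0 : ℝ) < 2 * (r * 2 ^ r) := by positivity
  have h3r : (0 : ℝ) < 4 * 3 ^ r := by positivity
  have hrC : 0 < 8 * r * (26 / ε + 30) := by positivity
  obtain ⟨T0, hT0, h⟩ := u_basic ε h0 h1
    (8 * r * (26 / ε + 30) + 2 * (r * 2 ^ r) + 4 * 3 ^ r + 20)
  refine ⟨T0, hT0, ?_⟩
  intro T hT L hL1 hL2 s hs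
  obtain ⟨k1, k2, k3, k4, k5, k6, k7, k8, k9, k10, k11, k12, k13, k14, k15⟩ := h T hT L hL1 hL2
  obtain ⟨d1, d2⟩ := U4_delta r ε h0 h1
  have hTpos : 0 < T := by linarith
  have hT1 : 1 ≤ T := by linarith
  have hLpos : 0 < L := by linarith
  have hlogT : 0 < Real.log T := by linarith
  have hc : 0 < cP ε := by unfold cP; positivity
  have hcε : cP ε ≤ ε / 8 := by
    unfold cP
    rw [div_le_div_iff₀ (by positivity) (by norm_num)]
    have : ε * 8 ≤ ε * 10 ^ 5 := mul_le_mul_of_nonneg_left (by norm_num) h0.le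
    linarith
  have hm0 : (0 : ℝ) ≤ mP ε T L := Nat.cast_nonneg _
  -- the degree is small
  have hmL : (mP ε T L : ℝ) * (8 * r) ≤ L := by
    have a1 : (mP ε T L : ℝ) * (8 * r * (26 / ε + 30)) ≤ (mP ε T L : ℝ) * Real.log T :=
      mul_le_mul_of_nonneg_left (by linarith) hm0
    have a2 : (26 / ε + 30) * ((mP ε T L : ℝ) * (8 * r)) ≤ (26 / ε + 30) * L := by linarith
    exact le_of_mul_le_mul_left a2 hC
  have hmL2 : (mP ε T L : ℝ) ≤ L / 24 := by
    have : (mP ε T L : ℝ) * (8 * 3) ≤ (mP ε T L : ℝ) * (8 * r) :=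
      mul_le_mul_of_nonneg_left (by linarith) hm0
    linarith
  -- powers of T
  have hpow : L * T ^ cP ε * T ^ (-deltaP r ε) = L * T ^ (cP ε - deltaP r ε) := by
    rw [mul_assoc, ← Real.rpow_add hTpos]
    ring_nf
  have hq1 : 1 ≤ T ^ (cP ε - deltaP r ε) := Real.one_le_rpow hT1 (by linarith)
  have hLq : L ≤ L * T ^ (cP ε - deltaP r ε) := by
    have := mul_le_mul_of_nonneg_left hq1 hLpos.le
    linarith
  rw [hpow] at hs ⊢
  have hs1 : L * T ^ (cP ε - deltaP r ε) / 2 ≤ s := by linarith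
  have hTc1 : 1 ≤ T ^ cP ε := Real.one_le_rpow hT1 hc.le
  have hLT : L * T ^ cP ε = T * rhoP ε T L := by
    unfold rhoP
    field_simp
  have hbig : 2 * (r * 2 ^ r) + 4 * 3 ^ r + 20 ≤ T ^ (cP ε / 8) := by
    refine le_trans ?_ k14
    have a1 : (1 : ℝ) ≤ Real.log T ^ 4 := one_le_pow₀ k3
    have a2 : 0 ≤ 8 * r * (26 / ε + 30) + 2 * (r * 2 ^ r) + 4 * 3 ^ r + 20 := by positivity
    have a3 := mul_le_mul_of_nonneg_left a1 a2
    linarith
  have hTT : 20 ≤ T := by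
    have : Real.log T ≤ T - 1 := Real.log_le_sub_one_of_pos hTpos
    linarith
  have hradT : radP r ε T L ≤ T := by
    unfold radP
    rw [hLT]
    -- r 2^r * rho ≤ 1/2
    have a1 : r * 2 ^ r * rhoP ε T L ≤ 1 / 2 := by
      have b1 : (2 * (r * 2 ^ r) : ℝ) ≤ T ^ (ε / 2) := by
        have : T ^ (cP ε / 8) ≤ T ^ (ε / 2) := Real.rpow_le_rpow_of_exponent_le hT1 (by linarith)
        linarith
      have b2 : (2 * (r * 2 ^ r) : ℝ) * rhoP ε T L ≤ T ^ (ε / 2) * T ^ (-(ε / 2)) :=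
        mul_le_mul b1 k8 k5.le (Real.rpow_nonneg hTpos.le _)
      rw [← Real.rpow_add hTpos, add_neg_cancel, Real.rpow_zero] at b2
      linarith
    have a2 : T * (r * 2 ^ r * rhoP ε T L) ≤ T * (1 / 2) := mul_le_mul_of_nonneg_left a1 hTpos.le
    linarith
  have hrad1 : L + 3 ≤ radP r ε T L := by
    unfold radP
    have a1 : (1 : ℝ) ≤ r * 2 ^ r :=
      one_le_mul_of_one_le_of_one_le (by linarith) (one_le_pow₀ (by norm_num))
    have a2 : L ≤ L * T ^ cP ε := by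
      have := mul_le_mul_of_nonneg_left hTc1 hLpos.le
      linarith
    have a3 : 1 * (L * T ^ cP ε) ≤ r * 2 ^ r * (L * T ^ cP ε) :=
      mul_le_mul_of_nonneg_right a1 (by positivity)
    linarith
  refine ⟨hs1, ?_, hradT, by linarith, by linarith, ?_, ?_, ?_⟩
  · have : (2 * (r * (mP ε T L : ℝ) + 1) : ℝ) ≤ s := by linarith
    exact_mod_cast this
  · -- T (3 rho)^r < s - 2
    have a1 : rhoP ε T L ^ r ≤ rhoP ε T L ^ 2 :=
      pow_le_pow_of_le_one k5.le k6.le (by omega)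
    have a2 : T * (3 * rhoP ε T L) ^ r ≤ 3 ^ r * (L * T ^ cP ε) * T ^ (-(ε / 2)) := by
      rw [mul_pow, hLT]
      have b1 : rhoP ε T L ^ 2 ≤ rhoP ε T L * T ^ (-(ε / 2)) := by
        rw [sq]
        exact mul_le_mul_of_nonneg_left k8 k5.le
      have b2 : T * 3 ^ r * rhoP ε T L ^ r ≤ T * 3 ^ r * (rhoP ε T L * T ^ (-(ε / 2))) :=
        mul_le_mul_of_nonneg_left (le_trans a1 b1) (by positivity)
      linarith
    have a3 : 4 * 3 ^ r * T ^ (-(ε / 2)) < T ^ (-deltaP r ε) := by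
      have b1 : (4 * 3 ^ r : ℝ) < T ^ (ε / 4) := by
        have : T ^ (cP ε / 8) ≤ T ^ (ε / 4) := Real.rpow_le_rpow_of_exponent_le hT1 (by linarith)
        linarith
      have b2 : (4 * 3 ^ r : ℝ) * T ^ (-(ε / 2)) < T ^ (ε / 4) * T ^ (-(ε / 2)) :=
        mul_lt_mul_of_pos_right b1 (Real.rpow_pos_of_pos hTpos _)
      rw [← Real.rpow_add hTpos] at b2
      refine lt_of_lt_of_le b2 ?_
      apply Real.rpow_le_rpow_of_exponent_le hT1
      linarith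
    have a4 : (L * T ^ cP ε) * (4 * 3 ^ r * T ^ (-(ε / 2))) <
        (L * T ^ cP ε) * T ^ (-deltaP r ε) :=
      mul_lt_mul_of_pos_left a3 (by positivity)
    rw [hpow] at a4
    linarith
  · have a1 : 9 / 10 * (r : ℝ) * L + 1 ≤ Real.exp (9 / 10 * r * L) := Real.add_one_le_exp _
    have a2 : 3 * L ≤ r * L := mul_le_mul_of_nonneg_right hr' hLpos.le
    linarith
  · intro D hD
    rw [Nat.ceil_le]
    have hD' : (D : ℝ) ≤ mP ε T L := by exact_mod_cast hD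
    have a1 : T ^ (cP ε / 2) ≤ T ^ (cP ε - deltaP r ε) :=
      Real.rpow_le_rpow_of_exponent_le hT1 (by linarith)
    have a2 : (D : ℝ) * T ^ (cP ε / 2) ≤ (L / 24) * T ^ (cP ε - deltaP r ε) :=
      mul_le_mul (by linarith) a1 (Real.rpow_nonneg hTpos.le _) (by linarith)
    have a3 : 0 ≤ L * T ^ (cP ε - deltaP r ε) := by positivity
    linarith

end Pool.Agent.LibER91
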