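import Pool.Agent.LibER91.U1

/-!
Row U5 (MEDIUM): from the inequality of `degree_ineq` (file D2) to `L ≤ (3 r + 7) D log T` and the size of `NP`.

Plan. `NP = e^(7/5 L) m (4e)^m rad^D`, `m = mP`. If `D = 0` the right side of `h` is `0 < rhoP`: contradiction, so `D ≥ 1`.
Logarithms (all factors positive): `-log T ≤ log rhoP ≤ log (r D + 2) + log (3 R0) + log D + 7/5 L + log m + m log (4e) +
D log rad - (9/10) r L + (r D + 1) (2 log T + log (r 2^(2r+3)))`. `0.9 r ≥ 2.7`; `m log(4e) ≤ 2.4 m ≤ 0.1 L`, `log m ≤ 0.1 L`,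
`log (3 R0) ≤ 0.1 L` for large `T` (U1: `m log T ≤ (26/ε+30) L`); `log rad ≤ log T` (`hrad`); `log (r 2^(2r+3)) ≤ log T`,
`r D + 1 ≤ (r+1) D`; `log (rD+2) ≤ (r+2) D ≤ D log T`, `log D ≤ D log T`. Total `L ≤ (3r+7) D log T`.
`log NP ≤ 7/5 L + 0.1 L + 0.1 L + D log T ≤ (1.6 (3r+7) + 1) D log T ≤ (5r+13) D log T`.
-/

set_option autoImplicit false

namespace Pool.Agent.LibER91

theorem u_degree (r : ℕ) (hr : 3 ≤ r) (ε : ℝ) (h0 : 0 < ε) (h1 : ε < 1) : ∃ T0 : ℝ, 1 < T0 ∧
    ∀ T : ℝ, T0 ≤ T → ∀ R0 : ℝ, 1 ≤ R0 → R0 ≤ T ^ (1 / 10 ^ 4 : ℝ) → ∀ L : ℝ,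
    4 / 9 * Real.log T ≤ L → L ≤ T ^ (1 - ε) → radP r ε T L ≤ T → ∀ D : ℕ,
    rhoP ε T L ≤ (r * D + 2) * (3 * R0 * D * NP r ε T L D * Real.exp (-(9 / 10 * r * L))) *
      (r * 2 ^ (2 * r + 3) * T ^ 2) ^ (r * D + 1) →
    1 ≤ D ∧ L ≤ (3 * r + 7) * D * Real.log T ∧
      Real.log (NP r ε T L D) ≤ (5 * r + 13) * D * Real.log T ∧ 1 ≤ NP r ε T L D ∧
      Real.log (2 * D + 1) ≤ D * Real.log T := by
  have hr' : (3 : ℝ) ≤ r := by exact_mod_cast hr
  have hC : 0 < 26 / ε + 30 := by positivity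
  have hrpos : (0 : ℝ) < r * 2 ^ (2 * r + 3) := by positivity
  obtain ⟨T0, hT0, h⟩ := u_basic ε h0 h1
    (100 * (26 / ε + 30) + r + 103 + |Real.log (r * 2 ^ (2 * r + 3))|)
  refine ⟨T0, hT0, ?_⟩
  intro T hT R0 hR1 hR2 L hL1 hL2 hrad D hD
  obtain ⟨k1, k2, k3, k4, k5, k6, k7, k8, k9, k10, k11, k12, k13, k14, k15⟩ := h T hT L hL1 hL2
  have hTpos : 0 < T := by linarith
  have hlogT : 0 < Real.log T := by linarith
  have hab : 0 ≤ |Real.log (r * 2 ^ (2 * r + 3))| := abs_nonneg _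
  have hab2 : Real.log (r * 2 ^ (2 * r + 3)) ≤ |Real.log (r * 2 ^ (2 * r + 3))| := le_abs_self _
  have hm12 : (12 : ℝ) ≤ mP ε T L := by
    have : (12 : ℕ) ≤ mP ε T L := by unfold mP; omega
    exact_mod_cast this
  have hmL : (mP ε T L : ℝ) ≤ L / 100 := by
    have a1 : (mP ε T L : ℝ) * (100 * (26 / ε + 30)) ≤ (mP ε T L : ℝ) * Real.log T :=
      mul_le_mul_of_nonneg_left (by linarith) (by linarith)
    have a2 : (mP ε T L : ℝ) * (100 * (26 / ε + 30)) ≤ (26 / ε + 30) * L := le_trans a1 k13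
    have a3 : (26 / ε + 30) * ((mP ε T L : ℝ) * 100) ≤ (26 / ε + 30) * L := by linarith
    have a4 := le_of_mul_le_mul_left a3 hC
    linarith
  have hrad3 : 3 ≤ radP r ε T L := by
    unfold radP
    have : 0 ≤ (r : ℝ) * 2 ^ r * (L * T ^ cP ε) := by
      have := Real.rpow_pos_of_pos hTpos (cP ε)
      positivity
    linarith
  -- NP is at least one
  have hNP1 : 1 ≤ NP r ε T L D := by
    unfold NP
    have b1 : 1 ≤ Real.exp (7 / 5 * L) := Real.one_le_exp (by linarith)
    have b2 : (1 : ℝ) ≤ (4 * Real.exp 1) ^ mP ε T L := by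
      apply one_le_pow₀
      have := Real.add_one_le_exp (1 : ℝ)
      linarith
    have b3 : 1 ≤ radP r ε T L ^ D := one_le_pow₀ (by linarith)
    have b4 : 1 ≤ Real.exp (7 / 5 * L) * (mP ε T L : ℝ) :=
      one_le_mul_of_one_le_of_one_le b1 (by linarith)
    exact one_le_mul_of_one_le_of_one_le (one_le_mul_of_one_le_of_one_le b4 b2) b3
  -- D is at least one
  have hD1 : 1 ≤ D := by
    rcases Nat.eq_zero_or_pos D with hz | hz
    · subst hz
      simp at hD
      linarith
    · exact hz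
  have hDr : (1 : ℝ) ≤ D := by exact_mod_cast hD1
  have hDpos : (0 : ℝ) < D := by linarith
  -- logarithm of NP
  have hlogNP : Real.log (NP r ε T L D) ≤ 7 / 5 * L + L / 20 + D * Real.log T := by
    unfold NP
    have e1 : (0 : ℝ) < Real.exp (7 / 5 * L) := Real.exp_pos _
    have e2 : (0 : ℝ) < (mP ε T L : ℝ) := by linarith
    have e3 : (0 : ℝ) < (4 * Real.exp 1) ^ mP ε T L := by positivity
    have e4 : (0 : ℝ) < radP r ε T L ^ D := by
      have : 0 < radP r ε T L := by linarith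
      positivity
    rw [Real.log_mul (by positivity) e4.ne', Real.log_mul (by positivity) e3.ne',
      Real.log_mul e1.ne' e2.ne', Real.log_exp, Real.log_pow, Real.log_pow,
      Real.log_mul (by norm_num) (Real.exp_pos 1).ne', Real.log_exp]
    have f1 : Real.log (mP ε T L : ℝ) ≤ mP ε T L - 1 := Real.log_le_sub_one_of_pos e2
    have f2 : Real.log (4 : ℝ) ≤ 1.4 := by
      have : (4 : ℝ) = 2 ^ 2 := by norm_num
      rw [this, Real.log_pow]
      have := Real.log_two_lt_d9
      push_cast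
      linarith
    have f3 : (mP ε T L : ℝ) * (Real.log 4 + 1) ≤ mP ε T L * 2.4 :=
      mul_le_mul_of_nonneg_left (by linarith) (by linarith)
    have f4 : Real.log (radP r ε T L) ≤ Real.log T := Real.log_le_log (by linarith) hrad
    have f5 : (D : ℝ) * Real.log (radP r ε T L) ≤ D * Real.log T :=
      mul_le_mul_of_nonneg_left f4 (by linarith)
    linarith
  -- the logarithm of the inequality
  have hlow : -Real.log T ≤ Real.log (rhoP ε T L) := by
    have : Real.log (1 / T) ≤ Real.log (rhoP ε T L) := Real.log_le_log (by positivity) k7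
    rwa [one_div, Real.log_inv] at this
  have hup : Real.log (rhoP ε T L) ≤ Real.log (r * D + 2) + (Real.log (3 * R0) + Real.log D +
      Real.log (NP r ε T L D) + -(9 / 10 * r * L)) +
      (r * D + 1) * (Real.log (r * 2 ^ (2 * r + 3)) + 2 * Real.log T) := by
    have g0 : (0 : ℝ) < NP r ε T L D := by linarith
    have g1 : (0 : ℝ) < r * D + 2 := by positivity
    have g2 : (0 : ℝ) < 3 * R0 := by linarith
    have g3 : (0 : ℝ) < Real.exp (-(9 / 10 * r * L)) := Real.exp_pos _
    have g4 : (0 : ℝ) < T ^ 2 := by positivity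
    have g5 : (0 : ℝ) < (r * 2 ^ (2 * r + 3) * T ^ 2) ^ (r * D + 1) := by positivity
    have := Real.log_le_log k5 hD
    rw [Real.log_mul (by positivity) g5.ne', Real.log_mul g1.ne' (by positivity),
      Real.log_mul (by positivity) g3.ne', Real.log_mul (by positivity) g0.ne',
      Real.log_mul g2.ne' hDpos.ne', Real.log_exp, Real.log_pow,
      Real.log_mul hrpos.ne' g4.ne', Real.log_pow] at this
    push_cast at this
    linarith
  have i1 : Real.log (r * D + 2) ≤ D * Real.log T := by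
    have j1 : Real.log ((r : ℝ) * D + 2) ≤ r * D + 2 - 1 :=
      Real.log_le_sub_one_of_pos (by positivity)
    have j2 : (D : ℝ) * (r + 1) ≤ D * Real.log T := mul_le_mul_of_nonneg_left (by linarith) hDpos.le
    linarith
  have i2 : Real.log (3 * R0) ≤ L / 10 := by
    rw [Real.log_mul (by norm_num) (by linarith)]
    have j1 : Real.log 3 ≤ 3 - 1 := Real.log_le_sub_one_of_pos (by norm_num)
    have j2 : Real.log R0 ≤ 1 / 10 ^ 4 * Real.log T := by
      have := Real.log_le_log (by linarith) hR2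
      rwa [Real.log_rpow hTpos] at this
    linarith
  have i3 : Real.log (D : ℝ) ≤ D * Real.log T := by
    have j1 : Real.log (D : ℝ) ≤ D - 1 := Real.log_le_sub_one_of_pos hDpos
    have j2 : (D : ℝ) * 1 ≤ D * Real.log T := mul_le_mul_of_nonneg_left k3 hDpos.le
    linarith
  have i4 : ((r : ℝ) * D + 1) * (Real.log (r * 2 ^ (2 * r + 3)) + 2 * Real.log T) ≤
      ((r + 1) * D) * (3 * Real.log T) := by
    apply mul_le_mul
    · linarith
    · linarith
    · have : 0 ≤ Real.log ((r : ℝ) * 2 ^ (2 * r + 3)) := by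
        apply Real.log_nonneg
        have : (1 : ℝ) ≤ 2 ^ (2 * r + 3) := one_le_pow₀ (by norm_num)
        exact one_le_mul_of_one_le_of_one_le (by linarith) this
      linarith
    · positivity
  have i5 : 27 / 10 * L ≤ 9 / 10 * r * L := by
    have : 3 * L ≤ r * L := mul_le_mul_of_nonneg_right hr' (by linarith)
    linarith
  have i6 : Real.log T ≤ D * Real.log T := by
    have : 1 * Real.log T ≤ D * Real.log T := mul_le_mul_of_nonneg_right hDr hlogT.le
    linarith
  have hLD : L ≤ (3 * r + 7) * D * Real.log T := by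
    have e : (3 * (r : ℝ) + 7) * D * Real.log T = D * Real.log T + D * Real.log T +
      D * Real.log T + ((r + 1) * D) * (3 * Real.log T) + D * Real.log T := by ring
    rw [e]
    linarith
  refine ⟨hD1, hLD, ?_, hNP1, ?_⟩
  · have e : (3 / 2 : ℝ) * ((3 * (r : ℝ) + 7) * D * Real.log T) + D * Real.log T ≤
      (5 * r + 13) * D * Real.log T := by
      have : 0 ≤ ((r : ℝ) * (1 / 2) + 3 / 2) * (D * Real.log T) := by positivity
      nlinarith [this]
    linarith
  · have j1 : Real.log (2 * (D : ℝ) + 1) ≤ 2 * D + 1 - 1 :=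
      Real.log_le_sub_one_of_pos (by positivity)
    have j2 : (D : ℝ) * 2 ≤ D * Real.log T := mul_le_mul_of_nonneg_left (by linarith) hDpos.le
    linarith

end Pool.Agent.LibER91
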