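import Pool.Agent.LibER91.U1

/-!
Row U6 (MEDIUM/STRONG): the final contradiction (pure real analysis).

`s` = number of elements of `S`, `n` = degree of `G`, `g = log |lc G|`, `E = log res`, `l = 2 radP`, `P = ⌈D T^(c/2)⌉₊`,
`c = cP ε`, `δ = deltaP r ε`, `C3 = C3P r = 10 r + 28`, `C1` the constant of `main_ineq`.
Plan. `l / s ≤ 4 (r 2^r + 3) T^δ`: `log (l/s) ≤ δ log T + C7`. `P ≤ 2 D T^(c/2)`, so `s / P ≥ (L/D) T^(c/2-δ)/4 ≥ T^(c/4)`
(`L ≥ D`, from `D ≤ mP`, `mP log T ≤ (26/ε+30) L`, `log T` large; `δ ≤ c/8`), so `n log (s/P) ≥ r D (c/4) log T`.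
`(n/s)(g + n log s) ≤ (r+1) D [2 log T + r(5r+13) D log T + (r+1) D log T] / (L T^(c-δ)/2) ≤ D` for large `T`, because
`D ≤ mP ≤ (26/ε+30) L / log T`.
`sqrt (2 E (log(l/s) + C1)) ≤ D sqrt (2 C3 log T (δ log T + C7 + C1)) ≤ D ((c/16) log T + sqrt (2 C3 (C7+C1) log T))`
since `2 C3 δ ≤ c^2/512 ≤ (c/16)^2`. `(l/P + 1)/s * 2E ≤ 2 D` for large `T`: `l/(P s) ≤ 4 (r 2^r + 3) T^(δ-c/2)/D`,
`E ≤ C3 D^2 log T`, and `(1/s) 2 C3 D^2 log T ≤ D`.
So `hmain` gives `r D (c/4) log T ≤ C1 (r+1) D + D + r D (c/16) log T + r D sqrt(..log T) + 2 r D`; divide by `D`: false for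
large `T`.
-/

set_option autoImplicit false

namespace Pool.Agent.LibER91

private theorem U6_K (a1 a2 a3 a4 a5 a6 a7 a8 : ℝ) : ∃ K : ℝ, a1 ≤ K ∧ a2 ≤ K ∧ a3 ≤ K ∧
    a4 ≤ K ∧ a5 ≤ K ∧ a6 ≤ K ∧ a7 ≤ K ∧ a8 ≤ K := by
  have h1 := le_abs_self a1
  have h2 := le_abs_self a2
  have h3 := le_abs_self a3
  have h4 := le_abs_self a4
  have h5 := le_abs_self a5
  have h6 := le_abs_self a6
  have h7 := le_abs_self a7
  have h8 := le_abs_self a8
  have g1 := abs_nonneg a1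
  have g2 := abs_nonneg a2
  have g3 := abs_nonneg a3
  have g4 := abs_nonneg a4
  have g5 := abs_nonneg a5
  have g6 := abs_nonneg a6
  have g7 := abs_nonneg a7
  have g8 := abs_nonneg a8
  refine ⟨|a1| + |a2| + |a3| + |a4| + |a5| + |a6| + |a7| + |a8|, ?_, ?_, ?_, ?_, ?_, ?_, ?_, ?_⟩ <;>
    linarith

private theorem U6_core {r D n s P g E l L lam c δ C1 C3 A B7 C7 w v : ℝ} (hr : 3 ≤ r) (hD : 1 ≤ D)
    (hlam : 1 ≤ lam) (hL : 1 ≤ L) (hA : 0 ≤ A) (hDA : D * lam ≤ A * L)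
    (hn1 : r * D ≤ n) (hn2 : n ≤ r * D + 1) (hs : 0 < s) (hw : L * w ≤ 2 * s)
    (hlogs : Real.log s ≤ lam) (hsP : c / 4 * lam ≤ Real.log (s / P))
    (hls : Real.log (l / s) ≤ δ * lam + C7) (hP : 0 < P) (hl : 0 ≤ l)
    (hlP : l * D * v ≤ 4 * B7 * (P * s)) (hB7 : 0 < B7)
    (hg : g ≤ 2 * lam + r * ((5 * r + 13) * D * lam)) (hE0 : 0 ≤ E) (hE : E ≤ C3 * D ^ 2 * lam)
    (hC1 : 0 ≤ C1) (hC3 : 0 ≤ C3) (hC7 : 0 ≤ C7) (hc : 0 ≤ c) (hδ0 : 0 ≤ δ)
    (k4 : 2 * (r + 1) * (2 + r * (5 * r + 13) + (r + 1)) * A ≤ w)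
    (k7 : 4 * C3 * A ≤ w) (k6 : 8 * B7 * C3 * lam ≤ v)
    (k5 : 2 * C3 * (C7 + C1) ≤ c ^ 2 / 128 * lam) (kδ : 2 * C3 * δ ≤ c ^ 2 / 512)
    (k8 : 8 * (C1 * (r + 1) + 1 + 2 * r) < r * c * lam)
    (hmain : n * Real.log (s / P) ≤ C1 * n + (n / s) * (g + n * Real.log s) +
      r * (√(2 * E * (Real.log (l / s) + C1)) + (l / P + 1) / s * (2 * E))) : False := by
  have hD0 : 0 < D := by linarith
  have hr0 : 0 < r := by linarith
  have hl0 : 0 < lam := by linarith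
  have hL0 : 0 < L := by linarith
  have hn0 : 0 ≤ n := (mul_nonneg hr0.le hD0.le).trans hn1
  have hn3 : n ≤ (r + 1) * D := by
    have : (r + 1) * D = r * D + D := by ring
    linarith
  -- the left side
  have e1 : r * D * (c / 4 * lam) ≤ n * Real.log (s / P) :=
    mul_le_mul hn1 hsP (by positivity) hn0
  -- the second term
  have e3 : (n / s) * (g + n * Real.log s) ≤ D := by
    obtain ⟨K1, hK1⟩ : ∃ K1 : ℝ, K1 = 2 + r * (5 * r + 13) + (r + 1) := ⟨_, rfl⟩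
    rw [← hK1] at k4
    have hK0 : 0 ≤ K1 := by rw [hK1]; positivity
    have h1 : g + n * Real.log s ≤ K1 * (D * lam) := by
      have h2 : n * Real.log s ≤ (r + 1) * D * lam :=
        (mul_le_mul_of_nonneg_left hlogs hn0).trans (mul_le_mul_of_nonneg_right hn3 hl0.le)
      have h3 : 2 * lam ≤ 2 * (D * lam) := by nlinarith
      have h4 : K1 * (D * lam) = 2 * (D * lam) + r * ((5 * r + 13) * D * lam) +
          (r + 1) * D * lam := by rw [hK1]; ring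
      linarith
    have hDl : 0 ≤ D * lam := by positivity
    have h5 : n * (g + n * Real.log s) ≤ (r + 1) * D * (K1 * (D * lam)) :=
      (mul_le_mul_of_nonneg_left h1 hn0).trans
        (mul_le_mul_of_nonneg_right hn3 (mul_nonneg hK0 hDl))
    have h6 : (r + 1) * K1 * (D * lam) ≤ s := by
      have h7 : (r + 1) * K1 * (D * lam) ≤ (r + 1) * K1 * (A * L) :=
        mul_le_mul_of_nonneg_left hDA (by positivity)
      have h8 : 2 * (r + 1) * K1 * A * L ≤ w * L := mul_le_mul_of_nonneg_right k4 hL0.le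
      have h9 : 2 * (r + 1) * K1 * A * L = 2 * ((r + 1) * K1 * (A * L)) := by ring
      have h10 : w * L = L * w := mul_comm _ _
      linarith
    rw [div_mul_eq_mul_div, div_le_iff₀ hs]
    calc n * (g + n * Real.log s) ≤ (r + 1) * D * (K1 * (D * lam)) := h5
      _ = D * ((r + 1) * K1 * (D * lam)) := by ring
      _ ≤ D * s := mul_le_mul_of_nonneg_left h6 hD0.le
  -- the square root
  have e4 : √(2 * E * (Real.log (l / s) + C1)) ≤ D * (c * lam / 8) := by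
    rw [Real.sqrt_le_iff]
    refine ⟨by positivity, ?_⟩
    have h1 : 0 ≤ δ * lam + C7 + C1 := by positivity
    calc 2 * E * (Real.log (l / s) + C1) ≤ 2 * E * (δ * lam + C7 + C1) :=
          mul_le_mul_of_nonneg_left (by linarith) (by linarith)
      _ ≤ 2 * (C3 * D ^ 2 * lam) * (δ * lam + C7 + C1) :=
          mul_le_mul_of_nonneg_right (by linarith) h1
      _ = D ^ 2 * lam * (2 * C3 * δ * lam + 2 * C3 * (C7 + C1)) := by ring
      _ ≤ D ^ 2 * lam * (c ^ 2 / 64 * lam) := by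
          refine mul_le_mul_of_nonneg_left ?_ (by positivity)
          have h2 : 2 * C3 * δ * lam ≤ c ^ 2 / 512 * lam := mul_le_mul_of_nonneg_right kδ hl0.le
          have h3 : 0 ≤ c ^ 2 * lam := by positivity
          linarith
      _ = (D * (c * lam / 8)) ^ 2 := by ring
  -- the last term
  have e5 : (l / P + 1) / s * (2 * E) ≤ 2 * D := by
    have h1 : (l / P + 1) / s * (2 * E) = l * (2 * E) / (P * s) + 2 * E / s := by
      field_simp
    have h2 : l * (2 * E) / (P * s) ≤ D := by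
      rw [div_le_iff₀ (mul_pos hP hs)]
      have h3 : l * (2 * E) ≤ l * (2 * (C3 * D ^ 2 * lam)) :=
        mul_le_mul_of_nonneg_left (by linarith) hl
      have h4 : 4 * B7 * (l * (2 * (C3 * D ^ 2 * lam))) ≤ 4 * B7 * (D * (P * s)) := by
        calc 4 * B7 * (l * (2 * (C3 * D ^ 2 * lam))) = l * D * D * (8 * B7 * C3 * lam) := by ring
          _ ≤ l * D * D * v := mul_le_mul_of_nonneg_left k6 (by positivity)
          _ = D * (l * D * v) := by ring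
          _ ≤ D * (4 * B7 * (P * s)) := mul_le_mul_of_nonneg_left hlP hD0.le
          _ = 4 * B7 * (D * (P * s)) := by ring
      exact h3.trans (le_of_mul_le_mul_left h4 (by positivity))
    have h5 : 2 * E / s ≤ D := by
      rw [div_le_iff₀ hs]
      have h6 : 2 * C3 * (D * lam) ≤ 2 * C3 * (A * L) :=
        mul_le_mul_of_nonneg_left hDA (by positivity)
      have h7 : 4 * C3 * A * L ≤ w * L := mul_le_mul_of_nonneg_right k7 hL0.le
      have h8 : 2 * C3 * (D * lam) ≤ s := by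
        have h9 : 4 * C3 * A * L = 2 * (2 * C3 * (A * L)) := by ring
        have h10 : w * L = L * w := mul_comm _ _
        linarith
      calc 2 * E ≤ 2 * (C3 * D ^ 2 * lam) := by linarith
        _ = D * (2 * C3 * (D * lam)) := by ring
        _ ≤ D * s := mul_le_mul_of_nonneg_left h8 hD0.le
    rw [h1]
    linarith
  have e6 : C1 * n ≤ C1 * ((r + 1) * D) := mul_le_mul_of_nonneg_left hn3 hC1
  have e7 : r * (√(2 * E * (Real.log (l / s) + C1)) + (l / P + 1) / s * (2 * E)) ≤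
      r * (D * (c * lam / 8) + 2 * D) := mul_le_mul_of_nonneg_left (add_le_add e4 e5) hr0.le
  have e8 : r * D * (c / 4 * lam) ≤ C1 * ((r + 1) * D) + D + r * (D * (c * lam / 8) + 2 * D) := by
    linarith
  have e9 : 0 < D * (r * c * lam - 8 * (C1 * (r + 1) + 1 + 2 * r)) :=
    mul_pos hD0 (by linarith)
  have e10 : D * (r * c * lam - 8 * (C1 * (r + 1) + 1 + 2 * r)) =
      8 * (r * D * (c / 4 * lam) - (C1 * ((r + 1) * D) + D + r * (D * (c * lam / 8) + 2 * D))) := by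
    ring
  linarith

theorem u_final (r : ℕ) (hr : 3 ≤ r) (ε : ℝ) (h0 : 0 < ε) (h1 : ε < 1) (C1 : ℝ) (hC1 : 0 ≤ C1) :
    ∃ T0 : ℝ, 1 < T0 ∧ ∀ T : ℝ, T0 ≤ T → ∀ L : ℝ, 4 / 9 * Real.log T ≤ L → L ≤ T ^ (1 - ε) →
    ∀ (D n s : ℕ) (g E : ℝ), 1 ≤ D → D ≤ mP ε T L → r * D ≤ n → n ≤ r * D + 1 →
    L * T ^ cP ε * T ^ (-deltaP r ε) / 2 ≤ s → (s : ℝ) ≤ 2 * radP r ε T L →
    0 ≤ g → g ≤ 2 * Real.log T + r * ((5 * r + 13) * D * Real.log T) →
    0 ≤ E → E ≤ C3P r * D ^ 2 * Real.log T →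
    ¬ ((n : ℝ) * Real.log (s / ⌈D * T ^ (cP ε / 2)⌉₊) ≤ C1 * n + (n / s) * (g + n * Real.log s) +
      r * (√(2 * E * (Real.log (2 * radP r ε T L / s) + C1)) +
        (2 * radP r ε T L / ⌈D * T ^ (cP ε / 2)⌉₊ + 1) / s * (2 * E))) := by
  have hR : (3 : ℝ) ≤ r := by exact_mod_cast hr
  obtain ⟨c, hc⟩ : ∃ c : ℝ, c = cP ε := ⟨_, rfl⟩
  have hcε : c = ε / 10 ^ 5 := hc
  have hc0 : 0 < c := by rw [hcε]; positivity
  have hc1 : c ≤ ε / 2 := by rw [hcε]; linarith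
  obtain ⟨C3, hC3⟩ : ∃ C3 : ℝ, C3 = C3P r := ⟨_, rfl⟩
  have hC3e : C3 = 10 * r + 28 := hC3
  have hC30 : 1 ≤ C3 := by rw [hC3e]; linarith
  obtain ⟨δ, hδ⟩ : ∃ δ : ℝ, δ = deltaP r ε := ⟨_, rfl⟩
  have hδe : δ = min (1 / 10 ^ 4) (c ^ 2 / (1024 * C3)) := by rw [hδ, hc, hC3]; rfl
  have hδ0 : 0 ≤ δ := by
    rw [hδe]
    exact le_min (by norm_num) (by positivity)
  have hδ1 : δ ≤ c ^ 2 / (1024 * C3) := by rw [hδe]; exact min_le_right _ _
  have hδ2 : δ * (1024 * C3) ≤ c ^ 2 := (le_div_iff₀ (by positivity)).1 hδ1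
  have kδ : 2 * C3 * δ ≤ c ^ 2 / 512 := by linarith
  have hc2 : c ^ 2 ≤ c := by nlinarith
  have hδ3 : δ ≤ c / 8 := by
    have h2 : δ * 1024 ≤ δ * (1024 * C3) := mul_le_mul_of_nonneg_left (by linarith) hδ0
    linarith
  obtain ⟨A, hA⟩ : ∃ A : ℝ, A = 26 / ε + 30 := ⟨_, rfl⟩
  have hA0 : 0 ≤ A := by rw [hA]; positivity
  obtain ⟨B7, hB7⟩ : ∃ B7 : ℝ, B7 = r * 2 ^ r + 3 := ⟨_, rfl⟩
  have hB71 : 1 ≤ B7 := by
    rw [hB7]
    have : (0 : ℝ) ≤ r * 2 ^ r := by positivity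
    linarith
  have hB70 : 0 < B7 := by linarith
  obtain ⟨K, a1, a2, a3, a4, a5, a6, a7, a8⟩ := U6_K 4 A (Real.log (2 * B7) / (ε / 2))
    (2 * (r + 1) * (2 + r * (5 * r + 13) + (r + 1)) * A)
    (2 * C3 * (Real.log (4 * B7) + C1) / (c ^ 2 / 128)) (8 * B7 * C3) (4 * C3 * A)
    (8 * (C1 * (r + 1) + 1 + 2 * r) / (r * c) + 1)
  obtain ⟨T0, hT0, hT⟩ := u_basic ε h0 h1 K
  refine ⟨T0, hT0, fun T hTT L hL1 hL2 D n s g E hD hDm hn1 hn2 hs1 hs2 hg0 hg hE0 hE hmain => ?_⟩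
  obtain ⟨b1, -, b3, b4, -, -, -, -, -, -, -, -, b13, b14, -⟩ := hT T hTT L hL1 hL2
  rw [← hc, ← hδ] at hs1
  rw [← hc] at b14 hmain
  rw [← hC3] at hE
  rw [← hA] at b13
  have hT1 : 1 < T := lt_of_lt_of_le hT0 hTT
  have hTp : 0 < T := by linarith
  obtain ⟨lam, hlam⟩ : ∃ lam : ℝ, lam = Real.log T := ⟨_, rfl⟩
  rw [← hlam] at b1 b3 b13 b14 hg hE hL1
  have hl0 : 0 < lam := by linarith
  have hL0 : 0 < L := by linarith
  have hD1 : (1 : ℝ) ≤ D := by exact_mod_cast hD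
  have hD0 : (0 : ℝ) < D := by linarith
  have hDA : (D : ℝ) * lam ≤ A * L :=
    (mul_le_mul_of_nonneg_right (Nat.cast_le.2 hDm) hl0.le).trans b13
  have hDL : (D : ℝ) ≤ L := by
    have h2 : (D : ℝ) * lam ≤ L * lam := by
      have h3 : A * L ≤ lam * L := mul_le_mul_of_nonneg_right (a2.trans b1) hL0.le
      linarith
    exact le_of_mul_le_mul_right h2 hl0
  -- powers
  have hZ8 : K * lam ≤ T ^ (c / 8) := by
    refine le_trans ?_ b14
    refine mul_le_mul_of_nonneg_left ?_ (by linarith)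
    exact le_self_pow₀ b3 (by norm_num)
  have hK8 : K ≤ T ^ (c / 8) := by nlinarith
  obtain ⟨w, hw⟩ : ∃ w : ℝ, w = T ^ (c - δ) := ⟨_, rfl⟩
  have hw8 : T ^ (c / 8) ≤ w := by
    rw [hw]
    exact Real.rpow_le_rpow_of_exponent_le hT1.le (by linarith)
  have hwe : T ^ c * T ^ (-δ) = w := by rw [hw, ← Real.rpow_add hTp]; rfl
  obtain ⟨v, hv⟩ : ∃ v : ℝ, v = T ^ (c / 2 - δ) := ⟨_, rfl⟩
  have hv8 : T ^ (c / 8) * T ^ (c / 4) ≤ v := by
    rw [hv, ← Real.rpow_add hTp]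
    exact Real.rpow_le_rpow_of_exponent_le hT1.le (by linarith)
  have h4p : 1 ≤ T ^ (c / 4) := Real.one_le_rpow hT1.le (by positivity)
  have h8p : 0 < T ^ (c / 8) := Real.rpow_pos_of_pos hTp _
  have hvK : T ^ (c / 8) ≤ v := by
    refine le_trans ?_ hv8
    exact le_mul_of_one_le_right h8p.le h4p
  have hZh : 0 < T ^ (c / 2) := Real.rpow_pos_of_pos hTp _
  have hZh1 : 1 ≤ T ^ (c / 2) := Real.one_le_rpow hT1.le (by positivity)
  have hZc : 0 < T ^ c := Real.rpow_pos_of_pos hTp _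
  have hZc1 : 1 ≤ T ^ c := Real.one_le_rpow hT1.le hc0.le
  have hZδ : 0 < T ^ δ := Real.rpow_pos_of_pos hTp _
  have hwv : w = T ^ (c / 2) * v := by
    rw [hw, hv, ← Real.rpow_add hTp]
    congr 1
    ring
  have hwδ : w * T ^ δ = T ^ c := by
    rw [hw, ← Real.rpow_add hTp]
    congr 1
    ring
  have hvδ : v * T ^ δ = T ^ (c / 2) := by
    rw [hv, ← Real.rpow_add hTp]
    congr 1
    ring
  have hw0 : 0 < w := by linarith
  have hv0 : 0 < v := by linarith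
  -- the size of `s`
  have hs : L * w ≤ 2 * s := by
    rw [mul_assoc L, hwe] at hs1
    linarith
  have hs0 : (0 : ℝ) < s := by
    have : 0 < L * w := mul_pos hL0 hw0
    linarith
  -- `l`
  obtain ⟨l, hl⟩ : ∃ l : ℝ, l = 2 * radP r ε T L := ⟨_, rfl⟩
  rw [← hl] at hs2 hmain
  have hle : l = 2 * (r * 2 ^ r * (L * T ^ c) + 3) := by rw [hl, hc]; rfl
  have hLZ : 1 ≤ L * T ^ c := one_le_mul_of_one_le_of_one_le b4 hZc1
  have hl1 : l ≤ 2 * B7 * (L * T ^ c) := by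
    have h2 : 2 * B7 * (L * T ^ c) = 2 * (r * 2 ^ r * (L * T ^ c) + 3 * (L * T ^ c)) := by
      rw [hB7]; ring
    rw [h2, hle]
    linarith
  have hlpos : 0 < l := by linarith
  have hls : l ≤ 4 * B7 * T ^ δ * s := by
    have h2 : 2 * B7 * T ^ δ * (L * w) ≤ 2 * B7 * T ^ δ * (2 * s) :=
      mul_le_mul_of_nonneg_left hs (by positivity)
    have h3 : 2 * B7 * T ^ δ * (L * w) = 2 * B7 * (L * T ^ c) := by rw [← hwδ]; ring
    linarith
  have hlog1 : Real.log (l / s) ≤ δ * lam + Real.log (4 * B7) := by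
    have h2 : l / s ≤ 4 * B7 * T ^ δ := (div_le_iff₀ hs0).2 hls
    have h3 := Real.log_le_log (div_pos hlpos hs0) h2
    rw [Real.log_mul (by positivity) hZδ.ne', Real.log_rpow hTp, ← hlam] at h3
    linarith
  have hlogs : Real.log s ≤ lam := by
    have h2 : (s : ℝ) ≤ 2 * B7 * (L * T ^ c) := hs2.trans hl1
    have h3 := Real.log_le_log hs0 h2
    rw [Real.log_mul (by positivity) (by positivity), Real.log_mul hL0.ne' hZc.ne',
      Real.log_rpow hTp, ← hlam] at h3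
    have h4 : Real.log L ≤ (1 - ε) * lam := by
      have h5 := Real.log_le_log hL0 hL2
      rw [Real.log_rpow hTp, ← hlam] at h5
      exact h5
    have h6 : Real.log (2 * B7) ≤ lam * (ε / 2) := by
      have h7 := a3.trans b1
      exact (div_le_iff₀ (by positivity)).1 h7
    have h8 : c * lam ≤ ε / 2 * lam := mul_le_mul_of_nonneg_right hc1 hl0.le
    linarith
  -- `P`
  obtain ⟨P, hPe⟩ : ∃ P : ℝ, P = ((⌈(D : ℝ) * T ^ (c / 2)⌉₊ : ℕ) : ℝ) := ⟨_, rfl⟩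
  rw [← hPe] at hmain
  have hP1 : (D : ℝ) * T ^ (c / 2) ≤ P := by rw [hPe]; exact Nat.le_ceil _
  have hDZ : 1 ≤ (D : ℝ) * T ^ (c / 2) := one_le_mul_of_one_le_of_one_le hD1 hZh1
  have hP2 : P ≤ 2 * ((D : ℝ) * T ^ (c / 2)) := by
    have h2 := Nat.ceil_lt_add_one (a := (D : ℝ) * T ^ (c / 2)) (by positivity)
    rw [← hPe] at h2
    linarith
  have hP0 : 0 < P := by linarith
  have hsP : c / 4 * lam ≤ Real.log (s / P) := by
    have h2 : T ^ (c / 4) ≤ s / P := by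
      rw [le_div_iff₀ hP0]
      have h3 : 4 * T ^ (c / 4) ≤ v := by
        refine le_trans ?_ hv8
        exact mul_le_mul_of_nonneg_right (a1.trans hK8) (by linarith)
      have h4 : T ^ (c / 4) * P ≤ T ^ (c / 4) * (2 * (L * T ^ (c / 2))) := by
        refine mul_le_mul_of_nonneg_left (hP2.trans ?_) (by linarith)
        exact mul_le_mul_of_nonneg_left (mul_le_mul_of_nonneg_right hDL hZh.le) (by norm_num)
      have h5 : L * T ^ (c / 2) * (4 * T ^ (c / 4)) ≤ L * T ^ (c / 2) * v :=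
        mul_le_mul_of_nonneg_left h3 (by positivity)
      have h6 : L * T ^ (c / 2) * v = L * w := by rw [hwv]; ring
      have h7 : 2 * (T ^ (c / 4) * (2 * (L * T ^ (c / 2)))) =
          L * T ^ (c / 2) * (4 * T ^ (c / 4)) := by ring
      linarith
    have h8 := Real.log_le_log (by linarith) h2
    rwa [Real.log_rpow hTp, ← hlam] at h8
  have hlP : l * D * v ≤ 4 * B7 * (P * s) := by
    calc l * D * v ≤ 4 * B7 * T ^ δ * s * D * v := by gcongr
      _ = 4 * B7 * (D * (v * T ^ δ) * s) := by ring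
      _ = 4 * B7 * (D * T ^ (c / 2) * s) := by rw [hvδ]
      _ ≤ 4 * B7 * (P * s) := by gcongr
  have hr0 : (0 : ℝ) < r := by linarith
  have hn1' : (r : ℝ) * D ≤ n := by exact_mod_cast hn1
  have hn2' : (n : ℝ) ≤ r * D + 1 := by exact_mod_cast hn2
  have k5 : 2 * C3 * (Real.log (4 * B7) + C1) ≤ c ^ 2 / 128 * lam := by
    have h2 := (div_le_iff₀ (by positivity : (0 : ℝ) < c ^ 2 / 128)).1 (a5.trans b1)
    linarith
  have k8 : 8 * (C1 * (r + 1) + 1 + 2 * r) < r * c * lam := by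
    have h2 : 8 * (C1 * (r + 1) + 1 + 2 * r) / (r * c) < lam := by linarith
    have h3 := (div_lt_iff₀ (by positivity : (0 : ℝ) < r * c)).1 h2
    linarith
  have k6 : 8 * B7 * C3 * lam ≤ v := by
    have h2 : 8 * B7 * C3 * lam ≤ K * lam := mul_le_mul_of_nonneg_right a6 hl0.le
    linarith
  exact U6_core hR hD1 b3 b4 hA0 hDA hn1' hn2' hs0 hs hlogs hsP hlog1 hP0 hlpos.le hlP hB70 hg hE0
    hE hC1 (by linarith) (Real.log_nonneg (by linarith)) hc0.le hδ0 (by linarith) (by linarith) k6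
    k5 kδ k8 hmain

end Pool.Agent.LibER91
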