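import Pool.Agent.LibER91.PatchDefs
import Pool.Agent.LibER91.Main
import Pool.Agent.LibER91.B2
import Pool.Agent.LibER91.C1
import Pool.Agent.LibER91.D2
import Pool.Agent.LibER91.G1
import Pool.Agent.LibER91.G2
import Pool.Agent.LibER91.H1
import Pool.Agent.LibER91.U3
import Pool.Agent.LibER91.U4
import Pool.Agent.LibER91.U5
import Pool.Agent.LibER91.U6

/-!
The count in one patch: assembly.
-/

set_option autoImplicit false

open Polynomial

namespace Pool.Agent.LibER91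

theorem cP_pos {ε : ℝ} (h : 0 < ε) : 0 < cP ε := by unfold cP; positivity

theorem deltaP_pos {r : ℕ} {ε : ℝ} (h : 0 < ε) : 0 < deltaP r ε := by
  unfold deltaP C3P
  have := cP_pos h
  apply lt_min (by norm_num)
  positivity

theorem patch_count : PatchCount := by
  intro r hr ε h0 h1
  obtain ⟨C1, hC1, hmain⟩ := main_ineq
  obtain ⟨T1, hT1, hbasic⟩ := u_basic ε h0 h1 (2 ^ r + 4)
  obtain ⟨T2, hT2, hurel⟩ := u_relation r hr ε h0 h1
  obtain ⟨T3, hT3, hucard⟩ := u_card r hr ε h0 h1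
  obtain ⟨T4, hT4, hudeg⟩ := u_degree r hr ε h0 h1
  obtain ⟨T5, hT5, hufin⟩ := u_final r hr ε h0 h1 C1 hC1
  refine ⟨cP ε, cP_pos h0, by unfold cP; linarith, deltaP r ε, deltaP_pos h0, T1 + T2 + T3 + T4 + T5, by linarith, ?_⟩
  intro T hT f hf R0 hR hRT hTf θ hθ L hL1 hL2
  have hTT1 : T1 ≤ T := by linarith
  have hTT2 : T2 ≤ T := by linarith
  have hTT3 : T3 ≤ T := by linarith
  have hTT4 : T4 ≤ T := by linarith
  have hTT5 : T5 ≤ T := by linarith
  have hT1' : 1 ≤ T := by linarith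
  have hTpos : 0 < T := by linarith
  obtain ⟨b1, b2, b3, b4, b5, b6, b7, b8, b9, b10, b11, b12, b13, b14, b15⟩ :=
    hbasic T hTT1 L hL1 hL2
  have hδ4 : deltaP r ε ≤ 1 / 10 ^ 4 := min_le_left _ _
  have hR4 : R0 ≤ T ^ (1 / 10 ^ 4 : ℝ) :=
    hRT.trans (Real.rpow_le_rpow_of_exponent_le hT1' hδ4)
  obtain ⟨c1, c2, c3⟩ := hurel T hTT2 R0 hR hR4 L hL1 hL2
  have hρdef : L * T ^ cP ε / T = rhoP ε T L := rfl
  rw [hρdef]
  have hfin := patch_finite f r hf.le R0 T θ (rhoP ε T L) L hR hTf hθ b5 b6.le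
  refine ⟨hfin, ?_⟩
  by_contra hcon
  push Not at hcon
  obtain ⟨S0, hS0⟩ : ∃ S0 : Finset ℤ, S0 = hfin.toFinset := ⟨_, rfl⟩
  have hS0c : ((patch f r θ (rhoP ε T L) L).ncard : ℝ) = S0.card := by
    rw [hS0, Set.ncard_eq_toFinset_card _ hfin]
  rw [hS0c] at hcon
  have hmem : ∀ t ∈ S0, t ∈ patch f r θ (rhoP ε T L) L := fun t ht => by
    rw [hS0] at ht; exact (Set.Finite.mem_toFinset hfin).1 ht
  obtain ⟨t0, ht0⟩ : ∃ t0 : ℤ, t0 = ⌊-(f.map (Int.castRingHom ℝ)).eval θ⌋ := ⟨_, rfl⟩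
  have hm12 : 12 ≤ mP ε T L := by unfold mP; omega
  have hm1 : 1 ≤ mP ε T L := by omega
  have hL0 : 0 ≤ L := by linarith
  -- Step 1
  obtain ⟨u, v, hne, hW, hrel⟩ := relation f r hf.le R0 T θ (rhoP ε T L) L (7 / 5 * L)
    (101 / 100 * L) (mP ε T L) hR hTf hT1' hθ b5 b6 hm1 hL0 (by linarith) c1 c2 c3
  rw [← ht0] at hrel
  -- the cardinalities
  have hrad1 : (mP ε T L : ℝ) ≤ radP r ε T L ∧ radP r ε T L ≤ T ∧ 1 ≤ radP r ε T L ∧
      4 ≤ Real.exp (9 / 10 * r * L) := by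
    obtain ⟨-, -, d3, d4, d5, -, d7, -⟩ := hucard T hTT3 L hL1 hL2 S0.card
      (hcon.le.trans (by linarith [(Nat.cast_nonneg (mP ε T L) : (0 : ℝ) ≤ _)]))
    exact ⟨d4, d3, d5, d7⟩
  obtain ⟨hmrad, hradT, hrad1', hexp4⟩ := hrad1
  -- Step 2
  obtain ⟨A, B, g, hg, hgm, hAB, hABm, hrel2, hA, hB⟩ := pair_of_bv (mP ε T L) hm1 u v
    (Real.exp (7 / 5 * L)) (radP r ε T L) hne hW hmrad
  obtain ⟨D, hD⟩ : ∃ D : ℕ, D = max A.natDegree B.natDegree := ⟨_, rfl⟩
  rw [← hD] at hABm hA hB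
  have hAD : A.natDegree ≤ D := hD ▸ le_max_left _ _
  have hBD : B.natDegree ≤ D := hD ▸ le_max_right _ _
  have hNP : Real.exp (7 / 5 * L) * (mP ε T L) * (4 * Real.exp 1) ^ (mP ε T L) *
      radP r ε T L ^ D = NP r ε T L D := rfl
  rw [hNP] at hA hB
  classical
  obtain ⟨S, hS⟩ : ∃ S : Finset ℤ, S = S0.filter (fun t => ¬ g.eval (t - t0) = 0) := ⟨_, rfl⟩
  have hSS0 : ∀ t ∈ S, t ∈ S0 ∧ g.eval (t - t0) ≠ 0 := fun t ht => by
    rw [hS, Finset.mem_filter] at ht; exact ht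
  have hcardS : S0.card ≤ S.card + mP ε T L := by
    have e1 := Finset.card_filter_add_card_filter_not (s := S0) (fun t => g.eval (t - t0) = 0)
    have e2 := card_roots_shift g hg S0 t0
    rw [hS]
    omega
  have hcardS' : L * T ^ cP ε * T ^ (-deltaP r ε) ≤ S.card + mP ε T L := by
    have : (S0.card : ℝ) ≤ S.card + mP ε T L := by exact_mod_cast hcardS
    linarith
  obtain ⟨d1, d2, d3, d4, d5, d6, d7, d8⟩ := hucard T hTT3 L hL1 hL2 S.card hcardS'
  -- the data of the elements of `S`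
  have hdata : ∀ t ∈ S, ∃ P Q : ℤ, Sol f r t P Q ∧ Real.exp (9 / 10 * L) ≤ |(Q : ℝ)| ∧
      |(P : ℝ) / Q - θ| ≤ rhoP ε T L ∧ A.eval (t - t0) * P + B.eval (t - t0) * Q = 0 := by
    intro t ht
    obtain ⟨ht1, ht2⟩ := hSS0 t ht
    obtain ⟨P, Q, e1, e2, e3, e4⟩ := hmem t ht1
    exact ⟨P, Q, e1, e2, e4, hrel2 _ P Q ht2 (hrel t P Q e1 e2 e3 e4)⟩
  have hSA : ∀ t ∈ S, A.eval (t - t0) ≠ 0 := by
    intro t ht hA0
    obtain ⟨P, Q, e1, -, -, e4⟩ := hdata t ht
    rw [hA0, zero_mul, zero_add] at e4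
    rcases mul_eq_zero.1 e4 with h | h
    · rcases eval_ne_zero A B hAB (t - t0) with h' | h'
      · exact h' hA0
      · exact h' h
    · exact e1.1 h
  have hSb : ∀ t ∈ S, |((t - t0 : ℤ) : ℝ)| + 1 ≤ radP r ε T L := by
    intro t ht
    have e1 := patch_bound f r hf.le R0 T θ (rhoP ε T L) L hR hTf hθ b5 b6.le t
      (hmem t (hSS0 t ht).1)
    rw [← ht0] at e1
    have e2 : (r : ℝ) * 2 ^ r * T * rhoP ε T L = r * 2 ^ r * (L * T ^ cP ε) := by
      unfold rhoP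
      field_simp
    unfold radP
    linarith
  have hcard2 : r * D + 2 ≤ S.card := by
    have : r * D ≤ r * mP ε T L := Nat.mul_le_mul_left r hABm
    have h3 : 3 ≤ r * mP ε T L := by nlinarith
    omega
  -- Step 3
  have hdeg := degree_ineq f r (by omega) hf R0 T θ (rhoP ε T L) (radP r ε T L)
    (NP r ε T L D) L hR hTf hθ b5 b6.le hrad1' t0 A B D hAD hBD hA hB S hdata hSb hSA hcard2 d6 d7
  obtain ⟨f1, f2, f3, f4, f5⟩ := hudeg T hTT4 R0 hR hR4 L hL1 hL2 hradT D hdeg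
  -- Step 4
  have hAB0 : A ≠ 0 ∨ B ≠ 0 := by
    rcases eval_ne_zero A B hAB 0 with h | h
    · left; rintro rfl; exact h (by simp)
    · right; rintro rfl; exact h (by simp)
  obtain ⟨n1, n2, n3⟩ := natDegree_GG f A B r t0 (by omega) hf hAB0
  rw [← hD] at n1 n2
  set G := GG f A B r t0 with hG
  set S' : Finset ℤ := S.image (fun t => t - t0) with hS'
  have hS'card : S'.card = S.card :=
    Finset.card_image_of_injective _ (fun a b h => by simpa using h)
  have hrD : 1 ≤ r * D := Nat.mul_pos (by omega) f1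
  have hDm : r * D ≤ r * mP ε T L := Nat.mul_le_mul_left r hABm
  have hP1 : 1 ≤ ⌈D * T ^ (cP ε / 2)⌉₊ := by
    apply Nat.one_le_ceil_iff.2
    have : (0 : ℝ) < D := by exact_mod_cast f1
    positivity
  have hs2 : (S.card : ℝ) ≤ 2 * radP r ε T L := by
    have := card_le_of_abs_le S t0 (radP r ε T L - 1) (by linarith)
      (fun t ht => by linarith [hSb t ht])
    linarith
  have hmain' := hmain A B G D r S' (2 * radP r ε T L) ⌈D * T ^ (cP ε / 2)⌉₊ hAB hAD hBD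
    (le_of_eq hD) (by omega) (by rw [hS'card]; omega)
    (fun p hp c j => wt_form f A B r t0 p hp c j hAB)
    (fun x hx => by
      rw [hS', Finset.mem_image] at hx
      obtain ⟨t, ht, rfl⟩ := hx
      obtain ⟨P, Q, e1, -, -, e4⟩ := hdata t ht
      refine ⟨eval_GG f A B r t0 t P Q e1 e4 (hSA t ht), ?_⟩
      rw [Ne, Int.gcd_eq_zero_iff]
      exact fun h => hSA t ht h.1)
    (by rw [hS'card]; exact hs2)
    (fun x hx x' hx' => by
      rw [hS', Finset.mem_image] at hx hx'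
      obtain ⟨t, ht, rfl⟩ := hx
      obtain ⟨t', ht', rfl⟩ := hx'
      have e1 := hSb t ht
      have e2 := hSb t' ht'
      push_cast at e1 e2 ⊢
      have e3 := abs_sub ((t : ℝ) - t0) ((t' : ℝ) - t0)
      linarith)
    hP1 (by rw [hS'card]; exact d8 D hABm)
  rw [hS'card] at hmain'
  have hnz1 : ∀ F : ℤ[X], nz 1 F ≤ nz (radP r ε T L) F := fun F =>
    nr_mono 1 (radP r ε T L) zero_le_one hrad1' _
  have hcoef : ∀ F : ℤ[X], nz (radP r ε T L) F ≤ NP r ε T L D → ∀ i,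
      |(F.coeff i : ℝ)| ≤ NP r ε T L D := fun F hF i =>
    (abs_coeff_int_le (radP r ε T L) hrad1' F i).trans hF
  have hrespos := res_pos A B D hAB hAD hBD (le_of_eq hD)
  have hE0 : 0 ≤ Real.log (res A B D) := Real.log_nonneg (by exact_mod_cast hrespos)
  have hE : Real.log (res A B D) ≤ C3P r * D ^ 2 * Real.log T := by
    have e1 := res_le A B D (NP r ε T L D) f4 (hcoef A hA) (hcoef B hB) hrespos
    have e2 : 2 * (D : ℝ) * Real.log (2 * D + 1) ≤ 2 * D * (D * Real.log T) := by gcongr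
    have e3 : 2 * (D : ℝ) * Real.log (NP r ε T L D) ≤
        2 * D * ((5 * r + 13) * D * Real.log T) := by gcongr
    unfold C3P
    nlinarith
  have hTf1 : nz 1 f ≤ T := (nr_mono 1 R0 zero_le_one hR _).trans hTf
  have hlc := lc_GG_le f A B r t0 T (NP r ε T L D) hf.le hTf1 f4 ((hnz1 A).trans hA)
    ((hnz1 B).trans hB)
  have hlc1 : 1 ≤ |(G.leadingCoeff : ℝ)| := by
    have : (1 : ℤ) ≤ |G.leadingCoeff| := Int.one_le_abs (leadingCoeff_ne_zero.2 n3)
    exact_mod_cast this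
  have ht0b : |(t0 : ℝ)| ≤ 2 ^ r * T + 1 := by
    have e1 := abs_eval_le_T f r hf.le R0 T hR hTf θ (by linarith)
    have e2 : |-(f.map (Int.castRingHom ℝ)).eval θ - t0| ≤ 1 := by
      rw [ht0, abs_le]
      constructor <;> linarith [Int.floor_le (-(f.map (Int.castRingHom ℝ)).eval θ),
        Int.lt_floor_add_one (-(f.map (Int.castRingHom ℝ)).eval θ)]
    have e3 : (t0 : ℝ) = -(f.map (Int.castRingHom ℝ)).eval θ -
        (-(f.map (Int.castRingHom ℝ)).eval θ - t0) := by ring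
    calc |(t0 : ℝ)| = |-(f.map (Int.castRingHom ℝ)).eval θ -
        (-(f.map (Int.castRingHom ℝ)).eval θ - t0)| := by rw [← e3]
      _ ≤ |-(f.map (Int.castRingHom ℝ)).eval θ| + |-(f.map (Int.castRingHom ℝ)).eval θ - t0| :=
        abs_sub _ _
      _ ≤ 2 ^ r * T + 1 := by rw [abs_neg]; linarith
  have hg0 : 0 ≤ Real.log |(G.leadingCoeff : ℝ)| := Real.log_nonneg hlc1
  have hlog2 : Real.log (T + 1 + |(t0 : ℝ)|) ≤ 2 * Real.log T := by
    have e1 : T + 1 + |(t0 : ℝ)| ≤ T ^ 2 := by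
      have e2 : (2 : ℝ) ^ r + 4 ≤ T := by
        have : Real.log T ≤ T - 1 := Real.log_le_sub_one_of_pos hTpos
        linarith
      nlinarith [abs_nonneg (t0 : ℝ)]
    calc Real.log (T + 1 + |(t0 : ℝ)|) ≤ Real.log (T ^ 2) :=
          Real.log_le_log (by positivity) e1
      _ = 2 * Real.log T := by rw [Real.log_pow]; push_cast; ring
  have hgle : Real.log |(G.leadingCoeff : ℝ)| ≤
      2 * Real.log T + r * ((5 * r + 13) * D * Real.log T) := by
    have hNpos : 0 < NP r ε T L D := by linarith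
    calc Real.log |(G.leadingCoeff : ℝ)| ≤ Real.log ((T + 1 + |(t0 : ℝ)|) * NP r ε T L D ^ r) :=
          Real.log_le_log (by linarith) hlc
      _ = Real.log (T + 1 + |(t0 : ℝ)|) + r * Real.log (NP r ε T L D) := by
          rw [Real.log_mul (by positivity) (by positivity), Real.log_pow]
      _ ≤ _ := by gcongr
  exact hufin T hTT5 L hL1 hL2 D G.natDegree S.card (Real.log |(G.leadingCoeff : ℝ)|)
    (Real.log (res A B D)) f1 hABm n1 n2 d1 hs2 hg0 hgle hE0 hE hmain'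

end Pool.Agent.LibER91
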