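import Mathlib

set_option autoImplicit false

namespace Pool.Agent.LibER91

/-- The exponent of the length of a patch. -/
noncomputable def cP (ε : ℝ) : ℝ := ε / 10 ^ 5

/-- The radius of a patch. -/
noncomputable def rhoP (ε T L : ℝ) : ℝ := L * T ^ cP ε / T

/-- The gain of one Taylor coefficient. -/
noncomputable def betaP (ε T L : ℝ) : ℝ := -Real.log (rhoP ε T L)

/-- The degree of the auxiliary polynomials. -/
noncomputable def mP (ε T L : ℝ) : ℕ := ⌈13 * L / betaP ε T L⌉₊ + 12

/-- The constant in the bound for the resultant. -/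
noncomputable def C3P (r : ℕ) : ℝ := 10 * r + 28

/-- The final saving in a patch. -/
noncomputable def deltaP (r : ℕ) (ε : ℝ) : ℝ := min (1 / 10 ^ 4) (cP ε ^ 2 / (1024 * C3P r))

/-- The radius of the values of the parameter. -/
noncomputable def radP (r : ℕ) (ε T L : ℝ) : ℝ := r * 2 ^ r * (L * T ^ cP ε) + 3

/-- The bound for the polynomials `A`, `B` of degree `D`. -/
noncomputable def NP (r : ℕ) (ε T L : ℝ) (D : ℕ) : ℝ :=
  Real.exp (7 / 5 * L) * mP ε T L * (4 * Real.exp 1) ^ mP ε T L * radP r ε T L ^ D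

end Pool.Agent.LibER91
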