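import Pool.Agent.LibHall43.C3b
import Pool.Agent.LibHall43.D1a

/-!
# The ranges for the exponential version of the count for `y^2 = x^3 + k`
-/

set_option autoImplicit false

namespace Pool.Agent.LibER91

open LibHall

/-- The pairs `(x, y)` which are counted in the exponential version:
`A^(12/5) ≤ x`, `log x ≤ L`, `0 < |y^2 - x^3| ≤ A^4`. -/
def IsGE (A L : ℝ) (x y : ℤ) : Prop :=
  0 < x ∧ A ^ 12 ≤ (x : ℝ) ^ 5 ∧ Real.log (x : ℝ) ≤ L ∧ 0 ≤ y ∧ y ^ 2 ≠ x ^ 3 ∧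
    |((y ^ 2 - x ^ 3 : ℤ) : ℝ)| ≤ A ^ 4

theorem red3_isG {A L : ℝ} (hA : 1 < A) {x y : ℤ} (h : IsGE A L x y) : ∃ C : ℕ, IsG A C x y := by
  obtain ⟨h1, h2, -, h4, h5, h6⟩ := h
  obtain ⟨C, hC⟩ := pow_unbounded_of_one_lt (x : ℝ) hA
  refine ⟨C, h1, h2, ?_, h4, h5, h6⟩
  refine hC.le.trans (pow_le_pow_right₀ hA.le (by omega))

theorem red3_W_facts (A L N1 N2 : ℝ) (hA : 100 ≤ A) (hN1 : 0 < N1) (hN2 : 0 < N2)
    (hN : N1 * N2 = 6) (x y : ℤ) (w1 w2 : ℤ × ℤ) (hG : IsGE A L x y)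
    (hW : IsW A N1 N2 x y w1 w2) :
    1 ≤ 6 * A * N1 ^ 3 ∧ 1 ≤ 6 * A * N2 ^ 3 ∧ w1.2 ≠ 0 ∧
    |(T3 x y w1 w1 w1 : ℝ)| ≤ 6 * A * N1 ^ 3 ∧ |(T3 x y w1 w1 w2 : ℝ)| ≤ 36 * A * N1 ∧
    |(T3 x y w1 w2 w2 : ℝ)| ≤ 36 * A * N2 ∧ |(T3 x y w2 w2 w2 : ℝ)| ≤ 6 * A * N2 ^ 3 ∧
    |(w1.2 : ℝ)| ≤ √(x : ℝ) ∧
    IsS (20 * N2 / N1) (A * N2 ^ 3 / 2) (T3 x y w1 w1 w1) (T3 x y w1 w1 w2) (T3 x y w1 w2 w2)
      (T3 x y w2 w2 w2, w2.2, -w1.2) := by
  obtain ⟨C, hC⟩ := red3_isG (by linarith) hG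
  exact W_facts C A N1 N2 hA hN1 hN2 hN x y w1 w2 hC hW

/-- The lower end of a range. -/
noncomputable def rB (k : ℕ) : ℝ := if k = 0 then 1 else (2 : ℝ) ^ ((4 / 3 : ℝ) ^ (k - 1))

theorem rB_one_le (k : ℕ) : 1 ≤ rB k := by
  unfold rB
  split_ifs
  · exact le_refl _
  · exact Real.one_le_rpow (by norm_num) (by positivity)

theorem exists_range (b : ℤ) (hb : b ≠ 0) : ∃ k : ℕ, rB k ≤ |(b : ℝ)| ∧
    |(b : ℝ)| ≤ rB k ^ (1 / 3 : ℝ) * rB k ∧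
    (k = 0 ∨ (4 / 3 : ℝ) ^ (k - 1) * Real.log 2 ≤ Real.log |(b : ℝ)|) := by
  have h1 : (1 : ℤ) ≤ |b| := Int.one_le_abs hb
  have h1' : (1 : ℝ) ≤ |(b : ℝ)| := by exact_mod_cast h1
  rcases eq_or_lt_of_le h1 with h | h
  · have h2 : |(b : ℝ)| = 1 := by
      have : ((|b| : ℤ) : ℝ) = 1 := by rw [← h]; norm_num
      rwa [Int.cast_abs] at this
    refine ⟨0, ?_, ?_, Or.inl rfl⟩
    · simp [rB, h2]
    · simp [rB, h2]
  · have h2 : (2 : ℤ) ≤ |b| := by omega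
    have h2' : (2 : ℝ) ≤ |(b : ℝ)| := by exact_mod_cast h2
    have hb0 : (0 : ℝ) < |(b : ℝ)| := by linarith
    have hl2 : 0 < Real.log 2 := Real.log_pos (by norm_num)
    have hx : 1 ≤ Real.log |(b : ℝ)| / Real.log 2 := by
      rw [le_div_iff₀ hl2, one_mul]
      exact Real.log_le_log (by norm_num) h2'
    obtain ⟨n, hn1, hn2⟩ := exists_nat_pow_near hx (by norm_num : (1 : ℝ) < 4 / 3)
    rw [le_div_iff₀ hl2] at hn1
    rw [div_lt_iff₀ hl2] at hn2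
    have hBdef : rB (n + 1) = Real.exp ((4 / 3 : ℝ) ^ n * Real.log 2) := by
      rw [rB, if_neg (Nat.succ_ne_zero n), Nat.add_sub_cancel,
        Real.rpow_def_of_pos (by norm_num : (0 : ℝ) < 2), mul_comm]
    refine ⟨n + 1, ?_, ?_, Or.inr ?_⟩
    · rw [hBdef, ← Real.le_log_iff_exp_le hb0]
      exact hn1
    · rw [hBdef, ← Real.exp_mul, ← Real.exp_add, ← Real.log_le_iff_le_exp hb0]
      refine hn2.le.trans (le_of_eq ?_)
      rw [pow_succ]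
      ring
    · rw [Nat.add_sub_cancel]
      exact hn1

/-- The number of the range of `b`. -/
noncomputable def rk (b : ℤ) : ℕ := if h : b ≠ 0 then (exists_range b h).choose else 0

theorem rk_spec (b : ℤ) (hb : b ≠ 0) : rB (rk b) ≤ |(b : ℝ)| ∧
    |(b : ℝ)| ≤ rB (rk b) ^ (1 / 3 : ℝ) * rB (rk b) ∧
    (rk b = 0 ∨ (4 / 3 : ℝ) ^ (rk b - 1) * Real.log 2 ≤ Real.log |(b : ℝ)|) := by
  unfold rk
  rw [dif_pos hb]
  exact (exists_range b hb).choose_spec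

theorem log_four_thirds : (1 / 4 : ℝ) ≤ Real.log (4 / 3) := by
  have h1 : (1 : ℝ) ≤ Real.log ((4 / 3) ^ 4) := by
    rw [Real.le_log_iff_exp_le (by norm_num)]
    have := Real.exp_one_lt_d9
    norm_num
    linarith
  rw [Real.log_pow] at h1
  push_cast at h1
  linarith

theorem rk_le (b : ℤ) (hb : b ≠ 0) (A : ℝ) (hA : 1 ≤ A) (h : Real.log |(b : ℝ)| ≤ A / 2) :
    (rk b : ℝ) ≤ 1 + 4 * Real.log A := by
  obtain ⟨-, -, h3⟩ := rk_spec b hb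
  have hlA := Real.log_nonneg hA
  rcases h3 with h3 | h3
  · rw [h3]
    push_cast
    linarith
  · by_cases hk : rk b = 0
    · rw [hk]
      push_cast
      linarith
    · have hl2 := Real.log_two_gt_d9
      have hp : (0 : ℝ) < (4 / 3 : ℝ) ^ (rk b - 1) := by positivity
      have h4 : (4 / 3 : ℝ) ^ (rk b - 1) ≤ A := by
        have : (4 / 3 : ℝ) ^ (rk b - 1) * (1 / 2) ≤ A / 2 := by
          refine le_trans ?_ (h3.trans h)
          apply mul_le_mul_of_nonneg_left _ hp.le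
          linarith
        linarith
      have h5 := Real.log_le_log hp h4
      rw [Real.log_pow] at h5
      have h6 : ((rk b - 1 : ℕ) : ℝ) = (rk b : ℝ) - 1 := by
        rw [Nat.cast_sub (by omega)]
        norm_num
      rw [h6] at h5
      have h7 := log_four_thirds
      have h8 : (0 : ℝ) ≤ (rk b : ℝ) - 1 := by
        have : (1 : ℝ) ≤ (rk b : ℝ) := by exact_mod_cast (by omega : 1 ≤ rk b)
        linarith
      have h9 : ((rk b : ℝ) - 1) * (1 / 4) ≤ ((rk b : ℝ) - 1) * Real.log (4 / 3) :=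
        mul_le_mul_of_nonneg_left h7 h8
      linarith

end Pool.Agent.LibER91
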