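import Pool.Agent.LibER91.Red3Base
import Pool.Agent.LibHall43.C2a

/-!
# Labels of bases, exponential version
-/

set_option autoImplicit false

namespace Pool.Agent.LibER91

open LibHall

/-- The slope label of a basis. -/
noncomputable def red3Fl (M Θ : ℝ) (s : (ℤ × ℤ) × (ℤ × ℤ) × (ℤ × ℤ)) : ℤ :=
  ⌊((s.2.2.2 : ℝ) / ((-s.2.1.2 : ℤ) : ℝ)) * M / Θ⌋

/-- Consequences of the product relation. -/
theorem red3_low (A N1 : ℝ) (hA : 3000 ≤ A) (hN1 : 0 < N1)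
    (hR0 : 1 ≤ 6 * A * N1 ^ 3) : 100 ≤ A * N1 ∧ 110 ≤ A * N1 := by
  have hA0 : 0 < A := by linarith
  have hN2low : 110 ≤ A * N1 := by
    by_contra hcon
    push Not at hcon
    have h1 : (A * N1) ^ 3 < 110 ^ 3 := pow_lt_pow_left₀ hcon (by positivity) (by norm_num)
    have h2 : A ^ 2 ≤ 6 * (A * N1) ^ 3 := by
      calc A ^ 2 = A ^ 2 * 1 := (mul_one _).symm
        _ ≤ A ^ 2 * (6 * A * N1 ^ 3) := by gcongr
        _ = 6 * (A * N1) ^ 3 := by ring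
    nlinarith
  exact ⟨by linarith, hN2low⟩

/-- The labels determine the basis. -/
theorem red3_inj (A L N1 N2 : ℝ) (hA : 3000 ≤ A) (hN1 : 0 < N1) (hN2 : 0 < N2)
    (hN : N1 * N2 = 6) (s s' : (ℤ × ℤ) × (ℤ × ℤ) × (ℤ × ℤ))
    (hs : IsGE A L s.1.1 s.1.2 ∧ IsW A N1 N2 s.1.1 s.1.2 s.2.1 s.2.2)
    (hs' : IsGE A L s'.1.1 s'.1.2 ∧ IsW A N1 N2 s'.1.1 s'.1.2 s'.2.1 s'.2.2)
    (e0 : T3 s.1.1 s.1.2 s.2.1 s.2.1 s.2.1 = T3 s'.1.1 s'.1.2 s'.2.1 s'.2.1 s'.2.1)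
    (e1 : T3 s.1.1 s.1.2 s.2.1 s.2.1 s.2.2 = T3 s'.1.1 s'.1.2 s'.2.1 s'.2.1 s'.2.2)
    (e2 : T3 s.1.1 s.1.2 s.2.1 s.2.2 s.2.2 = T3 s'.1.1 s'.1.2 s'.2.1 s'.2.2 s'.2.2)
    (e3 : T3 s.1.1 s.1.2 s.2.2 s.2.2 s.2.2 = T3 s'.1.1 s'.1.2 s'.2.2 s'.2.2 s'.2.2)
    (ek : rk (-s.2.1.2) = rk (-s'.2.1.2))
    (ef : red3Fl 1344000 (20 * N2 / N1) s = red3Fl 1344000 (20 * N2 / N1) s') : s = s' := by
  have hA0 : 0 < A := by linarith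
  obtain ⟨hR0, hR3, hb0, h0, h1, h2, h3, hbx, hIsS⟩ := red3_W_facts A L N1 N2 (by linarith) hN1
    hN2 hN s.1.1 s.1.2 s.2.1 s.2.2 hs.1 hs.2
  obtain ⟨-, -, hb0', h0', h1', h2', h3', hbx', hIsS'⟩ := red3_W_facts A L N1 N2 (by linarith)
    hN1 hN2 hN s'.1.1 s'.1.2 s'.2.1 s'.2.2 hs'.1 hs'.2
  have hN1' : N1 = 6 / N2 := by rw [eq_div_iff hN2.ne']; linarith
  have hN2low := (red3_low A N2 hA hN2 hR3).2
  obtain ⟨M, hM⟩ : ∃ M : ℝ, M = 1344000 := ⟨_, rfl⟩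
  have hM0 : 0 < M := by rw [hM]; norm_num
  rw [← hM] at ef
  set Θ := 20 * N2 / N1 with hΘ
  have hΘ0 : 0 < Θ := by positivity
  unfold red3Fl at ef
  rw [← e0, ← e1, ← e2, ← e3] at hIsS'
  have hl := rk_spec (-s.2.1.2) (neg_ne_zero.2 hb0)
  have hl' := rk_spec (-s'.2.1.2) (neg_ne_zero.2 hb0')
  rw [← ek] at hl'
  have hB1 := rB_one_le (rk (-s.2.1.2))
  have hclose : |(s.2.2.2 : ℝ) / ((-s.2.1.2 : ℤ) : ℝ) - (s'.2.2.2 : ℝ) / ((-s'.2.1.2 : ℤ) : ℝ)| *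
      (14 * (48000 * A * N2 ^ 3)) ≤ Θ * (A * N2 ^ 3 / 2) := by
    have h4 := Int.abs_sub_lt_one_of_floor_eq_floor ef
    have h5 : (s.2.2.2 : ℝ) / ((-s.2.1.2 : ℤ) : ℝ) * M / Θ -
        (s'.2.2.2 : ℝ) / ((-s'.2.1.2 : ℤ) : ℝ) * M / Θ =
        ((s.2.2.2 : ℝ) / ((-s.2.1.2 : ℤ) : ℝ) - (s'.2.2.2 : ℝ) / ((-s'.2.1.2 : ℤ) : ℝ)) *
          (M / Θ) := by ring
    rw [h5, abs_mul, abs_of_pos (div_pos hM0 hΘ0), ← mul_div_assoc, div_lt_one hΘ0] at h4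
    calc |(s.2.2.2 : ℝ) / ((-s.2.1.2 : ℤ) : ℝ) - (s'.2.2.2 : ℝ) / ((-s'.2.1.2 : ℤ) : ℝ)| *
          (14 * (48000 * A * N2 ^ 3))
        = (|(s.2.2.2 : ℝ) / ((-s.2.1.2 : ℤ) : ℝ) - (s'.2.2.2 : ℝ) / ((-s'.2.1.2 : ℤ) : ℝ)| * M) *
          (A * N2 ^ 3 / 2) := by rw [hM]; ring
      _ ≤ Θ * (A * N2 ^ 3 / 2) := mul_le_mul_of_nonneg_right h4.le (by positivity)
  have hc0 : |(T3 s.1.1 s.1.2 s.2.1 s.2.1 s.2.1 : ℝ)| * Θ ^ 3 ≤ 48000 * A * N2 ^ 3 := by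
    calc |(T3 s.1.1 s.1.2 s.2.1 s.2.1 s.2.1 : ℝ)| * Θ ^ 3 ≤ (6 * A * N1 ^ 3) * Θ ^ 3 := by
          gcongr
      _ = 48000 * A * N2 ^ 3 := by
          rw [hΘ]
          field_simp
          ring
  have hc1 : |(T3 s.1.1 s.1.2 s.2.1 s.2.1 s.2.2 : ℝ)| * Θ ^ 2 ≤ 48000 * A * N2 ^ 3 := by
    calc |(T3 s.1.1 s.1.2 s.2.1 s.2.1 s.2.2 : ℝ)| * Θ ^ 2 ≤ (36 * A * N1) * Θ ^ 2 := by
          gcongr
      _ = 2400 * A * N2 ^ 3 := by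
          rw [hΘ, hN1']
          field_simp
          ring
      _ ≤ 48000 * A * N2 ^ 3 := by
          have : 0 < A * N2 ^ 3 := by positivity
          linarith
  have hc2 : |(T3 s.1.1 s.1.2 s.2.1 s.2.2 s.2.2 : ℝ)| * Θ ≤ 48000 * A * N2 ^ 3 := by
    calc |(T3 s.1.1 s.1.2 s.2.1 s.2.2 s.2.2 : ℝ)| * Θ ≤ (36 * A * N2) * Θ := by
          gcongr
      _ = 120 * A * N2 ^ 3 := by
          rw [hΘ, hN1']
          field_simp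
          ring
      _ ≤ 48000 * A * N2 ^ 3 := by
          have : 0 < A * N2 ^ 3 := by positivity
          linarith
  set B := rB (rk (-s.2.1.2)) with hBdef
  have hn1 : 1 ≤ B ^ (1 / 3 : ℝ) := Real.one_le_rpow hB1 (by norm_num)
  have hB0 : 0 < B := by linarith
  have hbig : 4 * (B ^ (1 / 3 : ℝ)) ^ 2 * Θ < A * N2 ^ 3 / 2 * B := by
    have h6 : 4 * Θ < A * N2 ^ 3 / 2 := by
      have h7 : Θ = 10 / 3 * N2 ^ 2 := by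
        rw [hΘ, hN1']
        field_simp
        ring
      rw [h7]
      have h8 : 0 < N2 ^ 2 := by positivity
      nlinarith
    have h9 : (B ^ (1 / 3 : ℝ)) ^ 2 ≤ B := by
      calc (B ^ (1 / 3 : ℝ)) ^ 2 ≤ (B ^ (1 / 3 : ℝ)) ^ 3 := pow_le_pow_right₀ hn1 (by norm_num)
        _ = B := by
          rw [← Real.rpow_natCast, ← Real.rpow_mul hB0.le]
          norm_num
    calc 4 * (B ^ (1 / 3 : ℝ)) ^ 2 * Θ = (4 * Θ) * (B ^ (1 / 3 : ℝ)) ^ 2 := by ring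
      _ ≤ (4 * Θ) * B := mul_le_mul_of_nonneg_left h9 (by positivity)
      _ < A * N2 ^ 3 / 2 * B := mul_lt_mul_of_pos_right h6 hB0
  obtain ⟨ha, hb⟩ := uniq _ _ _ _ _ _ _ _ Θ (A * N2 ^ 3 / 2) (48000 * A * N2 ^ 3)
    B (B ^ (1 / 3 : ℝ)) hΘ0 (by positivity) hB1 hn1 hc0 hc1 hc2
    hIsS hIsS' hl.1 hl'.1 hl.2.1 hl'.2.1 hclose hbig
  have hb' : s.2.1.2 = s'.2.1.2 := neg_injective hb
  obtain ⟨r1, r2, r3, r4⟩ := tuple_inj s.1.1 s.1.2 s'.1.1 s'.1.2 s.2.1 s.2.2 s'.2.1 s'.2.2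
    hs.2.1 hs'.2.1 hb0 e0 e1 e2 ha hb'
  exact Prod.ext (Prod.ext r1 r2) (Prod.ext r3 r4)

/-- The box of the labels `(c0, c1, c2, rk, fl)`. -/
noncomputable def red3Box (A N1 N2 : ℝ) : Finset (ℤ × ℤ × ℤ × ℕ × ℤ) :=
  Finset.Icc (-⌊6 * A * N1 ^ 3⌋) ⌊6 * A * N1 ^ 3⌋ ×ˢ
    Finset.Icc (-⌊36 * A * N1⌋) ⌊36 * A * N1⌋ ×ˢ
    Finset.Icc (-⌊36 * A * N2⌋) ⌊36 * A * N2⌋ ×ˢ
    Finset.range (⌊1 + 4 * Real.log A⌋₊ + 1) ×ˢ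
    Finset.Icc (-⌊(1344000 : ℝ)⌋) ⌊(1344000 : ℝ)⌋

/-- The label `(c0, c1, c2, rk, fl)`. -/
noncomputable def red3Lab (N1 N2 : ℝ) (s : (ℤ × ℤ) × (ℤ × ℤ) × (ℤ × ℤ)) :
    ℤ × ℤ × ℤ × ℕ × ℤ :=
  (T3 s.1.1 s.1.2 s.2.1 s.2.1 s.2.1, T3 s.1.1 s.1.2 s.2.1 s.2.1 s.2.2,
    T3 s.1.1 s.1.2 s.2.1 s.2.2 s.2.2, rk (-s.2.1.2), red3Fl 1344000 (20 * N2 / N1) s)

theorem red3_mem (A L N1 N2 : ℝ) (hA : 3000 ≤ A) (hL : L ≤ A) (hN1 : 0 < N1) (hN2 : 0 < N2)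
    (hN : N1 * N2 = 6) (s : (ℤ × ℤ) × (ℤ × ℤ) × (ℤ × ℤ))
    (hs : IsGE A L s.1.1 s.1.2 ∧ IsW A N1 N2 s.1.1 s.1.2 s.2.1 s.2.2) :
    red3Lab N1 N2 s ∈ red3Box A N1 N2 := by
  have hA0 : 0 < A := by linarith
  obtain ⟨hR0, hR3, hb0, h0, h1, h2, h3, hbx, hIsS⟩ := red3_W_facts A L N1 N2 (by linarith) hN1
    hN2 hN s.1.1 s.1.2 s.2.1 s.2.2 hs.1 hs.2
  have hΘ0 : 0 < 20 * N2 / N1 := by positivity
  have hlA : 0 ≤ Real.log A := Real.log_nonneg (by linarith)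
  simp only [red3Lab, red3Box, Finset.mem_product]
  refine ⟨C3b_mem _ _ h0, C3b_mem _ _ h1, C3b_mem _ _ h2, ?_, ?_⟩
  · rw [Finset.mem_range, Nat.lt_succ_iff, Nat.le_floor_iff (by positivity)]
    apply rk_le _ (neg_ne_zero.2 hb0) A (by linarith)
    have hx0 : (0 : ℝ) < s.1.1 := by exact_mod_cast hs.1.1
    have hbR : ((s.2.1.2 : ℤ) : ℝ) ≠ 0 := by exact_mod_cast hb0
    rw [Int.cast_neg, abs_neg]
    have h7 := Real.log_le_log (abs_pos.2 hbR) hbx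
    rw [Real.log_sqrt hx0.le] at h7
    have h8 := hs.1.2.2.1
    linarith
  · have hbR : ((-s.2.1.2 : ℤ) : ℝ) ≠ 0 := by exact_mod_cast neg_ne_zero.2 hb0
    obtain ⟨M, hM⟩ : ∃ M : ℝ, M = 1344000 := ⟨_, rfl⟩
    have hM0 : 0 < M := by rw [hM]; norm_num
    have hMint : M = ((1344000 : ℤ) : ℝ) := by rw [hM]; norm_num
    have hMfl : ⌊M⌋ = 1344000 := by rw [hMint]; exact Int.floor_intCast _
    rw [← hM]
    have h4 : |(s.2.2.2 : ℝ)| ≤ 20 * N2 / N1 * |((-s.2.1.2 : ℤ) : ℝ)| := hIsS.2.2.1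
    have h5 : |(s.2.2.2 : ℝ) / ((-s.2.1.2 : ℤ) : ℝ) * M / (20 * N2 / N1)| ≤ M := by
      rw [abs_div, abs_mul, abs_div, abs_of_pos hM0, abs_of_pos hΘ0, div_le_iff₀ hΘ0]
      have h6 : |(s.2.2.2 : ℝ)| / |((-s.2.1.2 : ℤ) : ℝ)| ≤ 20 * N2 / N1 :=
        (div_le_iff₀ (abs_pos.2 hbR)).2 h4
      calc |(s.2.2.2 : ℝ)| / |((-s.2.1.2 : ℤ) : ℝ)| * M ≤ 20 * N2 / N1 * M :=
            mul_le_mul_of_nonneg_right h6 hM0.le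
        _ = M * (20 * N2 / N1) := mul_comm _ _
    have h7 := abs_le.1 h5
    unfold red3Fl
    rw [Finset.mem_Icc]
    constructor
    · rw [hMfl]
      refine Int.le_floor.2 ?_
      have h8 : ((-1344000 : ℤ) : ℝ) = -M := by rw [hM]; norm_num
      rw [h8]
      exact h7.1
    · exact Int.floor_le_floor h7.2

theorem red3_box_card (A N1 N2 : ℝ) (hA : 3000 ≤ A) (hN1 : 0 < N1) (hN2 : 0 < N2)
    (hN : N1 * N2 = 6) (hR0 : 1 ≤ 6 * A * N1 ^ 3) (hR3 : 1 ≤ 6 * A * N2 ^ 3) :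
    ((red3Box A N1 N2).card : ℝ) ≤ 4 * 10 ^ 13 * (A ^ 3 * N1 ^ 3 * Real.log A) := by
  have hA0 : 0 < A := by linarith
  have hlogA : 2 ≤ Real.log A := by
    rw [Real.le_log_iff_exp_le hA0]
    have h1 : Real.exp 2 = Real.exp 1 * Real.exp 1 := by
      rw [← Real.exp_add]
      norm_num
    have h2 := Real.exp_one_lt_d9
    have h3 := Real.exp_pos 1
    rw [h1]
    nlinarith
  have hN1low := (red3_low A N1 hA hN1 hR0).1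
  have hN2low := (red3_low A N2 hA hN2 hR3).1
  have h := C3b_prod 1 _ _ _ (⌊1 + 4 * Real.log A⌋₊ + 1) _ 1 (3 * (6 * A * N1 ^ 3))
    (3 * (36 * A * N1)) (3 * (36 * A * N2)) (6 * Real.log A) (3 * 1344000) (by norm_num)
    (C3b_card_le (6 * A * N1 ^ 3) hR0)
    (C3b_card_le (36 * A * N1) (by linarith)) (C3b_card_le (36 * A * N2) (by linarith))
    (by
      have h1 : (⌊1 + 4 * Real.log A⌋₊ : ℝ) ≤ 1 + 4 * Real.log A :=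
        Nat.floor_le (by linarith)
      push_cast
      linarith) (C3b_card_le 1344000 (by norm_num))
  have h2 : (red3Box A N1 N2).card = 1 * ((Finset.Icc (-⌊6 * A * N1 ^ 3⌋) ⌊6 * A * N1 ^ 3⌋).card *
      ((Finset.Icc (-⌊36 * A * N1⌋) ⌊36 * A * N1⌋).card *
        ((Finset.Icc (-⌊36 * A * N2⌋) ⌊36 * A * N2⌋).card * ((⌊1 + 4 * Real.log A⌋₊ + 1) *
          (Finset.Icc (-⌊(1344000 : ℝ)⌋) ⌊(1344000 : ℝ)⌋).card)))) := by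
    rw [red3Box, Finset.card_product, Finset.card_product, Finset.card_product,
      Finset.card_product, Finset.card_range, one_mul]
  rw [h2]
  refine h.trans ?_
  have hpos : 0 ≤ A ^ 3 * N1 ^ 3 * Real.log A := by positivity
  calc 1 * (3 * (6 * A * N1 ^ 3) * (3 * (36 * A * N1) * (3 * (36 * A * N2) *
        (6 * Real.log A * (3 * 1344000)))))
      = 209952 * (N1 * N2) * (6 * (3 * 1344000)) * (A ^ 3 * N1 ^ 3 * Real.log A) := by ring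
    _ ≤ 4 * 10 ^ 13 * (A ^ 3 * N1 ^ 3 * Real.log A) := by
      apply mul_le_mul_of_nonneg_right _ hpos
      rw [hN]
      norm_num

end Pool.Agent.LibER91
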