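import Pool.Agent.LibHLP.DyadicU
import Pool.Agent.LibER91.PencilDefs

set_option autoImplicit false

open Filter

namespace Pool.Agent.LibER91

open Pool.Agent.LibHLP

/-- The forms with large leading coefficient. -/
theorem dyR_case2 (ε δ T0 : ℝ) (hε1 : ε < 1)
    (hpen : ∀ T : ℝ, T0 ≤ T → ∀ R : ℝ, 1 ≤ R → R ≤ T ^ δ → ∀ a1 a2 a3 a4 : ℤ, a4 ≠ 0 →
      |(a1 : ℝ)| * R ≤ T → |(a2 : ℝ)| * R ^ 2 ≤ T → |(a3 : ℝ)| * R ^ 3 ≤ T →
      |(a4 : ℝ)| * R ^ 4 ≤ T →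
      (pencilSet a1 a2 a3 a4 R (Real.exp (T ^ (1 - ε)))).Finite ∧
      ((pencilSet a1 a2 a3 a4 R (Real.exp (T ^ (1 - ε)))).ncard : ℝ) ≤ T ^ (1 - δ))
    (hδ0 : 0 ≤ δ)
    (H L X η : ℝ) (hH : 1 ≤ H) (hHT : T0 ≤ H) (hL : 0 < L) (hL1 : L ≤ 1)
    (hX : X ≤ Real.exp (H ^ (1 - ε))) (hη : 1 ≤ η) (hbig : 1 ≤ 5152 * H * L ^ 4)
    (hRH : 5152 * η * L⁻¹ ^ 2 ≤ H ^ δ) :
    (dyU_S H L X ∩ {F | H / η * L ^ 4 < |(F.1.1 : ℝ)|}).Finite ∧
    ((dyU_S H L X ∩ {F | H / η * L ^ 4 < |(F.1.1 : ℝ)|}).ncard : ℝ)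
      ≤ 162 * 5152 ^ 4 * (H ^ 4 * L ^ 4) *
        (5152 ^ 5 * H * η ^ 4 * L⁻¹ ^ 4) ^ (1 - δ) := by
  have hHpos : 0 < H := by linarith
  have hηpos : 0 < η := by linarith
  have hl : (1 : ℝ) ≤ L⁻¹ := (one_le_inv₀ hL).2 hL1
  have hlpos : 0 < L⁻¹ := by positivity
  have hLl : L * L⁻¹ = 1 := mul_inv_cancel₀ hL.ne'
  set D : ℝ := 5152 ^ 5 * H * η ^ 4 * L⁻¹ ^ 4 with hD
  have hη2 : (1 : ℝ) ≤ η ^ 2 := one_le_pow₀ hη
  have hη3 : (1 : ℝ) ≤ η ^ 3 := one_le_pow₀ hη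
  have hη4 : (1 : ℝ) ≤ η ^ 4 := one_le_pow₀ hη
  have hl4 : (1 : ℝ) ≤ L⁻¹ ^ 4 := one_le_pow₀ hl
  have hDH : H ≤ D := by
    calc H = 1 * H * 1 * 1 := by ring
      _ ≤ 5152 ^ 5 * H * η ^ 4 * L⁻¹ ^ 4 := by
        gcongr
        norm_num
  have hDpos : 0 < D := by linarith
  have hXD : X ≤ Real.exp (D ^ (1 - ε)) := by
    refine hX.trans (Real.exp_le_exp.2 ?_)
    exact Real.rpow_le_rpow hHpos.le hDH (by linarith)
  set R : ℝ := 5152 * η * L⁻¹ ^ 2 with hR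
  have hR1 : 1 ≤ R := by
    calc (1 : ℝ) = 1 * 1 * 1 ^ 2 := by ring
      _ ≤ 5152 * η * L⁻¹ ^ 2 := by
        gcongr
        norm_num
  have hRpos : 0 < R := by linarith
  have hRD : R ≤ D ^ δ := hRH.trans (Real.rpow_le_rpow hHpos.le hDH hδ0)
  have key := ncard_fibre
    (dyU_S H L X ∩ {F | H / η * L ^ 4 < |(F.1.1 : ℝ)|})
    (dyU_T ((ball (5152 * H * L ^ 4)).erase 0) H L) (D ^ (1 - δ)) ?_ ?_
  · refine ⟨key.1, key.2.trans ?_⟩
    have h1 := card_dyU_T ((ball (5152 * H * L ^ 4)).erase 0) (2 * (5152 * H * L ^ 4)) H L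
      (card_ball_erase _ (by positivity)) hH hL hL1 hbig
    calc ((dyU_T ((ball (5152 * H * L ^ 4)).erase 0) H L).card : ℝ) * (D ^ (1 - δ))
        ≤ 81 * 5152 ^ 3 * (2 * (5152 * H * L ^ 4) * H ^ 3) * (D ^ (1 - δ)) :=
          mul_le_mul_of_nonneg_right h1 (by positivity)
      _ = _ := by ring
  · rintro ⟨⟨a, b, c, d⟩, e⟩ ⟨⟨lam, h1, h2, hg, _⟩, _⟩
    obtain ⟨ha0, ha, hb, hc, hd, _, _⟩ := dyU_bounds (X := X) hH hL h1 h2 hg
    exact mem_dyU_T.2 ⟨Finset.mem_erase.2 ⟨ha0, (mem_ball _ _).2 ha⟩, hb, hc, hd⟩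
  · rintro ⟨a, b, c, d⟩ hT
    obtain ⟨ha', hb, hc, hd⟩ := mem_dyU_T.1 hT
    have ha : |(a : ℝ)| ≤ 5152 * H * L ^ 4 := (mem_ball _ _).1 (Finset.mem_erase.1 ha').2
    have ha0 : a ≠ 0 := (Finset.mem_erase.1 ha').1
    by_cases haR : H / η * L ^ 4 < |(a : ℝ)|
    · have b4 : |((a : ℤ) : ℝ)| * R ^ 4 ≤ D := by
        calc |((a : ℤ) : ℝ)| * R ^ 4 ≤ (5152 * H * L ^ 4) * R ^ 4 :=
              mul_le_mul_of_nonneg_right ha (by positivity)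
          _ = D * (L * L⁻¹) ^ 4 := by rw [hR, hD]; ring
          _ = D := by rw [hLl, one_pow, mul_one]
      have b3 : |((4 * b : ℤ) : ℝ)| * R ^ 3 ≤ D := by
        push_cast
        rw [abs_mul, abs_of_pos (by norm_num : (0 : ℝ) < 4)]
        calc 4 * |(b : ℝ)| * R ^ 3 ≤ 4 * (5152 * H * L ^ 2) * R ^ 3 := by gcongr
          _ = (4 * 5152 ^ 4 * H * η ^ 3 * L⁻¹ ^ 4) * (L * L⁻¹) ^ 2 := by rw [hR]; ring
          _ = 4 * 5152 ^ 4 * H * η ^ 3 * L⁻¹ ^ 4 := by rw [hLl, one_pow, mul_one]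
          _ ≤ 5152 ^ 5 * H * η ^ 4 * L⁻¹ ^ 4 := by
              gcongr
              · norm_num
              · norm_num
      have b2 : |((6 * c : ℤ) : ℝ)| * R ^ 2 ≤ D := by
        push_cast
        rw [abs_mul, abs_of_pos (by norm_num : (0 : ℝ) < 6)]
        calc 6 * |(c : ℝ)| * R ^ 2 ≤ 6 * (5152 * H) * R ^ 2 := by gcongr
          _ = 6 * 5152 ^ 3 * H * η ^ 2 * L⁻¹ ^ 4 := by rw [hR]; ring
          _ ≤ 5152 ^ 5 * H * η ^ 4 * L⁻¹ ^ 4 := by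
              gcongr
              · norm_num
              · norm_num
      have b1 : |((4 * d : ℤ) : ℝ)| * R ≤ D := by
        push_cast
        rw [abs_mul, abs_of_pos (by norm_num : (0 : ℝ) < 4)]
        calc 4 * |(d : ℝ)| * R ≤ 4 * (4 * 5152 * H * L⁻¹ ^ 2) * R := by gcongr
          _ = 16 * 5152 ^ 2 * H * η ^ 1 * L⁻¹ ^ 4 := by rw [hR]; ring
          _ ≤ 5152 ^ 5 * H * η ^ 4 * L⁻¹ ^ 4 := by
              gcongr
              · norm_num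
              · norm_num
      obtain ⟨hfin, hcard⟩ := hpen D (hHT.trans hDH) R hR1 hRD (4 * d) (6 * c) (4 * b) a ha0
        b1 b2 b3 b4
      have hsub : {e | ((a, b, c, d), e) ∈ dyU_S H L X ∩ {F | H / η * L ^ 4 < |(F.1.1 : ℝ)|}}
          ⊆ pencilSet (4 * d) (6 * c) (4 * b) a R (Real.exp (D ^ (1 - ε))) := by
        rintro e ⟨⟨lam, h1, h2, hg, hrep⟩, _⟩
        obtain ⟨_, _, _, _, _, _, hr⟩ := dyU_bounds (X := X) hH hL h1 h2 hg
        obtain ⟨P, Q, hQ0, hQ, hP, hf⟩ := hr hrep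
        refine ⟨P, Q, hQ0, hQ.trans hXD, ?_, ?_⟩
        · simp only at hP
          have hapos : 0 < |(a : ℝ)| := lt_of_le_of_lt (by positivity) haR
          have h3 : 5152 * H * L ^ 2 ≤ R * |(a : ℝ)| := by
            calc 5152 * H * L ^ 2 = (5152 * H * L ^ 2) * (L * L⁻¹) ^ 2 := by
                  rw [hLl, one_pow, mul_one]
              _ = R * (H / η * L ^ 4) := by
                  rw [hR]
                  field_simp
              _ ≤ R * |(a : ℝ)| := mul_le_mul_of_nonneg_left haR.le hRpos.le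
          have h4 : |(P : ℝ)| * |(a : ℝ)| ≤ (R * |(Q : ℝ)|) * |(a : ℝ)| := by
            calc |(P : ℝ)| * |(a : ℝ)| ≤ 5152 * H * L ^ 2 * |(Q : ℝ)| := hP
              _ ≤ R * |(a : ℝ)| * |(Q : ℝ)| := mul_le_mul_of_nonneg_right h3 (abs_nonneg _)
              _ = (R * |(Q : ℝ)|) * |(a : ℝ)| := by ring
          exact le_of_mul_le_mul_right h4 hapos
        · simp only at hf
          exact hf
      refine ⟨hfin.subset hsub, ?_⟩
      refine le_trans ?_ hcard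
      exact_mod_cast Set.ncard_le_ncard hsub hfin
    · have hemp : {e | ((a, b, c, d), e) ∈
          dyU_S H L X ∩ {F | H / η * L ^ 4 < |(F.1.1 : ℝ)|}} = ∅ := by
        ext e
        constructor
        · rintro ⟨_, h⟩
          exact haR h
        · intro h
          exact absurd h (Set.notMem_empty _)
      rw [hemp]
      refine ⟨Set.finite_empty, ?_⟩
      rw [Set.ncard_empty]
      push_cast
      positivity

/-- The forms with `lam` in a dyadic interval which is not too small. Here `6 κ ≤ δ`. -/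
theorem dyadic_countR (ε δ T0 κ : ℝ) (hε1 : ε < 1)
    (hpen : ∀ T : ℝ, T0 ≤ T → ∀ R : ℝ, 1 ≤ R → R ≤ T ^ δ → ∀ a1 a2 a3 a4 : ℤ, a4 ≠ 0 →
      |(a1 : ℝ)| * R ≤ T → |(a2 : ℝ)| * R ^ 2 ≤ T → |(a3 : ℝ)| * R ^ 3 ≤ T →
      |(a4 : ℝ)| * R ^ 4 ≤ T →
      (pencilSet a1 a2 a3 a4 R (Real.exp (T ^ (1 - ε)))).Finite ∧
      ((pencilSet a1 a2 a3 a4 R (Real.exp (T ^ (1 - ε)))).ncard : ℝ) ≤ T ^ (1 - δ))
    (hδ1 : δ ≤ 1) (hκ : 0 < κ) (hκδ : 6 * κ ≤ δ) :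
    ∃ H0 K : ℝ, 1 ≤ H0 ∧ 0 ≤ K ∧ ∀ H : ℝ, H0 ≤ H → ∀ L X : ℝ, 0 < L →
    L ≤ 1 → H ^ (-κ) ≤ L → X ≤ Real.exp (H ^ (1 - ε)) →
    (dyU_S H L X).Finite ∧ ((dyU_S H L X).ncard : ℝ) ≤ K * H ^ (5 - κ) := by
  have hδ0 : 0 < δ := by linarith
  have hev : ∀ᶠ H : ℝ in atTop, 5152 ≤ H ^ (3 * κ) :=
    (tendsto_rpow_atTop (by linarith)).eventually_ge_atTop 5152
  obtain ⟨H1, hH1⟩ := eventually_atTop.1 hev
  refine ⟨max (max T0 1) H1,
    81 * 5152 ^ 3 * 33 * 5152 * 2 + 162 * 5152 ^ 4 * 5152 ^ 5,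
    (le_max_right _ _).trans (le_max_left _ _), by positivity, ?_⟩
  intro H hH L X hL hL1 hLlow hX
  have hHT : T0 ≤ H := ((le_max_left _ _).trans (le_max_left _ _)).trans hH
  have hH1' : 1 ≤ H := ((le_max_right _ _).trans (le_max_left _ _)).trans hH
  have hH2 : 5152 ≤ H ^ (3 * κ) := hH1 H ((le_max_right _ _).trans hH)
  have hHpos : 0 < H := by linarith
  have hl : (1 : ℝ) ≤ L⁻¹ := (one_le_inv₀ hL).2 hL1
  have hl4 : (1 : ℝ) ≤ L⁻¹ ^ 4 := one_le_pow₀ hl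
  by_cases hbig : 1 ≤ 5152 * H * L ^ 4
  · set η : ℝ := H ^ κ with hη
    have hη1 : 1 ≤ η := Real.one_le_rpow hH1' hκ.le
    have hηpos : 0 < η := by linarith
    have hLinv : L⁻¹ ≤ η := by
      rw [Real.rpow_neg hHpos.le] at hLlow
      exact inv_le_of_inv_le₀ (by positivity) hLlow
    have hRH : 5152 * η * L⁻¹ ^ 2 ≤ H ^ δ := by
      calc 5152 * η * L⁻¹ ^ 2 ≤ H ^ (3 * κ) * η * η ^ 2 := by gcongr
        _ = H ^ (6 * κ) := by
            rw [hη, ← Real.rpow_natCast, ← Real.rpow_mul hHpos.le, ← Real.rpow_add hHpos,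
              ← Real.rpow_add hHpos]
            congr 1
            push_cast
            ring
        _ ≤ H ^ δ := Real.rpow_le_rpow_of_exponent_le hH1' hκδ
    -- small leading coefficient
    obtain ⟨f1, c1⟩ := dyU_triv ((ball (H / η * L ^ 4)).erase 0) (2 * (H / η * L ^ 4)) H L X
      (card_ball_erase _ (by positivity)) hH1' hL hL1 hbig
    obtain ⟨f2, c2⟩ := dyR_case2 ε δ T0 hε1 hpen hδ0.le H L X η hH1' hHT hL hL1 hX hη1 hbig hRH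
    have hsub : dyU_S H L X ⊆
        (dyU_S H L X ∩ {F | F.1.1 ∈ (ball (H / η * L ^ 4)).erase 0}) ∪
        (dyU_S H L X ∩ {F | H / η * L ^ 4 < |(F.1.1 : ℝ)|}) := by
      intro F hF
      obtain ⟨lam, h1, h2, hg, hr⟩ := hF
      obtain ⟨ha0, ha, _⟩ := dyU_bounds (X := X) hH1' hL h1 h2 hg
      have hF' : F ∈ dyU_S H L X := ⟨lam, h1, h2, hg, hr⟩
      by_cases hsm : |(F.1.1 : ℝ)| ≤ H / η * L ^ 4
      · left
        exact ⟨hF', Finset.mem_erase.2 ⟨ha0, (mem_ball _ _).2 hsm⟩⟩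
      · right
        exact ⟨hF', not_le.1 hsm⟩
    have hfin := (f1.union f2).subset hsub
    refine ⟨hfin, ?_⟩
    have hle : ((dyU_S H L X).ncard : ℝ) ≤
        ((dyU_S H L X ∩ {F | F.1.1 ∈ (ball (H / η * L ^ 4)).erase 0}).ncard : ℝ) +
        ((dyU_S H L X ∩ {F | H / η * L ^ 4 < |(F.1.1 : ℝ)|}).ncard : ℝ) := by
      have h1 := Set.ncard_le_ncard hsub (f1.union f2)
      have h3 := Set.ncard_union_le
        (dyU_S H L X ∩ {F | F.1.1 ∈ (ball (H / η * L ^ 4)).erase 0})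
        (dyU_S H L X ∩ {F | H / η * L ^ 4 < |(F.1.1 : ℝ)|})
      exact_mod_cast h1.trans h3
    -- exponents
    have e1 : H ^ 5 / η = H ^ (5 - κ) := by
      rw [hη, Real.rpow_sub hHpos]
      norm_num
    have b1 : 81 * 5152 ^ 3 * (2 * (H / η * L ^ 4) * H ^ 3) * (33 * 5152 * H * L⁻¹ ^ 4)
        = 81 * 5152 ^ 3 * 33 * 5152 * 2 * H ^ (5 - κ) := by
      rw [← e1]
      field_simp
    have e2 : H ^ 4 * L ^ 4 * (5152 ^ 5 * H * η ^ 4 * L⁻¹ ^ 4) ^ (1 - δ)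
        ≤ 5152 ^ 5 * H ^ (5 - κ) := by
      rw [Real.mul_rpow (by positivity) (by positivity), Real.mul_rpow (by positivity)
        (by positivity), Real.mul_rpow (by positivity) (by positivity)]
      have g1 : ((5152 : ℝ) ^ 5) ^ (1 - δ) ≤ 5152 ^ 5 := by
        calc ((5152 : ℝ) ^ 5) ^ (1 - δ) ≤ ((5152 : ℝ) ^ 5) ^ (1 : ℝ) :=
              Real.rpow_le_rpow_of_exponent_le (by norm_num) (by linarith)
          _ = 5152 ^ 5 := Real.rpow_one _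
      have g2 : L ^ 4 * (L⁻¹ ^ 4) ^ (1 - δ) ≤ 1 := by
        calc L ^ 4 * (L⁻¹ ^ 4) ^ (1 - δ) ≤ L ^ 4 * (L⁻¹ ^ 4) ^ (1 : ℝ) := by
              refine mul_le_mul_of_nonneg_left ?_ (by positivity)
              exact Real.rpow_le_rpow_of_exponent_le hl4 (by linarith)
          _ = 1 := by
              rw [Real.rpow_one, ← mul_pow, mul_inv_cancel₀ hL.ne', one_pow]
      have g3 : H ^ 4 * (H ^ (1 - δ) * (η ^ 4) ^ (1 - δ)) ≤ H ^ (5 - κ) := by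
        have h1 : (η ^ 4) ^ (1 - δ) ≤ H ^ (4 * κ) := by
          calc (η ^ 4) ^ (1 - δ) ≤ (η ^ 4) ^ (1 : ℝ) :=
                Real.rpow_le_rpow_of_exponent_le (one_le_pow₀ hη1) (by linarith)
            _ = H ^ (4 * κ) := by
                rw [Real.rpow_one, hη, ← Real.rpow_natCast, ← Real.rpow_mul hHpos.le]
                congr 1
                push_cast
                ring
        calc H ^ 4 * (H ^ (1 - δ) * (η ^ 4) ^ (1 - δ))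
            ≤ H ^ 4 * (H ^ (1 - δ) * H ^ (4 * κ)) := by gcongr
          _ = H ^ (((4 : ℕ) : ℝ) + (1 - δ + 4 * κ)) := by
              rw [← Real.rpow_natCast, ← Real.rpow_add hHpos, ← Real.rpow_add hHpos]
          _ ≤ H ^ (5 - κ) := by
              apply Real.rpow_le_rpow_of_exponent_le hH1'
              push_cast
              linarith
      calc H ^ 4 * L ^ 4 * (((5152 : ℝ) ^ 5) ^ (1 - δ) * H ^ (1 - δ)
            * (η ^ 4) ^ (1 - δ) * (L⁻¹ ^ 4) ^ (1 - δ))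
          = ((5152 : ℝ) ^ 5) ^ (1 - δ) * (L ^ 4 * (L⁻¹ ^ 4) ^ (1 - δ))
            * (H ^ 4 * (H ^ (1 - δ) * (η ^ 4) ^ (1 - δ))) := by ring
        _ ≤ 5152 ^ 5 * 1 * H ^ (5 - κ) := by gcongr
        _ = 5152 ^ 5 * H ^ (5 - κ) := by ring
    have b2 : 162 * 5152 ^ 4 * (H ^ 4 * L ^ 4) *
        (5152 ^ 5 * H * η ^ 4 * L⁻¹ ^ 4) ^ (1 - δ) ≤
        162 * 5152 ^ 4 * 5152 ^ 5 * H ^ (5 - κ) := by
      calc 162 * 5152 ^ 4 * (H ^ 4 * L ^ 4) *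
          (5152 ^ 5 * H * η ^ 4 * L⁻¹ ^ 4) ^ (1 - δ)
          = 162 * 5152 ^ 4 * (H ^ 4 * L ^ 4 *
            (5152 ^ 5 * H * η ^ 4 * L⁻¹ ^ 4) ^ (1 - δ)) := by ring
        _ ≤ 162 * 5152 ^ 4 * (5152 ^ 5 * H ^ (5 - κ)) := by gcongr
        _ = _ := by ring
    rw [b1] at c1
    calc ((dyU_S H L X).ncard : ℝ) ≤ _ := hle
      _ ≤ 81 * 5152 ^ 3 * 33 * 5152 * 2 * H ^ (5 - κ) +
          162 * 5152 ^ 4 * 5152 ^ 5 * H ^ (5 - κ) := add_le_add c1 (c2.trans b2)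
      _ = _ := by ring
  · have hemp : dyU_S H L X = ∅ := by
      ext F
      constructor
      · rintro ⟨lam, h1, h2, hg, _⟩
        exfalso
        obtain ⟨ha0, ha, _⟩ := dyU_bounds (X := X) hH1' hL h1 h2 hg
        have h3 : (1 : ℝ) ≤ |(F.1.1 : ℝ)| := by
          have := Int.one_le_abs ha0
          exact_mod_cast this
        exact hbig (h3.trans ha)
      · intro h
        exact absurd h (Set.notMem_empty _)
    rw [hemp]
    refine ⟨Set.finite_empty, ?_⟩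
    rw [Set.ncard_empty]
    push_cast
    positivity

end Pool.Agent.LibER91
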