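import Pool.Agent.LibER91.Params

/-!
Row U1 (MEDIUM, only Mathlib): the basic sizes of the parameters.

Plan. `c = ε / 10^5`, `rhoP = L T^c / T`, `betaP = log T - log L - c log T`. `log L ≤ (1-ε) log T` gives `betaP ≥ (ε - c) log T ≥
(ε/2) log T`; `L T^c ≥ 1` (`L ≥ (4/9) log T ≥ 1`) gives `betaP ≤ log T`; `rhoP ≤ T^(-ε+c) < 1`.
`mP ≤ 13 L/betaP + 13` (`Nat.ceil_lt_add_one`), `13 L / betaP ≤ 26 L/(ε log T)`, `13 ≤ 13 (9/4) L / log T ≤ 30 L/log T`.
`hr : T ^ c ≥ log T ^ 10` etc.: growth of powers against logarithms (`isLittleO_log_rpow_atTop`, or `Real.log_le_rpow_div`).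
Use `Filter.eventually_atTop` to collect the finitely many conditions on `T`.
-/

set_option autoImplicit false

namespace Pool.Agent.LibER91

private theorem U1_pow (K s : ℝ) (hs : 0 < s) :
    ∀ᶠ T : ℝ in Filter.atTop, K * Real.log T ^ 4 ≤ T ^ s := by
  have h := isLittleO_log_rpow_rpow_atTop (4 : ℝ) hs
  have h1 := h.bound (show (0 : ℝ) < 1 / (|K| + 1) by positivity)
  filter_upwards [h1, Filter.eventually_ge_atTop (1 : ℝ)] with T hT hT1
  have hl : 0 ≤ Real.log T := Real.log_nonneg hT1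
  have hT0 : (0 : ℝ) < T := by linarith
  have e1 : Real.log T ^ (4 : ℝ) = Real.log T ^ 4 := by
    rw [← Real.rpow_natCast]
    norm_num
  rw [Real.norm_of_nonneg (by positivity), Real.norm_of_nonneg (by positivity), e1] at hT
  have hK : 0 < |K| + 1 := by positivity
  have h2 : (|K| + 1) * Real.log T ^ 4 ≤ T ^ s := by
    rw [one_div, inv_mul_eq_div, le_div_iff₀ hK] at hT
    linarith
  have h3 : K * Real.log T ^ 4 ≤ (|K| + 1) * Real.log T ^ 4 := by
    apply mul_le_mul_of_nonneg_right _ (by positivity)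
    have := le_abs_self K
    linarith
  linarith

private theorem U1_log (K : ℝ) : ∀ᶠ x : ℝ in Filter.atTop, K * Real.log x ≤ x := by
  have h1 := Real.isLittleO_log_id_atTop.bound (show (0 : ℝ) < 1 / (|K| + 1) by positivity)
  filter_upwards [h1, Filter.eventually_ge_atTop (1 : ℝ)] with T hT hT1
  have hl : 0 ≤ Real.log T := Real.log_nonneg hT1
  rw [id, Real.norm_of_nonneg hl, Real.norm_of_nonneg (by linarith : (0 : ℝ) ≤ T)] at hT
  have hK : 0 < |K| + 1 := by positivity
  have h2 : (|K| + 1) * Real.log T ≤ T := by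
    rw [one_div, inv_mul_eq_div, le_div_iff₀ hK] at hT
    linarith
  have h3 : K * Real.log T ≤ (|K| + 1) * Real.log T := by
    apply mul_le_mul_of_nonneg_right _ hl
    have := le_abs_self K
    linarith
  linarith

theorem u_basic (ε : ℝ) (h0 : 0 < ε) (h1 : ε < 1) (K : ℝ) : ∃ T0 : ℝ, 1 < T0 ∧ ∀ T : ℝ, T0 ≤ T →
    ∀ L : ℝ, 4 / 9 * Real.log T ≤ L → L ≤ T ^ (1 - ε) →
    K ≤ Real.log T ∧ K ≤ L ∧ 1 ≤ Real.log T ∧ 1 ≤ L ∧ 0 < rhoP ε T L ∧ rhoP ε T L < 1 ∧
    1 / T ≤ rhoP ε T L ∧ rhoP ε T L ≤ T ^ (-(ε / 2)) ∧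
    ε / 2 * Real.log T ≤ betaP ε T L ∧ betaP ε T L ≤ Real.log T ∧
    13 * L / betaP ε T L + 12 ≤ mP ε T L ∧ (mP ε T L : ℝ) ≤ 13 * L / betaP ε T L + 13 ∧
    (mP ε T L : ℝ) * Real.log T ≤ (26 / ε + 30) * L ∧
    K * Real.log T ^ 4 ≤ T ^ (cP ε / 8) ∧ K * Real.log L ≤ L := by
  have hc : 0 < cP ε := by
    unfold cP
    positivity
  have hcε : cP ε ≤ ε / 2 := by
    unfold cP
    linarith
  obtain ⟨X0, hX0⟩ := Filter.eventually_atTop.1 (U1_log K)
  obtain ⟨T1, hT1⟩ := Filter.eventually_atTop.1 (U1_pow K (cP ε / 8) (by positivity))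
  obtain ⟨T2, hT2⟩ := Filter.eventually_atTop.1
    (Real.tendsto_log_atTop.eventually_ge_atTop (max (9 / 4) (max (9 / 4 * |K|) (9 / 4 * |X0|))))
  refine ⟨max 2 (max T1 T2), lt_of_lt_of_le (by norm_num) (le_max_left _ _), ?_⟩
  intro T hT L hL1 hL2
  have hT2' : 2 ≤ T := (le_max_left _ _).trans hT
  have hlog := hT2 T (((le_max_right _ _).trans (le_max_right _ _)).trans hT)
  have hpw := hT1 T (((le_max_left _ _).trans (le_max_right _ _)).trans hT)
  have l1 : 9 / 4 ≤ Real.log T := (le_max_left _ _).trans hlog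
  have l2 : 9 / 4 * |K| ≤ Real.log T :=
    ((le_max_left _ _).trans (le_max_right _ _)).trans hlog
  have l3 : 9 / 4 * |X0| ≤ Real.log T :=
    ((le_max_right _ _).trans (le_max_right _ _)).trans hlog
  have hK := le_abs_self K
  have hK0 := abs_nonneg K
  have hX := le_abs_self X0
  have hT0 : 0 < T := by linarith
  have hL : 1 ≤ L := by linarith
  have hL0 : 0 < L := by linarith
  have hTc0 : 0 < T ^ cP ε := Real.rpow_pos_of_pos hT0 _
  have hTc : 1 ≤ T ^ cP ε := Real.one_le_rpow (by linarith) hc.le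
  have hρ0 : 0 < rhoP ε T L := by
    unfold rhoP
    positivity
  have hρ1 : 1 / T ≤ rhoP ε T L := by
    unfold rhoP
    apply div_le_div_of_nonneg_right _ hT0.le
    nlinarith
  have hρ2 : rhoP ε T L ≤ T ^ (-(ε / 2)) := by
    unfold rhoP
    rw [div_le_iff₀ hT0]
    have e1 : T ^ (-(ε / 2)) * T = T ^ (-(ε / 2) + 1) := by
      rw [Real.rpow_add hT0, Real.rpow_one]
    have e2 : L * T ^ cP ε ≤ T ^ (1 - ε) * T ^ cP ε := mul_le_mul_of_nonneg_right hL2 hTc0.le
    rw [e1]
    refine e2.trans ?_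
    rw [← Real.rpow_add hT0]
    exact Real.rpow_le_rpow_of_exponent_le (by linarith) (by linarith)
  have hβ1 : ε / 2 * Real.log T ≤ betaP ε T L := by
    unfold betaP
    have e1 := Real.log_le_log hρ0 hρ2
    rw [Real.log_rpow hT0] at e1
    linarith
  have hβ2 : betaP ε T L ≤ Real.log T := by
    unfold betaP
    have e1 := Real.log_le_log (by positivity) hρ1
    rw [one_div, Real.log_inv] at e1
    linarith
  have hβ0 : 0 < betaP ε T L := by
    have : 0 < ε / 2 * Real.log T := by positivity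
    linarith
  have hρ3 : rhoP ε T L < 1 := by
    unfold betaP at hβ0
    exact (Real.log_neg_iff hρ0).1 (by linarith)
  have hm1 : 13 * L / betaP ε T L + 12 ≤ mP ε T L := by
    unfold mP
    push_cast
    have := Nat.le_ceil (13 * L / betaP ε T L)
    linarith
  have hm2 : (mP ε T L : ℝ) ≤ 13 * L / betaP ε T L + 13 := by
    unfold mP
    push_cast
    have := Nat.ceil_lt_add_one (show 0 ≤ 13 * L / betaP ε T L by positivity)
    linarith
  have hm3 : (mP ε T L : ℝ) * Real.log T ≤ (26 / ε + 30) * L := by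
    have hlT : 0 < Real.log T := by linarith
    have e1 : 13 * L / betaP ε T L * Real.log T ≤ 26 / ε * L := by
      rw [div_mul_eq_mul_div, div_le_iff₀ hβ0]
      have e2 : 26 / ε * L * (ε / 2 * Real.log T) ≤ 26 / ε * L * betaP ε T L :=
        mul_le_mul_of_nonneg_left hβ1 (by positivity)
      have e3 : 26 / ε * L * (ε / 2 * Real.log T) = 13 * L * Real.log T := by
        field_simp
        ring
      linarith
    calc (mP ε T L : ℝ) * Real.log T ≤ (13 * L / betaP ε T L + 13) * Real.log T :=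
          mul_le_mul_of_nonneg_right hm2 hlT.le
      _ = 13 * L / betaP ε T L * Real.log T + 13 * Real.log T := by ring
      _ ≤ 26 / ε * L + 30 * L := by linarith
      _ = (26 / ε + 30) * L := by ring
  exact ⟨by linarith, by linarith, by linarith, hL, hρ0, hρ3, hρ1, hρ2, hβ1, hβ2, hm1, hm2, hm3,
    hpw, hX0 L (by linarith)⟩

end Pool.Agent.LibER91
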