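import Pool.Agent.LibER91.U1

/-!
Row U2 (MEDIUM): the sizes of the two norms, in logarithms.

Plan. Write `m = mP`, `c = cP ε`. From U1: `m ≥ 13 L / betaP ≥ 13 L / log T`, so `L / m ≤ log T / 13`, `m ≥ 12`.
`T * rhoP = L T^c`. First: `(2^r L T^c + 2)/m + 1 ≤ 2^r T^c log T` for large `T`, so `1 + log(...) ≤ 1 + r log 2 + c log T +
log log T ≤ (2c + tiny) log T`; `m log T ≤ (26/ε + 30) L` and `2c (26/ε + 30) = (52 + 60 ε)/10^5 ≤ 112/10^5 < 1/800`.
Second: `-betaP = log rhoP`, so the left side is `m (1 + log (((2^r T + 2)/m + 1) rhoP))` and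
`((2^r T + 2)/m + 1) L T^c / T ≤ (2^r + 2) L T^c / m + L T^c / T ≤ 2^r T^c log T` again.
-/

set_option autoImplicit false

namespace Pool.Agent.LibER91

theorem u_norms (r : ℕ) (ε : ℝ) (h0 : 0 < ε) (h1 : ε < 1) : ∃ T0 : ℝ, 1 < T0 ∧ ∀ T : ℝ, T0 ≤ T →
    ∀ L : ℝ, 4 / 9 * Real.log T ≤ L → L ≤ T ^ (1 - ε) →
    (mP ε T L : ℝ) * (1 + Real.log ((2 ^ r * T * rhoP ε T L + 2) / mP ε T L + 1)) ≤ L / 800 ∧
    (mP ε T L : ℝ) * (1 + Real.log ((2 ^ r * T + 2) / mP ε T L + 1)) -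
      mP ε T L * betaP ε T L ≤ L / 800 := by
  obtain ⟨T0, hT0, H⟩ := u_basic ε h0 h1 (4 * 2 ^ r)
  refine ⟨T0, hT0, fun T hT L hL1 hL2 => ?_⟩
  obtain ⟨a1, -, a3, a4, a5, a6, -, -, a9, a10, a11, -, a13, a14, -⟩ := H T hT L hL1 hL2
  have hTp : 0 < T := by linarith
  have hc : 0 < cP ε := by
    unfold cP
    positivity
  have h2r : (1 : ℝ) ≤ 2 ^ r := one_le_pow₀ (by norm_num)
  have hTc0 : 0 < T ^ cP ε := Real.rpow_pos_of_pos hTp _
  have hTc : 1 ≤ T ^ cP ε := Real.one_le_rpow (by linarith) hc.le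
  have hlT : 0 < Real.log T := by linarith
  have hβ : 0 < betaP ε T L := by
    have : 0 < ε / 2 * Real.log T := by positivity
    linarith
  have hm12 : (12 : ℝ) ≤ mP ε T L := by
    have : 0 ≤ 13 * L / betaP ε T L := by positivity
    linarith
  have hm0 : (0 : ℝ) < mP ε T L := by linarith
  have hTρ : T * rhoP ε T L = L * T ^ cP ε := by
    unfold rhoP
    field_simp
  -- `L / m ≤ log T / 13`
  have hLm : L / mP ε T L ≤ Real.log T / 13 := by
    rw [div_le_div_iff₀ hm0 (by norm_num)]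
    have e1 : 13 * L / betaP ε T L ≤ mP ε T L := by linarith
    rw [div_le_iff₀ hβ] at e1
    have e2 : (mP ε T L : ℝ) * betaP ε T L ≤ mP ε T L * Real.log T :=
      mul_le_mul_of_nonneg_left a10 hm0.le
    linarith
  -- the first argument
  obtain ⟨X, hX⟩ : ∃ X : ℝ, X = (2 ^ r * T * rhoP ε T L + 2) / mP ε T L + 1 := ⟨_, rfl⟩
  have hXp : 1 ≤ X := by
    rw [hX]
    have : 0 ≤ (2 ^ r * T * rhoP ε T L + 2) / mP ε T L := by positivity
    linarith
  have hX1 : X ≤ 2 ^ r * T ^ cP ε * Real.log T := by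
    have e1 : X = 2 ^ r * T ^ cP ε * (L / mP ε T L) + 2 / mP ε T L + 1 := by
      rw [hX, mul_assoc, hTρ]
      ring
    have e2 : 2 / (mP ε T L : ℝ) ≤ 1 := by
      rw [div_le_one hm0]
      linarith
    have e3 : 2 ^ r * T ^ cP ε * (L / mP ε T L) ≤ 2 ^ r * T ^ cP ε * (Real.log T / 13) :=
      mul_le_mul_of_nonneg_left hLm (by positivity)
    have e4 : 4 ≤ Real.log T := by linarith
    have e5 : Real.log T ≤ 2 ^ r * T ^ cP ε * Real.log T := by
      have : 1 ≤ 2 ^ r * T ^ cP ε := by nlinarith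
      nlinarith
    linarith
  have hX2 : Real.exp 1 * X ≤ T ^ (2 * cP ε) := by
    have e1 : Real.exp 1 ≤ 4 := by
      have := Real.exp_one_lt_d9
      linarith
    have e2 : 4 * 2 ^ r * Real.log T ≤ T ^ cP ε := by
      have e3 : Real.log T ≤ Real.log T ^ 4 := by
        have := pow_le_pow_right₀ a3 (show 1 ≤ 4 by norm_num)
        rwa [pow_one] at this
      have e4 : 4 * 2 ^ r * Real.log T ≤ 4 * 2 ^ r * Real.log T ^ 4 :=
        mul_le_mul_of_nonneg_left e3 (by positivity)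
      have e5 : T ^ (cP ε / 8) ≤ T ^ cP ε :=
        Real.rpow_le_rpow_of_exponent_le (by linarith) (by linarith)
      linarith
    have e6 : T ^ (2 * cP ε) = T ^ cP ε * T ^ cP ε := by
      rw [← Real.rpow_add hTp]
      congr 1
      ring
    rw [e6]
    calc Real.exp 1 * X ≤ 4 * (2 ^ r * T ^ cP ε * Real.log T) :=
          mul_le_mul e1 hX1 (by linarith) (by norm_num)
      _ = T ^ cP ε * (4 * 2 ^ r * Real.log T) := by ring
      _ ≤ T ^ cP ε * T ^ cP ε := mul_le_mul_of_nonneg_left e2 hTc0.le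
  have hX3 : 1 + Real.log X ≤ 2 * cP ε * Real.log T := by
    have e1 := Real.log_le_log (by positivity) hX2
    rw [Real.log_mul (Real.exp_pos 1).ne' (by linarith), Real.log_exp, Real.log_rpow hTp] at e1
    exact e1
  have key : (mP ε T L : ℝ) * (1 + Real.log X) ≤ L / 800 := by
    calc (mP ε T L : ℝ) * (1 + Real.log X) ≤ mP ε T L * (2 * cP ε * Real.log T) :=
          mul_le_mul_of_nonneg_left hX3 hm0.le
      _ = 2 * cP ε * (mP ε T L * Real.log T) := by ring
      _ ≤ 2 * cP ε * ((26 / ε + 30) * L) := mul_le_mul_of_nonneg_left a13 (by positivity)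
      _ = (52 + 60 * ε) / 10 ^ 5 * L := by
          unfold cP
          field_simp
          ring
      _ ≤ L / 800 := by
          have : (52 + 60 * ε) / 10 ^ 5 ≤ 1 / 800 := by
            rw [div_le_div_iff₀ (by norm_num) (by norm_num)]
            linarith
          nlinarith
  refine ⟨by rw [← hX]; exact key, ?_⟩
  obtain ⟨Z, hZ⟩ : ∃ Z : ℝ, Z = (2 ^ r * T + 2) / mP ε T L + 1 := ⟨_, rfl⟩
  have hZ0 : 0 < Z := by
    rw [hZ]
    positivity
  have hZX : Z * rhoP ε T L ≤ X := by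
    rw [hZ, hX]
    have e1 : ((2 ^ r * T + 2) / mP ε T L + 1) * rhoP ε T L =
        (2 ^ r * T * rhoP ε T L + 2 * rhoP ε T L) / mP ε T L + rhoP ε T L := by ring
    rw [e1]
    apply add_le_add _ a6.le
    apply div_le_div_of_nonneg_right _ hm0.le
    linarith
  have hlog : Real.log Z - betaP ε T L ≤ Real.log X := by
    have e1 := Real.log_le_log (mul_pos hZ0 a5) hZX
    rw [Real.log_mul hZ0.ne' a5.ne'] at e1
    unfold betaP
    linarith
  rw [← hZ]
  calc (mP ε T L : ℝ) * (1 + Real.log Z) - mP ε T L * betaP ε T L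
      = mP ε T L * (1 + (Real.log Z - betaP ε T L)) := by ring
    _ ≤ mP ε T L * (1 + Real.log X) := mul_le_mul_of_nonneg_left (by linarith) hm0.le
    _ ≤ L / 800 := key

end Pool.Agent.LibER91
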